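import Mathlib

/-!
Pairs of polynomials with rational coefficients: local conditions at a prime.
-/

namespace Pool.Agent.ZPOrd

/-- the value at `z` of the polynomial with coefficients `a` -/
def fv {R : Type*} [CommRing R] {m : ℕ} (a : Fin (m + 1) → R) (z : R) : R := ∑ k, a k * z ^ (k : ℕ)

/-- the reduction of a rational number -/
def redQ (p : ℕ) [Fact p.Prime] (r : ℚ) : ZMod p := (r.num : ZMod p) / (r.den : ZMod p)

/-- local conditions at a prime `p` which is private for the coordinate `i`; `c i k` is the pair of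
the coefficients at `t ^ k` of the numerator `A i` and the denominator `B i` -/
structure LocR {n : ℕ} (d : Fin n → ℕ) (p : ℕ) [Fact p.Prime] (dd : ZMod p → ℤ)
    (c : (i : Fin n) → Fin (d i + 1) → ℚ × ℚ) (i : Fin n) : Prop where
  two : p ≠ 2
  large : p ∣ (c i 0).1.den
  denA : ∀ j k, (⟨j, k⟩ : (j : Fin n) × Fin (d j + 1)) ≠ ⟨i, 0⟩ → ¬ p ∣ (c j k).1.den
  denB : ∀ j k, ¬ p ∣ (c j k).2.den
  lead : ∀ j, redQ p (c j (Fin.last _)).2 ≠ 0
  split : ∀ j, j ≠ i → ∃ s : Multiset (ZMod p), ∑ k : Fin (d j + 1), Polynomial.C (redQ p (c j k).2) * Polynomial.X ^ (k : ℕ) =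
    Polynomial.C (redQ p (c j (Fin.last _)).2) * (s.map fun z => Polynomial.X - Polynomial.C z).prod
  nocommon : ∀ j k, j ≠ i → k ≠ i → j ≠ k → ∀ z, fv (fun l => redQ p (c j l).2) z = 0 →
    fv (fun l => redQ p (c k l).2) z ≠ 0
  ordInf : ∀ j, j ≠ i → dd (redQ p (c j (Fin.last _)).1 / redQ p (c j (Fin.last _)).2) ≠ 0
  crossInf : ∀ j k, j ≠ i → k ≠ i → j ≠ k →
    ¬ IsSquare (dd (redQ p (c j (Fin.last _)).1 / redQ p (c j (Fin.last _)).2) *
      dd (redQ p (c k (Fin.last _)).1 / redQ p (c k (Fin.last _)).2))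
  ordZ : ∀ j k, j ≠ i → k ≠ i → j ≠ k → ∀ z, fv (fun l => redQ p (c j l).2) z = 0 →
    dd (fv (fun l => redQ p (c k l).1) z / fv (fun l => redQ p (c k l).2) z) ≠ 0
  crossZ : ∀ j k m, j ≠ i → k ≠ i → m ≠ i → j ≠ k → j ≠ m → k ≠ m → ∀ z, fv (fun l => redQ p (c j l).2) z = 0 →
    ¬ IsSquare (dd (fv (fun l => redQ p (c k l).1) z / fv (fun l => redQ p (c k l).2) z) *
      dd (fv (fun l => redQ p (c m l).1) z / fv (fun l => redQ p (c m l).2) z))

/-- the rational coefficient vectors of height at most `H` -/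
def boxR {n : ℕ} (d : Fin n → ℕ) (H : ℕ) : Set ((i : Fin n) → Fin (d i + 1) → ℚ × ℚ) :=
  {c | ∀ i k, |(c i k).1.num| ≤ H ∧ (c i k).1.den ≤ H ∧ |(c i k).2.num| ≤ H ∧ (c i k).2.den ≤ H}

end Pool.Agent.ZPOrd
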