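import Mathlib
import Pool.Agent.ZP46.Sieve

/-!
Almost all vectors of rational numbers satisfy a property which is implied by conditions modulo two
different primes of a large set of primes, the condition modulo the second prime depending on the
residue modulo the first one.
-/

open Filter Topology

namespace Pool.Agent.ZPOrd

open Pool.Agent.ZP46 Finset

lemma exists_primes_of (PP : Set Nat.Primes)
    (hPP : ¬ Summable fun p : PP => (1 : ℝ) / (((p : Nat.Primes) : ℕ) : ℝ)) {C : ℕ} (hC : 0 < C) (y : ℕ)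
    {ε : ℝ} (hε : 0 < ε) :
    ∃ S : Finset Nat.Primes, (∀ p ∈ S, p ∈ PP ∧ y < (p : ℕ)) ∧ ∏ p ∈ S, (1 - 1 / ((C : ℝ) * (p : ℝ))) ≤ ε := by
  classical
  have hC0 : (0 : ℝ) < C := by exact_mod_cast hC
  have hC1 : (1 : ℝ) ≤ C := by exact_mod_cast hC
  obtain ⟨u, hu⟩ : ∃ u : Finset PP, (y + 1 : ℕ) + C * Real.log (1 / ε) <
      ∑ p ∈ u, 1 / (((p : Nat.Primes) : ℕ) : ℝ) := by
    by_contra hcon
    push Not at hcon
    exact hPP (summable_of_sum_le (fun p => by positivity) hcon)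
  have hsmall : ∑ p ∈ u.filter (fun p : PP => ¬ y < ((p : Nat.Primes) : ℕ)), 1 / (((p : Nat.Primes) : ℕ) : ℝ) ≤
      (y + 1 : ℕ) := by
    have h1 : ∀ p ∈ u.filter (fun p : PP => ¬ y < ((p : Nat.Primes) : ℕ)), 1 / (((p : Nat.Primes) : ℕ) : ℝ) ≤ 1 := by
      intro p _
      rw [div_le_one (by exact_mod_cast p.1.2.pos)]
      exact_mod_cast p.1.2.one_lt.le
    refine (sum_le_card_nsmul _ _ _ h1).trans ?_
    rw [nsmul_eq_mul, mul_one]
    have h2 : (u.filter (fun p : PP => ¬ y < ((p : Nat.Primes) : ℕ))).card ≤ (range (y + 1)).card := by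
      refine card_le_card_of_injOn (fun p : PP => ((p : Nat.Primes) : ℕ)) ?_ ?_
      · intro p hp
        simp only [coe_filter, Set.mem_ofPred_eq, coe_range, Set.mem_Iio] at hp ⊢
        omega
      · intro p _ q _ h
        exact Subtype.ext (Subtype.ext h)
    rw [card_range] at h2
    exact_mod_cast h2
  have hsum : C * Real.log (1 / ε) ≤ ∑ p ∈ u.filter (fun p : PP => y < ((p : Nat.Primes) : ℕ)),
      1 / (((p : Nat.Primes) : ℕ) : ℝ) := by
    have := sum_filter_add_sum_filter_not u (fun p : PP => y < ((p : Nat.Primes) : ℕ))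
      fun p => 1 / (((p : Nat.Primes) : ℕ) : ℝ)
    linarith
  refine ⟨(u.filter fun p : PP => y < ((p : Nat.Primes) : ℕ)).map (Function.Embedding.subtype _), ?_, ?_⟩
  · intro p hp
    rw [Finset.mem_map] at hp
    obtain ⟨q, hq, rfl⟩ := hp
    exact ⟨q.2, (mem_filter.mp hq).2⟩
  rw [prod_map]
  calc ∏ p ∈ u.filter (fun p : PP => y < ((p : Nat.Primes) : ℕ)),
        (1 - 1 / ((C : ℝ) * (((Function.Embedding.subtype _ p : Nat.Primes) : ℕ) : ℝ)))
      ≤ ∏ p ∈ u.filter (fun p : PP => y < ((p : Nat.Primes) : ℕ)),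
        Real.exp (- (1 / ((C : ℝ) * (((p : Nat.Primes) : ℕ) : ℝ)))) := by
        refine prod_le_prod ?_ ?_
        · intro p _
          have h1 : (1 : ℝ) ≤ (((p : Nat.Primes) : ℕ) : ℝ) := by exact_mod_cast p.1.2.one_lt.le
          have : 1 / ((C : ℝ) * (((p : Nat.Primes) : ℕ) : ℝ)) ≤ 1 := by
            rw [div_le_one (by positivity)]
            nlinarith
          simp only [Function.Embedding.subtype_apply]
          linarith
        · intro p _
          have := Real.add_one_le_exp (- (1 / ((C : ℝ) * (((p : Nat.Primes) : ℕ) : ℝ))))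
          simp only [Function.Embedding.subtype_apply]
          linarith
    _ = Real.exp (- ((1 / C) * ∑ p ∈ u.filter (fun p : PP => y < ((p : Nat.Primes) : ℕ)),
        1 / (((p : Nat.Primes) : ℕ) : ℝ))) := by
        rw [← Real.exp_sum, sum_neg_distrib, mul_sum]
        congr 2
        refine sum_congr rfl fun p _ => ?_
        rw [one_div_mul_one_div]
    _ ≤ Real.exp (-Real.log (1 / ε)) := by
        refine Real.exp_le_exp.mpr ?_
        rw [neg_le_neg_iff, one_div_mul_eq_div, le_div_iff₀ hC0, mul_comm]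
        exact hsum
    _ = ε := by
        rw [Real.log_div one_ne_zero hε.ne', Real.log_one, zero_sub, neg_neg, Real.exp_log hε]

section sieve

variable {κ : Type*} [Fintype κ] [DecidableEq κ]

open Classical in
lemma sieve_weight (S : Finset Nat.Primes) (Ω : ∀ p : Nat.Primes, Finset (κ → ZMod p)) (H : ℕ)
    (hH : ∏ p ∈ S, (p : ℕ) ≤ H) (w : Nat.Primes → ℝ)
    (hw : ∀ p ∈ S, ((p : ℝ)) ^ Fintype.card κ - ((Ω p).card : ℝ) ≤ (p : ℝ) ^ Fintype.card κ * w p) :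
    (((intBox κ H).filter fun x => ∀ p ∈ S, (fun k => (x k : ZMod (p : ℕ))) ∉ Ω p).card : ℝ) ≤
      (4 * (H : ℝ)) ^ Fintype.card κ * ∏ p ∈ S, w p := by
  set N := Fintype.card κ with hN
  set Q := ∏ p ∈ S, (p : ℕ) with hQ
  have hQ0 : 0 < Q := prod_pos fun p _ => p.2.pos
  have h1 := sieve S Ω H hH
  rw [← hQ, ← hN] at h1
  have h2 : (((intBox κ H).filter fun x => ∀ p ∈ S, (fun k => (x k : ZMod (p : ℕ))) ∉ Ω p).card : ℝ) * (Q : ℝ) ^ N ≤
      (4 * (H : ℝ)) ^ N * ∏ p ∈ S, (((p : ℕ) ^ N - (Ω p).card : ℕ) : ℝ) := by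
    exact_mod_cast h1
  have h3 : ∏ p ∈ S, (((p : ℕ) ^ N - (Ω p).card : ℕ) : ℝ) ≤ ∏ p ∈ S, ((p : ℝ) ^ N * w p) := by
    refine prod_le_prod (fun p _ => Nat.cast_nonneg _) fun p hp => ?_
    have h4 : (Ω p).card ≤ (p : ℕ) ^ N := by
      have := card_le_univ (Ω p)
      rwa [Fintype.card_fun, ZMod.card] at this
    rw [Nat.cast_sub h4]
    push_cast
    exact hw p hp
  rw [prod_mul_distrib, prod_pow] at h3
  have h4 : (∏ p ∈ S, (p : ℝ)) = (Q : ℝ) := by rw [hQ]; push_cast; rfl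
  rw [h4] at h3
  have hQN : (0 : ℝ) < (Q : ℝ) ^ N := by positivity
  have h5 : (4 * (H : ℝ)) ^ N * ∏ p ∈ S, (((p : ℕ) ^ N - (Ω p).card : ℕ) : ℝ) ≤
      (4 * (H : ℝ)) ^ N * ((Q : ℝ) ^ N * ∏ p ∈ S, w p) :=
    mul_le_mul_of_nonneg_left h3 (by positivity)
  have h6 := h2.trans h5
  have h7 : (4 * (H : ℝ)) ^ N * ((Q : ℝ) ^ N * ∏ p ∈ S, w p) =
      ((4 * (H : ℝ)) ^ N * ∏ p ∈ S, w p) * (Q : ℝ) ^ N := by ring
  rw [h7] at h6
  exact le_of_mul_le_mul_right h6 hQN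

lemma weight_le {C p n N : ℕ} (hC : 0 < C) (hp : 0 < p) (h : p ^ N ≤ C * p * n) :
    ((p : ℝ)) ^ N - (n : ℝ) ≤ (p : ℝ) ^ N * (1 - 1 / ((C : ℝ) * (p : ℝ))) := by
  have hC0 : (0 : ℝ) < C := by exact_mod_cast hC
  have hp0 : (0 : ℝ) < p := by exact_mod_cast hp
  have h5 : ((p : ℝ)) ^ N ≤ C * (p : ℝ) * (n : ℝ) := by exact_mod_cast h
  have h6 : (p : ℝ) ^ N * (1 / (C * (p : ℝ))) ≤ (n : ℝ) := by
    rw [mul_one_div, div_le_iff₀ (by positivity)]
    linarith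
  linarith

open Classical in
/-- the second sieve, on the residue classes modulo `p` -/
lemma sieve_second {C : ℕ} (hC : 0 < C) (p : Nat.Primes) (Ωp : Finset (κ → ZMod (p : ℕ)))
    (S : Finset Nat.Primes) (hpS : p ∉ S) (Ω₂ : (κ → ZMod (p : ℕ)) → ∀ q : Nat.Primes, Finset (κ → ZMod q)) (H : ℕ)
    (hH : (p : ℕ) * ∏ q ∈ S, (q : ℕ) ≤ H)
    (hΩ₂ : ∀ x ∈ Ωp, ∀ q ∈ S, (q : ℕ) ^ Fintype.card κ ≤ C * (q : ℕ) * (Ω₂ x q).card) :
    (((intBox κ H).filter fun x => (fun k => (x k : ZMod (p : ℕ))) ∈ Ωp ∧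
      ∀ q ∈ S, (fun k => (x k : ZMod (q : ℕ))) ∉ Ω₂ (fun k => (x k : ZMod (p : ℕ))) q).card : ℝ) ≤
      (4 * (H : ℝ)) ^ Fintype.card κ * ∏ q ∈ S, (1 - 1 / ((C : ℝ) * (q : ℝ))) := by
  set N := Fintype.card κ with hN
  have hp0 : (0 : ℝ) < (p : ℝ) := by exact_mod_cast p.2.pos
  have hsub : ((intBox κ H).filter fun x => (fun k => (x k : ZMod (p : ℕ))) ∈ Ωp ∧
      ∀ q ∈ S, (fun k => (x k : ZMod (q : ℕ))) ∉ Ω₂ (fun k => (x k : ZMod (p : ℕ))) q) ⊆
      Ωp.biUnion fun y => (intBox κ H).filter fun x => ∀ q ∈ insert p S, (fun k => (x k : ZMod (q : ℕ))) ∉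
        (if h : q = p then (({y} : Finset (κ → ZMod (p : ℕ)))ᶜ.image fun z k => ((z k).cast : ZMod (q : ℕ))) else Ω₂ y q) := by
    intro x hx
    rw [mem_filter] at hx
    obtain ⟨h1, h2, h3⟩ := hx
    rw [mem_biUnion]
    refine ⟨_, h2, ?_⟩
    rw [mem_filter]
    refine ⟨h1, fun q hq => ?_⟩
    rw [mem_insert] at hq
    by_cases hqp : q = p
    · subst hqp
      rw [dif_pos rfl, mem_image]
      rintro ⟨z, hz, hz'⟩
      rw [mem_compl, mem_singleton] at hz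
      apply hz
      funext k
      have := congrFun hz' k
      simpa using this
    · rw [dif_neg hqp]
      exact h3 q (hq.resolve_left hqp)
  have hone : ∀ y ∈ Ωp, (((intBox κ H).filter fun x => ∀ q ∈ insert p S, (fun k => (x k : ZMod (q : ℕ))) ∉
        (if h : q = p then (({y} : Finset (κ → ZMod (p : ℕ)))ᶜ.image fun z k => ((z k).cast : ZMod (q : ℕ))) else Ω₂ y q)).card : ℝ) ≤
      (4 * (H : ℝ)) ^ N * (((p : ℝ) ^ N)⁻¹ * ∏ q ∈ S, (1 - 1 / ((C : ℝ) * (q : ℝ)))) := by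
    intro y hy
    have h1 := sieve_weight (κ := κ) (insert p S) (fun q =>
        (if h : q = p then (({y} : Finset (κ → ZMod (p : ℕ)))ᶜ.image fun z k => ((z k).cast : ZMod (q : ℕ))) else Ω₂ y q)) H
        (by rw [prod_insert hpS]; exact hH) (fun q => if q = p then ((p : ℝ) ^ N)⁻¹ else 1 - 1 / ((C : ℝ) * (q : ℝ))) (by
          intro q hq
          rw [mem_insert] at hq
          by_cases hqp : q = p
          · subst hqp
            rw [dif_pos rfl, if_pos rfl, mul_inv_cancel₀ (by positivity)]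
            have h2 : (({y} : Finset (κ → ZMod (q : ℕ)))ᶜ.image fun z k => ((z k).cast : ZMod (q : ℕ))) = {y}ᶜ := by
              have : (fun (z : κ → ZMod (q : ℕ)) k => ((z k).cast : ZMod (q : ℕ))) = id := by
                funext z k
                simp
              rw [this, image_id]
            rw [h2, card_compl, card_singleton, Fintype.card_fun, ZMod.card, ← hN,
              Nat.cast_sub (Nat.one_le_pow _ _ q.2.pos)]
            push_cast
            linarith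
          · rw [dif_neg hqp, if_neg hqp]
            exact weight_le hC q.2.pos (hΩ₂ y hy q (hq.resolve_left hqp)))
    refine h1.trans (le_of_eq ?_)
    rw [prod_insert hpS, if_pos rfl, ← hN]
    congr 2
    refine prod_congr rfl fun q hq => ?_
    rw [if_neg (fun h : q = p => hpS (h ▸ hq))]
  have hpr : (0 : ℝ) ≤ ∏ q ∈ S, (1 - 1 / ((C : ℝ) * (q : ℝ))) := by
    refine prod_nonneg fun q _ => ?_
    have h1 : (1 : ℝ) ≤ (q : ℝ) := by exact_mod_cast q.2.one_lt.le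
    have hC1 : (1 : ℝ) ≤ C := by exact_mod_cast hC
    have : 1 / ((C : ℝ) * (q : ℝ)) ≤ 1 := by
      rw [div_le_one (by positivity)]
      nlinarith
    linarith
  have hcardΩ : ((Ωp.card : ℕ) : ℝ) ≤ (p : ℝ) ^ N := by
    have := card_le_univ Ωp
    rw [Fintype.card_fun, ZMod.card] at this
    exact_mod_cast this
  calc _ ≤ ((Ωp.biUnion fun y => (intBox κ H).filter fun x => ∀ q ∈ insert p S, (fun k => (x k : ZMod (q : ℕ))) ∉
        (if h : q = p then (({y} : Finset (κ → ZMod (p : ℕ)))ᶜ.image fun z k => ((z k).cast : ZMod (q : ℕ))) else Ω₂ y q)).card : ℝ) := by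
        exact_mod_cast card_le_card hsub
    _ ≤ ∑ y ∈ Ωp, (((intBox κ H).filter fun x => ∀ q ∈ insert p S, (fun k => (x k : ZMod (q : ℕ))) ∉
        (if h : q = p then (({y} : Finset (κ → ZMod (p : ℕ)))ᶜ.image fun z k => ((z k).cast : ZMod (q : ℕ))) else Ω₂ y q)).card : ℝ) := by
        exact_mod_cast card_biUnion_le
    _ ≤ ∑ _y ∈ Ωp, (4 * (H : ℝ)) ^ N * (((p : ℝ) ^ N)⁻¹ * ∏ q ∈ S, (1 - 1 / ((C : ℝ) * (q : ℝ)))) := sum_le_sum hone
    _ = (Ωp.card : ℝ) * ((4 * (H : ℝ)) ^ N * (((p : ℝ) ^ N)⁻¹ * ∏ q ∈ S, (1 - 1 / ((C : ℝ) * (q : ℝ))))) := by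
        rw [sum_const, nsmul_eq_mul]
    _ ≤ (p : ℝ) ^ N * ((4 * (H : ℝ)) ^ N * (((p : ℝ) ^ N)⁻¹ * ∏ q ∈ S, (1 - 1 / ((C : ℝ) * (q : ℝ))))) :=
        mul_le_mul_of_nonneg_right hcardΩ (by positivity)
    _ = _ := by
        have : (p : ℝ) ^ N ≠ 0 := by positivity
        field_simp

end sieve

section box

lemma card_filter_le_intBox {ι : Type*} [Fintype ι] [DecidableEq ι] {H : ℕ} (P : (ι ⊕ ι → ℤ) → Prop)
    [DecidablePred P] [DecidablePred fun c : ι → ℚ => P (toInt c)] :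
    ((Fintype.piFinset fun _ : ι => ratFin H).filter fun c => P (toInt c)).card ≤
      ((intBox (ι ⊕ ι) H).filter P).card := by
  refine card_le_card_of_injOn toInt ?_ toInt_injective.injOn
  intro c hc
  rw [mem_coe, mem_filter] at hc ⊢
  refine ⟨?_, hc.2⟩
  unfold intBox
  rw [Fintype.mem_piFinset]
  have h2 := fun s => mem_ratFin.mp (Fintype.mem_piFinset.mp hc.1 s)
  rintro (s | s)
  · have := (h2 s).1
    simp only [toInt, Sum.elim_inl, mem_Icc]
    omega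
  · have := (h2 s).2
    simp only [toInt, Sum.elim_inr, mem_Icc]
    omega

lemma box_le (M H : ℕ) {ι : Type*} [Fintype ι] [DecidableEq ι] (hM : M = Fintype.card ι) :
    (4 * (H : ℝ)) ^ (2 * M) ≤ 64 ^ M * ((Fintype.piFinset fun _ : ι => ratFin H).card : ℝ) := by
  have htot : ((H : ℝ) ^ 2) ^ M ≤ 4 ^ M * ((Fintype.piFinset fun _ : ι => ratFin H).card : ℝ) := by
    have h1 : ((Fintype.piFinset fun _ : ι => ratFin H).card : ℝ) = ((ratFin H).card : ℝ) ^ M := by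
      rw [Fintype.card_piFinset, prod_const, card_univ, hM]
      push_cast
      rfl
    rw [h1, ← mul_pow]
    exact pow_le_pow_left₀ (by positivity) (card_ratFin H) _
  have h1 : (4 * (H : ℝ)) ^ (2 * M) = 16 ^ M * ((H : ℝ) ^ 2) ^ M := by
    rw [pow_mul, mul_pow, mul_pow]; norm_num
  have h2 : (64 : ℝ) ^ M = 16 ^ M * 4 ^ M := by rw [← mul_pow]; norm_num
  rw [h1, h2, mul_assoc]
  exact mul_le_mul_of_nonneg_left htot (by positivity)

end box

open Classical in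
/-- almost all vectors of rational numbers satisfy a property which is implied by conditions modulo
two primes, the second condition depending on the residue modulo the first prime -/
theorem density_pair {ι J : Type*} [Fintype ι] [Fintype J] (Good : (ι → ℚ) → Prop) (PP : Set Nat.Primes)
    (hPP : ¬ Summable fun p : PP => (1 : ℝ) / (((p : Nat.Primes) : ℕ) : ℝ)) (C : ℕ) (hC : 0 < C)
    (Ω : ∀ p : Nat.Primes, J → Finset (ι ⊕ ι → ZMod p))
    (Ω₂ : ∀ p : Nat.Primes, (ι ⊕ ι → ZMod p) → ∀ q : Nat.Primes, J → Finset (ι ⊕ ι → ZMod q))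
    (q₀ : Nat.Primes → ℕ) (P₀ : ℕ)
    (hΩ : ∀ p ∈ PP, P₀ < (p : ℕ) → ∀ j, (p : ℕ) ^ (2 * Fintype.card ι) ≤ C * (p : ℕ) * (Ω p j).card)
    (hΩ₂ : ∀ p ∈ PP, P₀ < (p : ℕ) → ∀ j, ∀ x ∈ Ω p j, ∀ q ∈ PP, q₀ p < (q : ℕ) →
      (q : ℕ) ^ (2 * Fintype.card ι) ≤ C * (q : ℕ) * (Ω₂ p x q j).card)
    (hGood : ∀ c : ι → ℚ, (∀ j, ∃ p ∈ PP, ∃ q ∈ PP, p ≠ q ∧ P₀ < (p : ℕ) ∧ q₀ p < (q : ℕ) ∧
      (fun k => (toInt c k : ZMod (p : ℕ))) ∈ Ω p j ∧
      (fun k => (toInt c k : ZMod (q : ℕ))) ∈ Ω₂ p (fun k => (toInt c k : ZMod (p : ℕ))) q j) → Good c) :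
    Filter.Tendsto (fun H : ℕ =>
      ({c : ι → ℚ | (∀ s, (c s).num.natAbs ≤ H ∧ (c s).den ≤ H) ∧ ¬ Good c}.ncard : ℝ) /
      ({c : ι → ℚ | ∀ s, (c s).num.natAbs ≤ H ∧ (c s).den ≤ H}.ncard : ℝ)) Filter.atTop (nhds 0) := by
  set M := Fintype.card ι with hM
  have hcard : Fintype.card (ι ⊕ ι) = 2 * M := by rw [Fintype.card_sum]; ring
  rw [Metric.tendsto_atTop]
  intro ε hε
  set ε' : ℝ := ε / (2 * (2 * (Fintype.card J : ℝ) + 1) * 64 ^ M) with hε'
  have hε'0 : 0 < ε' := by positivity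
  obtain ⟨S₁, hS1, hS1'⟩ := exists_primes_of PP hPP hC P₀ hε'0
  have hε''0 : 0 < ε' / ((S₁.card : ℝ) + 1) := by positivity
  obtain ⟨S₂, hS2, hS2'⟩ := exists_primes_of PP hPP hC (∑ p ∈ S₁, ((p : ℕ) + q₀ p)) hε''0
  have hle : ∀ p ∈ S₁, (p : ℕ) + q₀ p ≤ ∑ p ∈ S₁, ((p : ℕ) + q₀ p) := fun p hp =>
    single_le_sum (f := fun p : Nat.Primes => (p : ℕ) + q₀ p) (fun _ _ => Nat.zero_le _) hp
  have hlt1 : ∀ p ∈ S₁, ∀ q ∈ S₂, (p : ℕ) < q := fun p hp q hq => by
    have h1 := hle p hp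
    have h2 := (hS2 q hq).2
    omega
  have hlt2 : ∀ p ∈ S₁, ∀ q ∈ S₂, q₀ p < q := fun p hp q hq => by
    have h1 := hle p hp
    have h2 := (hS2 q hq).2
    omega
  have hdisj : ∀ p ∈ S₁, ∀ q ∈ S₂, p ≠ q := by
    intro p hp q hq h
    have h1 := hlt1 p hp q hq
    rw [h] at h1
    exact lt_irrefl _ h1
  refine ⟨max (max (∏ p ∈ S₁, (p : ℕ)) ((∏ p ∈ S₁, (p : ℕ)) * ∏ p ∈ S₂, (p : ℕ))) 1, fun H hH => ?_⟩
  have hH1 : ∏ p ∈ S₁, (p : ℕ) ≤ H := (le_max_left _ _).trans ((le_max_left _ _).trans hH)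
  have hH1' : (∏ p ∈ S₁, (p : ℕ)) * ∏ p ∈ S₂, (p : ℕ) ≤ H :=
    (le_max_right _ _).trans ((le_max_left _ _).trans hH)
  have hH2 : 1 ≤ H := (le_max_right _ _).trans hH
  have e1 : {c : ι → ℚ | ∀ s, (c s).num.natAbs ≤ H ∧ (c s).den ≤ H} =
      ((Fintype.piFinset fun _ : ι => ratFin H : Finset (ι → ℚ)) : Set (ι → ℚ)) := by
    ext c
    simp only [Set.mem_ofPred_eq, Finset.mem_coe, Fintype.mem_piFinset, mem_ratFin]
  have e2 : {c : ι → ℚ | (∀ s, (c s).num.natAbs ≤ H ∧ (c s).den ≤ H) ∧ ¬ Good c} =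
      (((Fintype.piFinset fun _ : ι => ratFin H).filter fun c => ¬ Good c : Finset (ι → ℚ)) : Set (ι → ℚ)) := by
    ext c
    simp only [Set.mem_ofPred_eq, Finset.coe_filter, Fintype.mem_piFinset, mem_ratFin]
  rw [e1, e2, Set.ncard_coe_finset, Set.ncard_coe_finset]
  have h64 := box_le M H hM
  set X := Fintype.piFinset fun _ : ι => ratFin H with hX
  let B₁ : J → Finset (ι → ℚ) := fun j => X.filter fun c => ∀ p ∈ S₁, (fun k => (toInt c k : ZMod (p : ℕ))) ∉ Ω p j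
  let B₂ : J → Nat.Primes → Finset (ι → ℚ) := fun j p => X.filter fun c =>
    (fun k => (toInt c k : ZMod (p : ℕ))) ∈ Ω p j ∧
      ∀ q ∈ S₂, (fun k => (toInt c k : ZMod (q : ℕ))) ∉ Ω₂ p (fun k => (toInt c k : ZMod (p : ℕ))) q j
  have hsub : (X.filter fun c => ¬ Good c) ⊆
      ((univ : Finset J).biUnion B₁) ∪ ((univ : Finset J).biUnion fun j => S₁.biUnion (B₂ j)) := by
    intro c hc
    rw [mem_filter] at hc
    rw [mem_union, mem_biUnion, mem_biUnion]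
    by_contra hcon
    rw [not_or] at hcon
    obtain ⟨hc1, hc2⟩ := hcon
    push Not at hc1 hc2
    apply hc.2
    apply hGood
    intro j
    have h1 := hc1 j (mem_univ _)
    simp only [B₁] at h1
    rw [mem_filter, not_and] at h1
    have h2 := h1 hc.1
    push Not at h2
    obtain ⟨p, hp, hp'⟩ := h2
    have h3 := hc2 j (mem_univ _)
    rw [mem_biUnion] at h3
    push Not at h3
    have h4 := h3 p hp
    simp only [B₂] at h4
    rw [mem_filter, not_and, not_and] at h4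
    have h5 := h4 hc.1 hp'
    push Not at h5
    obtain ⟨q, hq, hq'⟩ := h5
    exact ⟨p, (hS1 p hp).1, q, (hS2 q hq).1, hdisj p hp q hq, (hS1 p hp).2, hlt2 p hp q hq, hp', hq'⟩
  have hb1 : ∀ j, ((B₁ j).card : ℝ) ≤ 64 ^ M * (X.card : ℝ) * ε' := by
    intro j
    have h1 := sieve_weight (κ := ι ⊕ ι) S₁ (fun p => Ω p j) H hH1 (fun p => 1 - 1 / ((C : ℝ) * (p : ℝ))) (by
      intro p hp
      rw [hcard]
      exact weight_le hC p.2.pos (hΩ p (hS1 p hp).1 (hS1 p hp).2 j))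
    rw [hcard] at h1
    have h2 : ((B₁ j).card : ℝ) ≤ (((intBox (ι ⊕ ι) H).filter fun x => ∀ p ∈ S₁, (fun k => (x k : ZMod (p : ℕ))) ∉ Ω p j).card : ℝ) := by
      exact Nat.cast_le.mpr (card_filter_le_intBox (H := H) fun x : ι ⊕ ι → ℤ => ∀ p ∈ S₁, (fun k => (x k : ZMod (p : ℕ))) ∉ Ω p j)
    refine h2.trans (h1.trans ?_)
    exact mul_le_mul h64 hS1' (by
      refine prod_nonneg fun q _ => ?_
      have h1 : (1 : ℝ) ≤ (q : ℝ) := by exact_mod_cast q.2.one_lt.le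
      have hC1 : (1 : ℝ) ≤ C := by exact_mod_cast hC
      have : 1 / ((C : ℝ) * (q : ℝ)) ≤ 1 := by
        rw [div_le_one (by positivity)]
        nlinarith
      linarith) (by positivity)
  have hb2 : ∀ j, ∀ p ∈ S₁, ((B₂ j p).card : ℝ) ≤ 64 ^ M * (X.card : ℝ) * (ε' / ((S₁.card : ℝ) + 1)) := by
    intro j p hp
    have hpS : p ∉ S₂ := fun h => hdisj p hp p h rfl
    have hpH : (p : ℕ) * ∏ q ∈ S₂, (q : ℕ) ≤ H := by
      refine le_trans (Nat.mul_le_mul_right _ ?_) hH1'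
      exact Nat.le_of_dvd (prod_pos fun q _ => q.2.pos) (dvd_prod_of_mem (fun q : Nat.Primes => (q : ℕ)) hp)
    have h1 := sieve_second (κ := ι ⊕ ι) hC p (Ω p j) S₂ hpS (fun x q => Ω₂ p x q j) H hpH (by
      intro x hx q hq
      rw [hcard]
      exact hΩ₂ p (hS1 p hp).1 (hS1 p hp).2 j x hx q (hS2 q hq).1 (hlt2 p hp q hq))
    rw [hcard] at h1
    have h2 : ((B₂ j p).card : ℝ) ≤ (((intBox (ι ⊕ ι) H).filter fun x => (fun k => (x k : ZMod (p : ℕ))) ∈ Ω p j ∧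
      ∀ q ∈ S₂, (fun k => (x k : ZMod (q : ℕ))) ∉ Ω₂ p (fun k => (x k : ZMod (p : ℕ))) q j).card : ℝ) := by
      exact Nat.cast_le.mpr (card_filter_le_intBox (H := H) fun x : ι ⊕ ι → ℤ => (fun k => (x k : ZMod (p : ℕ))) ∈ Ω p j ∧
        ∀ q ∈ S₂, (fun k => (x k : ZMod (q : ℕ))) ∉ Ω₂ p (fun k => (x k : ZMod (p : ℕ))) q j)
    refine h2.trans (h1.trans ?_)
    exact mul_le_mul h64 hS2' (by
      refine prod_nonneg fun q _ => ?_
      have h1 : (1 : ℝ) ≤ (q : ℝ) := by exact_mod_cast q.2.one_lt.le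
      have hC1 : (1 : ℝ) ≤ C := by exact_mod_cast hC
      have : 1 / ((C : ℝ) * (q : ℝ)) ≤ 1 := by
        rw [div_le_one (by positivity)]
        nlinarith
      linarith) (by positivity)
  have hb3 : ∀ j, ((S₁.biUnion (B₂ j)).card : ℝ) ≤ 64 ^ M * (X.card : ℝ) * ε' := by
    intro j
    calc ((S₁.biUnion (B₂ j)).card : ℝ) ≤ ∑ p ∈ S₁, ((B₂ j p).card : ℝ) := by exact_mod_cast card_biUnion_le
      _ ≤ ∑ _p ∈ S₁, 64 ^ M * (X.card : ℝ) * (ε' / ((S₁.card : ℝ) + 1)) := sum_le_sum (hb2 j)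
      _ = (S₁.card : ℝ) * (64 ^ M * (X.card : ℝ) * (ε' / ((S₁.card : ℝ) + 1))) := by rw [sum_const, nsmul_eq_mul]
      _ ≤ ((S₁.card : ℝ) + 1) * (64 ^ M * (X.card : ℝ) * (ε' / ((S₁.card : ℝ) + 1))) :=
          mul_le_mul_of_nonneg_right (by linarith) (by positivity)
      _ = _ := by field_simp
  have hbad : ((X.filter fun c => ¬ Good c).card : ℝ) ≤ 2 * (Fintype.card J : ℝ) * (64 ^ M * (X.card : ℝ) * ε') := by
    have h1 := (card_le_card hsub).trans (card_union_le _ _)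
    have h2 : (((univ : Finset J).biUnion B₁).card : ℝ) ≤ (Fintype.card J : ℝ) * (64 ^ M * (X.card : ℝ) * ε') := by
      calc (((univ : Finset J).biUnion B₁).card : ℝ) ≤ ∑ j : J, ((B₁ j).card : ℝ) := by exact_mod_cast card_biUnion_le
        _ ≤ ∑ _j : J, 64 ^ M * (X.card : ℝ) * ε' := sum_le_sum fun j _ => hb1 j
        _ = _ := by rw [sum_const, card_univ, nsmul_eq_mul]
    have h3 : (((univ : Finset J).biUnion fun j => S₁.biUnion (B₂ j)).card : ℝ) ≤
        (Fintype.card J : ℝ) * (64 ^ M * (X.card : ℝ) * ε') := by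
      calc (((univ : Finset J).biUnion fun j => S₁.biUnion (B₂ j)).card : ℝ)
          ≤ ∑ j : J, ((S₁.biUnion (B₂ j)).card : ℝ) := by exact_mod_cast card_biUnion_le
        _ ≤ ∑ _j : J, 64 ^ M * (X.card : ℝ) * ε' := sum_le_sum fun j _ => hb3 j
        _ = _ := by rw [sum_const, card_univ, nsmul_eq_mul]
    have h4 : ((X.filter fun c => ¬ Good c).card : ℝ) ≤
      (((univ : Finset J).biUnion B₁).card : ℝ) + (((univ : Finset J).biUnion fun j => S₁.biUnion (B₂ j)).card : ℝ) := by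
      exact_mod_cast h1
    linarith
  have hX0 : (0 : ℝ) < X.card := by
    have h1 : 0 < X.card := by
      rw [card_pos]
      exact ⟨fun _ => 0, by
        rw [hX, Fintype.mem_piFinset]
        intro s
        rw [mem_ratFin]
        exact ⟨by simp, by simpa using hH2⟩⟩
    exact_mod_cast h1
  rw [Real.dist_eq, sub_zero, abs_of_nonneg (by positivity), div_lt_iff₀ hX0]
  calc ((X.filter fun c => ¬ Good c).card : ℝ) ≤ 2 * (Fintype.card J : ℝ) * (64 ^ M * (X.card : ℝ) * ε') := hbad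
    _ ≤ (2 * (Fintype.card J : ℝ) + 1) * (64 ^ M * (X.card : ℝ) * ε') :=
        mul_le_mul_of_nonneg_right (by linarith) (by positivity)
    _ = ε / 2 * (X.card : ℝ) := by
        rw [hε']
        field_simp
    _ < ε * (X.card : ℝ) := by nlinarith

end Pool.Agent.ZPOrd
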