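import Mathlib
import Pool.Agent.ZPOrd.RatDefs
import Pool.Agent.ZPOrd.PairSieve
import Pool.Agent.ZP46.Count
import Pool.Agent.Lib.ModularZP.LinDens

/-!
Almost all systems of rational functions have, in every coordinate, two good private primes modulo which the
denominators of the other coordinates split completely, with independent residual discriminants.
-/

open Filter Topology

namespace Pool.Agent.ZPOrd

open Pool.Agent.Lib.ModularZP Pool.Agent.ZP46 Finset

section general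

variable {p : ℕ} [Fact p.Prime]

open Classical in
lemma union_events {β κ : Type*} [Fintype β] [Fintype κ] [hκ : DecidableEq κ] (Bad : β → (κ → ZMod p) → Prop) (B : ℕ)
    (Q : (κ → ZMod p) → Prop) (hQ : ∀ y, ¬ Q y → ∃ b, Bad b y)
    (h : ∀ b, p * ((univ : Finset (κ → ZMod p)).filter (Bad b)).card ≤ B * p ^ Fintype.card κ)
    (hp : 2 * (Fintype.card β * B) ≤ p) :
    p ^ Fintype.card κ ≤ 2 * ((univ : Finset (κ → ZMod p)).filter Q).card := by
  have hp0 : 0 < p := (Fact.out : p.Prime).pos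
  have hsub : ((univ : Finset (κ → ZMod p)).filter fun y => ¬ Q y) ⊆
      (univ : Finset β).biUnion fun b => (univ : Finset (κ → ZMod p)).filter (Bad b) := by
    intro y hy
    rw [mem_filter] at hy
    obtain ⟨b, hb⟩ := hQ y hy.2
    rw [mem_biUnion]
    exact ⟨b, mem_univ _, mem_filter.mpr ⟨mem_univ _, hb⟩⟩
  have h1 : p * ((univ : Finset (κ → ZMod p)).filter fun y => ¬ Q y).card ≤
      Fintype.card β * B * p ^ Fintype.card κ := by
    calc p * ((univ : Finset (κ → ZMod p)).filter fun y => ¬ Q y).card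
        ≤ p * ∑ b : β, ((univ : Finset (κ → ZMod p)).filter (Bad b)).card :=
          Nat.mul_le_mul_left _ ((card_le_card hsub).trans card_biUnion_le)
      _ = ∑ b : β, p * ((univ : Finset (κ → ZMod p)).filter (Bad b)).card := mul_sum _ _ _
      _ ≤ ∑ _b : β, B * p ^ Fintype.card κ := sum_le_sum fun b _ => h b
      _ = Fintype.card β * B * p ^ Fintype.card κ := by
        rw [sum_const, card_univ, smul_eq_mul, mul_assoc]
  have h2 : ((univ : Finset (κ → ZMod p)).filter Q).card +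
      ((univ : Finset (κ → ZMod p)).filter fun y => ¬ Q y).card = p ^ Fintype.card κ := by
    rw [card_filter_add_card_filter_not, card_univ, Fintype.card_fun, ZMod.card]
  have h3 : 2 * ((univ : Finset (κ → ZMod p)).filter fun y => ¬ Q y).card ≤ p ^ Fintype.card κ := by
    have h4 : p * (2 * ((univ : Finset (κ → ZMod p)).filter fun y => ¬ Q y).card) ≤ p * p ^ Fintype.card κ := by
      calc p * (2 * ((univ : Finset (κ → ZMod p)).filter fun y => ¬ Q y).card)
          = 2 * (p * ((univ : Finset (κ → ZMod p)).filter fun y => ¬ Q y).card) := by ring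
        _ ≤ 2 * (Fintype.card β * B * p ^ Fintype.card κ) := Nat.mul_le_mul_left _ h1
        _ = 2 * (Fintype.card β * B) * p ^ Fintype.card κ := by ring
        _ ≤ p * p ^ Fintype.card κ := Nat.mul_le_mul_right _ hp
    exact Nat.le_of_mul_le_mul_left h4 hp0
  omega

open Classical in
lemma fiber_univ {κ : Type*} [Fintype κ] [hκ : DecidableEq κ] (s : κ) (Bad : (κ → ZMod p) → Prop) (B : ℕ)
    (hB : ∀ y, ((univ : Finset (ZMod p)).filter fun v => Bad (@Function.update κ (fun _ => ZMod p) hκ y s v)).card ≤ B) :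
    p * ((univ : Finset (κ → ZMod p)).filter Bad).card ≤ B * p ^ Fintype.card κ := by
  have h1 := fiber (univ : Finset (κ → ZMod p)) s (fun _ _ _ => mem_univ _) Bad B (by
    intro y _
    refine le_trans (le_of_eq ?_) (hB y)
    congr)
  rwa [card_univ, Fintype.card_fun, ZMod.card] at h1

open Classical in
lemma card_inj_le {f : ZMod p → ZMod p} (hf : Function.Injective f) (P : ZMod p → Prop) {B : ℕ}
    (hB : ((univ : Finset (ZMod p)).filter P).card ≤ B) :
    ((univ : Finset (ZMod p)).filter fun v => P (f v)).card ≤ B := by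
  refine le_trans (card_le_card_of_injOn f ?_ hf.injOn) hB
  intro v hv
  simp only [coe_filter, mem_univ, true_and, Set.mem_ofPred_eq] at hv ⊢
  exact hv

end general

section params

variable {n : ℕ} (d : Fin n → ℕ)

/-- indices of the coefficients -/
abbrev Co : Type := (j : Fin n) × Fin (d j + 1)

/-- indices of the roots of the denominators -/
abbrev Rt : Type := (j : Fin n) × Fin (d j)

/-- numerator and denominator coefficients -/
abbrev IX : Type := Co d ⊕ Co d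

/-- numerator coefficients, leading coefficients and roots of the denominators -/
abbrev PX : Type := Co d ⊕ (Fin n ⊕ Rt d)

lemma card_PX : Fintype.card (PX d) = Fintype.card (IX d) := by
  simp only [Fintype.card_sum, Fintype.card_sigma, Fintype.card_fin, sum_add_distrib, sum_const, card_univ,
    smul_eq_mul, mul_one]
  ring

variable {d} {p : ℕ} [Fact p.Prime]

/-- the denominator of coordinate `j` -/
noncomputable def BP (y : PX d → ZMod p) (j : Fin n) : Polynomial (ZMod p) :=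
  Polynomial.C (y (Sum.inr (Sum.inl j))) *
    ∏ l : Fin (d j), (Polynomial.X - Polynomial.C (y (Sum.inr (Sum.inr ⟨j, l⟩))))

/-- value at infinity -/
def ri (y : PX d → ZMod p) (j : Fin n) : ZMod p :=
  y (Sum.inl ⟨j, Fin.last _⟩) / y (Sum.inr (Sum.inl j))

/-- value of the denominator -/
def dz (y : PX d → ZMod p) (k : Fin n) (t : ZMod p) : ZMod p :=
  y (Sum.inr (Sum.inl k)) * ∏ l : Fin (d k), (t - y (Sum.inr (Sum.inr ⟨k, l⟩)))

/-- value of the coordinate `k` -/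
def rz (y : PX d → ZMod p) (k : Fin n) (t : ZMod p) : ZMod p :=
  (∑ l : Fin (d k + 1), y (Sum.inl ⟨k, l⟩) * t ^ (l : ℕ)) / dz y k t

/-- the conditions on the parameters -/
structure GoodY (dd : ZMod p → ℤ) (Δ : Fin n → ℤ) (y : PX d → ZMod p) : Prop where
  lead : ∀ j, y (Sum.inr (Sum.inl j)) ≠ 0
  nocommon : ∀ a b : Rt d, a.1 ≠ b.1 → y (Sum.inr (Sum.inr a)) ≠ y (Sum.inr (Sum.inr b))
  infD : ∀ j, ¬ IsSquare (Δ j * dd (ri y j))
  infO : ∀ j, dd (ri y j) ≠ 0
  infC : ∀ j k, j ≠ k → ¬ IsSquare (dd (ri y j) * dd (ri y k))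
  zO : ∀ a : Rt d, ∀ k, a.1 ≠ k → dd (rz y k (y (Sum.inr (Sum.inr a)))) ≠ 0
  zC : ∀ a : Rt d, ∀ k m, a.1 ≠ k → a.1 ≠ m → k ≠ m →
    ¬ IsSquare (dd (rz y k (y (Sum.inr (Sum.inr a)))) * dd (rz y m (y (Sum.inr (Sum.inr a)))))

lemma dz_update (y : PX d → ZMod p) (s : Co d) (v : ZMod p) (k : Fin n) (t : ZMod p) :
    dz (Function.update y (Sum.inl s) v) k t = dz y k t := by
  unfold dz
  rw [Function.update_of_ne (by simp)]
  congr 1

lemma ri_update_ne (y : PX d → ZMod p) {j k : Fin n} (h : k ≠ j) (m : Fin (d j + 1)) (v : ZMod p) :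
    ri (Function.update y (Sum.inl ⟨j, m⟩) v) k = ri y k := by
  unfold ri
  rw [Function.update_of_ne (by
    intro h'
    exact h (congrArg Sigma.fst (Sum.inl.inj h'))), Function.update_of_ne (by simp)]

lemma ri_update_inj (y : PX d → ZMod p) (j : Fin n) (h : y (Sum.inr (Sum.inl j)) ≠ 0) :
    Function.Injective fun v => ri (Function.update y (Sum.inl ⟨j, Fin.last _⟩) v) j := by
  intro v v' hv
  simp only [ri] at hv
  rw [Function.update_self, Function.update_self, Function.update_of_ne (by simp),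
    Function.update_of_ne (by simp), div_left_inj' h] at hv
  exact hv

lemma rz_update_ne (y : PX d → ZMod p) {j k : Fin n} (h : k ≠ j) (m : Fin (d j + 1)) (v t : ZMod p) :
    rz (Function.update y (Sum.inl ⟨j, m⟩) v) k t = rz y k t := by
  unfold rz
  rw [dz_update]
  congr 1
  refine sum_congr rfl fun l _ => ?_
  rw [Function.update_of_ne (by
    intro h'
    exact h (congrArg Sigma.fst (Sum.inl.inj h')))]

lemma rz_update_inj (y : PX d → ZMod p) (k : Fin n) (t : ZMod p) (h : dz y k t ≠ 0) :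
    Function.Injective fun v => rz (Function.update y (Sum.inl ⟨k, 0⟩) v) k t := by
  intro v v' hv
  simp only [rz, dz_update] at hv
  rw [div_left_inj' h, Fin.sum_univ_succ, Fin.sum_univ_succ] at hv
  have h1 : ∀ w, ∑ l : Fin (d k), Function.update y (Sum.inl ⟨k, 0⟩) w (Sum.inl ⟨k, l.succ⟩) * t ^ ((l.succ : Fin (d k + 1)) : ℕ) =
      ∑ l : Fin (d k), y (Sum.inl ⟨k, l.succ⟩) * t ^ ((l.succ : Fin (d k + 1)) : ℕ) := by
    intro w
    refine sum_congr rfl fun l _ => ?_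
    rw [Function.update_of_ne (by
      intro h'
      have h2 := Sum.inl.inj h'
      simp at h2)]
  rw [h1, h1, Function.update_self, Function.update_self] at hv
  simpa using hv

/-- indices of the bad events -/
abbrev EvR (n : ℕ) (d : Fin n → ℕ) : Type :=
  Fin n ⊕ ((Rt d × Rt d) ⊕ (Fin n ⊕ ((Fin n × Fin n) ⊕ ((Rt d × Fin n) ⊕ (Rt d × Fin n × Fin n)))))

/-- the bad events -/
def BadR (dd : ZMod p → ℤ) (Δ : Fin n → ℤ) : EvR n d → (PX d → ZMod p) → Prop
  | Sum.inl j, y => y (Sum.inr (Sum.inl j)) = 0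
  | Sum.inr (Sum.inl (a, b)), y => a.1 ≠ b.1 ∧ y (Sum.inr (Sum.inr a)) = y (Sum.inr (Sum.inr b))
  | Sum.inr (Sum.inr (Sum.inl j)), y => y (Sum.inr (Sum.inl j)) ≠ 0 ∧ (dd (ri y j) = 0 ∨ IsSquare (Δ j * dd (ri y j)))
  | Sum.inr (Sum.inr (Sum.inr (Sum.inl (j, k)))), y => j ≠ k ∧ y (Sum.inr (Sum.inl j)) ≠ 0 ∧ dd (ri y k) ≠ 0 ∧
      IsSquare (dd (ri y k) * dd (ri y j))
  | Sum.inr (Sum.inr (Sum.inr (Sum.inr (Sum.inl (a, k))))), y => a.1 ≠ k ∧ dz y k (y (Sum.inr (Sum.inr a))) ≠ 0 ∧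
      dd (rz y k (y (Sum.inr (Sum.inr a)))) = 0
  | Sum.inr (Sum.inr (Sum.inr (Sum.inr (Sum.inr (a, k, m))))), y => k ≠ m ∧ dz y k (y (Sum.inr (Sum.inr a))) ≠ 0 ∧
      dd (rz y m (y (Sum.inr (Sum.inr a)))) ≠ 0 ∧
      IsSquare (dd (rz y m (y (Sum.inr (Sum.inr a)))) * dd (rz y k (y (Sum.inr (Sum.inr a)))))

lemma exists_bad (dd : ZMod p → ℤ) (Δ : Fin n → ℤ) (y : PX d → ZMod p) (hy : ¬ GoodY dd Δ y) :
    ∃ b, BadR dd Δ b y := by
  by_contra hcon
  push Not at hcon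
  apply hy
  have h1 : ∀ j, y (Sum.inr (Sum.inl j)) ≠ 0 := fun j => hcon (Sum.inl j)
  have h2 : ∀ a b : Rt d, a.1 ≠ b.1 → y (Sum.inr (Sum.inr a)) ≠ y (Sum.inr (Sum.inr b)) := fun a b hab h =>
    hcon (Sum.inr (Sum.inl (a, b))) ⟨hab, h⟩
  have h3 : ∀ j, ¬ (dd (ri y j) = 0 ∨ IsSquare (Δ j * dd (ri y j))) := fun j h =>
    hcon (Sum.inr (Sum.inr (Sum.inl j))) ⟨h1 j, h⟩
  have h3' : ∀ j, dd (ri y j) ≠ 0 := fun j h => h3 j (Or.inl h)
  have hdz : ∀ a : Rt d, ∀ k, a.1 ≠ k → dz y k (y (Sum.inr (Sum.inr a))) ≠ 0 := by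
    intro a k hak
    unfold dz
    refine mul_ne_zero (h1 k) (prod_ne_zero_iff.mpr fun l _ => ?_)
    rw [sub_ne_zero]
    exact h2 a ⟨k, l⟩ hak
  have h5 : ∀ a : Rt d, ∀ k, a.1 ≠ k → dd (rz y k (y (Sum.inr (Sum.inr a)))) ≠ 0 := fun a k hak h =>
    hcon (Sum.inr (Sum.inr (Sum.inr (Sum.inr (Sum.inl (a, k)))))) ⟨hak, hdz a k hak, h⟩
  refine ⟨h1, h2, fun j h => h3 j (Or.inr h), h3', fun j k hjk h => ?_, h5, fun a k m hak ham hkm h => ?_⟩
  · refine hcon (Sum.inr (Sum.inr (Sum.inr (Sum.inl (j, k))))) ⟨hjk, h1 j, h3' k, ?_⟩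
    rwa [mul_comm]
  · refine hcon (Sum.inr (Sum.inr (Sum.inr (Sum.inr (Sum.inr (a, k, m)))))) ⟨hkm, hdz a k hak, h5 a m ham, ?_⟩
    rwa [mul_comm]

open Classical in
lemma bad_small (dd : ZMod p → ℤ) (Δ : Fin n → ℤ) (hΔ : ∀ j, Δ j ≠ 0) (B : ℕ) (hB : 0 < B)
    (hd : ∀ D : ℤ, D ≠ 0 → ∀ P : ZMod p → Prop, (∀ α, P α → dd α = 0 ∨ IsSquare (D * dd α)) →
      ((univ : Finset (ZMod p)).filter P).card ≤ B)
    (b : EvR n d) :
    p * ((univ : Finset (PX d → ZMod p)).filter (BadR dd Δ b)).card ≤ B * p ^ Fintype.card (PX d) := by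
  have hone : ∀ (P : ZMod p → Prop) (w : ZMod p), (∀ v, P v → v = w) → ((univ : Finset (ZMod p)).filter P).card ≤ B := by
    intro P w hP
    refine le_trans (card_le_one.mpr ?_) (Nat.succ_le_of_lt hB)
    intro v hv v' hv'
    rw [mem_filter] at hv hv'
    rw [hP v hv.2, hP v' hv'.2]
  have hempty : ∀ (P : ZMod p → Prop), (∀ v, ¬ P v) → ((univ : Finset (ZMod p)).filter P).card ≤ B := by
    intro P hP
    rw [filter_eq_empty_iff.mpr fun v _ => hP v]
    simp
  have hsub : ∀ (P Q : ZMod p → Prop), (∀ v, P v → Q v) → ((univ : Finset (ZMod p)).filter Q).card ≤ B →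
      ((univ : Finset (ZMod p)).filter P).card ≤ B := by
    intro P Q h hQ
    refine (card_le_card ?_).trans hQ
    intro v hv
    rw [mem_filter] at hv ⊢
    exact ⟨hv.1, h v hv.2⟩
  rcases b with j | ⟨a, b⟩ | j | ⟨j, k⟩ | ⟨a, k⟩ | ⟨a, k, m⟩
  · refine fiber_univ (Sum.inr (Sum.inl j)) _ B fun y => hone _ 0 fun v hv => ?_
    simpa [BadR] using hv
  · by_cases hab : a.1 = b.1
    · refine fiber_univ (Sum.inr (Sum.inr a)) _ B fun y => hempty _ fun v hv => hv.1 hab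
    · refine fiber_univ (Sum.inr (Sum.inr a)) _ B fun y => hone _ (y (Sum.inr (Sum.inr b))) fun v hv => ?_
      have h1 := hv.2
      rwa [Function.update_self, Function.update_of_ne (by
        intro h'
        exact hab (congrArg Sigma.fst (Sum.inr.inj (Sum.inr.inj h'))).symm)] at h1
  · refine fiber_univ (Sum.inl ⟨j, Fin.last _⟩) _ B fun y => ?_
    by_cases h0 : y (Sum.inr (Sum.inl j)) = 0
    · refine hempty _ fun v hv => hv.1 ?_
      rw [Function.update_of_ne (by simp), h0]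
    · refine hsub _ (fun v => dd (ri (Function.update y (Sum.inl ⟨j, Fin.last _⟩) v) j) = 0 ∨
        IsSquare (Δ j * dd (ri (Function.update y (Sum.inl ⟨j, Fin.last _⟩) v) j))) (fun v hv => hv.2) ?_
      exact card_inj_le (ri_update_inj y j h0) (fun α => dd α = 0 ∨ IsSquare (Δ j * dd α)) (hd _ (hΔ j) _ fun _ h => h)
  · refine fiber_univ (Sum.inl ⟨j, Fin.last _⟩) _ B fun y => ?_
    by_cases hjk : j = k
    · exact hempty _ fun v hv => hv.1 hjk
    by_cases h0 : y (Sum.inr (Sum.inl j)) = 0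
    · refine hempty _ fun v hv => hv.2.1 ?_
      rw [Function.update_of_ne (by simp), h0]
    by_cases h1 : dd (ri y k) = 0
    · refine hempty _ fun v hv => hv.2.2.1 ?_
      rw [ri_update_ne y (Ne.symm hjk), h1]
    · refine hsub _ (fun v => dd (ri (Function.update y (Sum.inl ⟨j, Fin.last _⟩) v) j) = 0 ∨
        IsSquare (dd (ri y k) * dd (ri (Function.update y (Sum.inl ⟨j, Fin.last _⟩) v) j))) (fun v hv => ?_) ?_
      · have h2 := hv.2.2.2
        rw [ri_update_ne y (Ne.symm hjk)] at h2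
        exact Or.inr h2
      · exact card_inj_le (ri_update_inj y j h0) (fun α => dd α = 0 ∨ IsSquare (dd (ri y k) * dd α)) (hd _ h1 _ fun _ h => h)
  · refine fiber_univ (Sum.inl ⟨k, 0⟩) _ B fun y => ?_
    have hz : ∀ v, Function.update y (Sum.inl ⟨k, 0⟩) v (Sum.inr (Sum.inr a)) = y (Sum.inr (Sum.inr a)) := fun v => by
      rw [Function.update_of_ne (by simp)]
    by_cases h0 : dz y k (y (Sum.inr (Sum.inr a))) = 0
    · refine hempty _ fun v hv => hv.2.1 ?_
      rw [hz, dz_update, h0]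
    · refine hsub _ (fun v => dd (rz (Function.update y (Sum.inl ⟨k, 0⟩) v) k (y (Sum.inr (Sum.inr a)))) = 0 ∨
        IsSquare (1 * dd (rz (Function.update y (Sum.inl ⟨k, 0⟩) v) k (y (Sum.inr (Sum.inr a)))))) (fun v hv => ?_) ?_
      · have h2 := hv.2.2
        rw [hz] at h2
        exact Or.inl h2
      · exact card_inj_le (rz_update_inj y k _ h0) (fun α => dd α = 0 ∨ IsSquare (1 * dd α)) (hd _ one_ne_zero _ fun _ h => h)
  · refine fiber_univ (Sum.inl ⟨k, 0⟩) _ B fun y => ?_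
    have hz : ∀ v, Function.update y (Sum.inl ⟨k, 0⟩) v (Sum.inr (Sum.inr a)) = y (Sum.inr (Sum.inr a)) := fun v => by
      rw [Function.update_of_ne (by simp)]
    by_cases hkm : k = m
    · exact hempty _ fun v hv => hv.1 hkm
    by_cases h0 : dz y k (y (Sum.inr (Sum.inr a))) = 0
    · refine hempty _ fun v hv => hv.2.1 ?_
      rw [hz, dz_update, h0]
    by_cases h1 : dd (rz y m (y (Sum.inr (Sum.inr a)))) = 0
    · refine hempty _ fun v hv => hv.2.2.1 ?_
      rw [hz, rz_update_ne y (Ne.symm hkm), h1]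
    · refine hsub _ (fun v => dd (rz (Function.update y (Sum.inl ⟨k, 0⟩) v) k (y (Sum.inr (Sum.inr a)))) = 0 ∨
        IsSquare (dd (rz y m (y (Sum.inr (Sum.inr a)))) *
          dd (rz (Function.update y (Sum.inl ⟨k, 0⟩) v) k (y (Sum.inr (Sum.inr a)))))) (fun v hv => ?_) ?_
      · have h2 := hv.2.2.2
        rw [hz, rz_update_ne y (Ne.symm hkm)] at h2
        exact Or.inr h2
      · exact card_inj_le (rz_update_inj y k _ h0)
          (fun α => dd α = 0 ∨ IsSquare (dd (rz y m (y (Sum.inr (Sum.inr a)))) * dd α)) (hd _ h1 _ fun _ h => h)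

open Classical in
lemma card_goodY (dd : ZMod p → ℤ) (Δ : Fin n → ℤ) (hΔ : ∀ j, Δ j ≠ 0) (B : ℕ) (hB : 0 < B)
    (hd : ∀ D : ℤ, D ≠ 0 → ∀ P : ZMod p → Prop, (∀ α, P α → dd α = 0 ∨ IsSquare (D * dd α)) →
      ((univ : Finset (ZMod p)).filter P).card ≤ B)
    (hp : 2 * (Fintype.card (EvR n d) * B) ≤ p) :
    p ^ Fintype.card (PX d) ≤ 2 * ((univ : Finset (PX d → ZMod p)).filter (GoodY dd Δ)).card :=
  union_events (BadR dd Δ) B (GoodY dd Δ) (exists_bad dd Δ) (bad_small dd Δ hΔ B hB hd) hp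

lemma monic_prod (y : PX d → ZMod p) (j : Fin n) :
    (∏ l : Fin (d j), (Polynomial.X - Polynomial.C (y (Sum.inr (Sum.inr ⟨j, l⟩))))).Monic :=
  Polynomial.monic_prod_of_monic _ _ fun _ _ => Polynomial.monic_X_sub_C _

lemma natDegree_prod (y : PX d → ZMod p) (j : Fin n) :
    (∏ l : Fin (d j), (Polynomial.X - Polynomial.C (y (Sum.inr (Sum.inr ⟨j, l⟩))))).natDegree = d j := by
  rw [Polynomial.natDegree_prod_of_monic _ _ fun l _ => Polynomial.monic_X_sub_C _]
  simp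

lemma BP_natDegree_le (y : PX d → ZMod p) (j : Fin n) : (BP y j).natDegree ≤ d j := by
  unfold BP
  refine (Polynomial.natDegree_C_mul_le _ _).trans ?_
  rw [natDegree_prod]

lemma BP_coeff_last (y : PX d → ZMod p) (j : Fin n) : (BP y j).coeff (d j) = y (Sum.inr (Sum.inl j)) := by
  unfold BP
  rw [Polynomial.coeff_C_mul]
  have h1 := (monic_prod y j).coeff_natDegree
  rw [natDegree_prod] at h1
  rw [h1, mul_one]

lemma BP_eval (y : PX d → ZMod p) (j : Fin n) (t : ZMod p) : (BP y j).eval t = dz y j t := by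
  unfold BP dz
  rw [Polynomial.eval_mul, Polynomial.eval_C, Polynomial.eval_prod]
  congr 1
  refine prod_congr rfl fun l _ => ?_
  simp

lemma BP_sum (y : PX d → ZMod p) (j : Fin n) :
    ∑ k : Fin (d j + 1), Polynomial.C ((BP y j).coeff (k : ℕ)) * Polynomial.X ^ (k : ℕ) = BP y j := by
  rw [Fin.sum_univ_eq_sum_range (fun k => Polynomial.C ((BP y j).coeff k) * Polynomial.X ^ k) (d j + 1)]
  exact ((BP y j).as_sum_range_C_mul_X_pow' (Nat.lt_succ_of_le (BP_natDegree_le y j))).symm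

lemma BP_fv (y : PX d → ZMod p) (j : Fin n) (t : ZMod p) :
    fv (fun k : Fin (d j + 1) => (BP y j).coeff (k : ℕ)) t = dz y j t := by
  rw [← BP_eval]
  unfold fv
  rw [Polynomial.eval_eq_sum_range' (Nat.lt_succ_of_le (BP_natDegree_le y j)),
    Fin.sum_univ_eq_sum_range (fun k => (BP y j).coeff k * t ^ k) (d j + 1)]

lemma dz_eq_zero (y : PX d → ZMod p) (j : Fin n) (hj : y (Sum.inr (Sum.inl j)) ≠ 0) (t : ZMod p) (h : dz y j t = 0) :
    ∃ l : Fin (d j), t = y (Sum.inr (Sum.inr ⟨j, l⟩)) := by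
  unfold dz at h
  rcases mul_eq_zero.mp h with h | h
  · exact absurd h hj
  · rw [prod_eq_zero_iff] at h
    obtain ⟨l, _, hl⟩ := h
    exact ⟨l, sub_eq_zero.mp hl⟩

/-- the conditions on the residues of the coefficients -/
structure LocV (dd : ZMod p → ℤ) (Δ : Fin n → ℤ) (i : Fin n) (v : IX d → ZMod p) : Prop where
  lead : ∀ j, v (Sum.inr ⟨j, Fin.last _⟩) ≠ 0
  split : ∀ j, j ≠ i → ∃ s : Multiset (ZMod p), ∑ k : Fin (d j + 1), Polynomial.C (v (Sum.inr ⟨j, k⟩)) *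
    Polynomial.X ^ (k : ℕ) =
    Polynomial.C (v (Sum.inr ⟨j, Fin.last _⟩)) * (s.map fun z => Polynomial.X - Polynomial.C z).prod
  nocommon : ∀ j k, j ≠ i → k ≠ i → j ≠ k → ∀ z, fv (fun l : Fin (d j + 1) => v (Sum.inr ⟨j, l⟩)) z = 0 →
    fv (fun l : Fin (d k + 1) => v (Sum.inr ⟨k, l⟩)) z ≠ 0
  ordInf : ∀ j, j ≠ i → dd (v (Sum.inl ⟨j, Fin.last _⟩) / v (Sum.inr ⟨j, Fin.last _⟩)) ≠ 0
  delInf : ∀ j, j ≠ i → ¬ IsSquare (Δ j * dd (v (Sum.inl ⟨j, Fin.last _⟩) / v (Sum.inr ⟨j, Fin.last _⟩)))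
  crossInf : ∀ j k, j ≠ i → k ≠ i → j ≠ k →
    ¬ IsSquare (dd (v (Sum.inl ⟨j, Fin.last _⟩) / v (Sum.inr ⟨j, Fin.last _⟩)) *
      dd (v (Sum.inl ⟨k, Fin.last _⟩) / v (Sum.inr ⟨k, Fin.last _⟩)))
  ordZ : ∀ j k, j ≠ i → k ≠ i → j ≠ k → ∀ z, fv (fun l : Fin (d j + 1) => v (Sum.inr ⟨j, l⟩)) z = 0 →
    dd (fv (fun l : Fin (d k + 1) => v (Sum.inl ⟨k, l⟩)) z / fv (fun l : Fin (d k + 1) => v (Sum.inr ⟨k, l⟩)) z) ≠ 0
  crossZ : ∀ j k m, j ≠ i → k ≠ i → m ≠ i → j ≠ k → j ≠ m → k ≠ m → ∀ z,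
    fv (fun l : Fin (d j + 1) => v (Sum.inr ⟨j, l⟩)) z = 0 →
    ¬ IsSquare (dd (fv (fun l : Fin (d k + 1) => v (Sum.inl ⟨k, l⟩)) z / fv (fun l : Fin (d k + 1) => v (Sum.inr ⟨k, l⟩)) z) *
      dd (fv (fun l : Fin (d m + 1) => v (Sum.inl ⟨m, l⟩)) z / fv (fun l : Fin (d m + 1) => v (Sum.inr ⟨m, l⟩)) z))

lemma locV_of {dd : ZMod p → ℤ} {Δ : Fin n → ℤ} {i : Fin n} {v : IX d → ZMod p} {y : PX d → ZMod p}
    (hy : GoodY dd Δ y) (hA : ∀ j, j ≠ i → ∀ k, v (Sum.inl ⟨j, k⟩) = y (Sum.inl ⟨j, k⟩))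
    (hB : ∀ j, ∀ k, v (Sum.inr ⟨j, k⟩) = (BP y j).coeff (k : ℕ)) : LocV dd Δ i v := by
  have hlast : ∀ j, v (Sum.inr ⟨j, Fin.last _⟩) = y (Sum.inr (Sum.inl j)) := by
    intro j
    rw [hB j, Fin.val_last, BP_coeff_last]
  have hri : ∀ j, j ≠ i → v (Sum.inl ⟨j, Fin.last _⟩) / v (Sum.inr ⟨j, Fin.last _⟩) = ri y j := by
    intro j hj
    rw [hlast j, hA j hj]
    rfl
  have hfB : ∀ j, j ≠ i → ∀ z, fv (fun l : Fin (d j + 1) => v (Sum.inr ⟨j, l⟩)) z = dz y j z := by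
    intro j hj z
    rw [← BP_fv]
    congr 1
    funext k
    exact hB j k
  have hfA : ∀ j, j ≠ i → ∀ z, fv (fun l : Fin (d j + 1) => v (Sum.inl ⟨j, l⟩)) z =
      ∑ l : Fin (d j + 1), y (Sum.inl ⟨j, l⟩) * z ^ (l : ℕ) := by
    intro j hj z
    unfold fv
    refine sum_congr rfl fun k _ => ?_
    simp only [hA j hj]
  have hrz : ∀ j, j ≠ i → ∀ z, fv (fun l : Fin (d j + 1) => v (Sum.inl ⟨j, l⟩)) z /
      fv (fun l : Fin (d j + 1) => v (Sum.inr ⟨j, l⟩)) z = rz y j z := by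
    intro j hj z
    rw [hfA j hj, hfB j hj]
    rfl
  refine ⟨?_, ?_, ?_, ?_, ?_, ?_, ?_, ?_⟩
  · intro j
    rw [hlast j]
    exact hy.lead j
  · intro j hj
    refine ⟨(univ : Finset (Fin (d j))).val.map fun l => y (Sum.inr (Sum.inr ⟨j, l⟩)), ?_⟩
    have h1 : ∑ k : Fin (d j + 1), Polynomial.C (v (Sum.inr ⟨j, k⟩)) * Polynomial.X ^ (k : ℕ) = BP y j := by
      rw [← BP_sum]
      refine sum_congr rfl fun k _ => ?_
      rw [hB j]
    rw [h1, hlast j, Multiset.map_map]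
    rfl
  · intro j k hj hk hjk z h1 h2
    rw [hfB j hj] at h1
    rw [hfB k hk] at h2
    obtain ⟨l, hl⟩ := dz_eq_zero y j (hy.lead j) z h1
    obtain ⟨m, hm⟩ := dz_eq_zero y k (hy.lead k) z h2
    exact hy.nocommon ⟨j, l⟩ ⟨k, m⟩ hjk (hl.symm.trans hm)
  · intro j hj
    rw [hri j hj]
    exact hy.infO j
  · intro j hj
    rw [hri j hj]
    exact hy.infD j
  · intro j k hj hk hjk
    rw [hri j hj, hri k hk]
    exact hy.infC j k hjk
  · intro j k hj hk hjk z h1
    rw [hfB j hj] at h1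
    rw [hrz k hk]
    obtain ⟨l, rfl⟩ := dz_eq_zero y j (hy.lead j) z h1
    exact hy.zO ⟨j, l⟩ k hjk
  · intro j k m hj hk hm hjk hjm hkm z h1
    rw [hfB j hj] at h1
    rw [hrz k hk, hrz m hm]
    obtain ⟨l, rfl⟩ := dz_eq_zero y j (hy.lead j) z h1
    exact hy.zC ⟨j, l⟩ k m hjk hjm hkm

/-- the residues of the coefficients -/
noncomputable def toV (y : PX d → ZMod p) : IX d → ZMod p
  | Sum.inl s => y (Sum.inl s)
  | Sum.inr s => (BP y s.1).coeff (s.2 : ℕ)

/-- numerators and denominators of the coefficients -/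
noncomputable def toX (s₀ : Co d) (y : PX d → ZMod p) (u : IX d → ZMod p) : IX d ⊕ IX d → ZMod p
  | Sum.inl s => if s = Sum.inl s₀ then u s else toV y s * u s
  | Sum.inr s => if s = Sum.inl s₀ then 0 else u s

/-- values of the coefficients -/
def vl (x : IX d ⊕ IX d → ZMod p) (s : IX d) : ZMod p := x (Sum.inl s) / x (Sum.inr s)

/-- no coordinate vanishes -/
def NZ (u : IX d → ZMod p) : Prop := ∀ s, u s ≠ 0

/-- the coordinate `s` vanishes -/
def ZC (s : IX d) (u : IX d → ZMod p) : Prop := u s = 0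

lemma vl_toX (s₀ : Co d) (y : PX d → ZMod p) (u : IX d → ZMod p) (hu : ∀ s, u s ≠ 0) (s : IX d)
    (hs : s ≠ Sum.inl s₀) : vl (toX s₀ y u) s = toV y s := by
  unfold vl toX
  simp only [if_neg hs]
  rw [mul_div_cancel_right₀ _ (hu s)]

open Classical in
lemma toX_mem (dd : ZMod p → ℤ) (Δ : Fin n → ℤ) (i : Fin n) (y : PX d → ZMod p) (u : IX d → ZMod p)
    (hy : GoodY dd Δ y) (hu : ∀ s, u s ≠ 0) :
    toX ⟨i, 0⟩ y u ∈ (boxS (Sum.inl ⟨i, 0⟩ : IX d) p).filter fun x => LocV dd Δ i (vl x) := by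
  rw [mem_filter, mem_boxS]
  refine ⟨⟨?_, ?_, ?_⟩, ?_⟩
  · simp [toX]
  · simp only [toX, if_true]
    exact hu _
  · intro s hs
    simp only [toX, if_neg hs]
    exact hu s
  · refine locV_of hy (fun j hj k => ?_) fun j k => ?_
    · rw [vl_toX _ _ _ hu _ (by
        intro h
        exact hj (congrArg Sigma.fst (Sum.inl.inj h)))]
      rfl
    · rw [vl_toX _ _ _ hu _ (by simp)]
      rfl

open Classical in
lemma toX_fiber (dd : ZMod p → ℤ) (Δ : Fin n → ℤ) (s₀ : Co d) (x : IX d ⊕ IX d → ZMod p) :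
    ((((univ : Finset (PX d → ZMod p)).filter (GoodY dd Δ)) ×ˢ
      ((univ : Finset (IX d → ZMod p)).filter NZ)).filter fun yu => toX s₀ yu.1 yu.2 = x).card ≤
      p * ∏ a : Rt d, d a.1 := by
  let Y : PX d → Finset (ZMod p) := fun s => Sum.elim (fun s => if s = s₀ then univ else {vl x (Sum.inl s)})
    (Sum.elim (fun j => {vl x (Sum.inr ⟨j, Fin.last _⟩)}) fun a =>
      (∑ k : Fin (d a.1 + 1), Polynomial.C (vl x (Sum.inr ⟨a.1, k⟩)) * Polynomial.X ^ (k : ℕ)).roots.toFinset) s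
  let U : IX d → Finset (ZMod p) := fun s => {if s = Sum.inl s₀ then x (Sum.inl s) else x (Sum.inr s)}
  have hsub : ((((univ : Finset (PX d → ZMod p)).filter (GoodY dd Δ)) ×ˢ
      ((univ : Finset (IX d → ZMod p)).filter NZ)).filter fun yu => toX s₀ yu.1 yu.2 = x) ⊆
      (Fintype.piFinset Y) ×ˢ (Fintype.piFinset U) := by
    rintro ⟨y, u⟩ h
    rw [mem_filter, mem_product, mem_filter, mem_filter] at h
    obtain ⟨⟨⟨_, hy⟩, _, hu⟩, rfl⟩ := h
    rw [mem_product, Fintype.mem_piFinset, Fintype.mem_piFinset]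
    simp only at hy hu ⊢
    refine ⟨?_, ?_⟩
    · rintro (s | j | a)
      · simp only [Y, Sum.elim_inl]
        by_cases hs : s = s₀
        · rw [if_pos hs]
          exact mem_univ _
        · rw [if_neg hs, mem_singleton, vl_toX _ _ _ hu _ (fun h => hs (Sum.inl.inj h))]
          rfl
      · simp only [Y, Sum.elim_inl, Sum.elim_inr]
        rw [mem_singleton, vl_toX _ _ _ hu _ (by simp)]
        simp only [toV, Fin.val_last]
        rw [BP_coeff_last]
      · simp only [Y, Sum.elim_inr]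
        have h1 : ∑ k : Fin (d a.1 + 1), Polynomial.C (vl (toX s₀ y u) (Sum.inr ⟨a.1, k⟩)) * Polynomial.X ^ (k : ℕ) =
            BP y a.1 := by
          rw [← BP_sum]
          refine sum_congr rfl fun k _ => ?_
          rw [vl_toX _ _ _ hu _ (by simp)]
          rfl
        rw [h1, Multiset.mem_toFinset, Polynomial.mem_roots, Polynomial.IsRoot.def, BP_eval]
        · unfold dz
          rw [prod_eq_zero (mem_univ a.2), mul_zero]
          rw [sub_eq_zero]
        · intro h0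
          refine hy.lead a.1 ?_
          rw [← BP_coeff_last y a.1, h0, Polynomial.coeff_zero]
    · intro s
      simp only [U, mem_singleton]
      by_cases hs : s = Sum.inl s₀
      · rw [if_pos hs]
        simp only [toX, if_pos hs]
      · rw [if_neg hs]
        simp only [toX, if_neg hs]
  refine (card_le_card hsub).trans ?_
  rw [card_product, Fintype.card_piFinset, Fintype.card_piFinset]
  have hU : ∏ s : IX d, (U s).card = 1 := prod_eq_one fun s _ => card_singleton _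
  rw [hU, mul_one, Fintype.prod_sum_type, Fintype.prod_sum_type]
  have h1 : ∏ s : Co d, (Y (Sum.inl s)).card = p := by
    have h2 : ∀ s : Co d, (Y (Sum.inl s)).card = if s = s₀ then p else 1 := by
      intro s
      simp only [Y, Sum.elim_inl]
      by_cases hs : s = s₀
      · rw [if_pos hs, if_pos hs, card_univ, ZMod.card]
      · rw [if_neg hs, if_neg hs, card_singleton]
    rw [prod_congr rfl fun s _ => h2 s, prod_ite_eq' univ s₀ fun _ => p, if_pos (mem_univ _)]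
  have h2 : ∏ j : Fin n, (Y (Sum.inr (Sum.inl j))).card = 1 := prod_eq_one fun s _ => card_singleton _
  have h3 : ∏ a : Rt d, (Y (Sum.inr (Sum.inr a))).card ≤ ∏ a : Rt d, d a.1 := by
    refine prod_le_prod' fun a _ => ?_
    simp only [Y, Sum.elim_inr]
    refine (Multiset.toFinset_card_le _).trans ((Polynomial.card_roots' _).trans ?_)
    refine Polynomial.natDegree_sum_le_of_forall_le _ _ fun k _ => ?_
    refine (Polynomial.natDegree_C_mul_X_pow_le _ _).trans ?_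
    have := k.2
    omega
  rw [h1, h2, one_mul]
  exact Nat.mul_le_mul_left _ h3

open Classical in
lemma card_nonzero (hp : 2 * Fintype.card (IX d) ≤ p) :
    p ^ Fintype.card (IX d) ≤ 2 * ((univ : Finset (IX d → ZMod p)).filter NZ).card := by
  refine union_events (β := IX d) ZC 1 NZ ?_ ?_ (by omega)
  · intro u hu
    unfold NZ at hu
    push Not at hu
    exact hu
  · intro s
    refine fiber_univ s _ 1 fun u => card_le_one.mpr ?_
    intro v hv v' hv'
    have h1 := (mem_filter.mp hv).2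
    have h2 := (mem_filter.mp hv').2
    unfold ZC at h1 h2
    rw [Function.update_self] at h1 h2
    rw [h1, h2]

open Classical in
lemma card_locV (dd : ZMod p → ℤ) (Δ : Fin n → ℤ) (hΔ : ∀ j, Δ j ≠ 0) (i : Fin n) (B : ℕ) (hB : 0 < B)
    (hd : ∀ D : ℤ, D ≠ 0 → ∀ P : ZMod p → Prop, (∀ α, P α → dd α = 0 ∨ IsSquare (D * dd α)) →
      ((univ : Finset (ZMod p)).filter P).card ≤ B)
    (hp : 2 * (Fintype.card (EvR n d) * B) ≤ p) (hp2 : 2 * Fintype.card (IX d) ≤ p) :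
    p ^ (2 * Fintype.card (IX d)) ≤ (4 * ∏ a : Rt d, d a.1) * p *
      ((boxS (Sum.inl ⟨i, 0⟩ : IX d) p).filter fun x => LocV dd Δ i (vl x)).card := by
  have h1 := card_goodY (d := d) dd Δ hΔ B hB hd hp
  have h2 := card_nonzero (d := d) hp2
  rw [card_PX] at h1
  set G := ((univ : Finset (PX d → ZMod p)).filter (GoodY dd Δ)) ×ˢ
      ((univ : Finset (IX d → ZMod p)).filter NZ) with hG
  have h3 : p ^ (2 * Fintype.card (IX d)) ≤ 4 * G.card := by
    rw [hG, card_product, two_mul, pow_add]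
    calc _ ≤ (2 * ((univ : Finset (PX d → ZMod p)).filter (GoodY dd Δ)).card) *
          (2 * ((univ : Finset (IX d → ZMod p)).filter NZ).card) := Nat.mul_le_mul h1 h2
      _ = _ := by ring
  have h4 : G.card ≤ (p * ∏ a : Rt d, d a.1) * (G.image fun yu => toX ⟨i, 0⟩ yu.1 yu.2).card :=
    card_le_mul_card_image _ _ fun x _ => toX_fiber dd Δ ⟨i, 0⟩ x
  have h5 : (G.image fun yu => toX ⟨i, 0⟩ yu.1 yu.2) ⊆
      (boxS (Sum.inl ⟨i, 0⟩ : IX d) p).filter fun x => LocV dd Δ i (vl x) := by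
    intro x hx
    rw [mem_image] at hx
    obtain ⟨⟨y, u⟩, h, rfl⟩ := hx
    rw [hG, mem_product, mem_filter, mem_filter] at h
    exact toX_mem dd Δ i y u h.1.2 h.2.2
  calc p ^ (2 * Fintype.card (IX d)) ≤ 4 * G.card := h3
    _ ≤ 4 * ((p * ∏ a : Rt d, d a.1) * (G.image fun yu => toX ⟨i, 0⟩ yu.1 yu.2).card) := Nat.mul_le_mul_left _ h4
    _ ≤ 4 * ((p * ∏ a : Rt d, d a.1) *
        ((boxS (Sum.inl ⟨i, 0⟩ : IX d) p).filter fun x => LocV dd Δ i (vl x)).card) :=
        Nat.mul_le_mul_left _ (Nat.mul_le_mul_left _ (card_le_card h5))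
    _ = _ := by ring

end params

section final

variable {n : ℕ} {d : Fin n → ℕ}

/-- the vector of all coefficients -/
def flat (c : (i : Fin n) → Fin (d i + 1) → ℚ × ℚ) : IX d → ℚ
  | Sum.inl s => (c s.1 s.2).1
  | Sum.inr s => (c s.1 s.2).2

/-- the system of rational functions with given vector of coefficients -/
def unflat (c : IX d → ℚ) (i : Fin n) (k : Fin (d i + 1)) : ℚ × ℚ := (c (Sum.inl ⟨i, k⟩), c (Sum.inr ⟨i, k⟩))

lemma unflat_injective : Function.Injective (unflat : (IX d → ℚ) → _) := by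
  intro c c' h
  funext s
  rcases s with ⟨i, k⟩ | ⟨i, k⟩
  · exact congrArg Prod.fst (congrFun (congrFun h i) k)
  · exact congrArg Prod.snd (congrFun (congrFun h i) k)

lemma unflat_flat (c : (i : Fin n) → Fin (d i + 1) → ℚ × ℚ) : unflat (flat c) = c := rfl

lemma locR_of {p : ℕ} [Fact p.Prime] (hp2 : p ≠ 2) (dd : ZMod p → ℤ) (Δ : Fin n → ℤ) (i : Fin n) (c : IX d → ℚ)
    (h1 : (fun k => (toInt c k : ZMod p)) ∈ boxS (Sum.inl ⟨i, 0⟩ : IX d) p)
    (h2 : LocV dd Δ i (vl fun k => (toInt c k : ZMod p))) : LocR d p dd (unflat c) i := by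
  have hp : p.Prime := Fact.out
  rw [mem_boxS] at h1
  obtain ⟨h3, h4, h5⟩ := h1
  simp only [toInt, Sum.elim_inl, Sum.elim_inr] at h3 h4 h5
  have hv : ∀ s : IX d, vl (fun k => (toInt c k : ZMod p)) s = redQ p (c s) := by
    intro s
    simp [vl, redQ, toInt]
  have h5' : ∀ s : IX d, s ≠ Sum.inl ⟨i, 0⟩ → ¬ p ∣ (c s).den := by
    intro s hs h
    refine h5 s hs ?_
    have := (ZMod.natCast_eq_zero_iff (c s).den p).mpr h
    simpa using this
  refine ⟨hp2, ?_, ?_, ?_, ?_, ?_, ?_, ?_, ?_, ?_, ?_⟩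
  · refine (ZMod.natCast_eq_zero_iff _ p).mp ?_
    simpa [unflat] using h3
  · intro j k hjk
    exact h5' (Sum.inl ⟨j, k⟩) fun h => hjk (Sum.inl.inj h)
  · intro j k
    exact h5' (Sum.inr ⟨j, k⟩) (by simp)
  · intro j
    have := h2.lead j
    rwa [hv] at this
  · intro j hj
    have := h2.split j hj
    simp only [hv] at this
    exact this
  · intro j k hj hk hjk
    have := h2.nocommon j k hj hk hjk
    simp only [hv] at this
    exact this
  · intro j hj
    have := h2.ordInf j hj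
    simp only [hv] at this
    exact this
  · intro j k hj hk hjk
    have := h2.crossInf j k hj hk hjk
    simp only [hv] at this
    exact this
  · intro j k hj hk hjk
    have := h2.ordZ j k hj hk hjk
    simp only [hv] at this
    exact this
  · intro j k m hj hk hm hjk hjm hkm
    have := h2.crossZ j k m hj hk hm hjk hjm hkm
    simp only [hv] at this
    exact this

open Classical in
/-- almost all systems of rational functions with rational coefficients have two good private primes in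
every coordinate, with independent residual discriminants at infinity -/
theorem density_ratR {n : ℕ} (d : Fin n → ℕ) (hd1 : ∀ i, 1 ≤ d i) (dd : ∀ p : ℕ, ZMod p → ℤ)
    (hdd : ∀ ε : ℝ, 0 < ε → ∃ p₀ : ℕ, ∀ p : ℕ, ∀ (_ : Fact p.Prime), p₀ ≤ p → ∀ D : ℤ, D ≠ 0 →
      (((Finset.univ : Finset (ZMod p)).filter fun α => dd p α = 0 ∨ IsSquare (D * dd p α)).card : ℝ) ≤ ε * p)
    (Good : ((i : Fin n) → Fin (d i + 1) → ℚ × ℚ) → Prop)
    (hGood : ∀ c : (i : Fin n) → Fin (d i + 1) → ℚ × ℚ, (∀ i, ∃ (p q : ℕ) (_ : Fact p.Prime) (_ : Fact q.Prime), p ≠ q ∧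
      LocR d p (dd p) c i ∧ LocR d q (dd q) c i ∧ ∀ j, j ≠ i →
        ¬ IsSquare (dd p (redQ p (c j (Fin.last _)).1 / redQ p (c j (Fin.last _)).2) *
          dd q (redQ q (c j (Fin.last _)).1 / redQ q (c j (Fin.last _)).2))) → Good c) :
    Tendsto (fun H : ℕ => ((boxR d H ∩ {c | ¬ Good c}).ncard : ℝ) / (boxR d H).ncard) atTop (𝓝 0) := by
  set K : ℕ := Fintype.card (EvR n d) with hK
  obtain ⟨p₀, hp₀⟩ := hdd (1 / (2 * ((K : ℝ) + 1))) (by positivity)
  set P₀ : ℕ := p₀ + 2 * (K + 1) + 2 * Fintype.card (IX d) + 2 with hP₀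
  have hC : 0 < 4 * ∏ a : Rt d, d a.1 := Nat.mul_pos (by norm_num) (prod_pos fun a _ => hd1 a.1)
  have hkey : ∀ p : Nat.Primes, P₀ < (p : ℕ) → ∀ Δ : Fin n → ℤ, (∀ j, Δ j ≠ 0) → ∀ i : Fin n,
      (p : ℕ) ^ (2 * Fintype.card (IX d)) ≤ (4 * ∏ a : Rt d, d a.1) * (p : ℕ) *
        ((boxS (Sum.inl ⟨i, 0⟩ : IX d) (p : ℕ)).filter fun x => LocV (dd p) Δ i (vl x)).card := by
    intro p hpP Δ hΔ i
    have hpR : ((2 * (K + 1) : ℕ) : ℝ) ≤ (p : ℝ) := by
      exact_mod_cast (by omega : 2 * (K + 1) ≤ (p : ℕ))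
    push_cast at hpR
    have hfl : (⌊1 / (2 * ((K : ℝ) + 1)) * (p : ℝ)⌋₊ : ℝ) ≤ 1 / (2 * ((K : ℝ) + 1)) * (p : ℝ) :=
      Nat.floor_le (by positivity)
    refine card_locV (d := d) (dd p) Δ hΔ i ⌊1 / (2 * ((K : ℝ) + 1)) * (p : ℝ)⌋₊ ?_ ?_ ?_ (by omega)
    · rw [Nat.floor_pos, one_div_mul_eq_div, le_div_iff₀ (by positivity)]
      linarith
    · intro D hD P hP
      refine Nat.le_floor (le_trans ?_ (hp₀ p inferInstance (by omega) D hD))
      refine Nat.cast_le.mpr (card_le_card ?_)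
      intro α hα
      rw [mem_filter] at hα ⊢
      exact ⟨hα.1, hP α hα.2⟩
    · have h2 : (2 * ((K : ℝ) * (⌊1 / (2 * ((K : ℝ) + 1)) * (p : ℝ)⌋₊ : ℝ))) ≤ (p : ℝ) := by
        have h3 : ((K : ℝ) + 1) * (1 / (2 * ((K : ℝ) + 1)) * (p : ℝ)) = (p : ℝ) / 2 := by
          field_simp
        have h4 : ((K : ℝ) + 1) * (⌊1 / (2 * ((K : ℝ) + 1)) * (p : ℝ)⌋₊ : ℝ) ≤ (p : ℝ) / 2 := by
          rw [← h3]
          exact mul_le_mul_of_nonneg_left hfl (by positivity)
        have h5 : (0 : ℝ) ≤ (⌊1 / (2 * ((K : ℝ) + 1)) * (p : ℝ)⌋₊ : ℝ) := Nat.cast_nonneg _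
        nlinarith
      exact_mod_cast h2
  let Δ₂ : ∀ p : Nat.Primes, (IX d ⊕ IX d → ZMod (p : ℕ)) → Fin n → ℤ := fun p x j =>
    if dd p (vl x (Sum.inl ⟨j, Fin.last _⟩) / vl x (Sum.inr ⟨j, Fin.last _⟩)) = 0 then 1 else
      dd p (vl x (Sum.inl ⟨j, Fin.last _⟩) / vl x (Sum.inr ⟨j, Fin.last _⟩))
  have hΔ₂ : ∀ p x j, Δ₂ p x j ≠ 0 := by
    intro p x j
    simp only [Δ₂]
    split_ifs with h
    · exact one_ne_zero
    · exact h
  have hPP : ¬ Summable fun p : (Set.univ : Set Nat.Primes) => (1 : ℝ) / (((p : Nat.Primes) : ℕ) : ℝ) := by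
    intro h
    have h2 := (Equiv.Set.univ Nat.Primes).symm.summable_iff.mpr h
    exact Nat.Primes.not_summable_one_div h2
  have hden := density_pair (ι := IX d) (J := Fin n) (fun c => Good (unflat c)) Set.univ hPP
    (4 * ∏ a : Rt d, d a.1) hC
    (fun p i => (boxS (Sum.inl ⟨i, 0⟩ : IX d) (p : ℕ)).filter fun x => LocV (dd p) (fun _ => 1) i (vl x))
    (fun p x q i => (boxS (Sum.inl ⟨i, 0⟩ : IX d) (q : ℕ)).filter fun y => LocV (dd q) (Δ₂ p x) i (vl y))
    (fun _ => P₀) P₀ (fun p _ hpP i => hkey p hpP _ (fun _ => one_ne_zero) i)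
    (fun p _ _ i x _ q _ hqP => hkey q hqP _ (hΔ₂ p x) i) (by
      intro c hc
      apply hGood
      intro i
      obtain ⟨p, _, q, _, hpq, hpP, hqP, h1, h2⟩ := hc i
      rw [mem_filter] at h1 h2
      refine ⟨p, q, inferInstance, inferInstance, fun h => hpq (Subtype.ext h),
        locR_of (by omega) _ _ i c h1.1 h1.2, locR_of (by omega) _ _ i c h2.1 h2.2, ?_⟩
      intro j hj
      have h3 := h2.2.delInf j hj
      have h4 := h1.2.ordInf j hj
      have hv : ∀ (p : Nat.Primes) (s : IX d), vl (fun k => (toInt c k : ZMod (p : ℕ))) s = redQ (p : ℕ) (c s) := by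
        intro p s
        simp [vl, redQ, toInt]
      simp only [Δ₂, if_neg h4, hv] at h3
      exact h3)
  refine hden.congr fun H => ?_
  have habs : ∀ (z : ℤ), z.natAbs ≤ H ↔ |z| ≤ (H : ℤ) := by
    intro z
    rw [Int.abs_eq_natAbs]
    exact_mod_cast Iff.rfl
  have e1 : boxR d H = unflat '' {c : IX d → ℚ | ∀ s, (c s).num.natAbs ≤ H ∧ (c s).den ≤ H} := by
    ext c
    constructor
    · intro hc
      refine ⟨flat c, ?_, unflat_flat c⟩
      rintro (s | s)
      · exact ⟨(habs _).mpr (hc s.1 s.2).1, (hc s.1 s.2).2.1⟩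
      · exact ⟨(habs _).mpr (hc s.1 s.2).2.2.1, (hc s.1 s.2).2.2.2⟩
    · rintro ⟨c, hc, rfl⟩ i k
      exact ⟨(habs _).mp (hc (Sum.inl ⟨i, k⟩)).1, (hc (Sum.inl ⟨i, k⟩)).2, (habs _).mp (hc (Sum.inr ⟨i, k⟩)).1,
        (hc (Sum.inr ⟨i, k⟩)).2⟩
  have e2 : boxR d H ∩ {c | ¬ Good c} =
      unflat '' {c : IX d → ℚ | (∀ s, (c s).num.natAbs ≤ H ∧ (c s).den ≤ H) ∧ ¬ Good (unflat c)} := by
    rw [e1]
    ext c
    constructor
    · rintro ⟨⟨c, hc, rfl⟩, hc'⟩
      exact ⟨c, ⟨hc, hc'⟩, rfl⟩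
    · rintro ⟨c, ⟨hc, hc'⟩, rfl⟩
      exact ⟨⟨c, hc, rfl⟩, hc'⟩
  rw [e2, e1, Set.ncard_image_of_injective _ unflat_injective, Set.ncard_image_of_injective _ unflat_injective]

end final

end Pool.Agent.ZPOrd
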