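import Mathlib

/-!
# The primes of norm a rational prime
-/

set_option autoImplicit false

open Finset NumberField Filter Topology

namespace Pool.Agent.ZPOrd

/-! ### Products over multisets -/

theorem sum_multiset_le {α : Type*} [DecidableEq α] (T : Finset α) (g : α → ℝ)
    (h0 : ∀ a ∈ T, 0 ≤ g a) (h1 : ∀ a ∈ T, g a < 1) (F : Finset (Multiset α))
    (hF : ∀ s ∈ F, ∀ a ∈ s, a ∈ T) :
    ∑ s ∈ F, (s.map g).prod ≤ ∏ a ∈ T, (1 - g a)⁻¹ := by
  obtain ⟨e, he⟩ : ∃ e : ℕ, ∀ s ∈ F, Multiset.card s < e := by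
    refine ⟨F.sup (fun s => Multiset.card s) + 1, fun s hs => ?_⟩
    exact Nat.lt_succ_of_le (Finset.le_sup (f := fun s => Multiset.card s) hs)
  have hprod : ∀ s ∈ F, (s.map g).prod = ∏ a : T, g a ^ s.count (a : α) := by
    intro s hs
    rw [Finset.prod_multiset_map_count, Finset.prod_coe_sort T (fun a => g a ^ s.count a)]
    refine Finset.prod_subset (fun a ha => hF s hs a (Multiset.mem_toFinset.1 ha)) ?_
    intro a _ ha
    rw [Multiset.count_eq_zero_of_notMem (fun h => ha (Multiset.mem_toFinset.2 h)), pow_zero]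
  have hinj : Set.InjOn (fun s : Multiset α => (fun a : T => s.count (a : α))) (F : Set (Multiset α)) := by
    intro s hs t ht hst
    ext a
    by_cases ha : a ∈ T
    · exact congrFun hst ⟨a, ha⟩
    · rw [Multiset.count_eq_zero_of_notMem (fun h => ha (hF s hs a h)),
        Multiset.count_eq_zero_of_notMem (fun h => ha (hF t ht a h))]
  calc ∑ s ∈ F, (s.map g).prod = ∑ s ∈ F, ∏ a : T, g a ^ s.count (a : α) :=
        Finset.sum_congr rfl hprod
    _ = ∑ x ∈ F.image (fun s : Multiset α => (fun a : T => s.count (a : α))), ∏ a : T, g a ^ x a := by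
        rw [Finset.sum_image hinj]
    _ ≤ ∑ x ∈ Fintype.piFinset (fun _ : T => range e), ∏ a : T, g a ^ x a := by
        refine Finset.sum_le_sum_of_subset_of_nonneg ?_ ?_
        · intro x hx
          obtain ⟨s, hs, rfl⟩ := Finset.mem_image.1 hx
          rw [Fintype.mem_piFinset]
          intro a
          rw [Finset.mem_range]
          exact (Multiset.count_le_card _ _).trans_lt (he s hs)
        · intro x _ _
          exact Finset.prod_nonneg fun a _ => pow_nonneg (h0 a a.2) _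
    _ = ∏ a : T, ∑ k ∈ range e, g a ^ k := by rw [Finset.prod_univ_sum]
    _ ≤ ∏ a : T, (1 - g a)⁻¹ := by
        refine Finset.prod_le_prod (fun a _ => Finset.sum_nonneg fun k _ => pow_nonneg (h0 a a.2) _) ?_
        intro a _
        rw [← tsum_geometric_of_lt_one (h0 a a.2) (h1 a a.2)]
        exact (summable_geometric_of_lt_one (h0 a a.2) (h1 a a.2)).sum_le_tsum _
          (fun k _ => pow_nonneg (h0 a a.2) _)
    _ = ∏ a ∈ T, (1 - g a)⁻¹ := Finset.prod_coe_sort T (fun a => (1 - g a)⁻¹)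

theorem inv_one_sub_le {x : ℝ} (h0 : 0 ≤ x) (h1 : x ≤ 1 / 2) : (1 - x)⁻¹ ≤ Real.exp (2 * x) := by
  have h2 : 1 + 2 * x ≤ Real.exp (2 * x) := by
    have := Real.add_one_le_exp (2 * x)
    linarith
  refine le_trans ?_ h2
  rw [inv_le_iff_one_le_mul₀ (by linarith)]
  nlinarith

variable (K : Type*) [Field K] [NumberField K]

/-! ### Prime ideals above a rational prime -/

theorem absNorm_natCast (p : ℕ) :
    Ideal.absNorm (Ideal.span {(p : 𝓞 K)}) = p ^ Module.finrank ℤ (𝓞 K) := by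
  rw [Ideal.absNorm_span_singleton, Algebra.norm_natCast, Int.natAbs_pow, Int.natAbs_natCast]

theorem exists_prime_pow {P : Ideal (𝓞 K)} (hP : P.IsPrime) (h0 : P ≠ ⊥) :
    ∃ p : ℕ, p.Prime ∧ ∃ f : ℕ, 1 ≤ f ∧ Ideal.absNorm P = p ^ f ∧ P ∣ Ideal.span {(p : 𝓞 K)} := by
  have hmem := Ideal.absNorm_mem P
  have hn0 : Ideal.absNorm P ≠ 0 := fun h => h0 (Ideal.absNorm_eq_zero_iff.1 h)
  have hn1 : Ideal.absNorm P ≠ 1 := fun h => hP.ne_top (Ideal.absNorm_eq_one_iff.1 h)
  -- a rational prime in `P`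
  have hex : ∃ p : ℕ, p.Prime ∧ (p : 𝓞 K) ∈ P := by
    have key : ∀ n : ℕ, n ≠ 0 → (n : 𝓞 K) ∈ P → ∃ p : ℕ, p.Prime ∧ (p : 𝓞 K) ∈ P := by
      intro n
      induction n using Nat.recOnMul with
      | zero => intro h; exact absurd rfl h
      | one =>
        intro _ h
        exfalso
        apply hP.ne_top
        rw [Ideal.eq_top_iff_one]
        simpa using h
      | prime p hp => exact fun _ h => ⟨p, hp, h⟩
      | mul a b ha hb =>
        intro hab h
        rw [Nat.cast_mul] at h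
        rcases hP.mem_or_mem h with h1 | h1
        · exact ha (left_ne_zero_of_mul hab) h1
        · exact hb (right_ne_zero_of_mul hab) h1
    exact key _ hn0 hmem
  obtain ⟨p, hp, hpP⟩ := hex
  have hdvd : P ∣ Ideal.span {(p : 𝓞 K)} := by
    rw [Ideal.dvd_span_singleton]
    exact hpP
  have h1 := map_dvd Ideal.absNorm hdvd
  rw [absNorm_natCast] at h1
  obtain ⟨f, -, hf⟩ := (Nat.dvd_prime_pow hp).1 h1
  refine ⟨p, hp, f, ?_, hf, hdvd⟩
  by_contra h
  have h2 : f = 0 := by omega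
  rw [h2, pow_zero] at hf
  exact hn1 hf

/-- The set of degree one primes, as a weight on `ℕ`. -/
noncomputable def wt (p : ℕ) : ℝ :=
  open Classical in if (p.Prime ∧ ∃ P : Ideal (𝓞 K), P.IsPrime ∧ Ideal.absNorm P = p) then 1 / (p : ℝ) else 0

theorem wt_nonneg (p : ℕ) : 0 ≤ wt K p := by
  unfold wt
  split_ifs
  · positivity
  · exact le_rfl

/-- At most `[K : ℚ]` primes lie above `p`. -/
theorem card_above {p : ℕ} (hp : p.Prime) (S : Finset (Ideal (𝓞 K)))
    (hS : ∀ P ∈ S, P.IsPrime ∧ P ≠ ⊥ ∧ P ∣ Ideal.span {(p : 𝓞 K)} ∧ p ∣ Ideal.absNorm P) :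
    S.card ≤ Module.finrank ℤ (𝓞 K) := by
  have h1 : ∏ P ∈ S, P ∣ Ideal.span {(p : 𝓞 K)} := by
    refine Finset.prod_primes_dvd _ (fun P hP => ?_) (fun P hP => (hS P hP).2.2.1)
    exact Ideal.prime_of_isPrime (hS P hP).2.1 (hS P hP).1
  have h2 := map_dvd Ideal.absNorm h1
  rw [absNorm_natCast, map_prod] at h2
  have h3 : p ^ S.card ∣ ∏ P ∈ S, Ideal.absNorm P := by
    rw [← Finset.prod_const]
    exact Finset.prod_dvd_prod_of_dvd _ _ fun P hP => (hS P hP).2.2.2
  exact (Nat.pow_dvd_pow_iff_le_right hp.one_lt).1 (h3.trans h2)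

theorem sum_primes_le (hs : Summable (wt K)) :
    ∃ C : ℝ, ∀ T : Finset (Ideal (𝓞 K)), (∀ P ∈ T, P.IsPrime ∧ P ≠ ⊥) →
      ∑ P ∈ T, 1 / (Ideal.absNorm P : ℝ) ≤ C := by
  classical
  have hs2 : Summable fun n : ℕ => 1 / (n : ℝ) ^ 2 := Real.summable_one_div_nat_pow.2 one_lt_two
  set d : ℝ := (Module.finrank ℤ (𝓞 K) : ℝ) with hd
  refine ⟨d * (∑' n, wt K n + ∑' n : ℕ, 1 / (n : ℝ) ^ 2), fun T hT => ?_⟩
  have hex : ∀ P : Ideal (𝓞 K), ∃ p : ℕ, P ∈ T → p.Prime ∧ ∃ f : ℕ, 1 ≤ f ∧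
      Ideal.absNorm P = p ^ f ∧ P ∣ Ideal.span {(p : 𝓞 K)} := by
    intro P
    by_cases h : P ∈ T
    · obtain ⟨p, hp⟩ := exists_prime_pow K (hT P h).1 (hT P h).2
      exact ⟨p, fun _ => hp⟩
    · exact ⟨0, fun h' => absurd h' h⟩
  choose pr hpr using hex
  rw [← Finset.sum_fiberwise_of_maps_to (s := T) (t := T.image pr) (g := pr)
    (fun P hP => Finset.mem_image_of_mem _ hP)]
  have hfib : ∀ p ∈ T.image pr, ∑ P ∈ T.filter (fun P => pr P = p), 1 / (Ideal.absNorm P : ℝ) ≤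
      d * (wt K p + 1 / (p : ℝ) ^ 2) := by
    intro p hp
    obtain ⟨P₀, hP₀, hP₀p⟩ := Finset.mem_image.1 hp
    have hpp : p.Prime := hP₀p ▸ (hpr P₀ hP₀).1
    have hp0 : (0 : ℝ) < p := by exact_mod_cast hpp.pos
    have hterm : ∀ P ∈ T.filter (fun P => pr P = p), 1 / (Ideal.absNorm P : ℝ) ≤
        wt K p + 1 / (p : ℝ) ^ 2 := by
      intro P hP
      rw [Finset.mem_filter] at hP
      obtain ⟨hPT, hPp⟩ := hP
      obtain ⟨-, f, hf, hN, -⟩ := hpr P hPT
      rw [hPp] at hN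
      rcases Nat.lt_or_ge 1 f with h | h
      · have h1 : (p : ℝ) ^ 2 ≤ (Ideal.absNorm P : ℝ) := by
          rw [hN]
          push_cast
          exact pow_le_pow_right₀ (by exact_mod_cast hpp.one_lt.le) h
        have h2 : 1 / (Ideal.absNorm P : ℝ) ≤ 1 / (p : ℝ) ^ 2 :=
          one_div_le_one_div_of_le (by positivity) h1
        have := wt_nonneg K p
        linarith
      · have h1 : f = 1 := by omega
        rw [h1, pow_one] at hN
        have h2 : wt K p = 1 / (p : ℝ) := by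
          unfold wt
          rw [if_pos ⟨hpp, P, (hT P hPT).1, hN⟩]
        rw [h2, hN]
        have : 0 ≤ 1 / (p : ℝ) ^ 2 := by positivity
        linarith
    refine (Finset.sum_le_card_nsmul _ _ _ hterm).trans ?_
    rw [nsmul_eq_mul]
    refine mul_le_mul_of_nonneg_right ?_ (add_nonneg (wt_nonneg K p) (by positivity))
    have hc := card_above K hpp (T.filter (fun P => pr P = p)) (by
      intro P hP
      rw [Finset.mem_filter] at hP
      obtain ⟨hPT, hPp⟩ := hP
      obtain ⟨-, f, hf, hN, hdvd⟩ := hpr P hPT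
      rw [hPp] at hN hdvd
      exact ⟨(hT P hPT).1, (hT P hPT).2, hdvd, by rw [hN]; exact dvd_pow_self p (by omega)⟩)
    rw [hd]
    exact_mod_cast hc
  refine (Finset.sum_le_sum hfib).trans ?_
  rw [← Finset.mul_sum, Finset.sum_add_distrib]
  refine mul_le_mul_of_nonneg_left (add_le_add ?_ ?_) (Nat.cast_nonneg _)
  · exact hs.sum_le_tsum _ fun n _ => wt_nonneg K n
  · exact hs2.sum_le_tsum _ fun n _ => by positivity

/-! ### The sum over all ideals -/

theorem sum_ideals_le (hs : Summable (wt K)) :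
    ∃ C : ℝ, ∀ F : Finset (Ideal (𝓞 K)), (∀ I ∈ F, I ≠ ⊥) → ∑ I ∈ F, 1 / (Ideal.absNorm I : ℝ) ≤ C := by
  classical
  obtain ⟨C, hC⟩ := sum_primes_le K hs
  refine ⟨Real.exp (2 * C), fun F hF => ?_⟩
  set g : Ideal (𝓞 K) → ℝ := fun P => 1 / (Ideal.absNorm P : ℝ) with hg
  set nf : Ideal (𝓞 K) → Multiset (Ideal (𝓞 K)) := fun I =>
    UniqueFactorizationMonoid.normalizedFactors I with hnf
  set T : Finset (Ideal (𝓞 K)) := F.biUnion (fun I => (nf I).toFinset) with hT
  have hTprime : ∀ P ∈ T, P.IsPrime ∧ P ≠ ⊥ := by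
    intro P hP
    rw [hT, Finset.mem_biUnion] at hP
    obtain ⟨I, -, hPI⟩ := hP
    rw [Multiset.mem_toFinset] at hPI
    have h1 := UniqueFactorizationMonoid.prime_of_normalized_factor P hPI
    exact ⟨Ideal.isPrime_of_prime h1, h1.ne_zero⟩
  have hg0 : ∀ P ∈ T, 0 ≤ g P := fun P _ => by rw [hg]; positivity
  have hghalf : ∀ P ∈ T, g P ≤ 1 / 2 := by
    intro P hP
    obtain ⟨hPp, hP0⟩ := hTprime P hP
    have h0 : Ideal.absNorm P ≠ 0 := fun h => hP0 (Ideal.absNorm_eq_zero_iff.1 h)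
    have h1 : Ideal.absNorm P ≠ 1 := fun h => hPp.ne_top (Ideal.absNorm_eq_one_iff.1 h)
    have h2 : (2 : ℝ) ≤ (Ideal.absNorm P : ℝ) := by exact_mod_cast (by omega : 2 ≤ Ideal.absNorm P)
    rw [hg]
    exact one_div_le_one_div_of_le (by norm_num) h2
  have hprod : ∀ I ∈ F, 1 / (Ideal.absNorm I : ℝ) = ((nf I).map g).prod := by
    intro I hI
    have h1 : (nf I).prod = I := Ideal.prod_normalizedFactors_eq_self (hF I hI)
    have h2 : ((nf I).map g).prod = 1 / (Ideal.absNorm ((nf I).prod) : ℝ) := by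
      rw [map_multiset_prod, ← Nat.coe_castRingHom, map_multiset_prod, Multiset.map_map]
      have h3 : g = fun P => ((Nat.castRingHom ℝ) ∘ Ideal.absNorm) P ^ (-1 : ℤ) := by
        ext P
        simp [hg]
      rw [h3, Multiset.prod_map_zpow]
      simp
    rw [h2, h1]
  have hinj : Set.InjOn nf (F : Set (Ideal (𝓞 K))) := by
    intro I hI J hJ hIJ
    rw [← Ideal.prod_normalizedFactors_eq_self (hF I hI),
      ← Ideal.prod_normalizedFactors_eq_self (hF J hJ)]
    exact congrArg Multiset.prod hIJ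
  have hmain := sum_multiset_le T g hg0 (fun P hP => by have := hghalf P hP; linarith) (F.image nf)
    (by
      intro s hs' P hP
      obtain ⟨I, hI, rfl⟩ := Finset.mem_image.1 hs'
      rw [hT, Finset.mem_biUnion]
      exact ⟨I, hI, Multiset.mem_toFinset.2 hP⟩)
  rw [Finset.sum_image hinj] at hmain
  rw [Finset.sum_congr rfl hprod]
  refine hmain.trans ?_
  calc ∏ P ∈ T, (1 - g P)⁻¹ ≤ ∏ P ∈ T, Real.exp (2 * g P) := by
        refine Finset.prod_le_prod (fun P hP => ?_) fun P hP => inv_one_sub_le (hg0 P hP) (hghalf P hP)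
        have := hghalf P hP
        exact inv_nonneg.2 (by linarith)
    _ = Real.exp (2 * ∑ P ∈ T, g P) := by rw [← Real.exp_sum, Finset.mul_sum]
    _ ≤ Real.exp (2 * C) := Real.exp_le_exp.2 (by have := hC T hTprime; linarith)

/-- the number of ideals of norm `n` -/
noncomputable def cnt (n : ℕ) : ℕ := Nat.card {I : Ideal (𝓞 K) // Ideal.absNorm I = n}

theorem sum_cnt_le (hs : Summable (wt K)) :
    ∃ C : ℝ, ∀ M : Finset ℕ, ∑ n ∈ M, (cnt K n : ℝ) / n ≤ C := by
  classical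
  obtain ⟨C, hC⟩ := sum_ideals_le K hs
  refine ⟨C, fun M => ?_⟩
  have hfin : ∀ n : ℕ, {I : Ideal (𝓞 K) | Ideal.absNorm I = n}.Finite := fun n =>
    Ideal.finite_setOfPred_absNorm_eq n
  set M' := M.erase 0 with hM'
  have h0 : ∑ n ∈ M, (cnt K n : ℝ) / n = ∑ n ∈ M', (cnt K n : ℝ) / n := by
    rw [hM', Finset.sum_erase]
    simp
  set F : Finset (Ideal (𝓞 K)) := M'.biUnion (fun n => (hfin n).toFinset) with hF
  have hdisj : (M' : Set ℕ).PairwiseDisjoint (fun n => (hfin n).toFinset) := by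
    intro n _ m _ hnm
    simp only [Function.onFun]
    rw [Finset.disjoint_left]
    intro I hI hI'
    rw [Set.Finite.mem_toFinset, Set.mem_setOf_eq] at hI hI'
    exact hnm (hI.symm.trans hI')
  have h1 := hC F (by
    intro I hI
    rw [hF, Finset.mem_biUnion] at hI
    obtain ⟨n, hn, hI⟩ := hI
    rw [Set.Finite.mem_toFinset, Set.mem_setOf_eq] at hI
    rintro rfl
    rw [Ideal.absNorm_bot] at hI
    exact (Finset.mem_erase.1 hn).1 hI.symm)
  rw [hF, Finset.sum_biUnion hdisj] at h1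
  rw [h0]
  refine le_trans (le_of_eq (Finset.sum_congr rfl fun n hn => ?_)) h1
  have h2 : ∀ I ∈ (hfin n).toFinset, 1 / (Ideal.absNorm I : ℝ) = 1 / (n : ℝ) := by
    intro I hI
    rw [Set.Finite.mem_toFinset, Set.mem_setOf_eq] at hI
    rw [hI]
  rw [Finset.sum_congr rfl h2, Finset.sum_const, nsmul_eq_mul]
  have h3 : cnt K n = (hfin n).toFinset.card := by
    rw [cnt, ← Set.ncard_eq_toFinset_card _ (hfin n)]
    rfl
  rw [h3]
  ring

/-- the primes of norm a rational prime -/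
theorem not_summable_degOne (K : Type*) [Field K] [NumberField K] :
    ¬ Summable fun p : {p : Nat.Primes // ∃ P : Ideal (NumberField.RingOfIntegers K), P.IsPrime ∧
      Ideal.absNorm P = (p : ℕ)} => (1 : ℝ) / ((p.1 : ℕ) : ℝ) := by
  intro hsum
  have hs : Summable (wt K) := by
    have hinj : Function.Injective (fun p : {p : Nat.Primes // ∃ P : Ideal (𝓞 K), P.IsPrime ∧
      Ideal.absNorm P = (p : ℕ)} => ((p.1 : Nat.Primes) : ℕ)) := by
      intro p q h
      exact Subtype.ext (Subtype.ext h)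
    rw [← hinj.summable_iff]
    · refine hsum.congr fun p => ?_
      simp only [Function.comp_apply]
      unfold wt
      rw [if_pos ⟨p.1.2, p.2⟩]
    · intro n hn
      unfold wt
      rw [if_neg]
      rintro ⟨hp, hP⟩
      exact hn ⟨⟨⟨n, hp⟩, hP⟩, rfl⟩
  obtain ⟨C, hC⟩ := sum_cnt_le K hs
  have hcs : Summable fun n : ℕ => (cnt K n : ℝ) / n :=
    summable_of_sum_le (fun n => by positivity) hC
  have hbound : ∀ s : ℝ, 1 < s → ‖dedekindZeta K s‖ ≤ ∑' n : ℕ, (cnt K n : ℝ) / n := by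
    intro s hs1
    rw [dedekindZeta, LSeries]
    refine tsum_of_norm_bounded hcs.hasSum fun n => ?_
    rw [LSeries.term_def]
    split_ifs with hn
    · rw [hn]
      simp
    · rw [norm_div, Complex.norm_natCast_cpow_of_pos (Nat.pos_of_ne_zero hn), Complex.ofReal_re]
      have hn1 : (1 : ℝ) ≤ n := by exact_mod_cast Nat.one_le_iff_ne_zero.2 hn
      have h1 : (n : ℝ) ≤ (n : ℝ) ^ s := by
        calc (n : ℝ) = (n : ℝ) ^ (1 : ℝ) := (Real.rpow_one _).symm
          _ ≤ _ := Real.rpow_le_rpow_of_exponent_le hn1 hs1.le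
      rw [Complex.norm_natCast]
      exact div_le_div_of_nonneg_left (Nat.cast_nonneg _) (by linarith) h1
  have hlim := tendsto_sub_one_mul_dedekindZeta_nhdsGT K
  have hzero : Tendsto (fun s : ℝ => ((s : ℂ) - 1) * dedekindZeta K s) (𝓝[>] 1) (𝓝 0) := by
    rw [tendsto_zero_iff_norm_tendsto_zero]
    have h1 : Tendsto (fun s : ℝ => |s - 1| * ∑' n : ℕ, (cnt K n : ℝ) / n) (𝓝[>] 1) (𝓝 0) := by
      have h2 : Tendsto (fun s : ℝ => |s - 1| * ∑' n : ℕ, (cnt K n : ℝ) / n) (𝓝 1)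
          (𝓝 (|1 - 1| * ∑' n : ℕ, (cnt K n : ℝ) / n)) := by
        apply Continuous.tendsto
        fun_prop
      rw [sub_self, abs_zero, zero_mul] at h2
      exact h2.mono_left nhdsWithin_le_nhds
    refine squeeze_zero' (Eventually.of_forall fun s => norm_nonneg _) ?_ h1
    filter_upwards [self_mem_nhdsWithin] with s hs1
    rw [norm_mul]
    have h3 : ‖(s : ℂ) - 1‖ = |s - 1| := by
      rw [← Complex.ofReal_one, ← Complex.ofReal_sub, Complex.norm_real, Real.norm_eq_abs]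
    rw [h3]
    exact mul_le_mul_of_nonneg_left (hbound s hs1) (abs_nonneg _)
  have h := tendsto_nhds_unique hlim hzero
  exact dedekindZeta_residue_ne_zero K (by exact_mod_cast h)

end Pool.Agent.ZPOrd
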