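import Mathlib
import Pool.Agent.ZPOrd.DegOne

/-!
Many primes which split in the field generated by finitely many complex numbers.
-/

namespace Pool.Agent.ZPOrd

open NumberField IsDedekindDomain

/-- a finitely generated algebra over the rational numbers maps to a number field -/
lemma exists_toNumberField (B : Type) [CommRing B] [Nontrivial B] [Algebra ℚ B] [Algebra.FiniteType ℚ B] :
    ∃ (K : Type) (_ : Field K) (_ : NumberField K), Nonempty (B →+* K) := by
  obtain ⟨m, hm⟩ := Ideal.exists_maximal B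
  let _ : Field (B ⧸ m) := Ideal.Quotient.field m
  have h1 : Algebra.FiniteType ℚ (B ⧸ m) :=
    Algebra.FiniteType.of_surjective (Ideal.Quotient.mkₐ ℚ m) (Ideal.Quotient.mkₐ_surjective ℚ m)
  have h2 : Module.Finite ℚ (B ⧸ m) := finite_of_finite_type_of_isJacobsonRing ℚ (B ⧸ m)
  have h3 : CharZero (B ⧸ m) := algebraRat.charZero (B ⧸ m)
  refine ⟨B ⧸ m, inferInstance, ?_, ⟨Ideal.Quotient.mk m⟩⟩
  refine { to_charZero := h3, to_finiteDimensional := ?_ }
  convert h2
  exact Subsingleton.elim _ _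

/-- the integers are dense modulo a prime of degree one -/
lemma exists_int_congr (K : Type) [Field K] [NumberField K] {p : ℕ} (hp : p.Prime) (P : Ideal (𝓞 K))
    (hP : P.IsPrime) (hN : Ideal.absNorm P = p) (u : 𝓞 K) : ∃ m : ℤ, u - (m : 𝓞 K) ∈ P := by
  have hfact : Fact p.Prime := ⟨hp⟩
  have hpP : (p : 𝓞 K) ∈ P := by
    rw [← hN]
    exact Ideal.absNorm_mem P
  have hcard : Nat.card (𝓞 K ⧸ P) = p := by
    rw [← hN, Ideal.absNorm_apply]
    rfl
  have hdom : IsDomain (𝓞 K ⧸ P) := Ideal.Quotient.isDomain P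
  have hfin : Finite (𝓞 K ⧸ P) := Nat.finite_of_card_ne_zero (by rw [hcard]; exact hp.ne_zero)
  have hchar : CharP (𝓞 K ⧸ P) p := by
    refine (CharP.charP_iff_prime_eq_zero hp).mpr ?_
    rw [← map_natCast (Ideal.Quotient.mk P)]
    exact Ideal.Quotient.eq_zero_iff_mem.mpr hpP
  let f : ZMod p →+* 𝓞 K ⧸ P := ZMod.castHom (dvd_refl p) _
  have hinj : Function.Injective f := f.injective
  have hbij : Function.Bijective f := by
    rw [Nat.bijective_iff_injective_and_card]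
    exact ⟨hinj, by rw [hcard, Nat.card_zmod]⟩
  obtain ⟨a, ha⟩ := hbij.2 (Ideal.Quotient.mk P u)
  have : NeZero p := ⟨hp.ne_zero⟩
  refine ⟨(a.val : ℤ), ?_⟩
  rw [← Ideal.Quotient.eq_zero_iff_mem, map_sub, sub_eq_zero, ← ha, map_intCast, ← map_intCast f]
  congr 1
  rw [Int.cast_natCast, ZMod.natCast_zmod_val]

/-- finitely many elements of a number field have a common denominator -/
lemma exists_denom (K : Type) [Field K] [NumberField K] (T : Finset K) :
    ∃ M : ℤ, M ≠ 0 ∧ ∀ x ∈ T, ∃ u : 𝓞 K, (u : K) = (M : K) * x := by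
  classical
  have h : ∀ x : K, ∃ M : ℤ, M ≠ 0 ∧ IsIntegral ℤ ((M : K) * x) := by
    intro x
    have hx : IsAlgebraic ℤ x := by
      rw [IsFractionRing.isAlgebraic_iff ℤ ℚ K]
      exact Algebra.IsAlgebraic.isAlgebraic x
    obtain ⟨y, hy, h⟩ := hx.exists_integral_multiple
    refine ⟨y, hy, ?_⟩
    rwa [zsmul_eq_mul] at h
  choose M hM0 hM using h
  refine ⟨∏ x ∈ T, M x, Finset.prod_ne_zero_iff.mpr fun x _ => hM0 x, fun x hx => ?_⟩
  refine ⟨⟨((∏ x ∈ T, M x : ℤ) : K) * x, ?_⟩, rfl⟩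
  rw [← Finset.prod_erase_mul T M hx]
  push_cast
  rw [mul_assoc]
  exact IsIntegral.mul (IsIntegral.prod _ fun y _ => isIntegral_algebraMap (R := ℤ) (A := K) (x := M y)) (hM x)

theorem exists_split_primes (S : Finset ℂ) : ∃ PP : Set Nat.Primes,
    (¬ Summable fun p : PP => (1 : ℝ) / (((p : Nat.Primes) : ℕ) : ℝ)) ∧
    ∀ p ∈ PP, ∃ V : ValuationSubring ℂ, V.valuation (((p : Nat.Primes) : ℕ) : ℂ) < 1 ∧
      ∀ s ∈ S, s ∈ V ∧ (s ≠ 0 → V.valuation s = 1) ∧ ∃ m : ℤ, V.valuation (s - m) < 1 := by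
  classical
  let S' : Finset ℂ := S ∪ S.image fun s => s⁻¹
  let B : Subalgebra ℚ ℂ := Algebra.adjoin ℚ (S' : Set ℂ)
  have hfg : B.FG := Subalgebra.fg_adjoin_finset S'
  have hft : Algebra.FiniteType ℚ B := (Subalgebra.fg_iff_finiteType B).mp hfg
  obtain ⟨K, _, _, ⟨φ⟩⟩ := exists_toNumberField B
  have hSB : ∀ s ∈ S', s ∈ B := fun s hs => Algebra.subset_adjoin hs
  let T : Finset K := S'.attach.image fun s => φ ⟨s.1, hSB s.1 s.2⟩
  obtain ⟨M, hM0, hM⟩ := exists_denom K T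
  have hdeg := not_summable_degOne K
  refine ⟨{p | (∃ P : Ideal (𝓞 K), P.IsPrime ∧ Ideal.absNorm P = (p : ℕ)) ∧ ¬ ((p : ℕ) : ℤ) ∣ M}, ?_, ?_⟩
  · intro hsum
    apply hdeg
    set D : Set Nat.Primes := {p | ∃ P : Ideal (𝓞 K), P.IsPrime ∧ Ideal.absNorm P = (p : ℕ)} with hD
    set E : Set Nat.Primes := {p | (∃ P : Ideal (𝓞 K), P.IsPrime ∧ Ideal.absNorm P = (p : ℕ)) ∧
      ¬ ((p : ℕ) : ℤ) ∣ M} with hE
    have h1 : Summable (E.indicator fun p : Nat.Primes => (1 : ℝ) / ((p : ℕ) : ℝ)) :=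
      summable_subtype_iff_indicator.mp hsum
    set F : Set Nat.Primes := {p : Nat.Primes | ((p : ℕ) : ℤ) ∣ M ∧ p ∈ D} with hF
    have h2 : Summable (F.indicator fun p : Nat.Primes => (1 : ℝ) / ((p : ℕ) : ℝ)) := by
      refine summable_of_hasFiniteSupport (Set.Finite.subset
        (Set.Finite.preimage (Subtype.val_injective.injOn) (Set.finite_Iic M.natAbs)) ?_)
      intro p hp
      have h3 : p ∈ F := by
        by_contra h
        exact hp (Set.indicator_of_notMem h _)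
      exact Nat.le_of_dvd (Int.natAbs_pos.mpr hM0) (Int.natCast_dvd.mp h3.1)
    have key : Summable ((fun p : Nat.Primes => (1 : ℝ) / ((p : ℕ) : ℝ)) ∘ ((↑) : D → Nat.Primes)) := by
     refine summable_subtype_iff_indicator.mpr ((h1.add h2).congr fun p => ?_)
     by_cases hpD : p ∈ D
     · by_cases hpM : ((p : ℕ) : ℤ) ∣ M
       · have h3 : p ∉ E := fun h => h.2 hpM
         have h4 : p ∈ F := ⟨hpM, hpD⟩
         rw [Set.indicator_of_notMem h3, Set.indicator_of_mem h4, Set.indicator_of_mem hpD, zero_add]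
       · have h3 : p ∈ E := ⟨hpD, hpM⟩
         have h4 : p ∉ F := fun h => hpM h.1
         rw [Set.indicator_of_mem h3, Set.indicator_of_notMem h4, Set.indicator_of_mem hpD, add_zero]
     · have h3 : p ∉ E := fun h => hpD h.1
       have h4 : p ∉ F := fun h => hpD h.2
       rw [Set.indicator_of_notMem h3, Set.indicator_of_notMem h4, Set.indicator_of_notMem hpD, add_zero]
    exact key
  · rintro p ⟨⟨P, hP, hN⟩, hpM⟩
    have hPbot : P ≠ ⊥ := by
      rintro rfl
      rw [Ideal.absNorm_bot] at hN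
      exact p.2.ne_zero hN.symm
    have hpP : ((p : ℕ) : 𝓞 K) ∈ P := by
      rw [← hN]
      exact Ideal.absNorm_mem P
    let v : HeightOneSpectrum (𝓞 K) := ⟨P, hP, hPbot⟩
    let W := v.valuation K
    have hWu : ∀ u : 𝓞 K, W (u : K) ≤ 1 := fun u => v.valuation_le_one u
    have hWP : ∀ u : 𝓞 K, W (u : K) < 1 ↔ u ∈ P := fun u => v.valuation_lt_one_iff_mem u
    obtain ⟨a, b, hab⟩ : IsCoprime (((p : ℕ) : ℤ)) M :=
      (Nat.prime_iff_prime_int.mp p.2).coprime_iff_not_dvd.mpr hpM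
    have hMP : (M : 𝓞 K) ∉ P := by
      intro h
      apply hP.ne_top
      rw [Ideal.eq_top_iff_one]
      have h2 : ((a * ((p : ℕ) : ℤ) + b * M : ℤ) : 𝓞 K) ∈ P := by
        push_cast
        exact P.add_mem (P.mul_mem_left _ hpP) (P.mul_mem_left _ h)
      rw [hab] at h2
      simpa using h2
    have hWM : W (M : K) = 1 := by
      have h1 : W (((M : 𝓞 K) : 𝓞 K) : K) = 1 := by
        refine le_antisymm (hWu _) (not_lt.mp fun h => hMP ((hWP _).mp h))
      simpa using h1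
    -- the subring of the elements which are integral at P
    let A : Subring ℂ := {
      carrier := {z | ∃ b : B, (b : ℂ) = z ∧ W (φ b) ≤ 1}
      mul_mem' := by
        rintro _ _ ⟨b, rfl, hb⟩ ⟨b', rfl, hb'⟩
        refine ⟨b * b', by simp, ?_⟩
        rw [map_mul, map_mul]
        exact mul_le_one' hb hb'
      one_mem' := ⟨1, by simp, by rw [map_one, map_one]⟩
      add_mem' := by
        rintro _ _ ⟨b, rfl, hb⟩ ⟨b', rfl, hb'⟩
        refine ⟨b + b', by simp, ?_⟩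
        rw [map_add]
        exact (W.map_add _ _).trans (max_le hb hb')
      zero_mem' := ⟨0, by simp, by rw [map_zero, map_zero]; exact zero_le⟩
      neg_mem' := by
        rintro _ ⟨b, rfl, hb⟩
        refine ⟨-b, by simp, ?_⟩
        rw [map_neg, Valuation.map_neg]
        exact hb }
    let I : Ideal A := {
      carrier := {z | ∃ b : B, (b : ℂ) = (z : ℂ) ∧ W (φ b) < 1}
      add_mem' := by
        rintro x y ⟨b, hbx, hb⟩ ⟨b', hby, hb'⟩
        refine ⟨b + b', by simp [hbx, hby], ?_⟩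
        rw [map_add]
        exact Valuation.map_add_lt W hb hb'
      zero_mem' := ⟨0, by simp, by rw [map_zero, map_zero]; exact zero_lt_one⟩
      smul_mem' := by
        rintro ⟨_, b, rfl, hb⟩ y ⟨b', hby, hb'⟩
        refine ⟨b * b', by simp [hby], ?_⟩
        rw [map_mul, map_mul]
        exact (mul_le_of_le_one_left' hb).trans_lt hb' }
    have hI : I ≠ ⊤ := by
      intro h
      have h1 : (1 : A) ∈ I := by rw [h]; trivial
      obtain ⟨b, hb, hb'⟩ := h1
      have : b = 1 := Subtype.ext (by simpa using hb)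
      rw [this, map_one, map_one] at hb'
      exact lt_irrefl _ hb'
    obtain ⟨V, hV1, hV2⟩ := Ideal.image_subset_nonunits_valuationSubring I hI
    have hAV : ∀ b : B, W (φ b) ≤ 1 → (b : ℂ) ∈ V := fun b hb => hV1 ⟨b, rfl, hb⟩
    have hIV : ∀ b : B, W (φ b) < 1 → V.valuation (b : ℂ) < 1 := by
      intro b hb
      have h1 : (b : ℂ) ∈ V.nonunits := hV2 ⟨⟨(b : ℂ), ⟨b, rfl, hb.le⟩⟩, ⟨b, rfl, hb⟩, rfl⟩
      exact h1
    have hres : ∀ s (hs : s ∈ S'), W (φ ⟨s, hSB s hs⟩) ≤ 1 ∧ ∃ m : ℤ, W (φ ⟨s, hSB s hs⟩ - (m : K)) < 1 := by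
      intro s hs
      obtain ⟨u, hu⟩ := hM (φ ⟨s, hSB s hs⟩) (Finset.mem_image.mpr ⟨⟨s, hs⟩, Finset.mem_attach _ _, rfl⟩)
      have h1 : W (φ ⟨s, hSB s hs⟩) = W (u : K) := by rw [hu, map_mul, hWM, one_mul]
      refine ⟨h1.le.trans (hWu u), ?_⟩
      obtain ⟨c, hc⟩ := exists_int_congr K p.2 P hP hN u
      refine ⟨c * b, ?_⟩
      have h2 : u - (M : 𝓞 K) * ((c * b : ℤ) : 𝓞 K) ∈ P := by
        have h3 : u - (M : 𝓞 K) * ((c * b : ℤ) : 𝓞 K) = (u - (c : 𝓞 K)) + ((c * a : ℤ) : 𝓞 K) * ((p : ℕ) : 𝓞 K) := by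
          have h4 : (((a * ((p : ℕ) : ℤ) + b * M : ℤ)) : 𝓞 K) = 1 := by rw [hab, Int.cast_one]
          push_cast at h4 ⊢
          linear_combination (-(c : 𝓞 K)) * h4
        rw [h3]
        exact P.add_mem hc (P.mul_mem_left _ hpP)
      have h3 := (hWP _).mpr h2
      have h4 : (((u - (M : 𝓞 K) * ((c * b : ℤ) : 𝓞 K) : 𝓞 K)) : K) = (M : K) * (φ ⟨s, hSB s hs⟩ - ((c * b : ℤ) : K)) := by
        rw [mul_sub, ← hu]
        simp
      rw [h4, map_mul, hWM, one_mul] at h3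
      exact h3
    refine ⟨V, ?_, fun s hs => ?_⟩
    · have h1 := hIV ((p : ℕ) : B) (by
        rw [map_natCast]
        have := (hWP ((p : ℕ) : 𝓞 K)).mpr hpP
        simpa using this)
      simpa using h1
    · have hsS : s ∈ S' := Finset.mem_union_left _ hs
      obtain ⟨h1, m, hm⟩ := hres s hsS
      have h2 : s ∈ V := hAV ⟨s, hSB s hsS⟩ h1
      refine ⟨h2, fun hs0 => ?_, m, ?_⟩
      · have hsi : s⁻¹ ∈ S' := Finset.mem_union_right _ (Finset.mem_image.mpr ⟨s, hs, rfl⟩)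
        have h3 : s⁻¹ ∈ V := hAV ⟨s⁻¹, hSB _ hsi⟩ (hres _ hsi).1
        refine le_antisymm ((V.valuation_le_one_iff _).mpr h2) ?_
        have h4 := (V.valuation_le_one_iff _).mpr h3
        rw [map_inv₀] at h4
        exact (inv_le_one₀ (zero_lt_iff.mpr (by rwa [Ne, map_eq_zero]))).mp h4
      · have h3 := hIV (⟨s, hSB s hsS⟩ - (m : B)) (by
          rw [map_sub, map_intCast]
          exact hm)
        simpa using h3

end Pool.Agent.ZPOrd
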