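import Mathlib

/-!
Ratios of members of linear systems: local conditions at a place.
-/

namespace Pool.Agent.ZPOrd

/-- good reduction data for the ratios `(∑ k, (c j k).1 * b j k) / (∑ k, (c j k).2 * b j k)` at a place
which is private for the coefficient `(c i l).1`, with residual discriminants `d` -/
structure RedT {n N : ℕ} (d : ∀ p : ℕ, ValuationSubring ℂ → ZMod p → ℤ) (S : Finset ℂ)
    (E : Fin n → Finset (Fin N → ℂ)) (HH : Fin n → Fin n → MvPolynomial (Fin N ⊕ Fin N) ℂ)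
    (c : Fin n → Fin N → ℂ × ℂ) (i : Fin n) (l : Fin N) (p : ℕ) (V : ValuationSubring ℂ)
    (ρ : Fin n → (Fin N → ℂ) → ℤ) : Prop where
  prime : p.Prime
  two : p ≠ 2
  val : V.valuation (p : ℂ) < 1
  memS : ∀ s ∈ S, s ∈ V
  large : (c i l).1 ∉ V
  memA : ∀ j k, (j, k) ≠ (i, l) → (c j k).1 ∈ V
  memB : ∀ j k, (c j k).2 ∈ V
  unit : ∀ j, ∀ e ∈ E j, V.valuation (∑ k, (c j k).2 * e k) = 1
  res : ∀ j, j ≠ i → ∀ e ∈ E j,
    V.valuation ((∑ k, (c j k).1 * e k) / (∑ k, (c j k).2 * e k) - (ρ j e : ℂ)) < 1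
  ord : ∀ j, j ≠ i → ∀ e ∈ E j, d p V (ρ j e : ZMod p) ≠ 0
  cross : ∀ j k, j ≠ i → k ≠ i → j ≠ k → ∀ e ∈ E j, ∀ e' ∈ E k,
    ¬ IsSquare (d p V (ρ j e : ZMod p) * d p V (ρ k e' : ZMod p))
  rel : ∀ j k, j ≠ i → k ≠ i → j ≠ k →
    V.valuation (MvPolynomial.eval (Sum.elim (fun m => (c j m).2) fun m => (c k m).2) (HH j k)) = 1

/-- the rational coefficient vectors of height at most `H` -/
def boxT (n N H : ℕ) : Set (Fin n → Fin N → ℚ × ℚ) :=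
  {c | ∀ i k, |(c i k).1.num| ≤ H ∧ (c i k).1.den ≤ H ∧ |(c i k).2.num| ≤ H ∧ (c i k).2.den ≤ H}

end Pool.Agent.ZPOrd
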