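import Mathlib
import Pool.Agent.ZPOrd.ThreeDefs
import Pool.Agent.ZPOrd.RatDens
import Pool.Agent.ZPOrd.Split
import Pool.Agent.ZP46.Resid
import Pool.Agent.Lib.ModularZP.LinDens

/-!
Almost all pairs of members of linear systems have two good private primes in every coordinate, with
independent residual discriminants.
-/

open Filter Topology

namespace Pool.Agent.ZPOrd

open Pool.Agent.Lib.ModularZP Pool.Agent.ZP46 Finset

section general

variable {p : ℕ} [Fact p.Prime]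

open Classical in
lemma zippel {κ : Type*} [Fintype κ] [hκ : DecidableEq κ] (F : MvPolynomial κ (ZMod p)) (hF : F ≠ 0)
    (P : (κ → ZMod p) → Prop) (hP : ∀ v, P v → MvPolynomial.eval v F = 0) :
    p * ((univ : Finset (κ → ZMod p)).filter P).card ≤ F.totalDegree * p ^ Fintype.card κ := by
  have hp0 : 0 < p := (Fact.out : p.Prime).pos
  set m := Fintype.card κ with hm
  let e : κ ≃ Fin m := Fintype.equivFin κ
  have hG : MvPolynomial.rename e F ≠ 0 := by
    intro h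
    exact hF (MvPolynomial.rename_injective e e.injective (by rw [h, map_zero]))
  have h1 := MvPolynomial.schwartz_zippel_totalDegree hG (univ : Finset (ZMod p))
  rw [card_univ, ZMod.card, Fintype.piFinset_univ] at h1
  have h2 : ((univ : Finset (κ → ZMod p)).filter P).card ≤
      ((univ : Finset (Fin m → ZMod p)).filter fun f => MvPolynomial.eval f (MvPolynomial.rename e F) = 0).card := by
    refine card_le_card_of_injOn (fun v => v ∘ e.symm) ?_ ?_
    · intro v hv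
      simp only [coe_filter, mem_univ, true_and, Set.mem_ofPred_eq] at hv ⊢
      rw [MvPolynomial.eval_rename]
      have : (v ∘ e.symm) ∘ e = v := by
        funext x
        simp
      rw [this]
      exact hP v hv
    · intro v _ v' _ h
      funext x
      have := congrFun h (e x)
      simpa using this
  have h3 : (MvPolynomial.rename e F).totalDegree ≤ F.totalDegree := MvPolynomial.totalDegree_rename_le _ _
  have hp0' : (0 : ℚ≥0) < (p : ℚ≥0) := by exact_mod_cast hp0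
  rw [div_le_div_iff₀ (by positivity) hp0'] at h1
  have h4 : ((univ : Finset (Fin m → ZMod p)).filter fun f => MvPolynomial.eval f (MvPolynomial.rename e F) = 0).card * p ≤
      (MvPolynomial.rename e F).totalDegree * p ^ m := by
    have h5 := h1
    rw [← Nat.cast_mul, ← Nat.cast_pow, ← Nat.cast_mul, Nat.cast_le] at h5
    refine le_trans (le_of_eq ?_) h5
    congr 2
  calc p * ((univ : Finset (κ → ZMod p)).filter P).card
      ≤ p * ((univ : Finset (Fin m → ZMod p)).filter fun f => MvPolynomial.eval f (MvPolynomial.rename e F) = 0).card :=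
        Nat.mul_le_mul_left _ h2
    _ = ((univ : Finset (Fin m → ZMod p)).filter fun f => MvPolynomial.eval f (MvPolynomial.rename e F) = 0).card * p :=
        Nat.mul_comm _ _
    _ ≤ (MvPolynomial.rename e F).totalDegree * p ^ m := h4
    _ ≤ _ := Nat.mul_le_mul_right _ h3

/-- values of the coefficients -/
def vr {ι : Type*} (x : ι ⊕ ι → ZMod p) (s : ι) : ZMod p := x (Sum.inl s) / x (Sum.inr s)

open Classical in
/-- numerators and denominators of the coefficients -/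
noncomputable def frX {ι : Type*} (s₀ : ι) (v u : ι → ZMod p) : ι ⊕ ι → ZMod p
  | Sum.inl s => if s = s₀ then u s else v s * u s
  | Sum.inr s => if s = s₀ then 0 else u s

/-- no coordinate vanishes -/
def NZ' {ι : Type*} (u : ι → ZMod p) : Prop := ∀ s, u s ≠ 0

/-- the coordinate `s` vanishes -/
def ZC' {ι : Type*} (s : ι) (u : ι → ZMod p) : Prop := u s = 0

open Classical in
lemma card_nonzero' {ι : Type*} [Fintype ι] [DecidableEq ι] (hp : 2 * Fintype.card ι ≤ p) :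
    p ^ Fintype.card ι ≤ 2 * ((univ : Finset (ι → ZMod p)).filter NZ').card := by
  refine union_events (β := ι) ZC' 1 NZ' ?_ ?_ (by omega)
  · intro u hu
    unfold NZ' at hu
    push Not at hu
    exact hu
  · intro s
    refine fiber_univ s _ 1 fun u => card_le_one.mpr ?_
    intro v hv v' hv'
    have h1 := (mem_filter.mp hv).2
    have h2 := (mem_filter.mp hv').2
    unfold ZC' at h1 h2
    rw [Function.update_self] at h1 h2
    rw [h1, h2]

open Classical in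
lemma card_box_of {ι : Type*} [Fintype ι] [DecidableEq ι] (s₀ : ι) (P Q : (ι → ZMod p) → Prop)
    (hPQ : ∀ v v', (∀ s, s ≠ s₀ → v s = v' s) → P v → Q v')
    (h : p ^ Fintype.card ι ≤ 2 * ((univ : Finset (ι → ZMod p)).filter P).card) (hp : 2 * Fintype.card ι ≤ p) :
    p ^ (2 * Fintype.card ι) ≤ 4 * p * ((boxS s₀ p).filter fun x => Q (vr x)).card := by
  have h2 := card_nonzero' (ι := ι) hp
  set G := ((univ : Finset (ι → ZMod p)).filter P) ×ˢ ((univ : Finset (ι → ZMod p)).filter NZ') with hG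
  have h3 : p ^ (2 * Fintype.card ι) ≤ 4 * G.card := by
    rw [hG, card_product, two_mul, pow_add]
    calc _ ≤ (2 * ((univ : Finset (ι → ZMod p)).filter P).card) *
          (2 * ((univ : Finset (ι → ZMod p)).filter NZ').card) := Nat.mul_le_mul h h2
      _ = _ := by ring
  have hvr : ∀ v u : ι → ZMod p, NZ' u → ∀ s, s ≠ s₀ → vr (frX s₀ v u) s = v s := by
    intro v u hu s hs
    unfold vr frX
    simp only [if_neg hs]
    rw [mul_div_cancel_right₀ _ (hu s)]
  have h4 : G.card ≤ p * (G.image fun yu => frX s₀ yu.1 yu.2).card := by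
    refine card_le_mul_card_image _ _ fun x _ => ?_
    let Y : ι → Finset (ZMod p) := fun s => if s = s₀ then univ else {vr x s}
    let U : ι → Finset (ZMod p) := fun s => {if s = s₀ then x (Sum.inl s) else x (Sum.inr s)}
    have hsub : (G.filter fun yu => frX s₀ yu.1 yu.2 = x) ⊆ (Fintype.piFinset Y) ×ˢ (Fintype.piFinset U) := by
      rintro ⟨y, u⟩ h
      rw [mem_filter, hG, mem_product, mem_filter, mem_filter] at h
      obtain ⟨⟨⟨_, hy⟩, _, hu⟩, rfl⟩ := h
      rw [mem_product, Fintype.mem_piFinset, Fintype.mem_piFinset]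
      simp only at hy hu ⊢
      refine ⟨fun s => ?_, fun s => ?_⟩
      · simp only [Y]
        by_cases hs : s = s₀
        · rw [if_pos hs]
          exact mem_univ _
        · rw [if_neg hs, mem_singleton, hvr _ _ hu _ hs]
      · simp only [U, mem_singleton]
        by_cases hs : s = s₀
        · rw [if_pos hs]
          simp only [frX, if_pos hs]
        · rw [if_neg hs]
          simp only [frX, if_neg hs]
    refine (card_le_card hsub).trans ?_
    rw [card_product, Fintype.card_piFinset, Fintype.card_piFinset]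
    have hU : ∏ s : ι, (U s).card = 1 := prod_eq_one fun s _ => card_singleton _
    have hY : ∏ s : ι, (Y s).card = p := by
      have h2 : ∀ s : ι, (Y s).card = if s = s₀ then p else 1 := by
        intro s
        simp only [Y]
        by_cases hs : s = s₀
        · rw [if_pos hs, if_pos hs, card_univ, ZMod.card]
        · rw [if_neg hs, if_neg hs, card_singleton]
      rw [prod_congr rfl fun s _ => h2 s, prod_ite_eq' univ s₀ fun _ => p, if_pos (mem_univ _)]
    rw [hU, hY, mul_one]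
  have h5 : (G.image fun yu => frX s₀ yu.1 yu.2) ⊆ (boxS s₀ p).filter fun x => Q (vr x) := by
    intro x hx
    rw [mem_image] at hx
    obtain ⟨⟨y, u⟩, h, rfl⟩ := hx
    rw [hG, mem_product, mem_filter, mem_filter] at h
    obtain ⟨⟨_, hy⟩, _, hu⟩ := h
    simp only at hy hu ⊢
    rw [mem_filter, mem_boxS]
    refine ⟨⟨by simp [frX], ?_, fun s hs => ?_⟩, ?_⟩
    · simp only [frX, if_true]
      exact hu _
    · simp only [frX, if_neg hs]
      exact hu s
    · exact hPQ y _ (fun s hs => (hvr y u hu s hs).symm) hy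
  calc p ^ (2 * Fintype.card ι) ≤ 4 * G.card := h3
    _ ≤ 4 * (p * (G.image fun yu => frX s₀ yu.1 yu.2).card) := Nat.mul_le_mul_left _ h4
    _ ≤ 4 * (p * ((boxS s₀ p).filter fun x => Q (vr x)).card) :=
        Nat.mul_le_mul_left _ (Nat.mul_le_mul_left _ (card_le_card h5))
    _ = _ := by ring

end general

section residues

variable {p : ℕ} [Fact p.Prime] {V : ValuationSubring ℂ} (ψ : ZMod p →+* IsLocalRing.ResidueField V)

/-- `z` is in `V`, with residue `a` -/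
def Rs (z : ℂ) (a : ZMod p) : Prop := ∃ h : z ∈ V, IsLocalRing.residue V ⟨z, h⟩ = ψ a

variable {ψ}

lemma Rs.zero : Rs ψ 0 0 := ⟨V.zero_mem, by
  rw [map_zero]
  exact map_zero (IsLocalRing.residue V)⟩

lemma Rs.one : Rs ψ 1 1 := ⟨V.one_mem, by
  rw [map_one]
  exact map_one (IsLocalRing.residue V)⟩

lemma Rs.add {z w : ℂ} {a b : ZMod p} (h : Rs ψ z a) (h' : Rs ψ w b) : Rs ψ (z + w) (a + b) := by
  obtain ⟨h1, h2⟩ := h
  obtain ⟨h3, h4⟩ := h'
  refine ⟨V.add_mem _ _ h1 h3, ?_⟩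
  rw [map_add, ← h2, ← h4, ← map_add]
  rfl

lemma Rs.mul {z w : ℂ} {a b : ZMod p} (h : Rs ψ z a) (h' : Rs ψ w b) : Rs ψ (z * w) (a * b) := by
  obtain ⟨h1, h2⟩ := h
  obtain ⟨h3, h4⟩ := h'
  refine ⟨V.mul_mem _ _ h1 h3, ?_⟩
  rw [map_mul, ← h2, ← h4, ← map_mul]
  rfl

lemma Rs.neg {z : ℂ} {a : ZMod p} (h : Rs ψ z a) : Rs ψ (-z) (-a) := by
  obtain ⟨h1, h2⟩ := h
  refine ⟨V.neg_mem _ h1, ?_⟩
  rw [map_neg, ← h2, ← map_neg]
  rfl

lemma Rs.sub {z w : ℂ} {a b : ZMod p} (h : Rs ψ z a) (h' : Rs ψ w b) : Rs ψ (z - w) (a - b) := by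
  rw [sub_eq_add_neg, sub_eq_add_neg]
  exact h.add h'.neg

lemma Rs.pow {z : ℂ} {a : ZMod p} (h : Rs ψ z a) (k : ℕ) : Rs ψ (z ^ k) (a ^ k) := by
  induction k with
  | zero => rw [pow_zero, pow_zero]; exact Rs.one
  | succ k ih => rw [pow_succ, pow_succ]; exact ih.mul h

lemma Rs.sum {ι : Type*} (s : Finset ι) (f : ι → ℂ) (g : ι → ZMod p) (h : ∀ k ∈ s, Rs ψ (f k) (g k)) :
    Rs ψ (∑ k ∈ s, f k) (∑ k ∈ s, g k) := by
  classical
  induction s using Finset.induction_on with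
  | empty => rw [sum_empty, sum_empty]; exact Rs.zero
  | insert a s ha ih =>
    rw [sum_insert ha, sum_insert ha]
    exact (h a (mem_insert_self _ _)).add (ih fun k hk => h k (mem_insert_of_mem hk))

lemma Rs.prod {ι : Type*} (s : Finset ι) (f : ι → ℂ) (g : ι → ZMod p) (h : ∀ k ∈ s, Rs ψ (f k) (g k)) :
    Rs ψ (∏ k ∈ s, f k) (∏ k ∈ s, g k) := by
  classical
  induction s using Finset.induction_on with
  | empty => rw [prod_empty, prod_empty]; exact Rs.one
  | insert a s ha ih =>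
    rw [prod_insert ha, prod_insert ha]
    exact (h a (mem_insert_self _ _)).mul (ih fun k hk => h k (mem_insert_of_mem hk))

lemma Rs.int (m : ℤ) : Rs ψ (m : ℂ) (m : ZMod p) := by
  have h : ((m : V) : ℂ) = (m : ℂ) := by simp
  refine ⟨by rw [← h]; exact (m : V).2, ?_⟩
  rw [map_intCast, ← map_intCast (IsLocalRing.residue V)]
  congr 1

lemma Rs.rat {r : ℚ} (h : (r.den : ZMod p) ≠ 0) : Rs ψ (r : ℂ) ((r.num : ZMod p) / (r.den : ZMod p)) :=
  ⟨rat_mem ψ h, residue_rat ψ h⟩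

lemma Rs.val_one {z : ℂ} {a : ZMod p} (h : Rs ψ z a) (ha : a ≠ 0) : V.valuation z = 1 := by
  obtain ⟨h1, h2⟩ := h
  have h3 : IsLocalRing.residue V ⟨z, h1⟩ ≠ 0 := by
    rw [h2]
    exact (map_ne_zero ψ).mpr ha
  rw [residue_ne_zero] at h3
  exact h3

lemma Rs.val_lt {z : ℂ} (h : Rs ψ z (0 : ZMod p)) : V.valuation z < 1 := by
  obtain ⟨h1, h2⟩ := h
  have h3 : IsLocalRing.residue V ⟨z, h1⟩ = 0 := by
    rw [h2, map_zero]
  rw [residue_eq_zero] at h3
  exact h3

lemma Rs.div_sub {z w : ℂ} {a b : ZMod p} (hz : Rs ψ z a) (hw : Rs ψ w b) (hb : b ≠ 0) {m : ℤ}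
    (hm : (m : ZMod p) = a / b) : V.valuation (z / w - (m : ℂ)) < 1 := by
  have hw1 := hw.val_one hb
  have hw0 : w ≠ 0 := by
    rintro rfl
    rw [map_zero] at hw1
    exact zero_ne_one hw1
  have h1 : z / w - (m : ℂ) = (z - m * w) / w := by
    field_simp
  rw [h1, map_div₀, hw1, div_one]
  have h2 : Rs ψ (z - m * w) (a - (m : ZMod p) * b) := hz.sub ((Rs.int m).mul hw)
  rw [hm, div_mul_cancel₀ _ hb, sub_self] at h2
  exact h2.val_lt

/-- reduction of a polynomial -/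
noncomputable def redP (r : ℂ → ZMod p) {σ : Type*} (H : MvPolynomial σ ℂ) : MvPolynomial σ (ZMod p) :=
  ∑ m ∈ H.support, MvPolynomial.monomial m (r (H.coeff m))

lemma redP_ne_zero (r : ℂ → ZMod p) {σ : Type*} (H : MvPolynomial σ ℂ) (hH : H ≠ 0)
    (hr : ∀ m ∈ H.support, r (H.coeff m) ≠ 0) : redP r H ≠ 0 := by
  classical
  obtain ⟨m, hm⟩ := MvPolynomial.support_nonempty.mpr hH
  intro h
  have h1 : (redP r H).coeff m = r (H.coeff m) := by
    unfold redP
    rw [MvPolynomial.coeff_sum]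
    simp only [MvPolynomial.coeff_monomial]
    rw [sum_ite_eq' H.support m fun m => r (H.coeff m), if_pos hm]
  rw [h, MvPolynomial.coeff_zero] at h1
  exact hr m hm h1.symm

lemma totalDegree_redP (r : ℂ → ZMod p) {σ : Type*} (H : MvPolynomial σ ℂ) :
    (redP r H).totalDegree ≤ H.totalDegree := by
  unfold redP
  refine MvPolynomial.totalDegree_finsetSum_le fun m hm => ?_
  refine (MvPolynomial.totalDegree_monomial_le _ _).trans ?_
  exact MvPolynomial.le_totalDegree hm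

lemma Rs.eval {σ : Type*} [Fintype σ] (r : ℂ → ZMod p) (H : MvPolynomial σ ℂ)
    (hr : ∀ m ∈ H.support, Rs ψ (H.coeff m) (r (H.coeff m))) (z : σ → ℂ) (a : σ → ZMod p)
    (h : ∀ s, Rs ψ (z s) (a s)) : Rs ψ (MvPolynomial.eval z H) (MvPolynomial.eval a (redP r H)) := by
  have h1 : MvPolynomial.eval a (redP r H) = ∑ m ∈ H.support, r (H.coeff m) * ∏ s, a s ^ m s := by
    unfold redP
    rw [map_sum]
    refine sum_congr rfl fun m _ => ?_
    rw [MvPolynomial.eval_monomial, Finsupp.prod_fintype]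
    intro i
    rw [pow_zero]
  rw [h1, MvPolynomial.eval_eq']
  exact Rs.sum _ _ _ fun m hm => (hr m hm).mul (Rs.prod _ _ _ fun s _ => (h s).pow _)

end residues

section params

variable {n N : ℕ} {p : ℕ} [Fact p.Prime]

/-- numerator and denominator coefficients -/
abbrev TX (n N : ℕ) : Type := (Fin n × Fin N) ⊕ (Fin n × Fin N)

/-- value of the numerator -/
def nmT (r : ℂ → ZMod p) (v : TX n N → ZMod p) (j : Fin n) (e : Fin N → ℂ) : ZMod p :=
  ∑ k, v (Sum.inl (j, k)) * r (e k)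

/-- value of the denominator -/
def dnT (r : ℂ → ZMod p) (v : TX n N → ZMod p) (j : Fin n) (e : Fin N → ℂ) : ZMod p :=
  ∑ k, v (Sum.inr (j, k)) * r (e k)

/-- value of the ratio -/
def rtT (r : ℂ → ZMod p) (v : TX n N → ZMod p) (j : Fin n) (e : Fin N → ℂ) : ZMod p :=
  nmT r v j e / dnT r v j e

/-- the denominator coefficients of the coordinates `j` and `k` -/
def emb (j k : Fin n) : Fin N ⊕ Fin N → TX n N :=
  Sum.elim (fun m => Sum.inr (j, m)) fun m => Sum.inr (k, m)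

lemma emb_injective {j k : Fin n} (h : j ≠ k) : Function.Injective (emb (N := N) j k) := by
  rintro (a | a) (b | b) hab
  · simp only [emb, Sum.elim_inl, Sum.inr.injEq, Prod.mk.injEq, true_and] at hab
    rw [hab]
  · simp only [emb, Sum.elim_inl, Sum.elim_inr, Sum.inr.injEq, Prod.mk.injEq] at hab
    exact absurd hab.1 h
  · simp only [emb, Sum.elim_inl, Sum.elim_inr, Sum.inr.injEq, Prod.mk.injEq] at hab
    exact absurd hab.1.symm h
  · simp only [emb, Sum.elim_inr, Sum.inr.injEq, Prod.mk.injEq, true_and] at hab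
    rw [hab]

/-- the conditions on the residues modulo `p` -/
structure PT (dd : ZMod p → ℤ) (r : ℂ → ZMod p) (E : Fin n → Finset (Fin N → ℂ))
    (HH : Fin n → Fin n → MvPolynomial (Fin N ⊕ Fin N) ℂ) (Δ : Finset ℤ) (v : TX n N → ZMod p) : Prop where
  unit : ∀ j, ∀ e ∈ E j, dnT r v j e ≠ 0
  ord : ∀ j, ∀ e ∈ E j, dd (rtT r v j e) ≠ 0
  del : ∀ j, ∀ e ∈ E j, ∀ D ∈ Δ, ¬ IsSquare (D * dd (rtT r v j e))
  cross : ∀ j k, j ≠ k → ∀ e ∈ E j, ∀ e' ∈ E k, ¬ IsSquare (dd (rtT r v j e) * dd (rtT r v k e'))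
  rel : ∀ j k, j ≠ k → MvPolynomial.eval (v ∘ emb j k) (redP r (HH j k)) ≠ 0

/-- the conditions not involving the numerator of the coordinate `i` -/
structure PT' (dd : ZMod p → ℤ) (r : ℂ → ZMod p) (E : Fin n → Finset (Fin N → ℂ))
    (HH : Fin n → Fin n → MvPolynomial (Fin N ⊕ Fin N) ℂ) (Δ : Finset ℤ) (i : Fin n) (v : TX n N → ZMod p) : Prop where
  unit : ∀ j, ∀ e ∈ E j, dnT r v j e ≠ 0
  ord : ∀ j, j ≠ i → ∀ e ∈ E j, dd (rtT r v j e) ≠ 0
  del : ∀ j, j ≠ i → ∀ e ∈ E j, ∀ D ∈ Δ, ¬ IsSquare (D * dd (rtT r v j e))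
  cross : ∀ j k, j ≠ i → k ≠ i → j ≠ k → ∀ e ∈ E j, ∀ e' ∈ E k,
    ¬ IsSquare (dd (rtT r v j e) * dd (rtT r v k e'))
  rel : ∀ j k, j ≠ k → MvPolynomial.eval (v ∘ emb j k) (redP r (HH j k)) ≠ 0

lemma PT'_of {dd : ZMod p → ℤ} {r : ℂ → ZMod p} {E : Fin n → Finset (Fin N → ℂ)}
    {HH : Fin n → Fin n → MvPolynomial (Fin N ⊕ Fin N) ℂ} {Δ : Finset ℤ} {i : Fin n} {l : Fin N}
    (v v' : TX n N → ZMod p) (hv : ∀ s, s ≠ Sum.inl (i, l) → v s = v' s) (h : PT dd r E HH Δ v) :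
    PT' dd r E HH Δ i v' := by
  have hd : ∀ j e, dnT r v' j e = dnT r v j e := by
    intro j e
    unfold dnT
    refine sum_congr rfl fun k _ => ?_
    rw [hv _ (by simp)]
  have hn : ∀ j, j ≠ i → ∀ e, nmT r v' j e = nmT r v j e := by
    intro j hj e
    unfold nmT
    refine sum_congr rfl fun k _ => ?_
    rw [hv _ (by
      intro h'
      exact hj (Prod.ext_iff.mp (Sum.inl.inj h')).1)]
  have hr : ∀ j, j ≠ i → ∀ e, rtT r v' j e = rtT r v j e := by
    intro j hj e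
    unfold rtT
    rw [hd, hn j hj]
  refine ⟨fun j e he => ?_, fun j hj e he => ?_, fun j hj e he D hD => ?_, fun j k hj hk hjk e he e' he' => ?_,
    fun j k hjk => ?_⟩
  · rw [hd]
    exact h.unit j e he
  · rw [hr j hj]
    exact h.ord j e he
  · rw [hr j hj]
    exact h.del j e he D hD
  · rw [hr j hj, hr k hk]
    exact h.cross j k hjk e he e' he'
  · have : v' ∘ emb j k = v ∘ emb j k := by
      funext x
      rcases x with x | x <;> simp only [Function.comp_apply, emb, Sum.elim_inl, Sum.elim_inr] <;>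
        exact (hv _ (by simp)).symm
    rw [this]
    exact h.rel j k hjk

lemma dnT_update (r : ℂ → ZMod p) (v : TX n N → ZMod p) (s : Fin n × Fin N) (w : ZMod p) (j : Fin n)
    (e : Fin N → ℂ) : dnT r (Function.update v (Sum.inl s) w) j e = dnT r v j e := by
  unfold dnT
  refine sum_congr rfl fun k _ => ?_
  rw [Function.update_of_ne (by simp)]

lemma rtT_update_ne (r : ℂ → ZMod p) (v : TX n N → ZMod p) {j k : Fin n} (h : k ≠ j) (m : Fin N) (w : ZMod p)
    (e : Fin N → ℂ) : rtT r (Function.update v (Sum.inl (j, m)) w) k e = rtT r v k e := by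
  unfold rtT nmT
  rw [dnT_update]
  congr 1
  refine sum_congr rfl fun l _ => ?_
  rw [Function.update_of_ne (by
    intro h'
    exact h (Prod.ext_iff.mp (Sum.inl.inj h')).1)]

lemma sum_update_inj (g : Fin N → TX n N) (hg : Function.Injective g) (r : ℂ → ZMod p) (v : TX n N → ZMod p)
    (m : Fin N) (e : Fin N → ℂ) (he : r (e m) ≠ 0) :
    Function.Injective fun w => ∑ k, Function.update v (g m) w (g k) * r (e k) := by
  intro w w' h
  simp only at h
  have h1 : ∀ w, ∑ k, Function.update v (g m) w (g k) * r (e k) =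
      w * r (e m) + ∑ k ∈ univ.erase m, v (g k) * r (e k) := by
    intro w
    rw [← add_sum_erase _ _ (mem_univ m), Function.update_self]
    congr 1
    refine sum_congr rfl fun k hk => ?_
    rw [Function.update_of_ne (fun h => ne_of_mem_erase hk (hg h))]
  rw [h1, h1, add_left_inj, mul_left_inj' he] at h
  exact h

lemma rtT_update_inj (r : ℂ → ZMod p) (v : TX n N → ZMod p) (j : Fin n) (m : Fin N) (e : Fin N → ℂ)
    (hd : dnT r v j e ≠ 0) (he : r (e m) ≠ 0) :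
    Function.Injective fun w => rtT r (Function.update v (Sum.inl (j, m)) w) j e := by
  intro w w' h
  simp only [rtT, dnT_update] at h
  rw [div_left_inj' hd] at h
  exact sum_update_inj (fun k => Sum.inl (j, k)) (fun a b hab => (Prod.ext_iff.mp (Sum.inl.inj hab)).2) r v m e he h

/-- points of evaluation -/
abbrev ES (E : Fin n → Finset (Fin N → ℂ)) : Type :=
  ↥((univ : Finset (Fin n)).sigma E)

/-- indices of the bad events -/
abbrev EvT (E : Fin n → Finset (Fin N → ℂ)) (Δ : Finset ℤ) : Type :=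
  ES E ⊕ ((ES E × Option ↥Δ) ⊕ ((ES E × ES E) ⊕ (Fin n × Fin n)))

/-- the bad events -/
def BadT (dd : ZMod p → ℤ) (r : ℂ → ZMod p) (E : Fin n → Finset (Fin N → ℂ))
    (HH : Fin n → Fin n → MvPolynomial (Fin N ⊕ Fin N) ℂ) (Δ : Finset ℤ) : EvT E Δ → (TX n N → ZMod p) → Prop
  | Sum.inl a, v => dnT r v a.1.1 a.1.2 = 0
  | Sum.inr (Sum.inl (a, D)), v => dnT r v a.1.1 a.1.2 ≠ 0 ∧
      (dd (rtT r v a.1.1 a.1.2) = 0 ∨ IsSquare ((D.elim 1 fun D => (D : ℤ)) * dd (rtT r v a.1.1 a.1.2)))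
  | Sum.inr (Sum.inr (Sum.inl (a, b))), v => a.1.1 ≠ b.1.1 ∧ dnT r v a.1.1 a.1.2 ≠ 0 ∧
      dd (rtT r v b.1.1 b.1.2) ≠ 0 ∧ IsSquare (dd (rtT r v b.1.1 b.1.2) * dd (rtT r v a.1.1 a.1.2))
  | Sum.inr (Sum.inr (Sum.inr (j, k))), v => j ≠ k ∧ MvPolynomial.eval (v ∘ emb j k) (redP r (HH j k)) = 0

lemma exists_badT (dd : ZMod p → ℤ) (r : ℂ → ZMod p) (E : Fin n → Finset (Fin N → ℂ))
    (HH : Fin n → Fin n → MvPolynomial (Fin N ⊕ Fin N) ℂ) (Δ : Finset ℤ) (v : TX n N → ZMod p)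
    (hv : ¬ PT dd r E HH Δ v) : ∃ b, BadT dd r E HH Δ b v := by
  by_contra hcon
  push Not at hcon
  apply hv
  have h1 : ∀ j, ∀ e ∈ E j, dnT r v j e ≠ 0 := fun j e he =>
    hcon (Sum.inl ⟨⟨j, e⟩, mem_sigma.mpr ⟨mem_univ _, he⟩⟩)
  have h2 : ∀ j, ∀ e ∈ E j, ∀ D : Option ↥Δ,
      ¬ (dd (rtT r v j e) = 0 ∨ IsSquare ((D.elim 1 fun D => (D : ℤ)) * dd (rtT r v j e))) := fun j e he D h =>
    hcon (Sum.inr (Sum.inl (⟨⟨j, e⟩, mem_sigma.mpr ⟨mem_univ _, he⟩⟩, D))) ⟨h1 j e he, h⟩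
  have h3 : ∀ j, ∀ e ∈ E j, dd (rtT r v j e) ≠ 0 := fun j e he h => h2 j e he none (Or.inl h)
  refine ⟨h1, h3, fun j e he D hD h => h2 j e he (some ⟨D, hD⟩) (Or.inr h), fun j k hjk e he e' he' h => ?_,
    fun j k hjk h => hcon (Sum.inr (Sum.inr (Sum.inr (j, k)))) ⟨hjk, h⟩⟩
  refine hcon (Sum.inr (Sum.inr (Sum.inl (⟨⟨j, e⟩, mem_sigma.mpr ⟨mem_univ _, he⟩⟩,
    ⟨⟨k, e'⟩, mem_sigma.mpr ⟨mem_univ _, he'⟩⟩)))) ⟨hjk, h1 j e he, h3 k e' he', ?_⟩
  rwa [mul_comm]

open Classical in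
lemma badT_small (dd : ZMod p → ℤ) (r : ℂ → ZMod p) (E : Fin n → Finset (Fin N → ℂ))
    (HH : Fin n → Fin n → MvPolynomial (Fin N ⊕ Fin N) ℂ) (Δ : Finset ℤ) (hΔ : ∀ D ∈ Δ, D ≠ 0)
    (hE : ∀ j, ∀ e ∈ E j, ∃ m, r (e m) ≠ 0) (hHH : ∀ j k, j ≠ k → redP r (HH j k) ≠ 0)
    (B : ℕ) (hB : 0 < B) (hB' : ∀ j k, (HH j k).totalDegree ≤ B)
    (hd : ∀ D : ℤ, D ≠ 0 → ∀ P : ZMod p → Prop, (∀ α, P α → dd α = 0 ∨ IsSquare (D * dd α)) →
      ((univ : Finset (ZMod p)).filter P).card ≤ B)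
    (b : EvT E Δ) :
    p * ((univ : Finset (TX n N → ZMod p)).filter (BadT dd r E HH Δ b)).card ≤ B * p ^ Fintype.card (TX n N) := by
  have hempty : ∀ (P : ZMod p → Prop), (∀ v, ¬ P v) → ((univ : Finset (ZMod p)).filter P).card ≤ B := by
    intro P hP
    rw [filter_eq_empty_iff.mpr fun v _ => hP v]
    simp
  have hsub : ∀ (P Q : ZMod p → Prop), (∀ v, P v → Q v) → ((univ : Finset (ZMod p)).filter Q).card ≤ B →
      ((univ : Finset (ZMod p)).filter P).card ≤ B := by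
    intro P Q h hQ
    refine (card_le_card ?_).trans hQ
    intro v hv
    rw [mem_filter] at hv ⊢
    exact ⟨hv.1, h v hv.2⟩
  rcases b with a | ⟨a, D⟩ | ⟨a, b⟩ | ⟨j, k⟩
  · obtain ⟨m, hm⟩ := hE a.1.1 a.1.2 (mem_sigma.mp a.2).2
    refine fiber_univ (Sum.inr (a.1.1, m)) _ B fun v => ?_
    refine le_trans (card_le_one.mpr ?_) (Nat.succ_le_of_lt hB)
    intro w hw w' hw'
    have h1 := (mem_filter.mp hw).2
    have h2 := (mem_filter.mp hw').2
    simp only [BadT] at h1 h2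
    exact sum_update_inj (fun k => Sum.inr (a.1.1, k)) (fun a b hab => (Prod.ext_iff.mp (Sum.inr.inj hab)).2) r v m
      a.1.2 hm (h1.trans h2.symm)
  · obtain ⟨m, hm⟩ := hE a.1.1 a.1.2 (mem_sigma.mp a.2).2
    refine fiber_univ (Sum.inl (a.1.1, m)) _ B fun v => ?_
    have hD0 : (D.elim 1 fun D => (D : ℤ)) ≠ 0 := by
      rcases D with _ | D
      · exact one_ne_zero
      · exact hΔ _ D.2
    by_cases h0 : dnT r v a.1.1 a.1.2 = 0
    · refine hempty _ fun w hw => hw.1 ?_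
      rw [dnT_update, h0]
    · refine hsub _ (fun w => dd (rtT r (Function.update v (Sum.inl (a.1.1, m)) w) a.1.1 a.1.2) = 0 ∨
        IsSquare ((D.elim 1 fun D => (D : ℤ)) * dd (rtT r (Function.update v (Sum.inl (a.1.1, m)) w) a.1.1 a.1.2)))
        (fun w hw => hw.2) ?_
      exact card_inj_le (rtT_update_inj r v a.1.1 m a.1.2 h0 hm)
        (fun α => dd α = 0 ∨ IsSquare ((D.elim 1 fun D => (D : ℤ)) * dd α)) (hd _ hD0 _ fun _ h => h)
  · obtain ⟨m, hm⟩ := hE a.1.1 a.1.2 (mem_sigma.mp a.2).2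
    refine fiber_univ (Sum.inl (a.1.1, m)) _ B fun v => ?_
    by_cases hab : a.1.1 = b.1.1
    · exact hempty _ fun w hw => hw.1 hab
    by_cases h0 : dnT r v a.1.1 a.1.2 = 0
    · refine hempty _ fun w hw => hw.2.1 ?_
      rw [dnT_update, h0]
    by_cases h1 : dd (rtT r v b.1.1 b.1.2) = 0
    · refine hempty _ fun w hw => hw.2.2.1 ?_
      rw [rtT_update_ne r v (Ne.symm hab), h1]
    · refine hsub _ (fun w => dd (rtT r (Function.update v (Sum.inl (a.1.1, m)) w) a.1.1 a.1.2) = 0 ∨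
        IsSquare (dd (rtT r v b.1.1 b.1.2) * dd (rtT r (Function.update v (Sum.inl (a.1.1, m)) w) a.1.1 a.1.2)))
        (fun w hw => ?_) ?_
      · have h2 := hw.2.2.2
        rw [rtT_update_ne r v (Ne.symm hab)] at h2
        exact Or.inr h2
      · exact card_inj_le (rtT_update_inj r v a.1.1 m a.1.2 h0 hm)
          (fun α => dd α = 0 ∨ IsSquare (dd (rtT r v b.1.1 b.1.2) * dd α)) (hd _ h1 _ fun _ h => h)
  · by_cases hjk : j = k
    · rw [filter_eq_empty_iff.mpr fun v _ hv => hv.1 hjk]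
      simp
    have hF : MvPolynomial.rename (emb j k) (redP r (HH j k)) ≠ 0 := by
      intro h
      exact hHH j k hjk (MvPolynomial.rename_injective _ (emb_injective hjk) (by rw [h, map_zero]))
    refine (zippel _ hF _ ?_).trans (Nat.mul_le_mul_right _ ?_)
    · intro v hv
      rw [MvPolynomial.eval_rename]
      exact hv.2
    · exact (MvPolynomial.totalDegree_rename_le _ _).trans ((totalDegree_redP _ _).trans (hB' j k))

open Classical in
lemma card_PT' (dd : ZMod p → ℤ) (r : ℂ → ZMod p) (E : Fin n → Finset (Fin N → ℂ))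
    (HH : Fin n → Fin n → MvPolynomial (Fin N ⊕ Fin N) ℂ) (Δ : Finset ℤ) (hΔ : ∀ D ∈ Δ, D ≠ 0)
    (hE : ∀ j, ∀ e ∈ E j, ∃ m, r (e m) ≠ 0) (hHH : ∀ j k, j ≠ k → redP r (HH j k) ≠ 0)
    (B : ℕ) (hB : 0 < B) (hB' : ∀ j k, (HH j k).totalDegree ≤ B)
    (hd : ∀ D : ℤ, D ≠ 0 → ∀ P : ZMod p → Prop, (∀ α, P α → dd α = 0 ∨ IsSquare (D * dd α)) →
      ((univ : Finset (ZMod p)).filter P).card ≤ B)
    (K : ℕ) (hK : Fintype.card (EvT E Δ) ≤ K) (hp : 2 * (K * B) ≤ p) (hp2 : 2 * Fintype.card (TX n N) ≤ p)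
    (i : Fin n) (l : Fin N) :
    p ^ (2 * Fintype.card (TX n N)) ≤ 4 * p *
      ((boxS (Sum.inl (i, l) : TX n N) p).filter fun x => PT' dd r E HH Δ i (vr x)).card := by
  refine card_box_of (ι := TX n N) (Sum.inl (i, l)) (PT dd r E HH Δ) (PT' dd r E HH Δ i) ?_ ?_ hp2
  · intro v v' hv h
    exact PT'_of v v' hv h
  · refine union_events (BadT dd r E HH Δ) B (PT dd r E HH Δ) (exists_badT dd r E HH Δ)
      (badT_small dd r E HH Δ hΔ hE hHH B hB hB' hd) (le_trans ?_ hp)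
    exact Nat.mul_le_mul_left _ (Nat.mul_le_mul_right _ hK)

end params

section red

variable {n N : ℕ} {p : ℕ} [Fact p.Prime] {V : ValuationSubring ℂ} (ψ : ZMod p →+* IsLocalRing.ResidueField V)

include ψ in
lemma redT_of (d : ∀ p : ℕ, ValuationSubring ℂ → ZMod p → ℤ) (S : Finset ℂ) (E : Fin n → Finset (Fin N → ℂ))
    (HH : Fin n → Fin n → MvPolynomial (Fin N ⊕ Fin N) ℂ) (hp2 : p ≠ 2) (hpV : V.valuation (p : ℂ) < 1)
    (r : ℂ → ZMod p) (hS : ∀ s ∈ S, s ∈ V) (hE : ∀ j, ∀ e ∈ E j, ∀ k, Rs ψ (e k) (r (e k)))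
    (hHH : ∀ j k, ∀ m ∈ (HH j k).support, Rs ψ ((HH j k).coeff m) (r ((HH j k).coeff m)))
    {Δ : Finset ℤ} {c : TX n N → ℚ} {i : Fin n} {l : Fin N}
    (h1 : (fun k => (toInt c k : ZMod p)) ∈ boxS (Sum.inl (i, l) : TX n N) p)
    (h2 : PT' (d p V) r E HH Δ i (vr fun k => (toInt c k : ZMod p))) :
    RedT d S E HH (fun j k => ((c (Sum.inl (j, k)) : ℂ), (c (Sum.inr (j, k)) : ℂ))) i l p V
      (fun j e => ((rtT r (vr fun k => (toInt c k : ZMod p)) j e).val : ℤ)) := by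
  have hp : p.Prime := Fact.out
  have : NeZero p := ⟨hp.ne_zero⟩
  rw [mem_boxS] at h1
  obtain ⟨h3, h4, h5⟩ := h1
  simp only [toInt, Sum.elim_inl, Sum.elim_inr] at h3 h4 h5
  have h5' : ∀ s : TX n N, s ≠ Sum.inl (i, l) → ((c s).den : ZMod p) ≠ 0 := by
    intro s hs
    have := h5 s hs
    simpa using this
  set v : TX n N → ZMod p := vr fun k => (toInt c k : ZMod p) with hv
  have hvc : ∀ s : TX n N, s ≠ Sum.inl (i, l) → Rs ψ ((c s : ℚ) : ℂ) (v s) := by
    intro s hs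
    have h6 := Rs.rat (ψ := ψ) (h5' s hs)
    have h7 : v s = ((c s).num : ZMod p) / ((c s).den : ZMod p) := by
      simp [hv, vr, toInt]
    rw [h7]
    exact h6
  have hcast : ∀ a : ZMod p, (((a.val : ℕ) : ℤ) : ZMod p) = a := by
    intro a
    rw [Int.cast_natCast, ZMod.natCast_zmod_val]
  have hden : ∀ j, ∀ e ∈ E j, Rs ψ (∑ k, (c (Sum.inr (j, k)) : ℂ) * e k) (dnT r v j e) := by
    intro j e he
    exact Rs.sum _ _ _ fun k _ => (hvc _ (by simp)).mul (hE j e he k)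
  have hnum : ∀ j, j ≠ i → ∀ e ∈ E j, Rs ψ (∑ k, (c (Sum.inl (j, k)) : ℂ) * e k) (nmT r v j e) := by
    intro j hj e he
    exact Rs.sum _ _ _ fun k _ => (hvc _ (by
      intro h
      exact hj (Prod.ext_iff.mp (Sum.inl.inj h)).1)).mul (hE j e he k)
  refine ⟨hp, hp2, hpV, hS, ?_, ?_, ?_, ?_, ?_, ?_, ?_, ?_⟩
  · exact rat_notMem ψ (by simpa using h3) h4
  · intro j k hjk
    exact rat_mem ψ (h5' (Sum.inl (j, k)) fun h => hjk (Sum.inl.inj h))
  · intro j k
    exact rat_mem ψ (h5' (Sum.inr (j, k)) (by simp))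
  · intro j e he
    exact (hden j e he).val_one (h2.unit j e he)
  · intro j hj e he
    exact Rs.div_sub (hnum j hj e he) (hden j e he) (h2.unit j e he) (hcast _)
  · intro j hj e he
    rw [hcast]
    exact h2.ord j hj e he
  · intro j k hj hk hjk e he e' he'
    rw [hcast, hcast]
    exact h2.cross j k hj hk hjk e he e' he'
  · intro j k hj hk hjk
    refine (Rs.eval (ψ := ψ) r (HH j k) (hHH j k) _ (v ∘ emb j k) ?_).val_one (h2.rel j k hjk)
    rintro (m | m)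
    · exact hvc _ (by simp)
    · exact hvc _ (by simp)

end red

/-- the family of pairs with given vector of coefficients -/
def unT {n N : ℕ} (c : TX n N → ℚ) (i : Fin n) (k : Fin N) : ℚ × ℚ := (c (Sum.inl (i, k)), c (Sum.inr (i, k)))

lemma unT_injective {n N : ℕ} : Function.Injective (unT : (TX n N → ℚ) → _) := by
  intro c c' h
  funext s
  rcases s with ⟨i, k⟩ | ⟨i, k⟩
  · exact congrArg Prod.fst (congrFun (congrFun h i) k)
  · exact congrArg Prod.snd (congrFun (congrFun h i) k)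

open Classical in
/-- almost all systems of pairs of members of linear systems have two good private primes in every
coordinate, with independent residual discriminants -/
theorem density_three {n N : ℕ} (d : ∀ p : ℕ, ValuationSubring ℂ → ZMod p → ℤ)
    (hd : ∀ ε : ℝ, 0 < ε → ∃ p₀ : ℕ, ∀ p : ℕ, ∀ (_ : Fact p.Prime), p₀ ≤ p → ∀ V : ValuationSubring ℂ,
      V.valuation (p : ℂ) < 1 → ∀ D : ℤ, D ≠ 0 →
      (((Finset.univ : Finset (ZMod p)).filter fun α => d p V α = 0 ∨ IsSquare (D * d p V α)).card : ℝ) ≤ ε * p)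
    (S : Finset ℂ) (E : Fin n → Finset (Fin N → ℂ)) (hE : ∀ j, ∀ e ∈ E j, e ≠ 0)
    (HH : Fin n → Fin n → MvPolynomial (Fin N ⊕ Fin N) ℂ) (hHH : ∀ j k, j ≠ k → HH j k ≠ 0)
    (l : Fin n → Fin N) (Good : (Fin n → Fin N → ℚ × ℚ) → Prop)
    (hGood : ∀ c : Fin n → Fin N → ℚ × ℚ,
      (∀ i, ∃ (p q : ℕ) (V V' : ValuationSubring ℂ) (ρ ρ' : Fin n → (Fin N → ℂ) → ℤ), p ≠ q ∧
        RedT d S E HH (fun i k => (((c i k).1 : ℂ), ((c i k).2 : ℂ))) i (l i) p V ρ ∧
        RedT d S E HH (fun i k => (((c i k).1 : ℂ), ((c i k).2 : ℂ))) i (l i) q V' ρ' ∧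
        ∀ j, j ≠ i → ∀ e ∈ E j, ∀ e' ∈ E j,
          ¬ IsSquare (d p V (ρ j e : ZMod p) * d q V' (ρ' j e' : ZMod q))) → Good c) :
    Tendsto (fun H : ℕ => ((boxT n N H ∩ {c | ¬ Good c}).ncard : ℝ) / (boxT n N H).ncard) atTop (𝓝 0) := by
  set U : Finset ℂ := S ∪ ((univ.biUnion fun j => (E j).biUnion fun ζ => univ.image ζ) ∪
    univ.biUnion fun jk : Fin n × Fin n => (HH jk.1 jk.2).support.image fun m => (HH jk.1 jk.2).coeff m) with hU
  have hUS : ∀ s ∈ S, s ∈ U := fun s hs => mem_union_left _ hs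
  have hUE : ∀ j, ∀ ζ ∈ E j, ∀ k, ζ k ∈ U := by
    intro j ζ hζ k
    refine mem_union_right _ (mem_union_left _ ?_)
    rw [mem_biUnion]
    refine ⟨j, mem_univ _, ?_⟩
    rw [mem_biUnion]
    exact ⟨ζ, hζ, mem_image_of_mem _ (mem_univ k)⟩
  have hUH : ∀ j k, ∀ m ∈ (HH j k).support, (HH j k).coeff m ∈ U := by
    intro j k m hm
    refine mem_union_right _ (mem_union_right _ ?_)
    rw [mem_biUnion]
    exact ⟨(j, k), mem_univ _, mem_image_of_mem _ hm⟩
  obtain ⟨PP, hPP, hV⟩ := exists_split_primes U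
  choose! V hpV hVU using hV
  -- residues
  let r : ∀ p : Nat.Primes, ℂ → ZMod (p : ℕ) := fun p s =>
    if h : ∃ m : ℤ, (V p).valuation (s - (m : ℂ)) < 1 then ((h.choose : ℤ) : ZMod (p : ℕ)) else 0
  let ψ : ∀ p : Nat.Primes, p ∈ PP → (ZMod (p : ℕ) →+* IsLocalRing.ResidueField (V p)) := fun p hp =>
    haveI := charP_residue (V := V p) p.2 (hpV p hp)
    ZMod.castHom (dvd_refl (p : ℕ)) _
  have hr : ∀ p (hp : p ∈ PP), ∀ s ∈ U, Rs (ψ p hp) s (r p s) := by
    intro p hp s hs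
    obtain ⟨h1, h2, h3⟩ := hVU p hp s hs
    refine ⟨h1, ?_⟩
    have h4 : (V p).valuation (s - (h3.choose : ℂ)) < 1 := h3.choose_spec
    have h5 : r p s = ((h3.choose : ℤ) : ZMod (p : ℕ)) := by
      simp only [r]
      rw [dif_pos h3]
    rw [h5, map_intCast, ← sub_eq_zero, ← map_intCast (IsLocalRing.residue (V p)), ← map_sub, residue_eq_zero]
    simpa using h4
  have hr0 : ∀ p ∈ PP, ∀ s ∈ U, s ≠ 0 → r p s ≠ 0 := by
    intro p hp s hs h0 h1
    have h2 := hr p hp s hs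
    rw [h1] at h2
    have h3 := h2.val_lt
    rw [(hVU p hp s hs).2.1 h0] at h3
    exact lt_irrefl _ h3
  -- the bounds
  set e := ((univ : Finset (Fin n)).sigma E).card with he
  set K : ℕ := e + (e * (e + 2) + (e * e + n * n)) with hK
  set DM : ℕ := ∑ jk : Fin n × Fin n, (HH jk.1 jk.2).totalDegree with hDM
  have hDM' : ∀ j k, (HH j k).totalDegree ≤ DM := fun j k =>
    single_le_sum (f := fun jk : Fin n × Fin n => (HH jk.1 jk.2).totalDegree) (fun _ _ => Nat.zero_le _)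
      (mem_univ (j, k))
  obtain ⟨p₀, hp₀⟩ := hd (1 / (2 * ((K : ℝ) + 1))) (by positivity)
  set P₀ : ℕ := p₀ + 2 * (K + 1) * (DM + 1) + 2 * Fintype.card (TX n N) + 2 with hP₀
  have hkey : ∀ p ∈ PP, P₀ < (p : ℕ) → ∀ Δ : Finset ℤ, (∀ D ∈ Δ, D ≠ 0) → Δ.card ≤ e + 1 →
      ∀ i : Fin n, (p : ℕ) ^ (2 * Fintype.card (TX n N)) ≤
        4 * (p : ℕ) * ((boxS (Sum.inl (i, l i) : TX n N) (p : ℕ)).filter
          fun x => PT' (d p (V p)) (r p) E HH Δ i (vr x)).card := by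
    intro p hp hpP Δ hΔ hΔc i
    have hpR : ((2 * (K + 1) * (DM + 1) : ℕ) : ℝ) ≤ (p : ℝ) := by
      exact_mod_cast (by omega : 2 * (K + 1) * (DM + 1) ≤ (p : ℕ))
    push_cast at hpR
    have hfl : (⌊1 / (2 * ((K : ℝ) + 1)) * (p : ℝ)⌋₊ : ℝ) ≤ 1 / (2 * ((K : ℝ) + 1)) * (p : ℝ) :=
      Nat.floor_le (by positivity)
    have hBD : DM + 1 ≤ ⌊1 / (2 * ((K : ℝ) + 1)) * (p : ℝ)⌋₊ := by
      refine Nat.le_floor ?_
      rw [one_div_mul_eq_div, le_div_iff₀ (by positivity)]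
      push_cast
      linarith
    refine card_PT' (d p (V p)) (r p) E HH Δ hΔ ?_ ?_ ⌊1 / (2 * ((K : ℝ) + 1)) * (p : ℝ)⌋₊ (by omega)
      (fun j k => (hDM' j k).trans (by omega)) ?_ K ?_ ?_ (by omega) i (l i)
    · intro j ζ hζ
      by_contra hcon
      push Not at hcon
      apply hE j ζ hζ
      funext m
      by_contra h0
      exact hr0 p hp _ (hUE j ζ hζ m) h0 (hcon m)
    · intro j k hjk
      refine redP_ne_zero _ _ (hHH j k hjk) fun m hm => hr0 p hp _ (hUH j k m hm) ?_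
      exact MvPolynomial.mem_support_iff.mp hm
    · intro D hD P hP
      refine Nat.le_floor (le_trans ?_ (hp₀ p inferInstance (by omega) (V p) (hpV p hp) D hD))
      refine Nat.cast_le.mpr (card_le_card ?_)
      intro α hα
      rw [mem_filter] at hα ⊢
      exact ⟨hα.1, hP α hα.2⟩
    · rw [Fintype.card_sum, Fintype.card_sum, Fintype.card_sum, Fintype.card_prod, Fintype.card_prod,
        Fintype.card_prod, Fintype.card_option, Fintype.card_coe, Fintype.card_coe, Fintype.card_fin, ← he, hK]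
      have : e * (Δ.card + 1) ≤ e * (e + 2) := Nat.mul_le_mul_left _ (by omega)
      omega
    · have h2 : (2 * ((K : ℝ) * (⌊1 / (2 * ((K : ℝ) + 1)) * (p : ℝ)⌋₊ : ℝ))) ≤ (p : ℝ) := by
        have h3 : ((K : ℝ) + 1) * (1 / (2 * ((K : ℝ) + 1)) * (p : ℝ)) = (p : ℝ) / 2 := by
          field_simp
        have h4 : ((K : ℝ) + 1) * (⌊1 / (2 * ((K : ℝ) + 1)) * (p : ℝ)⌋₊ : ℝ) ≤ (p : ℝ) / 2 := by
          rw [← h3]
          exact mul_le_mul_of_nonneg_left hfl (by positivity)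
        have h5 : (0 : ℝ) ≤ (⌊1 / (2 * ((K : ℝ) + 1)) * (p : ℝ)⌋₊ : ℝ) := Nat.cast_nonneg _
        nlinarith
      exact_mod_cast h2
  let Δ₂ : ∀ p : Nat.Primes, (TX n N ⊕ TX n N → ZMod (p : ℕ)) → Finset ℤ := fun p x =>
    (((univ : Finset (Fin n)).sigma E).image fun b : (Σ _ : Fin n, (Fin N → ℂ)) =>
      d p (V p) (rtT (r p) (vr x) b.1 b.2)).filter fun D => D ≠ 0
  have hΔ₂ : ∀ p x, (∀ D ∈ Δ₂ p x, D ≠ 0) ∧ (Δ₂ p x).card ≤ e + 1 := by
    intro p x
    refine ⟨fun D hD => (mem_filter.mp hD).2, ?_⟩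
    refine ((card_filter_le _ _).trans card_image_le).trans ?_
    omega
  have hden := density_pair (ι := TX n N) (J := Fin n) (fun c => Good (unT c)) PP hPP 4
    (by norm_num) (fun p i => (boxS (Sum.inl (i, l i) : TX n N) (p : ℕ)).filter
      fun x => PT' (d p (V p)) (r p) E HH ∅ i (vr x))
    (fun p x q i => (boxS (Sum.inl (i, l i) : TX n N) (q : ℕ)).filter
      fun y => PT' (d q (V q)) (r q) E HH (Δ₂ p x) i (vr y)) (fun _ => P₀) P₀
    (fun p hp hpP i => hkey p hp hpP ∅ (by simp) (by simp) i)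
    (fun p _ _ i x _ q hq hqP => hkey q hq hqP (Δ₂ p x) (hΔ₂ p x).1 (hΔ₂ p x).2 i) (by
      intro c hc
      apply hGood
      intro i
      obtain ⟨p, hp, q, hq, hpq, hpP, hqP, h1, h2⟩ := hc i
      rw [mem_filter] at h1 h2
      have k1 := redT_of (ψ p hp) d S E HH (by omega) (hpV p hp) (r p) (fun s hs => (hVU p hp s (hUS s hs)).1)
        (fun j ζ hζ k => hr p hp _ (hUE j ζ hζ k)) (fun j k m hm => hr p hp _ (hUH j k m hm)) h1.1 h1.2
      have k2 := redT_of (ψ q hq) d S E HH (by omega) (hpV q hq) (r q) (fun s hs => (hVU q hq s (hUS s hs)).1)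
        (fun j ζ hζ k => hr q hq _ (hUE j ζ hζ k)) (fun j k m hm => hr q hq _ (hUH j k m hm)) h2.1 h2.2
      refine ⟨p, q, V p, V q, _, _, fun h => hpq (Subtype.ext h), k1, k2, ?_⟩
      intro j hj e he e' he' hsq
      have hcast : ∀ (p : Nat.Primes) (a : ZMod (p : ℕ)), (((a.val : ℕ) : ℤ) : ZMod (p : ℕ)) = a := by
        intro p a
        have : NeZero (p : ℕ) := ⟨p.2.ne_zero⟩
        rw [Int.cast_natCast, ZMod.natCast_zmod_val]
      have h0 := k1.ord j hj e he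
      rw [hcast] at hsq h0
      rw [hcast] at hsq
      refine h2.2.del j hj e' he' _ ?_ hsq
      simp only [Δ₂]
      rw [mem_filter]
      refine ⟨mem_image.mpr ⟨⟨j, e⟩, mem_sigma.mpr ⟨mem_univ _, he⟩, rfl⟩, h0⟩)
  refine hden.congr fun H => ?_
  have habs : ∀ (z : ℤ), z.natAbs ≤ H ↔ |z| ≤ (H : ℤ) := by
    intro z
    rw [Int.abs_eq_natAbs]
    exact_mod_cast Iff.rfl
  have e1 : boxT n N H = unT '' {c : TX n N → ℚ | ∀ s, (c s).num.natAbs ≤ H ∧ (c s).den ≤ H} := by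
    ext c
    constructor
    · intro hc
      refine ⟨Sum.elim (fun s => (c s.1 s.2).1) fun s => (c s.1 s.2).2, ?_, rfl⟩
      rintro (s | s)
      · exact ⟨(habs _).mpr (hc s.1 s.2).1, (hc s.1 s.2).2.1⟩
      · exact ⟨(habs _).mpr (hc s.1 s.2).2.2.1, (hc s.1 s.2).2.2.2⟩
    · rintro ⟨c, hc, rfl⟩ i k
      exact ⟨(habs _).mp (hc (Sum.inl (i, k))).1, (hc (Sum.inl (i, k))).2, (habs _).mp (hc (Sum.inr (i, k))).1,
        (hc (Sum.inr (i, k))).2⟩
  have e2 : boxT n N H ∩ {c | ¬ Good c} =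
      unT '' {c : TX n N → ℚ | (∀ s, (c s).num.natAbs ≤ H ∧ (c s).den ≤ H) ∧ ¬ Good (unT c)} := by
    rw [e1]
    ext c
    constructor
    · rintro ⟨⟨c, hc, rfl⟩, hc'⟩
      exact ⟨c, ⟨hc, hc'⟩, rfl⟩
    · rintro ⟨c, ⟨hc, hc'⟩, rfl⟩
      exact ⟨⟨c, hc, rfl⟩, hc'⟩
  rw [e2, e1, Set.ncard_image_of_injective _ unT_injective, Set.ncard_image_of_injective _ unT_injective]

end Pool.Agent.ZPOrd
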