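import Mathlib
import Pool.Agent.Lib.ModularZP.LinSys

/-!
Values of the functions of a linear system near a zero of a given function.
-/

namespace Pool.Agent.ZPOrd

open Pool.Agent.Lib.ModularZP

variable {K : Type*} [Field K] [Algebra ℂ K] {N : ℕ}

/-- the value vectors of the functions `b k` at the zeros of `a` -/
def valueSet (a : K) (b : Fin N → K) : Set (Fin N → ℂ) :=
  {e | ∃ P : ValuationSubring K, (∀ c : ℂ, algebraMap ℂ K c ∈ P) ∧ P.valuation a < 1 ∧
    ∀ k, P.valuation (b k - algebraMap ℂ K (e k)) < 1}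

lemma ne_top_of_lt {P : ValuationSubring K} {a : K} (ha : a ≠ 0) (h : P.valuation a < 1) : P ≠ ⊤ := by
  rintro rfl
  rw [val_lt_one_iff] at h
  rcases h with h1 | h1
  · exact ha h1
  · exact h1 (ValuationSubring.mem_top _)

theorem valueSet_finite (htr : Algebra.trdeg ℂ K = 1) {a : K} (ha : a ≠ 0) (b : Fin N → K) :
    (valueSet a b).Finite := by
  classical
  have h : ∀ k, ∃ Z : Finset ℂ, ∀ (P : ValuationSubring K) (c : ℂ), (∀ c : ℂ, algebraMap ℂ K c ∈ P) →
      P.valuation a < 1 → P.valuation (b k - algebraMap ℂ K c) < 1 → c ∈ Z := by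
    intro k
    obtain ⟨S, Z, hZ⟩ := value_cert htr ha (b k)
    refine ⟨Z, fun P c hP hPa hc => ?_⟩
    obtain ⟨ζ, hζ, hv⟩ := hZ P (fun s _ => hP s) hPa (value_mem hP hc)
    rw [value_unique hP hc hv]
    exact hζ
  choose Z hZ using h
  refine (Set.Finite.pi' (t := fun k => (Z k : Set ℂ)) fun k => (Z k).finite_toSet).subset ?_
  rintro e ⟨P, hP, hPa, hv⟩ k
  exact hZ k P (e k) hP hPa (hv k)

/-- the value vectors near a zero of `a` are value vectors at zeros of `a` -/
theorem eval_cert (htr : Algebra.trdeg ℂ K = 1) {a : K} (ha : a ≠ 0) (b : Fin N → K) :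
    ∃ S : Finset ℂ, ∀ W : ValuationSubring K, (∀ s ∈ S, algebraMap ℂ K s ∈ W) →
      W.valuation a < 1 → (∀ k, b k ∈ W) → ∃ e ∈ valueSet a b, ∀ k, W.valuation (b k - algebraMap ℂ K (e k)) < 1 := by
  classical
  set E : Finset (Fin N → ℂ) := (valueSet_finite htr ha b).toFinset with hE
  have hEmem : ∀ e, e ∈ E ↔ e ∈ valueSet a b := fun e => Set.Finite.mem_toFinset _
  -- the certificate for a choice of coordinates
  have hcert : ∀ σ : E → Fin N, ∃ S : Finset ℂ, ∀ W : ValuationSubring K, (∀ s ∈ S, algebraMap ℂ K s ∈ W) →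
      W.valuation a < 1 → (∀ k, b k ∈ W) → W.valuation (∏ e : E, (b (σ e) - algebraMap ℂ K (e.1 (σ e)))) < 1 := by
    intro σ
    set f := ∏ e : E, (b (σ e) - algebraMap ℂ K (e.1 (σ e))) with hf
    by_cases hf0 : f = 0
    · exact ⟨∅, fun W _ _ _ => by rw [hf0, map_zero]; exact zero_lt_one⟩
    obtain ⟨S, hS⟩ := cert (K := K) (a := a) (B := Set.range b ∪ {f⁻¹}) (by
      intro P hP hPa
      by_cases hb : ∀ k, b k ∈ P
      · refine ⟨f⁻¹, Or.inr rfl, fun hfP => ?_⟩
        have hPt : P ≠ ⊤ := ne_top_of_lt ha hPa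
        choose e he using fun k => exists_value htr hP hPt (hb k)
        have heE : e ∈ E := (hEmem e).mpr ⟨P, hP, hPa, he⟩
        have h1 : P.valuation f < 1 := by
          rw [hf, ← Finset.mul_prod_erase _ _ (Finset.mem_univ (⟨e, heE⟩ : E)), mul_comm]
          exact val_mul_lt (prod_mem fun e' _ => sub_mem (hb _) (hP _)) (he _)
        have h2 : P.valuation (f⁻¹ * f) < 1 := val_mul_lt hfP h1
        rw [inv_mul_cancel₀ hf0, map_one] at h2
        exact lt_irrefl _ h2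
      · push Not at hb
        obtain ⟨k, hk⟩ := hb
        exact ⟨b k, Or.inl ⟨k, rfl⟩, hk⟩)
    refine ⟨S, fun W hW hWa hWb => ?_⟩
    obtain ⟨x, hx, hxW⟩ := hS W hW hWa
    rcases hx with ⟨k, rfl⟩ | rfl
    · exact absurd (hWb k) hxW
    · rw [val_lt_one_iff]
      exact Or.inr hxW
  choose S hS using hcert
  refine ⟨Finset.univ.biUnion S, fun W hW hWa hWb => ?_⟩
  by_contra hcon
  push Not at hcon
  choose σ hσ using fun e : E => hcon e.1 ((hEmem _).mp e.2)
  have h1 := hS σ W (fun s hs => hW s (Finset.mem_biUnion.mpr ⟨σ, Finset.mem_univ _, hs⟩)) hWa hWb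
  rw [map_prod] at h1
  have h2 : (1 : W.ValueGroup) ≤ ∏ e : E, W.valuation (b (σ e) - algebraMap ℂ K (e.1 (σ e))) :=
    Finset.one_le_prod' fun e _ => hσ e
  exact absurd h1 (not_lt.mpr h2)

/-- evaluation data of a linear system `b'` near the zeros and the poles of a linear system `b` -/
theorem exists_evalData (htr : Algebra.trdeg ℂ K = 1) {N' : ℕ} {b : Fin N → K} {l : Fin N} (hb0 : b l ≠ 0)
    (b' : Fin N' → K) : ∃ (S : Finset ℂ) (E : Finset (Fin N' → ℂ)),
      (∀ e ∈ E, ∃ P : ValuationSubring K, (∀ c : ℂ, algebraMap ℂ K c ∈ P) ∧ (AtZero P b l ∨ AtPole P b) ∧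
        ∀ k, P.valuation (b' k - algebraMap ℂ K (e k)) < 1) ∧
      ∀ W : ValuationSubring K, (∀ s ∈ S, algebraMap ℂ K s ∈ W) → (AtZero W b l ∨ AtPole W b) → ¬ AtPole W b' →
        ∃ e ∈ E, ∀ k, W.valuation (b' k - algebraMap ℂ K (e k)) < 1 := by
  classical
  -- the functions which are small
  have hlt : ∀ (W : ValuationSubring K) (k : Fin N), b k ≠ 0 →
      (W.valuation (b l / b k) < 1 ↔ W.valuation (b l) < W.valuation (b k)) := by
    intro W k hk
    rw [map_div₀, div_lt_one₀ (zero_lt_iff.mpr (by rwa [Ne, map_eq_zero]))]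
  let A : Finset K := {b l} ∪ ((Finset.univ.filter fun k => b k ≠ 0).image fun k => b l / b k) ∪
    (Finset.univ.filter fun k => b k ≠ 0).image fun k => (b k)⁻¹
  have hA0 : ∀ a ∈ A, a ≠ 0 := by
    intro a ha
    simp only [A, Finset.mem_union, Finset.mem_singleton, Finset.mem_image, Finset.mem_filter, Finset.mem_univ, true_and] at ha
    rcases ha with (rfl | ⟨k, hk, rfl⟩) | ⟨k, hk, rfl⟩
    · exact hb0
    · exact div_ne_zero hb0 hk
    · exact inv_ne_zero hk
  have hA1 : ∀ W : ValuationSubring K, ∀ a ∈ A, W.valuation a < 1 → AtZero W b l ∨ AtPole W b := by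
    intro W a ha hWa
    simp only [A, Finset.mem_union, Finset.mem_singleton, Finset.mem_image, Finset.mem_filter, Finset.mem_univ, true_and] at ha
    rcases ha with (rfl | ⟨k, hk, rfl⟩) | ⟨k, hk, rfl⟩
    · exact Or.inl (Or.inl hWa)
    · exact Or.inl (Or.inr ⟨k, (hlt W k hk).mp hWa⟩)
    · exact Or.inr ⟨k, (inv_lt_one_iff hk).mp hWa⟩
  have hA2 : ∀ W : ValuationSubring K, AtZero W b l ∨ AtPole W b → ∃ a ∈ A, W.valuation a < 1 := by
    rintro W ((h | ⟨k, hk⟩) | ⟨k, hk⟩)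
    · exact ⟨b l, by simp [A], h⟩
    · have hk0 : b k ≠ 0 := by
        intro h0
        rw [h0, map_zero] at hk
        exact not_lt_zero hk
      refine ⟨b l / b k, ?_, (hlt W k hk0).mpr hk⟩
      simp only [A, Finset.mem_union, Finset.mem_image, Finset.mem_filter, Finset.mem_univ, true_and]
      exact Or.inl (Or.inr ⟨k, hk0, rfl⟩)
    · have hk0 : b k ≠ 0 := fun h0 => hk (by rw [h0]; exact W.zero_mem)
      refine ⟨(b k)⁻¹, ?_, (inv_lt_one_iff hk0).mpr hk⟩
      simp only [A, Finset.mem_union, Finset.mem_image, Finset.mem_filter, Finset.mem_univ, true_and]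
      exact Or.inr ⟨k, hk0, rfl⟩
  choose S hS using fun a : A => eval_cert htr (hA0 a.1 a.2) b'
  refine ⟨Finset.univ.biUnion S, Finset.univ.biUnion fun a : A => (valueSet_finite htr (hA0 a.1 a.2) b').toFinset, ?_, ?_⟩
  · intro e he
    rw [Finset.mem_biUnion] at he
    obtain ⟨a, _, ha⟩ := he
    rw [Set.Finite.mem_toFinset] at ha
    obtain ⟨P, hP, hPa, hv⟩ := ha
    exact ⟨P, hP, hA1 P a.1 a.2 hPa, hv⟩
  · intro W hW hz hp
    obtain ⟨a, ha, hWa⟩ := hA2 W hz
    unfold AtPole at hp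
    push Not at hp
    obtain ⟨e, he, hv⟩ := hS ⟨a, ha⟩ W (fun s hs => hW s (Finset.mem_biUnion.mpr ⟨_, Finset.mem_univ _, hs⟩)) hWa hp
    refine ⟨e, ?_, hv⟩
    rw [Finset.mem_biUnion]
    exact ⟨⟨a, ha⟩, Finset.mem_univ _, (Set.Finite.mem_toFinset _).mpr he⟩

end Pool.Agent.ZPOrd
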