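import Mathlib
import Pool.Agent.ZPOrd.Eval
import Pool.Agent.Lib.ModularZP.LinCrit

/-!
The criterion for curves whose coordinate functions are members of linear systems, with residual
discriminants.
-/

open UpperHalfPlane hiding I

namespace Pool.Agent.ZPOrd

open Pool.Agent.Lib.ModularZP

/-- `d p V` attaches to the residue classes modulo `p` integers which are compatible with complex
multiplication and isogenies of points which reduce to them modulo `V` -/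
structure DiscFn (d : ∀ p : ℕ, ValuationSubring ℂ → ZMod p → ℤ) : Prop where
  cm : ∀ τ : ℍ, IsCM τ → ∃ D : ℤ, D ≠ 0 ∧ ∀ (p : ℕ) (V : ValuationSubring ℂ) (m : ℤ), p.Prime → p ≠ 2 →
    V.valuation (p : ℂ) < 1 → V.valuation (jInv τ - (m : ℂ)) < 1 →
      d p V (m : ZMod p) = 0 ∨ IsSquare (D * d p V (m : ZMod p))
  iso : ∀ (p : ℕ) (V : ValuationSubring ℂ) (m m' : ℤ) (τ : ℍ) (h : GL (Fin 2) ℚ), p.Prime →
    V.valuation (p : ℂ) < 1 → 0 < h.det.val → V.valuation (jInv τ - (m : ℂ)) < 1 →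
    V.valuation (jInv (h.map (algebraMap ℚ ℝ) • τ) - (m' : ℂ)) < 1 →
      d p V (m : ZMod p) = 0 ∨ d p V (m' : ZMod p) = 0 ∨ IsSquare (d p V (m : ZMod p) * d p V (m' : ZMod p))

/-- good reduction data at `p` -/
structure RedL {n N : ℕ} (d : ∀ p : ℕ, ValuationSubring ℂ → ZMod p → ℤ) (S : Finset ℂ)
    (T E : Fin n → Finset (Fin N → ℂ)) (c : Fin n → Fin N → ℂ) (i : Fin n) (l : Fin N) (p : ℕ)
    (V : ValuationSubring ℂ) (ρ : Fin n → (Fin N → ℂ) → ℤ) : Prop where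
  prime : p.Prime
  two : p ≠ 2
  val : V.valuation (p : ℂ) < 1
  good : GoodL S T c i l V
  res : ∀ j, j ≠ i → ∀ e ∈ E j, V.valuation (∑ k, c j k * e k - (ρ j e : ℂ)) < 1
  ord : ∀ j, j ≠ i → ∀ e ∈ E j, d p V (ρ j e : ZMod p) ≠ 0
  cross : ∀ j k, j ≠ i → k ≠ i → j ≠ k → ∀ e ∈ E j, ∀ e' ∈ E k,
    ¬ IsSquare (d p V (ρ j e : ZMod p) * d p V (ρ k e' : ZMod p))

lemma isSquare_of_mul {D a b : ℤ} (hD : D ≠ 0) (ha : IsSquare (D * a)) (hb : IsSquare (D * b)) : IsSquare (a * b) := by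
  obtain ⟨x, hx⟩ := ha
  obtain ⟨y, hy⟩ := hb
  have h1 : D ^ 2 * (a * b) = (x * y) ^ 2 := by
    calc D ^ 2 * (a * b) = (D * a) * (D * b) := by ring
      _ = (x * y) ^ 2 := by rw [hx, hy]; ring
  have h2 : D ^ 2 ∣ (x * y) ^ 2 := ⟨a * b, h1.symm⟩
  rw [Int.pow_dvd_pow_iff two_ne_zero] at h2
  obtain ⟨z, hz⟩ := h2
  refine ⟨z, ?_⟩
  have hD2 : D ^ 2 ≠ 0 := pow_ne_zero _ hD
  apply mul_left_cancel₀ hD2
  rw [h1, hz]
  ring

variable {K : Type*} [Field K] [Algebra ℂ K]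

/-- **Criterion.** -/
theorem ordCrit (htr : Algebra.trdeg ℂ K = 1) {n N : ℕ} (hn : 2 ≤ n) (b : Fin n → Fin N → K)
    (lz : Fin n → Fin N) (hb0 : ∀ i, b i (lz i) ≠ 0) (hb : ∀ i, ∃ k, Transcendental ℂ (b i k))
    (U : Fin n → Fin N → Prop)
    (hE : ∀ i j, i ≠ j → ∀ P : ValuationSubring K, (∀ c : ℂ, algebraMap ℂ K c ∈ P) →
      (AtZero P (b i) (lz i) ∨ AtPole P (b i)) → AtPole P (b j) ∨ ∃ k, U j k ∧ P.valuation (b j k) = 1)
    {d : ∀ p : ℕ, ValuationSubring ℂ → ZMod p → ℤ} (hd : DiscFn d) :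
    ∃ (S : Finset ℂ) (T E : Fin n → Finset (Fin N → ℂ)), (∀ j, ∀ ζ ∈ T j, ∃ m, ζ m = 1) ∧
      (∀ j, ∀ e ∈ E j, ∃ k, U j k ∧ e k ≠ 0) ∧
      ∀ c : Fin n → Fin N → ℂ, (∀ i, ∃ (p q : ℕ) (V V' : ValuationSubring ℂ) (ρ ρ' : Fin n → (Fin N → ℂ) → ℤ), p ≠ q ∧
          RedL d S T E c i (lz i) p V ρ ∧ RedL d S T E c i (lz i) q V' ρ' ∧
          ∀ j, j ≠ i → ∀ e ∈ E j, ∀ e' ∈ E j, ¬ IsSquare (d p V (ρ j e : ZMod p) * d q V' (ρ' j e' : ZMod q))) →
        HodgeGeneric (placeCurve fun i => lin (b i) (c i)) ∧ (atyp (placeCurve fun i => lin (b i) (c i))).Finite := by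
  classical
  have hnt : Nontrivial (Fin n) := Fin.nontrivial_iff_two_le.mpr hn
  choose lt hlt using hb
  obtain ⟨i0, _⟩ := exists_pair_ne (Fin n)
  set y : K := b i0 (lt i0) with hydef
  have hy : Transcendental ℂ y := hlt i0
  choose ST T hT0 hTW using fun j => exists_poleData htr (b j)
  obtain ⟨S3, hS3⟩ := ev_all (K := K) (ι := Fin n)
    (Q := fun j W => AtPole W (b j) → ∃ m, b j m ∉ W ∧ ∃ ζ ∈ T j, ∀ k,
      W.valuation (b j k / b j m - algebraMap ℂ K (ζ k)) < 1) (fun j => ⟨ST j, hTW j⟩)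
  choose SG ZG hG using fun i => exists_generic htr (hb0 i) y
  obtain ⟨S4, hS4⟩ := ev_all (K := K) (ι := Fin n)
    (Q := fun i W => y ∈ W → (∀ ζ ∈ ZG i, ¬ W.valuation (y - algebraMap ℂ K ζ) < 1) →
      ¬ AtZero W (b i) (lz i) ∧ ¬ AtPole W (b i)) (fun j => ⟨SG j, hG j⟩)
  choose SR RR ZR hRR using fun q : (Fin n × Fin n) × (Fin N × Fin N) =>
    exists_ratios htr (b q.1.1 q.2.1) (b q.1.2 q.2.2)
  obtain ⟨S5, hS5⟩ := ev_all (K := K) (ι := (Fin n × Fin n) × (Fin N × Fin N)) (Q := fun q W => b q.1.1 q.2.1 ∉ W → b q.1.2 q.2.2 ∉ W →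
      ∃ r ∈ RR q, 0 < r.1 ∧ 0 < r.2 ∧ r.1.Coprime r.2 ∧
        W.valuation (b q.1.2 q.2.2) ^ r.2 = W.valuation (b q.1.1 q.2.1) ^ r.1 ∧
        ∃ κ ∈ ZR q, W.valuation (b q.1.2 q.2.2 ^ r.2 / b q.1.1 q.2.1 ^ r.1 - algebraMap ℂ K κ) < 1)
      (fun q => ⟨SR q, hRR q⟩)
  choose SE EE hEE1 hEE2 using fun q : Fin n × Fin n => exists_evalData htr (hb0 q.1) (b q.2)
  obtain ⟨S6, hS6⟩ := ev_all (K := K) (ι := Fin n × Fin n)
    (Q := fun q W => (AtZero W (b q.1) (lz q.1) ∨ AtPole W (b q.1)) → ¬ AtPole W (b q.2) →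
      ∃ e ∈ EE q, ∀ k, W.valuation (b q.2 k - algebraMap ℂ K (e k)) < 1) (fun q => ⟨SE q, hEE2 q⟩)
  set E : Fin n → Finset (Fin N → ℂ) := fun j => (Finset.univ.erase j).biUnion fun i => EE (i, j) with hEdef
  set R := Finset.univ.biUnion RR with hRdef
  set Z := Finset.univ.biUnion ZR with hZdef
  set S := S6 ∪ (S3 ∪ (S4 ∪ S5)) with hS
  have hsub : ∀ W : ValuationSubring K, (∀ s ∈ S, algebraMap ℂ K s ∈ W) →
      (∀ s ∈ S6, algebraMap ℂ K s ∈ W) ∧ (∀ s ∈ S3, algebraMap ℂ K s ∈ W) ∧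
      (∀ s ∈ S4, algebraMap ℂ K s ∈ W) ∧ ∀ s ∈ S5, algebraMap ℂ K s ∈ W := by
    intro W hW
    refine ⟨fun s hs => hW s ?_, fun s hs => hW s ?_, fun s hs => hW s ?_, fun s hs => hW s ?_⟩ <;>
      simp only [hS, Finset.mem_union, hs, true_or, or_true]
  refine ⟨S, T, E, hT0, ?_, fun c hc => ?_⟩
  · intro j e he
    rw [hEdef, Finset.mem_biUnion] at he
    obtain ⟨i, hi, hei⟩ := he
    have hij : i ≠ j := Finset.ne_of_mem_erase hi
    obtain ⟨P, hP, hPz, hv⟩ := hEE1 (i, j) e hei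
    rcases hE i j hij P hP hPz with ⟨k, hk⟩ | ⟨k, hUk, hk⟩
    · exact absurd (value_mem hP (hv k)) hk
    · refine ⟨k, hUk, fun h0 => ?_⟩
      have h1 := hv k
      rw [h0, map_zero, sub_zero, hk] at h1
      exact lt_irrefl _ h1
  set g : Fin n → K := fun i => lin (b i) (c i) with hg
  have hconst0 : ∀ (P : ValuationSubring K) (z : ℂ), P.valuation (algebraMap ℂ K z - algebraMap ℂ K z) < 1 :=
    fun P z => by rw [sub_self, map_zero]; exact zero_lt_one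
  -- transcendence of the coordinate functions
  have hgt : ∀ i, Transcendental ℂ (g i) := by
    intro i
    by_contra hcon
    obtain ⟨z, hz⟩ := exists_const_of_not hcon
    obtain ⟨i', hi'⟩ := exists_ne i
    obtain ⟨p, _, V, _, ρ, _, _, hRV, _⟩ := hc i'
    have hGV := hRV.good
    obtain ⟨P, hP, hPb⟩ := exists_pole (hlt i)
    obtain ⟨m, hm, ζ, hζT, hζ⟩ := hS3 P (fun s _ => hP s) i ⟨lt i, hPb⟩
    have h1 : V.valuation (∑ k, c i k * ζ k) = 1 := hGV.2.2.2 i (Ne.symm hi') ζ hζT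
    have h2 : (∑ k, c i k * ζ k) ≠ 0 := fun h => by rw [h, map_zero] at h1; exact zero_ne_one h1
    obtain ⟨_, h3⟩ := lin_pole hm (fun k => hP (c i k)) hζ (const_val hP h2)
    have h4 : g i ∉ P := by
      rw [← one_lt_iff, h3, one_lt_iff]
      exact hm
    rw [← hz] at h4
    exact h4 (hP z)
  -- no modular relation holds identically
  have hrel : ∀ j k, j ≠ k → ∀ M, {x ∈ placeCurve g | ModRel M (x j) (x k)}.Finite := by
    intro j k hjk M
    apply finite_rel_of_ne htr hgt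
    obtain ⟨p, _, V, _, ρ, _, _, hRV, _⟩ := hc k
    have hGV := hRV.good
    obtain ⟨W, hW1, _, hyW, hWZ⟩ := exists_gauss V hy (Finset.univ.biUnion ZG)
    have hSW : ∀ s ∈ S, algebraMap ℂ K s ∈ W := fun s hs => (hW1 s).mpr (hGV.1 s hs)
    have h4 := hS4 W (hsub W hSW).2.2.1
    have hZi : ∀ i, ∀ ζ ∈ ZG i, ¬ W.valuation (y - algebraMap ℂ K ζ) < 1 := fun i ζ hζ =>
      hWZ ζ (Finset.mem_biUnion.mpr ⟨i, Finset.mem_univ _, hζ⟩)
    refine relation_ne_of_val (W := W) (fun z hz => (hW1 z).mpr (AI_le V hz)) ?_ ?_ M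
    · refine lin_mem (fun l => (hW1 _).mpr (hGV.2.2.1 j l ?_)) (h4 j hyW (hZi j)).2
      intro h
      exact hjk (congrArg Prod.fst h)
    · refine lin_notMem (l := lz k) (fun h => hGV.2.1 ((hW1 _).mp h)) (fun l hl => (hW1 _).mpr (hGV.2.2.1 k l ?_))
        (h4 k hyW (hZi k)).1
      intro h
      exact hl (congrArg Prod.snd h)
  refine ⟨hodgeGeneric_of_finite htr hgt hrel, ?_⟩
  -- the integrality patterns and the residues
  have key : ∀ (i : Fin n) (p : ℕ) (V : ValuationSubring ℂ) (ρ : Fin n → (Fin N → ℂ) → ℤ),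
      RedL d S T E c i (lz i) p V ρ → ∀ x ∈ placeCurve g, ∀ j, j ≠ i → x j ∈ V →
        (x i ∈ V ∨ ∃ j', j' ≠ i ∧ j' ≠ j ∧ x j' ∉ V) → ∃ e ∈ E j, V.valuation (x j - (ρ j e : ℂ)) < 1 := by
    rintro i p V ρ hR x ⟨P, hP, hPt, hPx⟩ j hj hxj hor
    have hGV := hR.good
    obtain ⟨W, _, hWc, hWm, hWlt⟩ := exists_comp htr hP hPt V
    have hSW : ∀ s ∈ S, algebraMap ℂ K s ∈ W := fun s hs => (hWc s).mpr (hGV.1 s hs)
    have hW1 : ∀ z : ℂ, V.valuation z = 1 → W.valuation (algebraMap ℂ K z) = 1 := by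
      intro z hz
      refine le_antisymm ((W.valuation_le_one_iff _).mpr ((hWc z).mpr ((V.valuation_le_one_iff _).mp hz.le))) ?_
      by_contra hlt
      push Not at hlt
      have := (hWlt _ z (hconst0 P z)).mp hlt
      rw [hz] at this
      exact lt_irrefl _ this
    have hcj : ∀ j, j ≠ i → ∀ k, algebraMap ℂ K (c j k) ∈ W := fun j hj k =>
      (hWc _).mpr (hGV.2.2.1 j k fun h => hj (congrArg Prod.fst h))
    have hpole : ∀ j, j ≠ i → (x j ∉ V ↔ AtPole W (b j)) := by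
      intro j hj
      rw [← hWm _ _ (hPx j)]
      constructor
      · intro h
        by_contra hp
        exact h (lin_mem (hcj j hj) hp)
      · intro hp
        obtain ⟨m, hm, ζ, hζT, hζ⟩ := hS3 W (hsub W hSW).2.1 j hp
        obtain ⟨_, h3⟩ := lin_pole hm (hcj j hj) hζ (hW1 _ (hGV.2.2.2 j hj ζ hζT))
        show g j ∉ W
        rw [← one_lt_iff, h3, one_lt_iff]
        exact hm
    have hnp : ¬ AtPole W (b j) := fun h => ((hpole j hj).mpr h) hxj
    obtain ⟨e, heE, hv⟩ : ∃ e ∈ E j, ∀ k, W.valuation (b j k - algebraMap ℂ K (e k)) < 1 := by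
      rcases hor with hxi | ⟨j', hj'i, hj'j, hxj'⟩
      · have hz : AtZero W (b i) (lz i) := by
          by_contra hz
          have h1 : g i ∉ W := lin_notMem (l := lz i) (fun h => hGV.2.1 ((hWc _).mp h))
            (fun k hk => (hWc _).mpr (hGV.2.2.1 i k fun h => hk (congrArg Prod.snd h))) hz
          exact h1 ((hWm _ _ (hPx i)).mpr hxi)
        obtain ⟨e, he, hv⟩ := hS6 W (hsub W hSW).1 (i, j) (Or.inl hz) hnp
        exact ⟨e, Finset.mem_biUnion.mpr ⟨i, Finset.mem_erase.mpr ⟨hj.symm, Finset.mem_univ _⟩, he⟩, hv⟩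
      · obtain ⟨e, he, hv⟩ := hS6 W (hsub W hSW).1 (j', j) (Or.inr ((hpole j' hj'i).mp hxj')) hnp
        exact ⟨e, Finset.mem_biUnion.mpr ⟨j', Finset.mem_erase.mpr ⟨hj'j, Finset.mem_univ _⟩, he⟩, hv⟩
    refine ⟨e, heE, ?_⟩
    have h1 : W.valuation (g j - algebraMap ℂ K (∑ k, c j k * e k)) < 1 := by
      have h2 : g j - algebraMap ℂ K (∑ k, c j k * e k) = ∑ k, algebraMap ℂ K (c j k) * (b j k - algebraMap ℂ K (e k)) := by
        rw [hg]
        simp only [lin]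
        rw [map_sum, ← Finset.sum_sub_distrib]
        refine Finset.sum_congr rfl fun k _ => ?_
        rw [map_mul]; ring
      rw [h2]
      exact W.valuation.map_sum_lt one_ne_zero fun k _ => val_mul_lt (hcj j hj k) (hv k)
    have h2 : P.valuation (g j - algebraMap ℂ K (∑ k, c j k * e k) - algebraMap ℂ K (x j - ∑ k, c j k * e k)) < 1 := by
      have h3 : g j - algebraMap ℂ K (∑ k, c j k * e k) - algebraMap ℂ K (x j - ∑ k, c j k * e k) =
          g j - algebraMap ℂ K (x j) := by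
        rw [map_sub]; ring
      rw [h3]
      exact hPx j
    have h3 := (hWlt _ _ h2).mp h1
    have h4 : x j - (ρ j e : ℂ) = (x j - ∑ k, c j k * e k) + (∑ k, c j k * e k - (ρ j e : ℂ)) := by ring
    rw [h4]
    exact V.valuation.map_add_lt h3 (hR.res j hj e heE)
  -- a pair of isogenous coordinates near a common pole
  have hpair : ∀ x ∈ placeCurve g, ∀ (m : ℕ) (D : SpecialDatum n m), m + 2 ≤ n → x ∈ D.variety →
      ∃ i j k, j ≠ i ∧ k ≠ i ∧ j ≠ k ∧ D.block j = D.block k ∧ D.block j ≠ none ∧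
        ∀ p V ρ, RedL d S T E c i (lz i) p V ρ → x j ∉ V ∧ x k ∉ V := by
    intro x hx m D hm hxD
    have hnone : ∀ (V : ValuationSubring ℂ) i, D.block i = none → x i ∈ V := by
      intro V i hi
      obtain ⟨e, he⟩ := pattern D hxD V
      rw [he i, hi]
      trivial
    have hsame : ∀ (V : ValuationSubring ℂ) i j, D.block i = D.block j → (x i ∈ V ↔ x j ∈ V) := by
      intro V i j hij
      obtain ⟨e, he⟩ := pattern D hxD V
      rw [he i, he j, hij]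
    -- two isogenous coordinates are not both integral
    have hiso : ∀ (i j k : Fin n), j ≠ i → k ≠ i → j ≠ k → D.block j = D.block k → D.block j ≠ none →
        ∀ p V ρ, RedL d S T E c i (lz i) p V ρ → (x i ∈ V ∨ ∃ j', j' ≠ i ∧ j' ≠ j ∧ j' ≠ k ∧ x j' ∉ V) →
          x j ∉ V ∧ x k ∉ V := by
      intro i j k hji hki hjk hb1 hb2 p V ρ hR hor
      by_contra hcon
      have h5 := hsame V j k hb1
      have hxj : x j ∈ V := by
        by_contra h
        exact hcon ⟨h, fun h' => h (h5.mpr h')⟩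
      have hxk : x k ∈ V := h5.mp hxj
      obtain ⟨e, he, hve⟩ := key i p V ρ hR x hx j hji hxj
        (hor.imp id fun ⟨j', h1, h2, _, h4⟩ => ⟨j', h1, h2, h4⟩)
      obtain ⟨e', he', hve'⟩ := key i p V ρ hR x hx k hki hxk
        (hor.imp id fun ⟨j', h1, _, h3, h4⟩ => ⟨j', h1, h3, h4⟩)
      obtain ⟨a, ha⟩ := Option.ne_none_iff_exists'.mp hb2
      have ha' : D.block k = some a := by rw [← hb1]; exact ha
      obtain ⟨τ, hτ⟩ := hxD
      have hi' : x j = jInv ((D.g j).map (algebraMap ℚ ℝ) • τ a) := by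
        rw [hτ j]; unfold SpecialDatum.coord; rw [ha]
      have hj' : x k = jInv ((D.g k).map (algebraMap ℚ ℝ) • τ a) := by
        rw [hτ k]; unfold SpecialDatum.coord; rw [ha']
      have hdet : 0 < (D.g k * (D.g j)⁻¹).det.val := by
        have h1 := D.g_det j
        have h2 := D.g_det k
        rw [map_mul, map_inv, Units.val_mul, Units.val_inv_eq_inv_val]
        positivity
      rw [hi'] at hve
      have hk' : x k = jInv ((D.g k * (D.g j)⁻¹).map (algebraMap ℚ ℝ) • ((D.g j).map (algebraMap ℚ ℝ) • τ a)) := by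
        rw [hj', map_mul, map_inv, mul_smul, inv_smul_smul]
      rw [hk'] at hve'
      rcases hd.iso p V (ρ j e) (ρ k e') _ _ hR.prime hR.val hdet hve hve' with h | h | h
      · exact hR.ord j hji e he h
      · exact hR.ord k hki e' he' h
      · exact hR.cross j k hji hki hjk e he e' he' h
    rcases types D.block hm with ⟨i, j, hij, hi, hj⟩ | ⟨i, j, k, hij, hik, hjk, hi, hjk', hne⟩ |
      ⟨i, j, k, hij, hik, hjk, hij', hjk', hne⟩ | ⟨i, j, k, m, hij, hik, him, hjk, hjm, hkm, hij', hkm', hne, hne'⟩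
    · exfalso
      obtain ⟨p, q, V, V', ρ, ρ', hpq, hR, hR', hcr⟩ := hc i
      have hCM : ∃ τ : ℍ, IsCM τ ∧ x j = jInv τ := by
        obtain ⟨τ, hτ⟩ := hxD
        refine ⟨D.cm j, D.cm_isCM j, ?_⟩
        rw [hτ j]; unfold SpecialDatum.coord; rw [hj]
      obtain ⟨τ, hτCM, hτ⟩ := hCM
      obtain ⟨D0, hD0, hD⟩ := hd.cm τ hτCM
      obtain ⟨e, he, hve⟩ := key i p V ρ hR x hx j hij.symm (hnone V j hj) (Or.inl (hnone V i hi))
      obtain ⟨e', he', hve'⟩ := key i q V' ρ' hR' x hx j hij.symm (hnone V' j hj) (Or.inl (hnone V' i hi))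
      rw [hτ] at hve hve'
      have h1 := (hD p V (ρ j e) hR.prime hR.two hR.val hve).resolve_left (hR.ord j hij.symm e he)
      have h2 := (hD q V' (ρ' j e') hR'.prime hR'.two hR'.val hve').resolve_left (hR'.ord j hij.symm e' he')
      exact hcr j hij.symm e he e' he' (isSquare_of_mul hD0 h1 h2)
    · refine ⟨i, j, k, hij.symm, hik.symm, hjk, hjk', hne, fun p V ρ hR => ?_⟩
      exact hiso i j k hij.symm hik.symm hjk hjk' hne p V ρ hR (Or.inl (hnone V i hi))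
    · refine ⟨i, j, k, hij.symm, hik.symm, hjk, hjk', hne, fun p V ρ hR => ?_⟩
      by_cases hxi : x i ∈ V
      · exact hiso i j k hij.symm hik.symm hjk hjk' hne p V ρ hR (Or.inl hxi)
      · have h5 := hsame V j k hjk'
        have h6 := hsame V i j hij'
        exact ⟨fun h => hxi (h6.mpr h), fun h => hxi (h6.mpr (h5.mpr h))⟩
    · refine ⟨i, k, m, hik.symm, him.symm, hkm, hkm', hne', fun p V ρ hR => ?_⟩
      refine hiso i k m hik.symm him.symm hkm hkm' hne' p V ρ hR ?_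
      by_cases hxi : x i ∈ V
      · exact Or.inl hxi
      · exact Or.inr ⟨j, hij.symm, hjk, hjm, fun h => hxi ((hsame V i j hij').mpr h)⟩
  -- the levels
  have hlev : ∀ (i j k : Fin n), ∃ L : Set ℕ, L.Finite ∧ (j ≠ i → k ≠ i → ∀ x ∈ placeCurve g,
      (∀ p V ρ, RedL d S T E c i (lz i) p V ρ → x j ∉ V ∧ x k ∉ V) → ∀ M, Lev M (x j) (x k) → M ∈ L) := by
    intro i j k
    by_cases hji : j ≠ i ∧ k ≠ i
    · obtain ⟨hj, hk⟩ := hji
      obtain ⟨p, q, V, V', ρ, ρ', hpq, hR, hR', _⟩ := hc i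
      have hGV := hR.good
      have hGV' := hR'.good
      have hT1 : ∀ j, ∀ W : ValuationSubring K, (∀ s ∈ S, algebraMap ℂ K s ∈ W) → AtPole W (b j) →
          ∃ m, b j m ∉ W ∧ ∃ ζ ∈ T j, ∀ k, W.valuation (b j k / b j m - algebraMap ℂ K (ζ k)) < 1 :=
        fun j W hW => hS3 W (hsub W hW).2.1 j
      have hR1 : ∀ W : ValuationSubring K, (∀ s ∈ S, algebraMap ℂ K s ∈ W) → ∀ m m', b j m ∉ W → b k m' ∉ W →
          ∃ r ∈ R, 0 < r.1 ∧ 0 < r.2 ∧ r.1.Coprime r.2 ∧ W.valuation (b k m') ^ r.2 = W.valuation (b j m) ^ r.1 ∧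
            ∃ κ ∈ Z, W.valuation (b k m' ^ r.2 / b j m ^ r.1 - algebraMap ℂ K κ) < 1 := by
        intro W hW m m' hm hm'
        obtain ⟨r, hr, h1, h2, h3, h4, κ, hκ, h5⟩ := hS5 W (hsub W hW).2.2.2 ((j, k), (m, m')) hm hm'
        exact ⟨r, Finset.mem_biUnion.mpr ⟨_, Finset.mem_univ _, hr⟩, h1, h2, h3, h4, κ,
          Finset.mem_biUnion.mpr ⟨_, Finset.mem_univ _, hκ⟩, h5⟩
      obtain ⟨F, hF0, hF⟩ := level_near htr (hT1 j) (hT1 k) hR1 hR.prime hR.val hGV.1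
        (fun l' => hGV.2.2.1 j l' fun h => hj (congrArg Prod.fst h))
        (fun l' => hGV.2.2.1 k l' fun h => hk (congrArg Prod.fst h)) (hGV.2.2.2 j hj) (hGV.2.2.2 k hk)
      obtain ⟨F', hF0', hF'⟩ := level_near htr (hT1 j) (hT1 k) hR1 hR'.prime hR'.val hGV'.1
        (fun l' => hGV'.2.2.1 j l' fun h => hj (congrArg Prod.fst h))
        (fun l' => hGV'.2.2.1 k l' fun h => hk (congrArg Prod.fst h)) (hGV'.2.2.2 j hj) (hGV'.2.2.2 k hk)
      refine ⟨_, levels_two hR.prime hR'.prime hpq F F' hF0', fun _ _ => ?_⟩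
      rintro x ⟨P, hP, hPt, hPx⟩ hx M hM
      exact ⟨hF P hP hPt _ _ (hPx j) (hPx k) (hx p V ρ hR).1 (hx p V ρ hR).2 M hM,
        hF' P hP hPt _ _ (hPx j) (hPx k) (hx q V' ρ' hR').1 (hx q V' ρ' hR').2 M hM⟩
    · exact ⟨∅, Set.finite_empty, fun h1 h2 => absurd ⟨h1, h2⟩ hji⟩
  choose L hL hLev using hlev
  refine Set.Finite.subset (s := ⋃ i, ⋃ j, ⋃ k, ⋃ M ∈ L i j k, {x ∈ placeCurve g | j ≠ k ∧ ModRel M (x j) (x k)}) ?_ ?_
  · refine Set.finite_iUnion fun i => Set.finite_iUnion fun j => Set.finite_iUnion fun k =>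
      (hL i j k).biUnion fun M _ => ?_
    by_cases hjk : j = k
    · refine Set.Finite.subset Set.finite_empty ?_
      rintro x ⟨_, h, _⟩
      exact h hjk
    · refine (hrel j k hjk M).subset ?_
      rintro x ⟨hx, _, h⟩
      exact ⟨hx, h⟩
  · rintro x ⟨hx, m, D, hm, hxD⟩
    obtain ⟨i, j, k, hj, hk, hjk, hblock, hne, hVV⟩ := hpair x hx m D hm hxD
    obtain ⟨M, hM0, hMlev, hMrel⟩ := lev_of_block D hxD hblock hne
    have hML := hLev i j k hj hk x hx hVV M hMlev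
    simp only [Set.mem_iUnion]
    exact ⟨i, j, k, M, hML, hx, hjk, hMrel⟩

end Pool.Agent.ZPOrd
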