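import Mathlib
import Pool.Agent.Lib.ModularZP.LinCrit

/-!
Elimination: two linear forms in independent variables with coefficients in a field of transcendence
degree one have a common zero only if the variables satisfy an equation.
-/

universe u

namespace Pool.Agent.ZPOrd

open Pool.Agent.Lib.ModularZP

section alg

variable {K L : Type*} [Field K] [Algebra ℂ K] [Field L] [Algebra ℂ L]

/-- algebraic dependence passes to the image -/
lemma dep_image (htr : Algebra.trdeg ℂ K = 1) (A : Subalgebra ℂ K) (θ : A →ₐ[ℂ] L) {a : A}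
    (ha : Transcendental ℂ (θ a)) (b : A) : IsAlgebraic (Algebra.adjoin ℂ {θ a}) (θ b) := by
  by_contra hb
  have h1 : AlgebraicIndependent ℂ (fun _ : Unit => θ a) := algebraicIndependent_unique_type_iff.mpr ha
  have h2 := (h1.option_iff_transcendental (θ b)).mpr (by rw [Set.range_const]; exact hb)
  have h3 : AlgebraicIndependent ℂ (fun o : Option Unit => o.elim b fun _ => a) := by
    refine AlgebraicIndependent.of_comp θ ?_
    convert h2 using 2 with o
    cases o <;> rfl
  have h4 : AlgebraicIndependent ℂ (A.val ∘ fun o : Option Unit => o.elim b fun _ => a) :=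
    h3.map' Subtype.val_injective
  have h5 := h4.lift_cardinalMk_le_trdeg
  rw [htr] at h5
  simp at h5

open MvPolynomial in
/-- independent variables with two linear relations -/
lemma no_relations (htr : Algebra.trdeg ℂ K = 1) (A : Subalgebra ℂ K) {N N' : ℕ} (v : Fin N → A) (m : Fin N)
    (hv : v m = 1) (v' : Fin N' → A) (m' : Fin N') (hv' : v' m' = 1) (θ : A →ₐ[ℂ] L) (x : Fin N ⊕ Fin N' → L)
    (hx : AlgebraicIndependent ℂ x) (h1 : ∑ k, x (Sum.inl k) * θ (v k) = 0)
    (h2 : ∑ k, x (Sum.inr k) * θ (v' k) = 0)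
    (hgen : ∀ z : L, ∃ P Q : MvPolynomial (Fin N ⊕ Fin N') A, eval₂ θ.toRingHom x Q ≠ 0 ∧
      z = eval₂ θ.toRingHom x P / eval₂ θ.toRingHom x Q) : False := by
  classical
  by_cases hcase : ∃ a : A, Transcendental ℂ (θ a)
  · obtain ⟨a, ha⟩ := hcase
    let F : Finset L := insert (θ a) (((Finset.univ.erase (Sum.inl m)).erase (Sum.inr m')).image x)
    have hFcard : F.card ≤ N + N' - 1 := by
      have e1 : (((Finset.univ.erase (Sum.inl m : Fin N ⊕ Fin N')).erase (Sum.inr m')).image x).card ≤ N + N' - 2 := by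
        refine Finset.card_image_le.trans ?_
        rw [Finset.card_erase_of_mem (Finset.mem_erase.mpr ⟨by simp, Finset.mem_univ _⟩),
          Finset.card_erase_of_mem (Finset.mem_univ _), Finset.card_univ]
        simp
        omega
      have e2 := Finset.card_insert_le (θ a) (((Finset.univ.erase (Sum.inl m : Fin N ⊕ Fin N')).erase (Sum.inr m')).image x)
      have e3 := m.pos
      have e4 := m'.pos
      have e5 : F.card ≤ _ := e2
      omega
    let B := Algebra.adjoin ℂ (F : Set L)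
    have hsub : Algebra.adjoin ℂ {θ a} ≤ B := Algebra.adjoin_mono (by
      intro z hz
      rw [Set.mem_singleton_iff] at hz
      rw [hz]
      exact Finset.mem_coe.mpr (Finset.mem_insert_self _ _))
    let T := Subalgebra.algebraicClosure B L
    have hθ : ∀ b : A, θ b ∈ T := by
      intro b
      letI : Algebra (Algebra.adjoin ℂ {θ a}) B := (Subalgebra.inclusion hsub).toAlgebra
      haveI : IsScalarTower (Algebra.adjoin ℂ {θ a}) B L := IsScalarTower.of_algebraMap_eq fun _ => rfl
      exact (dep_image htr A θ ha b).extendScalars (Subalgebra.inclusion_injective hsub)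
    have hB : ∀ z ∈ F, z ∈ T := by
      intro z hz
      have hzB : z ∈ B := Algebra.subset_adjoin hz
      exact isAlgebraic_algebraMap (⟨z, hzB⟩ : B)
    have hxs : ∀ s, s ≠ Sum.inl m → s ≠ Sum.inr m' → x s ∈ T := fun s hs hs' =>
      hB _ (Finset.mem_insert_of_mem (Finset.mem_image_of_mem _
        (Finset.mem_erase.mpr ⟨hs', Finset.mem_erase.mpr ⟨hs, Finset.mem_univ _⟩⟩)))
    have hxm : x (Sum.inl m) ∈ T := by
      rw [← Finset.add_sum_erase _ _ (Finset.mem_univ m), hv, map_one, mul_one] at h1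
      rw [eq_neg_of_add_eq_zero_left h1]
      refine T.neg_mem (T.sum_mem fun k hk => T.mul_mem (hxs _ ?_ (by simp)) (hθ _))
      intro h
      exact Finset.ne_of_mem_erase hk (Sum.inl.inj h)
    have hxm' : x (Sum.inr m') ∈ T := by
      rw [← Finset.add_sum_erase _ _ (Finset.mem_univ m'), hv', map_one, mul_one] at h2
      rw [eq_neg_of_add_eq_zero_left h2]
      refine T.neg_mem (T.sum_mem fun k hk => T.mul_mem (hxs _ (by simp) ?_) (hθ _))
      intro h
      exact Finset.ne_of_mem_erase hk (Sum.inr.inj h)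
    have hxall : ∀ s, x s ∈ T := by
      intro s
      by_cases hs : s = Sum.inl m
      · rw [hs]; exact hxm
      · by_cases hs' : s = Sum.inr m'
        · rw [hs']; exact hxm'
        · exact hxs s hs hs'
    have heval : ∀ P : MvPolynomial (Fin N ⊕ Fin N') A, eval₂ θ.toRingHom x P ∈ T := by
      intro P
      induction P using MvPolynomial.induction_on with
      | C a => rw [eval₂_C]; exact hθ a
      | add p q hp hq => rw [eval₂_add]; exact T.add_mem hp hq
      | mul_X p s hp => rw [eval₂_mul, eval₂_X]; exact T.mul_mem hp (hxall s)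
    have halg : Algebra.IsAlgebraic B L := by
      refine ⟨fun z => ?_⟩
      obtain ⟨P, Q, _, hz⟩ := hgen z
      have h3 : IsAlgebraic B (eval₂ θ.toRingHom x P) := heval P
      have h4 : IsAlgebraic B (eval₂ θ.toRingHom x Q) := heval Q
      rw [hz, div_eq_mul_inv]
      exact h3.mul h4.inv
    have h3 : Algebra.trdeg ℂ L ≤ Cardinal.mk (F : Set L) := Algebra.IsAlgebraic.trdeg_le_cardinalMk ℂ (F : Set L)
    have h4 := hx.lift_cardinalMk_le_trdeg
    have h5 : Cardinal.mk (F : Set L) = (F.card : Cardinal) := by simp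
    rw [h5] at h3
    rw [Cardinal.lift_uzero] at h4
    have h7 := h4.trans h3
    have h8 : N + N' ≤ F.card := by
      have h9 : Cardinal.lift (Cardinal.mk (Fin N ⊕ Fin N')) = ((N + N' : ℕ) : Cardinal) := by simp
      rw [h9] at h7
      exact_mod_cast h7
    have := m.pos
    omega
  · push Not at hcase
    have hc : ∀ k, ∃ c : ℂ, algebraMap ℂ L c = θ (v k) := fun k => exists_const_of_not (hcase (v k))
    choose c hc using hc
    have hli := hx.linearIndependent
    rw [Fintype.linearIndependent_iff] at hli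
    have h3 := hli (Sum.elim c fun _ => 0) (by
      rw [Fintype.sum_sum_type]
      simp only [Sum.elim_inl, Sum.elim_inr, zero_smul, Finset.sum_const_zero, add_zero]
      rw [← h1]
      refine Finset.sum_congr rfl fun k _ => ?_
      rw [← hc k, Algebra.smul_def, mul_comm]) (Sum.inl m)
    simp only [Sum.elim_inl] at h3
    have h4 := hc m
    rw [h3, map_zero, hv, map_one] at h4
    exact zero_ne_one h4

end alg

/-- a homomorphism to a field which kills an ideal and no element of a multiplicative set -/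
lemma exists_field {R : Type u} [CommRing R] (I : Ideal R) (M : Submonoid R) (h : Disjoint (I : Set R) (M : Set R)) :
    ∃ (L : Type u) (_ : Field L) (π : R →+* L), (∀ r ∈ I, π r = 0) ∧ (∀ r ∈ M, π r ≠ 0) ∧
      ∀ z : L, ∃ P Q, π Q ≠ 0 ∧ z = π P / π Q := by
  obtain ⟨q, hq, hIq, hqM⟩ := Ideal.exists_le_prime_disjoint I M h
  refine ⟨FractionRing (R ⧸ q), inferInstance, (algebraMap (R ⧸ q) (FractionRing (R ⧸ q))).comp (Ideal.Quotient.mk q), ?_, ?_, ?_⟩
  · intro r hr
    rw [RingHom.comp_apply, Ideal.Quotient.eq_zero_iff_mem.mpr (hIq hr), map_zero]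
  · intro r hr h0
    rw [RingHom.comp_apply, map_eq_zero_iff _ (IsFractionRing.injective (R ⧸ q) _), Ideal.Quotient.eq_zero_iff_mem] at h0
    exact Set.disjoint_left.mp hqM h0 hr
  · intro z
    obtain ⟨a, b, hb, hz⟩ := IsFractionRing.div_surjective (A := R ⧸ q) z
    obtain ⟨P, rfl⟩ := Ideal.Quotient.mk_surjective a
    obtain ⟨Q, rfl⟩ := Ideal.Quotient.mk_surjective b
    refine ⟨P, Q, ?_, hz.symm⟩
    rw [RingHom.comp_apply, Ne, map_eq_zero_iff _ (IsFractionRing.injective (R ⧸ q) _)]
    exact nonZeroDivisors.ne_zero hb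

open MvPolynomial in
theorem elim {K : Type*} [Field K] [Algebra ℂ K] (htr : Algebra.trdeg ℂ K = 1) {N N' : ℕ} (v : Fin N → K) (m : Fin N) (hv : v m = 1) (v' : Fin N' → K) (m' : Fin N') (hv' : v' m' = 1) :
    ∃ (H : MvPolynomial (Fin N ⊕ Fin N') ℂ) (S : Finset ℂ), H ≠ 0 ∧ ∀ W : ValuationSubring K, (∀ s ∈ S, algebraMap ℂ K s ∈ W) → (∀ k, v k ∈ W) → (∀ k, v' k ∈ W) → ∀ (β : Fin N → ℂ) (β' : Fin N' → ℂ), (∀ k, algebraMap ℂ K (β k) ∈ W) → (∀ k, algebraMap ℂ K (β' k) ∈ W) → W.valuation (∑ k, algebraMap ℂ K (β k) * v k) < 1 → W.valuation (∑ k, algebraMap ℂ K (β' k) * v' k) < 1 → W.valuation (algebraMap ℂ K (MvPolynomial.eval (Sum.elim β β') H)) < 1 := by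
  classical
  let A : Subalgebra ℂ K := Algebra.adjoin ℂ (Set.range v ∪ Set.range v')
  let w : Fin N → A := fun k => ⟨v k, Algebra.subset_adjoin (Or.inl ⟨k, rfl⟩)⟩
  let w' : Fin N' → A := fun k => ⟨v' k, Algebra.subset_adjoin (Or.inr ⟨k, rfl⟩)⟩
  let y : MvPolynomial (Fin N ⊕ Fin N') A := ∑ k, X (Sum.inl k) * C (w k)
  let y' : MvPolynomial (Fin N ⊕ Fin N') A := ∑ k, X (Sum.inr k) * C (w' k)
  let I : Ideal (MvPolynomial (Fin N ⊕ Fin N') A) := Ideal.span {y, y'}
  let φ : MvPolynomial (Fin N ⊕ Fin N') ℂ →+* MvPolynomial (Fin N ⊕ Fin N') A := MvPolynomial.map (algebraMap ℂ A)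
  obtain ⟨H, hH0, hHI⟩ : ∃ H, H ≠ 0 ∧ φ H ∈ I := by
    by_contra hcon
    push Not at hcon
    let M : Submonoid (MvPolynomial (Fin N ⊕ Fin N') A) := (nonZeroDivisors (MvPolynomial (Fin N ⊕ Fin N') ℂ)).map φ
    have hdisj : Disjoint (I : Set (MvPolynomial (Fin N ⊕ Fin N') A)) (M : Set (MvPolynomial (Fin N ⊕ Fin N') A)) := by
      rw [Set.disjoint_left]
      rintro r hr ⟨H, hH, rfl⟩
      exact hcon H (nonZeroDivisors.ne_zero hH) hr
    obtain ⟨L, hL, π, hπI, hπM, hπg⟩ := exists_field I M hdisj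
    letI : Algebra ℂ L := (π.comp (C.comp (algebraMap ℂ A))).toAlgebra
    let θ : A →ₐ[ℂ] L :=
      { toRingHom := π.comp C
        commutes' := fun _ => rfl }
    let x : Fin N ⊕ Fin N' → L := fun s => π (X s)
    have heval : ∀ P : MvPolynomial (Fin N ⊕ Fin N') A, eval₂ θ.toRingHom x P = π P := by
      intro P
      have h1 : eval₂Hom θ.toRingHom x = π := by
        refine MvPolynomial.ringHom_ext (fun a => ?_) (fun s => ?_)
        · rw [coe_eval₂Hom, eval₂_C]; rfl
        · rw [coe_eval₂Hom, eval₂_X]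
      exact congrArg (fun f : MvPolynomial (Fin N ⊕ Fin N') A →+* L => f P) h1
    have haeval : ∀ P : MvPolynomial (Fin N ⊕ Fin N') ℂ, aeval x P = π (φ P) := by
      intro P
      rw [← heval, eval₂_map]
      rfl
    have hx : AlgebraicIndependent ℂ x := by
      rw [algebraicIndependent_iff]
      intro P hP
      rw [haeval] at hP
      by_contra h0
      exact hπM _ ⟨P, mem_nonZeroDivisors_of_ne_zero h0, rfl⟩ hP
    refine no_relations htr A w m (Subtype.ext hv) w' m' (Subtype.ext hv') θ x hx ?_ ?_ ?_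
    · have h1 : π y = 0 := hπI y (Ideal.subset_span (Set.mem_insert _ _))
      rw [← h1]
      simp only [y]
      rw [map_sum]
      refine Finset.sum_congr rfl fun k _ => ?_
      rw [map_mul]
      rfl
    · have h1 : π y' = 0 := hπI y' (Ideal.subset_span (Set.mem_insert_of_mem _ rfl))
      rw [← h1]
      simp only [y']
      rw [map_sum]
      refine Finset.sum_congr rfl fun k _ => ?_
      rw [map_mul]
      rfl
    · intro z
      obtain ⟨P, Q, hQ, hz⟩ := hπg z
      exact ⟨P, Q, by rw [heval]; exact hQ, by rw [heval, heval]; exact hz⟩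
  obtain ⟨Q, Q', hQ⟩ := Ideal.mem_span_pair.mp hHI
  have hfin : ∀ a : A, ∃ S : Finset ℂ, ∀ W : ValuationSubring K, (∀ s ∈ S, algebraMap ℂ K s ∈ W) →
      (∀ u ∈ Set.range v ∪ Set.range v', u ∈ W) → (a : K) ∈ W := by
    intro a
    obtain ⟨S, hS⟩ := adjoin_finite a.2
    exact ⟨S, fun W h1 h2 => hS W h1 h2⟩
  choose SA hSA using hfin
  let S : Finset ℂ := (Q.support.biUnion fun e => SA (Q.coeff e)) ∪ (Q'.support.biUnion fun e => SA (Q'.coeff e))
  refine ⟨H, S, hH0, fun W hW hvW hvW' β β' hβ hβ' h1 h2 => ?_⟩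
  have hgen : ∀ u ∈ Set.range v ∪ Set.range v', u ∈ W := by
    rintro u (⟨k, rfl⟩ | ⟨k, rfl⟩)
    · exact hvW k
    · exact hvW' k
  let b : Fin N ⊕ Fin N' → K := fun s => algebraMap ℂ K (Sum.elim β β' s)
  have hb : ∀ s, b s ∈ W := by
    rintro (k | k)
    · exact hβ k
    · exact hβ' k
  let ev : MvPolynomial (Fin N ⊕ Fin N') A →+* K := eval₂Hom A.val.toRingHom b
  have hmem : ∀ P : MvPolynomial (Fin N ⊕ Fin N') A, (∀ e ∈ P.support, ((P.coeff e : A) : K) ∈ W) → ev P ∈ W := by
    intro P hP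
    simp only [ev, coe_eval₂Hom]
    rw [eval₂_eq']
    refine W.toSubring.sum_mem fun e he => W.mul_mem _ _ (hP e he) (W.toSubring.prod_mem fun s _ => pow_mem (hb s) _)
  have e1 : ev y = ∑ k, algebraMap ℂ K (β k) * v k := by
    simp only [ev, y]
    rw [map_sum]
    refine Finset.sum_congr rfl fun k _ => ?_
    rw [map_mul, coe_eval₂Hom, eval₂_X, eval₂_C]
    rfl
  have e2 : ev y' = ∑ k, algebraMap ℂ K (β' k) * v' k := by
    simp only [ev, y']
    rw [map_sum]
    refine Finset.sum_congr rfl fun k _ => ?_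
    rw [map_mul, coe_eval₂Hom, eval₂_X, eval₂_C]
    rfl
  have e3 : ev (φ H) = algebraMap ℂ K (MvPolynomial.eval (Sum.elim β β') H) := by
    simp only [ev, φ, coe_eval₂Hom]
    rw [eval₂_map, ← MvPolynomial.coe_eval₂Hom]
    have h3 : (A.val.toRingHom.comp (algebraMap ℂ A)) = algebraMap ℂ K := rfl
    rw [h3]
    have h4 := MvPolynomial.eval₂_comp_left (algebraMap ℂ K) (RingHom.id ℂ) (Sum.elim β β') H
    rw [RingHom.comp_id] at h4
    exact h4.symm
  rw [← e3, ← hQ, map_add, map_mul, map_mul]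
  refine W.valuation.map_add_lt (val_mul_lt (hmem Q fun e he => ?_) (by rw [e1]; exact h1))
    (val_mul_lt (hmem Q' fun e he => ?_) (by rw [e2]; exact h2))
  · exact hSA _ W (fun s hs => hW s (Finset.mem_union_left _ (Finset.mem_biUnion.mpr ⟨e, he, hs⟩))) hgen
  · exact hSA _ W (fun s hs => hW s (Finset.mem_union_right _ (Finset.mem_biUnion.mpr ⟨e, he, hs⟩))) hgen

end Pool.Agent.ZPOrd
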