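import Mathlib
import Pool.Agent.ZPOrd.Abs
import Pool.Agent.ZPOrd.Eval
import Pool.Agent.ZPOrd.Elim
import Pool.Agent.ZPOrd.ThreeDefs

/-!
The criterion for curves in `Y(1)ⁿ`, `n ≤ 3`, whose coordinate functions are ratios of members of linear
systems.
-/

open UpperHalfPlane hiding I

namespace Pool.Agent.ZPOrd

open Pool.Agent.Lib.ModularZP

variable {K : Type*} [Field K] [Algebra ℂ K]

/-- the ratio of the two members of the linear system `u` with coefficients `(c k).1` and `(c k).2` -/
noncomputable def ratio {N : ℕ} (u : Fin N → K) (c : Fin N → ℂ × ℂ) : K :=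
  lin u (fun k => (c k).1) / lin u (fun k => (c k).2)

lemma lin_close {W : ValuationSubring K} {N : ℕ} {u : Fin N → K} {m : Fin N} {e : Fin N → ℂ}
    (he : ∀ a, W.valuation (u a / u m - algebraMap ℂ K (e a)) < 1) {c : Fin N → ℂ}
    (hc : ∀ k, algebraMap ℂ K (c k) ∈ W) :
    W.valuation (lin u c / u m - algebraMap ℂ K (∑ k, c k * e k)) < 1 := by
  have h2 : lin u c / u m - algebraMap ℂ K (∑ k, c k * e k) =
      ∑ k, algebraMap ℂ K (c k) * (u k / u m - algebraMap ℂ K (e k)) := by
    rw [lin, Finset.sum_div, map_sum, ← Finset.sum_sub_distrib]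
    refine Finset.sum_congr rfl fun k _ => ?_
    rw [map_mul]; ring
  rw [h2]
  exact W.valuation.map_sum_lt one_ne_zero fun k _ => val_mul_lt (hc k) (he k)

/-- a quotient near a quotient with unit denominator -/
lemma div_close {W : ValuationSubring K} {a b x y : K} (hx : x ∈ W) (hy : W.valuation y = 1)
    (ha : W.valuation (a - x) < 1) (hb : W.valuation (b - y) < 1) : W.valuation (a / b - x / y) < 1 := by
  have hb1 : W.valuation b = 1 := by
    have h1 : b = (b - y) + y := by ring
    rw [h1, W.valuation.map_add_eq_of_lt_right (by rwa [hy]), hy]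
  have hb0 : b ≠ 0 := by
    rintro rfl
    rw [map_zero] at hb1
    exact zero_ne_one hb1
  have hy0 : y ≠ 0 := by
    rintro rfl
    rw [map_zero] at hy
    exact zero_ne_one hy
  have h1 : a / b - x / y = ((a - x) * y - x * (b - y)) / (b * y) := by
    field_simp
    ring
  rw [h1, map_div₀, map_mul W.valuation b y, hb1, hy, one_mul, div_one]
  refine W.valuation.map_sub_lt ?_ (val_mul_lt hx hb)
  rw [mul_comm]
  exact val_mul_lt ((W.valuation_le_one_iff _).mp hy.le) ha

lemma ratio_close {W : ValuationSubring K} {N : ℕ} {u : Fin N → K} {m : Fin N} (hm : u m ≠ 0) {e : Fin N → ℂ}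
    (he : ∀ a, W.valuation (u a / u m - algebraMap ℂ K (e a)) < 1) {c : Fin N → ℂ × ℂ}
    (hc1 : ∀ k, algebraMap ℂ K (c k).1 ∈ W) (hc2 : ∀ k, algebraMap ℂ K (c k).2 ∈ W)
    (heW : ∀ k, algebraMap ℂ K (e k) ∈ W)
    (hu : W.valuation (algebraMap ℂ K (∑ k, (c k).2 * e k)) = 1) :
    W.valuation (ratio u c - algebraMap ℂ K ((∑ k, (c k).1 * e k) / (∑ k, (c k).2 * e k))) < 1 := by
  have h1 := lin_close he hc1
  have h2 := lin_close he hc2
  have h3 : ratio u c = (lin u (fun k => (c k).1) / u m) / (lin u (fun k => (c k).2) / u m) := by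
    unfold ratio
    rw [div_div_div_cancel_right₀ hm]
  rw [h3, map_div₀]
  refine div_close ?_ hu h1 h2
  rw [map_sum]
  refine sum_mem fun k _ => ?_
  rw [map_mul]
  exact mul_mem (hc1 k) (heW k)

theorem threeCrit (htr : Algebra.trdeg ℂ K = 1) {n N : ℕ} (hn : n ≤ 3) (u : Fin n → Fin N → K)
    (l : Fin n → Fin N) (hl : ∀ i, u i (l i) = 1) (hu : ∀ i, ∃ k, Transcendental ℂ (u i k))
    {d : ∀ p : ℕ, ValuationSubring ℂ → ZMod p → ℤ} (hd : DiscFn d) :
    ∃ (S : Finset ℂ) (E : Fin n → Finset (Fin N → ℂ)) (HH : Fin n → Fin n → MvPolynomial (Fin N ⊕ Fin N) ℂ),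
      (∀ j, ∀ e ∈ E j, e ≠ 0) ∧ (∀ j k, j ≠ k → HH j k ≠ 0) ∧
      ∀ c : Fin n → Fin N → ℂ × ℂ, (∀ i, ∃ (p q : ℕ) (V V' : ValuationSubring ℂ) (ρ ρ' : Fin n → (Fin N → ℂ) → ℤ),
        p ≠ q ∧ RedT d S E HH c i (l i) p V ρ ∧ RedT d S E HH c i (l i) q V' ρ' ∧
        ∀ j, j ≠ i → ∀ e ∈ E j, ∀ e' ∈ E j, ¬ IsSquare (d p V (ρ j e : ZMod p) * d q V' (ρ' j e' : ZMod q))) →
        HodgeGeneric (placeCurve fun i => ratio (u i) (c i)) ∧ atyp (placeCurve fun i => ratio (u i) (c i)) = ∅ := by
  classical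
  rcases Nat.eq_zero_or_pos n with hn0 | hn0
  · subst hn0
    refine ⟨∅, fun _ => ∅, fun _ _ => 1, fun j => j.elim0, fun j => j.elim0, fun c _ => ⟨fun m D hm => by omega, ?_⟩⟩
    rw [Set.eq_empty_iff_forall_notMem]
    rintro x ⟨_, m, D, hm, _⟩
    omega
  -- a place at which everything is finite
  obtain ⟨k0, hy⟩ := hu ⟨0, hn0⟩
  set y := u ⟨0, hn0⟩ k0 with hydef
  have hl0 : ∀ i, u i (l i) ≠ 0 := fun i => by rw [hl i]; exact one_ne_zero
  choose SG ZG hG using fun i => exists_generic htr (hl0 i) y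
  obtain ⟨v0, hv0⟩ : ∃ v0 : ℂ, v0 ∉ Finset.univ.biUnion ZG := Infinite.exists_notMem_finset _
  obtain ⟨P0, hP0, hP0t, hP0y⟩ := exists_place hy v0
  have hP0' : ∀ i, ¬ AtPole P0 (u i) := by
    intro i
    refine (hG i P0 (fun s _ => hP0 s) (value_mem hP0 hP0y) fun ζ hζ h => ?_).2
    have h1 := value_unique hP0 hP0y h
    exact hv0 (Finset.mem_biUnion.mpr ⟨i, Finset.mem_univ _, by rw [h1]; exact hζ⟩)
  have hval : ∀ i k, ∃ z : ℂ, P0.valuation (u i k - algebraMap ℂ K z) < 1 := by
    intro i k
    refine exists_value htr hP0 hP0t ?_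
    have h1 := hP0' i
    unfold AtPole at h1
    push Not at h1
    exact h1 k
  choose e0 he0 using hval
  have he0l : ∀ i, e0 i (l i) = 1 := by
    intro i
    have h1 := he0 i (l i)
    have h2 : P0.valuation (u i (l i) - algebraMap ℂ K 1) < 1 := by
      rw [hl i, map_one, sub_self, map_zero]; exact zero_lt_one
    exact value_unique hP0 h1 h2
  -- poles and values
  choose ST T hT1 hTW using fun j => exists_poleData htr (u j)
  choose SE EE hEE1 hEE2 using fun q : Fin n × Fin n => exists_evalData htr (hl0 q.1) (u q.2)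
  -- elimination
  have helim : ∀ q : (Fin n × Fin n) × (Fin N × Fin N), ∃ (H : MvPolynomial (Fin N ⊕ Fin N) ℂ) (S : Finset ℂ), H ≠ 0 ∧
      (u q.1.1 q.2.1 ≠ 0 → u q.1.2 q.2.2 ≠ 0 → ∀ W : ValuationSubring K, (∀ s ∈ S, algebraMap ℂ K s ∈ W) →
        (∀ k, u q.1.1 k / u q.1.1 q.2.1 ∈ W) → (∀ k, u q.1.2 k / u q.1.2 q.2.2 ∈ W) →
        ∀ (β β' : Fin N → ℂ), (∀ k, algebraMap ℂ K (β k) ∈ W) → (∀ k, algebraMap ℂ K (β' k) ∈ W) →
        W.valuation (∑ k, algebraMap ℂ K (β k) * (u q.1.1 k / u q.1.1 q.2.1)) < 1 →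
        W.valuation (∑ k, algebraMap ℂ K (β' k) * (u q.1.2 k / u q.1.2 q.2.2)) < 1 →
        W.valuation (algebraMap ℂ K (MvPolynomial.eval (Sum.elim β β') H)) < 1) := by
    intro q
    by_cases h1 : u q.1.1 q.2.1 ≠ 0
    · by_cases h2 : u q.1.2 q.2.2 ≠ 0
      · obtain ⟨H, S, hH, hS⟩ := elim htr (fun k => u q.1.1 k / u q.1.1 q.2.1) q.2.1 (div_self h1)
          (fun k => u q.1.2 k / u q.1.2 q.2.2) q.2.2 (div_self h2)
        exact ⟨H, S, hH, fun _ _ => hS⟩
      · exact ⟨1, ∅, one_ne_zero, fun _ h => absurd h h2⟩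
    · exact ⟨1, ∅, one_ne_zero, fun h => absurd h h1⟩
  choose HQ SQ hHQ0 hHQ using helim
  set HH : Fin n → Fin n → MvPolynomial (Fin N ⊕ Fin N) ℂ := fun j k => ∏ q : Fin N × Fin N, HQ ((j, k), q) with hHH
  set E : Fin n → Finset (Fin N → ℂ) := fun j =>
    insert (e0 j) (T j ∪ (Finset.univ.erase j).biUnion fun i => EE (i, j)) with hE
  set S : Finset ℂ := (Finset.univ.biUnion ST) ∪ ((Finset.univ.biUnion SE) ∪ ((Finset.univ.biUnion SQ) ∪
    ((Finset.univ.biUnion fun q => (HQ q).support.image (HQ q).coeff) ∪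
      Finset.univ.biUnion fun j => (E j).biUnion fun e => Finset.univ.image e))) with hS
  have hsub : ∀ W : ValuationSubring K, (∀ s ∈ S, algebraMap ℂ K s ∈ W) →
      (∀ j, ∀ s ∈ ST j, algebraMap ℂ K s ∈ W) ∧ (∀ q, ∀ s ∈ SE q, algebraMap ℂ K s ∈ W) ∧
      (∀ q, ∀ s ∈ SQ q, algebraMap ℂ K s ∈ W) ∧ ∀ j, ∀ e ∈ E j, ∀ k, algebraMap ℂ K (e k) ∈ W := by
    intro W hW
    refine ⟨fun j s hs => hW s ?_, fun j s hs => hW s ?_, fun j s hs => hW s ?_, fun j e he k => hW _ ?_⟩
    · exact Finset.mem_union_left _ (Finset.mem_biUnion.mpr ⟨j, Finset.mem_univ _, hs⟩)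
    · exact Finset.mem_union_right _ (Finset.mem_union_left _ (Finset.mem_biUnion.mpr ⟨j, Finset.mem_univ _, hs⟩))
    · exact Finset.mem_union_right _ (Finset.mem_union_right _ (Finset.mem_union_left _
        (Finset.mem_biUnion.mpr ⟨j, Finset.mem_univ _, hs⟩)))
    · refine Finset.mem_union_right _ (Finset.mem_union_right _ (Finset.mem_union_right _ (Finset.mem_union_right _
        (Finset.mem_biUnion.mpr ⟨j, Finset.mem_univ _, ?_⟩))))
      exact Finset.mem_biUnion.mpr ⟨e, he, Finset.mem_image_of_mem _ (Finset.mem_univ k)⟩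
  have hSe : ∀ V : ValuationSubring ℂ, (∀ s ∈ S, s ∈ V) → ∀ j, ∀ e ∈ E j, ∀ k, e k ∈ V := by
    intro V hV j e he k
    refine hV _ (Finset.mem_union_right _ (Finset.mem_union_right _ (Finset.mem_union_right _ (Finset.mem_union_right _
      (Finset.mem_biUnion.mpr ⟨j, Finset.mem_univ _, ?_⟩)))))
    exact Finset.mem_biUnion.mpr ⟨e, he, Finset.mem_image_of_mem _ (Finset.mem_univ k)⟩
  have hSq : ∀ V : ValuationSubring ℂ, (∀ s ∈ S, s ∈ V) → ∀ q m, (HQ q).coeff m ∈ V := by
    intro V hV q m
    by_cases hm : m ∈ (HQ q).support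
    · refine hV _ (Finset.mem_union_right _ (Finset.mem_union_right _ (Finset.mem_union_right _ (Finset.mem_union_left _
        (Finset.mem_biUnion.mpr ⟨q, Finset.mem_univ _, Finset.mem_image_of_mem _ hm⟩)))))
    · rw [MvPolynomial.notMem_support_iff.mp hm]
      exact V.zero_mem
  have hEne : ∀ j, ∀ e ∈ E j, e ≠ 0 := by
    intro j e he h0
    rw [hE, Finset.mem_insert, Finset.mem_union, Finset.mem_biUnion] at he
    rcases he with rfl | he | ⟨i, _, he⟩
    · have := he0l j
      rw [h0] at this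
      exact zero_ne_one this
    · obtain ⟨m, hm⟩ := hT1 j e he
      rw [h0] at hm
      exact zero_ne_one hm
    · obtain ⟨P, hP, _, hv⟩ := hEE1 (i, j) e he
      have h1 := hv (l j)
      rw [h0] at h1
      simp only [hl j, Pi.zero_apply, map_zero, sub_zero, map_one] at h1
      exact lt_irrefl _ h1
  refine ⟨S, E, HH, hEne, fun j k _ => Finset.prod_ne_zero_iff.mpr fun q _ => hHQ0 _, fun c hc => ?_⟩
  set g : Fin n → K := fun i => ratio (u i) (c i) with hg
  have he0E : ∀ j, e0 j ∈ E j := fun j => Finset.mem_insert_self _ _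
  -- values at the generic place
  have hbase : ∀ i (V : ValuationSubring ℂ) p ρ, RedT d S E HH c i (l i) p V ρ → ∀ j,
      P0.valuation (g j - algebraMap ℂ K ((∑ k, (c j k).1 * e0 j k) / (∑ k, (c j k).2 * e0 j k))) < 1 := by
    intro i V p ρ hR j
    have h1 : (∑ k, (c j k).2 * e0 j k) ≠ 0 := by
      intro h0
      have h2 := hR.unit j (e0 j) (he0E j)
      rw [h0, map_zero] at h2
      exact zero_ne_one h2
    refine ratio_close (m := l j) (hl0 j) (fun a => ?_) (fun k => hP0 _) (fun k => hP0 _) (fun k => hP0 _)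
      (const_val hP0 h1)
    rw [hl j, div_one]
    exact he0 j a
  have hBne : ∀ i (V : ValuationSubring ℂ) p ρ, RedT d S E HH c i (l i) p V ρ → ∀ j, lin (u j) (fun k => (c j k).2) ≠ 0 := by
    intro i V p ρ hR j h0
    have h1 : (∑ k, (c j k).2 * e0 j k) ≠ 0 := by
      intro h0
      have h2 := hR.unit j (e0 j) (he0E j)
      rw [h0, map_zero] at h2
      exact zero_ne_one h2
    have h2 := lin_close (W := P0) (u := u j) (m := l j) (e := e0 j) (fun a => by
      rw [hl j, div_one]; exact he0 j a) (c := fun k => (c j k).2) fun k => hP0 _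
    rw [h0, zero_div, zero_sub, Valuation.map_neg, const_val hP0 h1] at h2
    exact lt_irrefl _ h2
  refine ⟨hodge_of_points fun i => ?_, atyp_empty hd fun i => ?_⟩
  · obtain ⟨p, q, V, V', ρ, ρ', _, hR, _, _⟩ := hc i
    refine ⟨V, fun j => (∑ k, (c j k).1 * e0 j k) / (∑ k, (c j k).2 * e0 j k), ⟨P0, hP0, hP0t, hbase i V p ρ hR⟩, ?_, ?_⟩
    · intro hcon
      have h1 := hR.unit i (e0 i) (he0E i)
      have h2 : (∑ k, (c i k).2 * e0 i k) ≠ 0 := by
        intro h0
        rw [h0, map_zero] at h1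
        exact zero_ne_one h1
      have h3 : ∑ k, (c i k).1 * e0 i k ∈ V := by
        have h4 := V.mul_mem _ _ hcon ((V.valuation_le_one_iff _).mp h1.le)
        rwa [div_mul_cancel₀ _ h2] at h4
      rw [← Finset.add_sum_erase _ _ (Finset.mem_univ (l i)), he0l i, mul_one] at h3
      apply hR.large
      have h4 : ∑ k ∈ Finset.univ.erase (l i), (c i k).1 * e0 i k ∈ V := by
        refine sum_mem fun k hk => V.mul_mem _ _ (hR.memA i k fun h => ?_) (hSe V hR.memS i _ (he0E i) k)
        exact Finset.ne_of_mem_erase hk (Prod.ext_iff.mp h).2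
      have h5 := sub_mem h3 h4
      rwa [add_sub_cancel_right] at h5
    · intro j hj
      have h1 := hR.unit j (e0 j) (he0E j)
      rw [← V.valuation_le_one_iff, map_div₀, h1, div_one]
      refine (V.valuation_le_one_iff _).mpr (sum_mem fun k _ => V.mul_mem _ _ (hR.memA j k fun h => ?_)
        (hSe V hR.memS j _ (he0E j) k))
      exact hj (Prod.ext_iff.mp h).1
  · -- local conditions
    have hloc : ∀ (p : ℕ) (V : ValuationSubring ℂ) (ρ : Fin n → (Fin N → ℂ) → ℤ), RedT d S E HH c i (l i) p V ρ →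
        LocC d (placeCurve g) i p V (Fintype.piFinset fun j => (E j).image (ρ j)) := by
      intro p V ρ hR
      have hmemR : ∀ r ∈ Fintype.piFinset (fun j => (E j).image (ρ j)), ∀ j, ∃ e ∈ E j, ρ j e = r j := by
        intro r hr j
        rw [Fintype.mem_piFinset] at hr
        exact Finset.mem_image.mp (hr j)
      -- the composite valuation at a point
      have hcomp : ∀ P : ValuationSubring K, (∀ c : ℂ, algebraMap ℂ K c ∈ P) → P ≠ ⊤ → ∃ W : ValuationSubring K,
          (∀ c : ℂ, algebraMap ℂ K c ∈ W ↔ c ∈ V) ∧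
          (∀ (f : K) (c : ℂ), P.valuation (f - algebraMap ℂ K c) < 1 → (f ∈ W ↔ c ∈ V)) ∧
          (∀ (f : K) (c : ℂ), P.valuation (f - algebraMap ℂ K c) < 1 → (W.valuation f < 1 ↔ V.valuation c < 1)) ∧
          (∀ s ∈ S, algebraMap ℂ K s ∈ W) ∧ (∀ z : ℂ, W.valuation (algebraMap ℂ K z) < 1 ↔ V.valuation z < 1) ∧
          ∀ z : ℂ, V.valuation z = 1 → W.valuation (algebraMap ℂ K z) = 1 := by
        intro P hP hPt
        obtain ⟨W, _, hWc, hWm, hWlt⟩ := exists_comp htr hP hPt V
        have hc0 : ∀ z : ℂ, P.valuation (algebraMap ℂ K z - algebraMap ℂ K z) < 1 := fun z => by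
          rw [sub_self, map_zero]; exact zero_lt_one
        have hlt : ∀ z : ℂ, W.valuation (algebraMap ℂ K z) < 1 ↔ V.valuation z < 1 := fun z => hWlt _ z (hc0 z)
        refine ⟨W, hWc, hWm, hWlt, fun s hs => (hWc s).mpr (hR.memS s hs), hlt, fun z hz => ?_⟩
        refine le_antisymm ((W.valuation_le_one_iff _).mpr ((hWc z).mpr ((V.valuation_le_one_iff _).mp hz.le))) ?_
        by_contra hcon
        push Not at hcon
        have := (hlt z).mp hcon
        rw [hz] at this
        exact lt_irrefl _ this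
      have hB : ∀ j, ∀ W : ValuationSubring K, (∀ c : ℂ, algebraMap ℂ K c ∈ W ↔ c ∈ V) →
          ∀ k, algebraMap ℂ K (c j k).2 ∈ W := fun j W hW k => (hW _).mpr (hR.memB j k)
      have hA : ∀ j, j ≠ i → ∀ W : ValuationSubring K, (∀ c : ℂ, algebraMap ℂ K c ∈ W ↔ c ∈ V) →
          ∀ k, algebraMap ℂ K (c j k).1 ∈ W := fun j hj W hW k =>
        (hW _).mpr (hR.memA j k fun h => hj (Prod.ext_iff.mp h).1)
      refine ⟨hR.prime, hR.two, hR.val, ?_, ?_, ?_, ?_, ?_⟩
      · rintro x ⟨P, hP, hPt, hPx⟩ hxi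
        obtain ⟨W, hWc, hWm, hWlt, hWS, hWlt', hW1⟩ := hcomp P hP hPt
        obtain ⟨s1, s2, s3, s4⟩ := hsub W hWS
        -- the private coordinate
        have hpole : AtPole W (u i) := by
          by_contra hp
          have hp' := hp
          unfold AtPole at hp'
          push Not at hp'
          have h1 : lin (u i) (fun k => (c i k).1) ∉ W := by
            refine lin_notMem (l := l i) (fun h => hR.large ((hWc _).mp h)) (fun k hk => (hWc _).mpr (hR.memA i k fun h => hk (Prod.ext_iff.mp h).2)) ?_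
            unfold AtZero
            push Not
            rw [hl i, map_one]
            exact ⟨le_refl _, fun k => (W.valuation_le_one_iff _).mpr (hp' k)⟩
          apply h1
          have h2 : lin (u i) (fun k => (c i k).2) ∈ W := lin_mem (hB i W hWc) hp
          have h3 : g i ∈ W := (hWm _ _ (hPx i)).mpr hxi
          have h4 : lin (u i) (fun k => (c i k).1) = g i * lin (u i) (fun k => (c i k).2) := by
            rw [hg]
            simp only [ratio]
            rw [div_mul_cancel₀ _ (hBne i V p ρ hR i)]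
          rw [h4]
          exact W.mul_mem _ _ h3 h2
        have hkey : ∀ j, j ≠ i → ∃ e ∈ E j, V.valuation (x j - (ρ j e : ℂ)) < 1 := by
          intro j hj
          obtain ⟨m, hm0, e, heE, hv⟩ : ∃ m, u j m ≠ 0 ∧ ∃ e ∈ E j, ∀ a, W.valuation (u j a / u j m - algebraMap ℂ K (e a)) < 1 := by
            by_cases hp : AtPole W (u j)
            · obtain ⟨m, hm, ζ, hζT, hζ⟩ := hTW j W (s1 j) hp
              refine ⟨m, fun h => hm (by rw [h]; exact W.zero_mem), ζ, ?_, hζ⟩
              exact Finset.mem_insert_of_mem (Finset.mem_union_left _ hζT)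
            · obtain ⟨e, he, hv⟩ := hEE2 (i, j) W (s2 (i, j)) (Or.inr hpole) hp
              refine ⟨l j, hl0 j, e, ?_, fun a => by rw [hl j, div_one]; exact hv a⟩
              refine Finset.mem_insert_of_mem (Finset.mem_union_right _ (Finset.mem_biUnion.mpr ⟨i, ?_, he⟩))
              exact Finset.mem_erase.mpr ⟨Ne.symm hj, Finset.mem_univ _⟩
          refine ⟨e, heE, ?_⟩
          have h1 := ratio_close hm0 hv (hA j hj W hWc) (hB j W hWc) (s4 j e heE)
            (hW1 _ (hR.unit j e heE))
          have h2 : P.valuation (g j - algebraMap ℂ K ((∑ k, (c j k).1 * e k) / (∑ k, (c j k).2 * e k)) -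
              algebraMap ℂ K (x j - (∑ k, (c j k).1 * e k) / (∑ k, (c j k).2 * e k))) < 1 := by
            have h3 : g j - algebraMap ℂ K ((∑ k, (c j k).1 * e k) / (∑ k, (c j k).2 * e k)) -
                algebraMap ℂ K (x j - (∑ k, (c j k).1 * e k) / (∑ k, (c j k).2 * e k)) =
                g j - algebraMap ℂ K (x j) := by
              rw [map_sub]; ring
            rw [h3]
            exact hPx j
          have h3 := (hWlt _ _ h2).mp h1
          have h4 : x j - (ρ j e : ℂ) = (x j - (∑ k, (c j k).1 * e k) / (∑ k, (c j k).2 * e k)) +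
              ((∑ k, (c j k).1 * e k) / (∑ k, (c j k).2 * e k) - (ρ j e : ℂ)) := by ring
          rw [h4]
          exact V.valuation.map_add_lt h3 (hR.res j hj e heE)
        choose! e he hev using hkey
        refine ⟨fun j => if j = i then ρ i (e0 i) else ρ j (e j), ?_, fun j hj => ?_⟩
        · rw [Fintype.mem_piFinset]
          intro j
          by_cases hj : j = i
          · subst hj
            simp only [if_true]
            exact Finset.mem_image_of_mem _ (he0E j)
          · simp only [hj, if_false]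
            exact Finset.mem_image_of_mem _ (he j hj)
        · simp only [hj, if_false]
          exact hev j hj
      · intro r hr j hj
        obtain ⟨e, he, h1⟩ := hmemR r hr j
        rw [← h1]
        exact hR.ord j hj e he
      · intro r hr j k hj hk hjk
        obtain ⟨e, he, h1⟩ := hmemR r hr j
        obtain ⟨e', he', h2⟩ := hmemR r hr k
        rw [← h1, ← h2]
        exact hR.cross j k hj hk hjk e he e' he'
      · rintro x ⟨P, hP, hPt, hPx⟩ j k hj hk hjk
        by_contra hcon
        push Not at hcon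
        obtain ⟨W, hWc, hWm, hWlt, hWS, hWlt', hW1⟩ := hcomp P hP hPt
        obtain ⟨s1, s2, s3, s4⟩ := hsub W hWS
        have hvan : ∀ j, j ≠ i → x j ∉ V → ∃ m, u j m ≠ 0 ∧ (∀ a, u j a / u j m ∈ W) ∧
            W.valuation (∑ a, algebraMap ℂ K (c j a).2 * (u j a / u j m)) < 1 := by
          intro j hj hxj
          obtain ⟨m, -, hm⟩ := Finset.exists_max_image (Finset.univ : Finset (Fin N)) (fun a => W.valuation (u j a))
            ⟨l j, Finset.mem_univ _⟩
          have hm0 : u j m ≠ 0 := by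
            intro h0
            have h1 := hm (l j) (Finset.mem_univ _)
            simp only [hl j, h0, map_one, map_zero] at h1
            exact absurd h1 (not_le.mpr zero_lt_one)
          have hmW : ∀ a, u j a / u j m ∈ W := by
            intro a
            rw [← W.valuation_le_one_iff, map_div₀]
            exact div_le_one_of_le₀ (hm a (Finset.mem_univ _)) zero_le
          refine ⟨m, hm0, hmW, ?_⟩
          have hlin : ∀ a : Fin N → ℂ, lin (u j) a / u j m = ∑ k, algebraMap ℂ K (a k) * (u j k / u j m) := by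
            intro a
            rw [lin, Finset.sum_div]
            refine Finset.sum_congr rfl fun k _ => ?_
            rw [mul_div_assoc]
          have h1 : ∑ a, algebraMap ℂ K (c j a).2 * (u j a / u j m) ∈ W :=
            sum_mem fun k _ => W.mul_mem _ _ (hB j W hWc k) (hmW k)
          have h2 : ∑ a, algebraMap ℂ K (c j a).1 * (u j a / u j m) ∈ W :=
            sum_mem fun k _ => W.mul_mem _ _ (hA j hj W hWc k) (hmW k)
          by_contra hlt
          have h3 : W.valuation (∑ a, algebraMap ℂ K (c j a).2 * (u j a / u j m)) = 1 :=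
            le_antisymm ((W.valuation_le_one_iff _).mpr h1) (not_lt.mp hlt)
          apply hxj
          refine (hWm _ _ (hPx j)).mp ?_
          have h4 : g j = (∑ a, algebraMap ℂ K (c j a).1 * (u j a / u j m)) /
              (∑ a, algebraMap ℂ K (c j a).2 * (u j a / u j m)) := by
            rw [← hlin fun a => (c j a).1, ← hlin fun a => (c j a).2, div_div_div_cancel_right₀ hm0]
            rfl
          rw [h4, ← W.valuation_le_one_iff, map_div₀, h3, div_one]
          exact (W.valuation_le_one_iff _).mpr h2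
        obtain ⟨m, hm0, hmW, hm1⟩ := hvan j hj hcon.1
        obtain ⟨m', hm0', hmW', hm1'⟩ := hvan k hk hcon.2
        have h1 := hHQ ((j, k), (m, m')) hm0 hm0' W (s3 _) hmW hmW' (fun a => (c j a).2) (fun a => (c k a).2)
          (hB j W hWc) (hB k W hWc) hm1 hm1'
        rw [hWlt'] at h1
        have h2 := hR.rel j k hj hk hjk
        rw [hHH] at h2
        simp only [map_prod] at h2
        rw [← Finset.mul_prod_erase _ _ (Finset.mem_univ (m, m'))] at h2
        have h3 : ∏ q ∈ Finset.univ.erase (m, m'), V.valuation (MvPolynomial.eval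
            (Sum.elim (fun m => (c j m).2) fun m => (c k m).2) (HQ ((j, k), q))) ≤ 1 := by
          refine Finset.prod_le_one' fun q _ => ?_
          rw [V.valuation_le_one_iff, MvPolynomial.eval_eq']
          refine sum_mem fun a _ => V.mul_mem _ _ (hSq V hR.memS _ a) (prod_mem fun b _ => pow_mem ?_ _)
          rcases b with b | b
          · exact hR.memB j b
          · exact hR.memB k b
        have h4 := mul_lt_one_of_lt_of_le h1 h3
        rw [h2] at h4
        exact lt_irrefl _ h4
      · rintro x - j k m hj hk hm hjk hjm hkm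
        exfalso
        have h1 : ({i, j, k, m} : Finset (Fin n)).card = 4 := by
          rw [Finset.card_insert_of_notMem, Finset.card_insert_of_notMem, Finset.card_insert_of_notMem, Finset.card_singleton]
          · simpa using hkm
          · simp only [Finset.mem_insert, Finset.mem_singleton, not_or]; exact ⟨hjk, hjm⟩
          · simp only [Finset.mem_insert, Finset.mem_singleton, not_or]; exact ⟨hj.symm, hk.symm, hm.symm⟩
        have h2 := Finset.card_le_univ ({i, j, k, m} : Finset (Fin n))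
        rw [h1, Fintype.card_fin] at h2
        omega
    obtain ⟨p, q, V, V', ρ, ρ', _, hR, hR', hcr⟩ := hc i
    refine ⟨p, q, V, V', _, _, hloc p V ρ hR, hloc q V' ρ' hR', fun r hr r' hr' j hj => ?_⟩
    rw [Fintype.mem_piFinset] at hr hr'
    obtain ⟨e, he, h1⟩ := Finset.mem_image.mp (hr j)
    obtain ⟨e', he', h2⟩ := Finset.mem_image.mp (hr' j)
    rw [← h1, ← h2]
    exact hcr j hj e he e' he'

end Pool.Agent.ZPOrd
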