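import Mathlib
import Pool.Agent.Lib.ModularZP.JIntegral

/-!
Integral matrices of positive determinant acting on the upper half plane.
-/

open UpperHalfPlane hiding I
open MatrixGroups

namespace Pool.Agent.ZPOrd

open Pool.Agent.Lib.ModularZP

/-- integral `2 × 2` matrices -/
abbrev M2 := Matrix (Fin 2) (Fin 2) ℤ

lemma det_map_real (M : M2) : (M.map ((↑) : ℤ → ℝ)).det = (M.det : ℝ) := by
  rw [Matrix.det_fin_two, Matrix.det_fin_two]
  push_cast
  simp [Matrix.map_apply]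

/-- an integral matrix of nonzero determinant as an element of `GL₂(ℝ)` -/
noncomputable def gl (M : M2) : GL (Fin 2) ℝ :=
  if h : M.det = 0 then 1 else Matrix.GeneralLinearGroup.mkOfDetNeZero (M.map ((↑) : ℤ → ℝ))
    (by rw [det_map_real]; exact_mod_cast h)

lemma gl_val {M : M2} (h : M.det ≠ 0) : (gl M).val = M.map ((↑) : ℤ → ℝ) := by
  unfold gl
  rw [dif_neg h]
  rfl

lemma gl_mul {M M' : M2} (h : M.det ≠ 0) (h' : M'.det ≠ 0) : gl (M * M') = gl M * gl M' := by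
  apply Units.ext
  rw [Units.val_mul, gl_val (by rw [Matrix.det_mul]; exact mul_ne_zero h h'), gl_val h, gl_val h',
    Matrix.map_mul_intCast]

lemma gl_det {M : M2} (h : M.det ≠ 0) : (gl M).det.val = (M.det : ℝ) := by
  rw [Matrix.GeneralLinearGroup.val_det_apply, gl_val h, det_map_real]

lemma gl_det_pos {M : M2} (h : 0 < M.det) : 0 < (gl M).det.val := by
  rw [gl_det h.ne']
  exact_mod_cast h

lemma gl_toGL {N : ℕ} [NeZero N] (A : MN N) : gl A.1 = toGL A := by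
  apply Units.ext
  rw [gl_val, toGL_val]
  rw [A.2]
  exact_mod_cast NeZero.ne N

lemma gl_sl (γ : SL(2, ℤ)) : gl γ.1 = Matrix.SpecialLinearGroup.mapGL ℝ γ := by
  apply Units.ext
  rw [gl_val (by rw [γ.2]; exact one_ne_zero)]
  rfl

lemma gl_sl_smul (γ : SL(2, ℤ)) (τ : ℍ) : gl γ.1 • τ = γ • τ := by
  rw [gl_sl]
  rfl

lemma jInv_gl_sl_mul (γ : SL(2, ℤ)) {M : M2} (h : M.det ≠ 0) (τ : ℍ) :
    jInv (gl (γ.1 * M) • τ) = jInv (gl M • τ) := by
  rw [gl_mul (by rw [γ.2]; exact one_ne_zero) h, mul_smul, gl_sl_smul, jInv_smul]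

/-- the action in coordinates -/
lemma gl_smul_coe {M : M2} (h : 0 < M.det) (τ : ℍ) :
    ((gl M • τ : ℍ) : ℂ) = ((M 0 0 : ℂ) * τ + (M 0 1 : ℂ)) / ((M 1 0 : ℂ) * τ + (M 1 1 : ℂ)) := by
  rw [UpperHalfPlane.coe_smul_of_det_pos (gl_det_pos h)]
  unfold num denom
  rw [gl_val h.ne']
  simp

/-- an integral matrix of determinant `N` as an element of `MN N` -/
def toMN {N : ℕ} (M : M2) (h : M.det = N) : MN N := ⟨M, h⟩

lemma toGL_toMN {N : ℕ} [NeZero N] (M : M2) (h : M.det = N) : toGL (toMN M h) = gl M :=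
  (gl_toGL (toMN M h)).symm

lemma gl_mul_smul {M M' : M2} (h : 0 < M.det) (h' : 0 < M'.det) (τ : ℍ) :
    gl (M * M') • τ = gl M • (gl M' • τ) := by
  rw [gl_mul h.ne' h'.ne', mul_smul]

end Pool.Agent.ZPOrd
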