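import Mathlib
import Pool.Agent.ZPOrd.Base

/-!
Conjugation of matrices of determinant `p` by isogenies, matrices with a common fixed point, and
reduction to the fundamental domain.
-/

open UpperHalfPlane hiding I
open MatrixGroups

namespace Pool.Agent.ZPOrd

open Pool.Agent.Lib.ModularZP

lemma trace_pow_mod {p : ℕ} {B : M2} (hB : B.det = p) (m : ℕ) (hm : 0 < m) :
    (p : ℤ) ∣ (B ^ m).trace - B.trace ^ m := by
  have key : ∀ m : ℕ, 0 < m → ∃ C : M2, B ^ m = B.trace ^ (m - 1) • B + (p : ℤ) • C := by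
    intro m hm
    induction m with
    | zero => omega
    | succ k ih =>
      rcases Nat.eq_zero_or_pos k with rfl | hk
      · exact ⟨0, by simp⟩
      · obtain ⟨C, hC⟩ := ih hk
        have hCH : B * B = B.trace • B - (p : ℤ) • (1 : M2) := by
          have h1 := hB
          rw [Matrix.det_fin_two] at h1
          ext i j
          rw [Matrix.sub_apply, Matrix.smul_apply, Matrix.smul_apply, smul_eq_mul, smul_eq_mul, ← h1,
            Matrix.mul_apply, Fin.sum_univ_two, Matrix.trace_fin_two, Matrix.one_apply]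
          fin_cases i <;> fin_cases j <;> simp <;> ring
        refine ⟨C * B - B.trace ^ (k - 1) • (1 : M2), ?_⟩
        rw [pow_succ, hC, add_mul, Matrix.smul_mul, hCH, Matrix.smul_mul, smul_sub, smul_sub, smul_smul,
          ← pow_succ, smul_smul, smul_smul, mul_comm (B.trace ^ (k - 1)) (p : ℤ)]
        rw [Nat.sub_add_cancel hk, Nat.add_sub_cancel]
        abel
  obtain ⟨C, hC⟩ := key m hm
  refine ⟨C.trace, ?_⟩
  rw [hC, Matrix.trace_add, Matrix.trace_smul, Matrix.trace_smul]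
  simp only [smul_eq_mul]
  rw [← pow_succ, Nat.sub_add_cancel hm]
  ring

lemma exists_pow_eq_one {N p : ℕ} (hN : 0 < N) (hco : Nat.Coprime p N) {B : M2} (hB : B.det = p) :
    ∃ m : ℕ, 0 < m ∧ ∃ B' : M2, B ^ m = 1 + (N : ℤ) • B' := by
  have : NeZero N := ⟨hN.ne'⟩
  set Bm : Matrix (Fin 2) (Fin 2) (ZMod N) := B.map (Int.castRingHom (ZMod N)) with hBm
  have hdet : IsUnit Bm.det := by
    have e : Bm.det = ((p : ℕ) : ZMod N) := by
      rw [hBm, ← RingHom.mapMatrix_apply, ← RingHom.map_det, hB]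
      simp
    rw [e]
    exact (ZMod.isUnit_iff_coprime p N).mpr hco
  have hu : IsUnit Bm := (Matrix.isUnit_iff_isUnit_det _).mpr hdet
  obtain ⟨u, hu⟩ := hu
  have hfin : Finite (Matrix (Fin 2) (Fin 2) (ZMod N))ˣ := inferInstance
  obtain ⟨m, hm, hm2⟩ := (isOfFinOrder_of_finite u).exists_pow_eq_one
  refine ⟨m, hm, ?_⟩
  have h1 : (B ^ m).map (Int.castRingHom (ZMod N)) = 1 := by
    rw [← RingHom.mapMatrix_apply, map_pow, RingHom.mapMatrix_apply]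
    change Bm ^ m = 1
    rw [← hu, ← Units.val_pow_eq_pow_val, hm2, Units.val_one]
  have h2 : ∀ i j, ∃ c : ℤ, (B ^ m) i j = (1 : M2) i j + (N : ℤ) * c := by
    intro i j
    have h3 := congrFun (congrFun h1 i) j
    have h4 : (((B ^ m) i j - (1 : M2) i j : ℤ) : ZMod N) = 0 := by
      rw [Int.cast_sub]
      have e : (((1 : M2) i j : ℤ) : ZMod N) = (1 : Matrix (Fin 2) (Fin 2) (ZMod N)) i j := by
        rw [Matrix.one_apply, Matrix.one_apply]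
        split_ifs <;> simp
      rw [e, ← h3]
      simp
    rw [ZMod.intCast_zmod_eq_zero_iff_dvd] at h4
    obtain ⟨c, hc⟩ := h4
    exact ⟨c, by rw [← hc]; ring⟩
  choose c hc using h2
  refine ⟨Matrix.of c, ?_⟩
  ext i j
  rw [hc i j]
  simp

theorem exists_conj {p N : ℕ} (hp : p.Prime) (hN : 0 < N) (hpN : ¬ p ∣ N) {B C : M2} (hB : B.det = p)
    (htr : ¬ (p : ℤ) ∣ B.trace) (hC : C.det = N) :
    ∃ (E : M2) (m : ℕ), 0 < m ∧ E * C = C * B ^ m ∧ E.det = (p : ℤ) ^ m ∧ ¬ (p : ℤ) ∣ E.trace := by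
  obtain ⟨m, hm, B', hB'⟩ := exists_pow_eq_one hN ((Nat.Prime.coprime_iff_not_dvd hp).mpr hpN) hB
  have hadj : C.adjugate * C = (N : ℤ) • (1 : M2) := by rw [Matrix.adjugate_mul, hC]
  have hEC : (1 + C * B' * C.adjugate) * C = C * B ^ m := by
    rw [add_mul, one_mul, Matrix.mul_assoc, hadj, hB', mul_add, mul_one, Matrix.mul_smul, Matrix.mul_smul,
      Matrix.mul_one]
  have hN0 : (N : ℤ) ≠ 0 := by exact_mod_cast hN.ne'
  refine ⟨1 + C * B' * C.adjugate, m, hm, hEC, ?_, ?_⟩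
  · have h1 := congrArg Matrix.det hEC
    rw [Matrix.det_mul, Matrix.det_mul, Matrix.det_pow, hC, hB, mul_comm] at h1
    exact mul_left_cancel₀ hN0 h1
  · have h1 : (1 + C * B' * C.adjugate).trace = (B ^ m).trace := by
      rw [hB', Matrix.trace_add, Matrix.trace_add, Matrix.trace_mul_comm, ← Matrix.mul_assoc, hadj,
        Matrix.smul_mul, Matrix.one_mul]
    rw [h1]
    intro h2
    have h3 := trace_pow_mod hB m hm
    have h4 : (p : ℤ) ∣ B.trace ^ m := by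
      have := dvd_sub h2 h3
      rwa [sub_sub_cancel] at this
    exact htr (Int.Prime.dvd_pow' hp h4)

/-- the fixed point equation -/
lemma fix_eq {M : M2} (hM : 0 < M.det) {τ : ℍ} (h : gl M • τ = τ) :
    (M 1 0 : ℂ) * (τ : ℂ) ^ 2 + ((M 1 1 : ℂ) - (M 0 0 : ℂ)) * τ - (M 0 1 : ℂ) = 0 := by
  have h1 : ((gl M • τ : ℍ) : ℂ) = (τ : ℂ) := by rw [h]
  rw [gl_smul_coe hM] at h1
  have hden : ((M 1 0 : ℂ) * τ + (M 1 1 : ℂ)) ≠ 0 := by
    intro h0
    rw [h0, div_zero] at h1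
    exact UpperHalfPlane.ne_zero τ h1.symm
  rw [div_eq_iff hden] at h1
  linear_combination -h1

lemma fix_im {M : M2} (hM : 0 < M.det) {τ : ℍ} (h : gl M • τ = τ) :
    2 * (M 1 0 : ℝ) * τ.re = (M 0 0 : ℝ) - (M 1 1 : ℝ) ∧
      (M 1 0 : ℝ) * (τ.re ^ 2 + τ.im ^ 2) = -(M 0 1 : ℝ) := by
  have h1 := fix_eq hM h
  have hre := congrArg Complex.re h1
  have him := congrArg Complex.im h1
  simp [pow_two] at hre him
  have hτ : (0 : ℝ) < τ.im := τ.im_pos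
  have h2 : 2 * (M 1 0 : ℝ) * τ.re = (M 0 0 : ℝ) - (M 1 1 : ℝ) := by
    have h3 : τ.im * (2 * (M 1 0 : ℝ) * τ.re - ((M 0 0 : ℝ) - (M 1 1 : ℝ))) = 0 := by linarith
    rcases mul_eq_zero.mp h3 with h4 | h4
    · exact absurd h4 hτ.ne'
    · linarith
  refine ⟨h2, ?_⟩
  have h5 : ((M 1 1 : ℝ) - (M 0 0 : ℝ)) * τ.re = -(2 * (M 1 0 : ℝ) * τ.re) * τ.re := by rw [h2]; ring
  nlinarith [h5, hre]

theorem fix_comm {τ : ℍ} {M B : M2} (hM : 0 < M.det) (hB : 0 < B.det) (hMf : gl M • τ = τ)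
    (hBf : gl B • τ = τ) (hBn : B 1 0 ≠ 0) :
    ∃ x y : ℚ, M.map ((↑) : ℤ → ℚ) = x • (1 : Matrix (Fin 2) (Fin 2) ℚ) + y • B.map ((↑) : ℤ → ℚ) := by
  obtain ⟨m1, m2⟩ := fix_im hM hMf
  obtain ⟨b1, b2⟩ := fix_im hB hBf
  have hBn' : (B 1 0 : ℝ) ≠ 0 := by exact_mod_cast hBn
  have hBq : (B 1 0 : ℚ) ≠ 0 := by exact_mod_cast hBn
  -- integer relations
  have k1 : M 1 0 * (B 0 0 - B 1 1) = B 1 0 * (M 0 0 - M 1 1) := by
    have : (M 1 0 : ℝ) * ((B 0 0 : ℝ) - (B 1 1 : ℝ)) = (B 1 0 : ℝ) * ((M 0 0 : ℝ) - (M 1 1 : ℝ)) := by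
      rw [← b1, ← m1]; ring
    exact_mod_cast this
  have k2 : M 1 0 * B 0 1 = B 1 0 * M 0 1 := by
    have : (M 1 0 : ℝ) * (-(B 0 1 : ℝ)) = (B 1 0 : ℝ) * (-(M 0 1 : ℝ)) := by
      rw [← b2, ← m2]; ring
    have h3 : (M 1 0 : ℝ) * (B 0 1 : ℝ) = (B 1 0 : ℝ) * (M 0 1 : ℝ) := by linarith
    exact_mod_cast h3
  have q1 : (M 1 0 : ℚ) * ((B 0 0 : ℚ) - (B 1 1 : ℚ)) = (B 1 0 : ℚ) * ((M 0 0 : ℚ) - (M 1 1 : ℚ)) := by
    exact_mod_cast k1
  have q2 : (M 1 0 : ℚ) * (B 0 1 : ℚ) = (B 1 0 : ℚ) * (M 0 1 : ℚ) := by exact_mod_cast k2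
  refine ⟨(M 0 0 : ℚ) - (M 1 0 : ℚ) / (B 1 0 : ℚ) * (B 0 0 : ℚ), (M 1 0 : ℚ) / (B 1 0 : ℚ), ?_⟩
  ext i j
  rw [Matrix.add_apply, Matrix.smul_apply, Matrix.smul_apply, smul_eq_mul, smul_eq_mul, Matrix.one_apply,
    Matrix.map_apply, Matrix.map_apply]
  fin_cases i <;> fin_cases j <;> simp
  · field_simp
    linarith
  · field_simp
  · field_simp
    linarith

theorem exists_reduced {τ : ℍ} {B : M2} (hB : 0 < B.det) (hf : gl B • τ = τ) (hn : B 1 0 ≠ 0) :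
    ∃ (γ : SL(2, ℤ)) (B' : M2), B' * γ.1 = γ.1 * B ∧ |B' 0 0 - B' 1 1| ≤ |B' 1 0| ∧ |B' 1 0| ≤ |B' 0 1| ∧
      B' 0 1 * B' 1 0 < 0 := by
  obtain ⟨γ, hγ⟩ := ModularGroup.exists_smul_mem_fd τ
  set B' : M2 := γ.1 * B * (γ⁻¹).1 with hB'
  have hγγ : (γ⁻¹).1 * γ.1 = 1 := by
    have := congrArg Subtype.val (inv_mul_cancel γ)
    exact this
  have hγγ' : γ.1 * (γ⁻¹).1 = 1 := by
    have := congrArg Subtype.val (mul_inv_cancel γ)
    exact this
  have hcomm : B' * γ.1 = γ.1 * B := by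
    rw [hB', Matrix.mul_assoc, hγγ, Matrix.mul_one]
  have hdet : B'.det = B.det := by
    rw [hB', Matrix.det_mul, Matrix.det_mul, γ.2, (γ⁻¹).2]
    ring
  have hdet' : 0 < B'.det := by rw [hdet]; exact hB
  have hfix : gl B' • (γ • τ) = γ • τ := by
    rw [← gl_sl_smul γ τ, ← gl_mul_smul hdet' (by rw [γ.2]; exact one_pos), hcomm,
      gl_mul_smul (by rw [γ.2]; exact one_pos) hB, hf]
  obtain ⟨r1, r2⟩ := fix_im hdet' hfix
  have hnB' : B' 1 0 ≠ 0 := by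
    intro h0
    rw [h0] at r1 r2
    have s1 : (B' 0 0 : ℝ) - (B' 1 1 : ℝ) = 0 := by rw [← r1]; simp
    have s2 : (B' 0 1 : ℝ) = 0 := by
      have : -(B' 0 1 : ℝ) = 0 := by rw [← r2]; simp
      linarith
    have s1' : B' 0 0 = B' 1 1 := by
      have : (B' 0 0 : ℝ) = (B' 1 1 : ℝ) := by linarith
      exact_mod_cast this
    have s2' : B' 0 1 = 0 := by exact_mod_cast s2
    have hsc : B' = B' 0 0 • (1 : M2) := by
      ext i j
      rw [Matrix.smul_apply, smul_eq_mul, Matrix.one_apply]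
      fin_cases i <;> fin_cases j <;> simp [h0, s2', s1']
    have h1 : B = B' 0 0 • (1 : M2) := by
      have h2 : γ.1 * B = γ.1 * (B' 0 0 • (1 : M2)) := by
        rw [← hcomm, Matrix.mul_smul, Matrix.mul_one]
        nth_rewrite 1 [hsc]
        rw [Matrix.smul_mul, Matrix.one_mul]
      have h3 := congrArg (fun X => (γ⁻¹).1 * X) h2
      simp only [← Matrix.mul_assoc, hγγ, Matrix.one_mul] at h3
      exact h3
    have h4 := congrFun (congrFun h1 1) 0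
    rw [Matrix.smul_apply, smul_eq_mul, Matrix.one_apply] at h4
    simp at h4
    exact hn h4
  have hnR : (B' 1 0 : ℝ) ≠ 0 := by exact_mod_cast hnB'
  have hre : |(γ • τ).re| ≤ 1 / 2 := hγ.2
  have hnorm : 1 ≤ (γ • τ).re ^ 2 + (γ • τ).im ^ 2 := by
    have := hγ.1
    rw [Complex.normSq_apply] at this
    have e1 : ((γ • τ : ℍ) : ℂ).re = (γ • τ).re := rfl
    have e2 : ((γ • τ : ℍ) : ℂ).im = (γ • τ).im := rfl
    rw [e1, e2] at this
    nlinarith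
  refine ⟨γ, B', hcomm, ?_, ?_, ?_⟩
  · have h1 : |((B' 0 0 : ℝ) - (B' 1 1 : ℝ))| ≤ |(B' 1 0 : ℝ)| := by
      rw [← r1, abs_mul, abs_mul, abs_two]
      have := abs_nonneg (B' 1 0 : ℝ)
      nlinarith
    exact_mod_cast h1
  · have h1 : |(B' 1 0 : ℝ)| ≤ |(B' 0 1 : ℝ)| := by
      have h2 : |(B' 0 1 : ℝ)| = |(B' 1 0 : ℝ)| * ((γ • τ).re ^ 2 + (γ • τ).im ^ 2) := by
        rw [← abs_neg, ← r2, abs_mul, abs_of_nonneg (a := (γ • τ).re ^ 2 + (γ • τ).im ^ 2) (by positivity)]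
      rw [h2]
      have := abs_nonneg (B' 1 0 : ℝ)
      nlinarith
    exact_mod_cast h1
  · have h1 : (B' 0 1 : ℝ) * (B' 1 0 : ℝ) < 0 := by
      have h2 : (B' 0 1 : ℝ) = -((B' 1 0 : ℝ) * ((γ • τ).re ^ 2 + (γ • τ).im ^ 2)) := by linarith
      rw [h2]
      have h3 : 0 < (B' 1 0 : ℝ) ^ 2 := by positivity
      nlinarith
    exact_mod_cast h1

end Pool.Agent.ZPOrd
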