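import Mathlib
import Pool.Agent.K3N.Div

/-!
Counting reduced integral matrices of prime determinant whose discriminant is in a fixed square class.
-/

namespace Pool.Agent.ZPOrd

namespace CountRed

lemma card_le_two_of_quad {T : Finset ℤ} {b c : ℤ} (h : ∀ x ∈ T, 4 * x ^ 2 + b * x + c = 0) : T.card ≤ 2 := by
  by_contra hT
  push Not at hT
  obtain ⟨x, hx, y, hy, z, hz, hxy, hxz, hyz⟩ := Finset.two_lt_card.mp hT
  have e1 := h x hx
  have e2 := h y hy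
  have e3 := h z hz
  have f1 : (x - y) * (4 * (x + y) + b) = 0 := by linear_combination e1 - e2
  have f2 : (x - z) * (4 * (x + z) + b) = 0 := by linear_combination e1 - e3
  have g1 := (mul_eq_zero.mp f1).resolve_left (sub_ne_zero.mpr hxy)
  have g2 := (mul_eq_zero.mp f2).resolve_left (sub_ne_zero.mpr hxz)
  apply hyz
  omega

/-- two traces in the same square class -/
lemma exists_rel {p : ℕ} (hp : p.Prime) {D a b : ℤ} (hD : D ≠ 0) (ha : a ^ 2 < 4 * p) (hb : b ^ 2 < 4 * p)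
    (h1 : IsSquare (D * (a ^ 2 - 4 * p))) (h2 : IsSquare (D * (b ^ 2 - 4 * p))) :
    ∃ k ∈ Finset.Icc (-8 : ℤ) 8, 4 * a ^ 2 + (-2 * k * b) * a + (4 * b ^ 2 + (k ^ 2 - 16) * p) = 0 := by
  have hpi : Prime (p : ℤ) := Nat.prime_iff_prime_int.mp hp
  have hp0 : (0 : ℤ) < p := by exact_mod_cast hp.pos
  obtain ⟨u, hu⟩ := h1
  obtain ⟨v, hv⟩ := h2
  have hdv : D ∣ u * v := by
    rw [← Int.pow_dvd_pow_iff (n := 2) two_ne_zero]
    exact ⟨(a ^ 2 - 4 * p) * (b ^ 2 - 4 * p), by linear_combination (-(D * (b ^ 2 - 4 * p))) * hu - (u * u) * hv⟩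
  obtain ⟨e, he⟩ := hdv
  have he2 : e ^ 2 = (4 * p - a ^ 2) * (4 * p - b ^ 2) := by
    have : D ^ 2 * e ^ 2 = D ^ 2 * ((4 * p - a ^ 2) * (4 * p - b ^ 2)) := by
      have e1 : D ^ 2 * e ^ 2 = (u * v) ^ 2 := by rw [he]; ring
      rw [e1]
      linear_combination (-(D * (b ^ 2 - 4 * p))) * hu - (u * u) * hv
    exact mul_left_cancel₀ (pow_ne_zero 2 hD) this
  have key : ∀ e' : ℤ, e' ^ 2 = (4 * p - a ^ 2) * (4 * p - b ^ 2) → (p : ℤ) ∣ e' + a * b →
      ∃ k ∈ Finset.Icc (-8 : ℤ) 8, 4 * a ^ 2 + (-2 * k * b) * a + (4 * b ^ 2 + (k ^ 2 - 16) * p) = 0 := by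
    rintro e' he' ⟨k, hk⟩
    have hab : |a * b| ≤ 4 * p := by
      apply abs_le_of_sq_le_sq _ (by positivity)
      nlinarith [sq_nonneg a, sq_nonneg b]
    have hee : |e'| ≤ 4 * p := by
      apply abs_le_of_sq_le_sq _ (by positivity)
      rw [he']
      nlinarith [sq_nonneg a, sq_nonneg b]
    have hkp : |k| * p ≤ 8 * p := by
      have : |k| * p = |e' + a * b| := by rw [hk, abs_mul, abs_of_pos hp0, mul_comm]
      rw [this]
      calc |e' + a * b| ≤ |e'| + |a * b| := abs_add_le _ _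
        _ ≤ 8 * p := by linarith
    have hk8 : |k| ≤ 8 := le_of_mul_le_mul_right hkp hp0
    refine ⟨k, Finset.mem_Icc.mpr (abs_le.mp hk8), ?_⟩
    have e1 : e' = p * k - a * b := by linarith
    rw [e1] at he'
    have : (p : ℤ) * (4 * a ^ 2 + (-2 * k * b) * a + (4 * b ^ 2 + (k ^ 2 - 16) * p)) = 0 := by
      linear_combination he'
    exact (mul_eq_zero.mp this).resolve_left hp0.ne'
  have hdiv : (p : ℤ) ∣ (e + a * b) * (-e + a * b) :=
    ⟨4 * (a ^ 2 + b ^ 2) - 16 * p, by linear_combination (-1 : ℤ) * he2⟩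
  rcases hpi.dvd_or_dvd hdiv with h | h
  · exact key e he2 h
  · exact key (-e) (by rw [neg_sq]; exact he2) h

lemma card_traces {p : ℕ} (hp : p.Prime) {D : ℤ} (hD : D ≠ 0) {A : Finset ℤ}
    (hA : ∀ a ∈ A, a ^ 2 < 4 * p ∧ (a = 0 ∨ IsSquare (D * (a ^ 2 - 4 * p)))) : A.card ≤ 35 := by
  classical
  by_cases h : ∃ b ∈ A, b ≠ 0
  · obtain ⟨b, hb, hb0⟩ := h
    have hsub : A ⊆ insert 0 ((Finset.Icc (-8 : ℤ) 8).biUnion fun k =>
        A.filter fun a => 4 * a ^ 2 + (-2 * k * b) * a + (4 * b ^ 2 + (k ^ 2 - 16) * p) = 0) := by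
      intro a ha
      rw [Finset.mem_insert]
      by_cases ha0 : a = 0
      · exact Or.inl ha0
      · right
        obtain ⟨k, hk, h⟩ := exists_rel hp hD (hA a ha).1 (hA b hb).1 ((hA a ha).2.resolve_left ha0)
          ((hA b hb).2.resolve_left hb0)
        rw [Finset.mem_biUnion]
        exact ⟨k, hk, Finset.mem_filter.mpr ⟨ha, h⟩⟩
    calc A.card ≤ _ := Finset.card_le_card hsub
      _ ≤ _ + 1 := Finset.card_insert_le _ _
      _ ≤ (∑ _k ∈ Finset.Icc (-8 : ℤ) 8, 2) + 1 := by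
        gcongr
        refine Finset.card_biUnion_le.trans (Finset.sum_le_sum fun k _ => ?_)
        exact card_le_two_of_quad fun x hx => (Finset.mem_filter.mp hx).2
      _ ≤ 35 := by simp
  · push Not at h
    have : A ⊆ {0} := fun a ha => Finset.mem_singleton.mpr (h a ha)
    exact (Finset.card_le_card this).trans (by simp)

lemma card_int_dvd {T : Finset ℤ} {N : ℕ} (hN : N ≠ 0) (h : ∀ x ∈ T, x ∣ (N : ℤ)) :
    T.card ≤ 2 * N.divisors.card := by
  classical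
  have hsub : T ⊆ (N.divisors.image fun d : ℕ => (d : ℤ)) ∪ (N.divisors.image fun d : ℕ => -(d : ℤ)) := by
    intro x hx
    have h1 : x.natAbs ∈ N.divisors := by
      rw [Nat.mem_divisors]
      exact ⟨Int.natAbs_dvd_natAbs.mpr (h x hx) |>.trans (by simp), hN⟩
    rw [Finset.mem_union, Finset.mem_image, Finset.mem_image]
    rcases Int.natAbs_eq x with h2 | h2
    · left; exact ⟨_, h1, h2.symm⟩
    · right; exact ⟨_, h1, h2.symm⟩
  calc T.card ≤ _ := Finset.card_le_card hsub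
    _ ≤ _ := Finset.card_union_le _ _
    _ ≤ N.divisors.card + N.divisors.card := add_le_add Finset.card_image_le Finset.card_image_le
    _ = _ := by ring

end CountRed

open CountRed in
theorem count_reduced (ε : ℝ) (hε : 0 < ε) : ∃ p₀ : ℕ, ∀ p : ℕ, p.Prime → p₀ ≤ p → ∀ D : ℤ, D ≠ 0 →
    ∀ S : Finset (ℤ × ℤ × ℤ × ℤ), (∀ s ∈ S, s.1 * s.2.2.2 - s.2.1 * s.2.2.1 = p ∧
      |s.1 - s.2.2.2| ≤ |s.2.2.1| ∧ |s.2.2.1| ≤ |s.2.1| ∧ s.2.1 * s.2.2.1 < 0 ∧
      (s.1 + s.2.2.2 = 0 ∨ IsSquare (D * ((s.1 + s.2.2.2) ^ 2 - 4 * p)))) → (S.card : ℝ) ≤ ε * p := by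
  classical
  obtain ⟨C, hC1, hC⟩ := Pool.Agent.K3N.card_divisors_le (1 / 4) (by norm_num)
  obtain ⟨p₀, hp₀⟩ := exists_nat_gt ((420 * C / ε) ^ 4)
  refine ⟨p₀, fun p hp hpp D hD S hS => ?_⟩
  have hp0 : (0 : ℤ) < p := by exact_mod_cast hp.pos
  -- inequalities
  have key : ∀ s ∈ S, (s.1 + s.2.2.2) ^ 2 < 4 * (p : ℤ) ∧ (s.1 - s.2.2.2) ^ 2 ≤ 2 * p ∧
      0 < -(s.2.1 * s.2.2.1) ∧ -(s.2.1 * s.2.2.1) ≤ 2 * p ∧ s.2.2.1 ≠ 0 := by
    intro s hs
    obtain ⟨h1, h2, h3, h4, -⟩ := hS s hs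
    have hγ : s.2.2.1 ≠ 0 := by rintro h; rw [h] at h4; simp at h4
    have e1 : (s.1 - s.2.2.2) ^ 2 ≤ s.2.2.1 ^ 2 := sq_le_sq.mpr h2
    have e2 : s.2.2.1 ^ 2 ≤ -(s.2.1 * s.2.2.1) := by
      have : |s.2.2.1| * |s.2.2.1| ≤ |s.2.1| * |s.2.2.1| := mul_le_mul_of_nonneg_right h3 (abs_nonneg _)
      rw [← abs_mul, ← abs_mul, abs_of_neg h4, abs_mul_self] at this
      linarith [this, sq (s.2.2.1)]
    have e3 : 4 * -(s.2.1 * s.2.2.1) = 4 * p - (s.1 + s.2.2.2) ^ 2 + (s.1 - s.2.2.2) ^ 2 := by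
      linear_combination (4 : ℤ) * h1
    have e4 : 0 < s.2.2.1 ^ 2 := by positivity
    have e5 := sq_nonneg (s.1 + s.2.2.2)
    refine ⟨by linarith, by linarith, by linarith, by linarith, hγ⟩
  set M : ℕ := Nat.sqrt (2 * p) with hM
  set f : ℤ × ℤ × ℤ × ℤ → ℤ × ℤ := fun s => (s.1 + s.2.2.2, s.1 - s.2.2.2) with hf
  set A : Finset ℤ := S.image fun s => s.1 + s.2.2.2 with hA
  have hAcard : A.card ≤ 35 := by
    apply card_traces hp hD
    intro a ha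
    obtain ⟨s, hs, rfl⟩ := Finset.mem_image.mp ha
    exact ⟨(key s hs).1, (hS s hs).2.2.2.2⟩
  have himg : S.image f ⊆ A ×ˢ Finset.Icc (-(M : ℤ)) M := by
    intro x hx
    obtain ⟨s, hs, rfl⟩ := Finset.mem_image.mp hx
    rw [Finset.mem_product, Finset.mem_Icc]
    refine ⟨Finset.mem_image.mpr ⟨s, hs, rfl⟩, ?_⟩
    have h1 := (key s hs).2.1
    have h2 : (s.1 - s.2.2.2).natAbs ≤ M := by
      rw [hM, Nat.le_sqrt']
      have : (((s.1 - s.2.2.2).natAbs : ℤ)) ^ 2 ≤ ((2 * p : ℕ) : ℤ) := by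
        rw [Int.natAbs_sq]; push_cast; exact h1
      exact_mod_cast this
    constructor
    · simp only [hf]; omega
    · simp only [hf]; omega
  have himgc : (S.image f).card ≤ 35 * (2 * M + 1) := by
    calc _ ≤ _ := Finset.card_le_card himg
      _ = A.card * (2 * M + 1) := by
        rw [Finset.card_product, Int.card_Icc]
        congr 1
        omega
      _ ≤ _ := by gcongr
  -- fibres
  have hfib : ∀ x ∈ S.image f, (S.filter fun s => f s = x).card ≤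
      ⌊2 * (C * ((2 * p : ℕ) : ℝ) ^ (1 / 4 : ℝ))⌋₊ := by
    intro x hx
    obtain ⟨s₀, hs₀, rfl⟩ := Finset.mem_image.mp hx
    apply Nat.le_floor
    set T := S.filter fun s => f s = f s₀ with hT
    set N : ℕ := (-(s₀.2.1 * s₀.2.2.1)).toNat with hNdef
    have hNz : (N : ℤ) = -(s₀.2.1 * s₀.2.2.1) := Int.toNat_of_nonneg (key s₀ hs₀).2.2.1.le
    have hN0 : N ≠ 0 := by
      have := (key s₀ hs₀).2.2.1
      intro h; rw [h] at hNz; simp at hNz; omega
    have hN2 : N ≤ 2 * p := by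
      have := (key s₀ hs₀).2.2.2.1
      rw [← hNz] at this
      exact_mod_cast this
    have hprod : ∀ s ∈ T, s.1 = s₀.1 ∧ s.2.2.2 = s₀.2.2.2 ∧ s.2.1 * s.2.2.1 = s₀.2.1 * s₀.2.2.1 := by
      intro s hs
      rw [hT, Finset.mem_filter] at hs
      obtain ⟨hs, hs'⟩ := hs
      simp only [hf, Prod.mk.injEq] at hs'
      have e1 : s.1 = s₀.1 := by omega
      have e2 : s.2.2.2 = s₀.2.2.2 := by omega
      refine ⟨e1, e2, ?_⟩
      have h1 := (hS s hs).1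
      have h2 := (hS s₀ hs₀).1
      rw [e1, e2] at h1
      linarith
    have hinj : T.card = (T.image fun s => s.2.2.1).card := by
      rw [Finset.card_image_of_injOn]
      intro s hs s' hs' hss
      simp only at hss
      obtain ⟨a1, a2, a3⟩ := hprod s hs
      obtain ⟨b1, b2, b3⟩ := hprod s' hs'
      have hs1 := (Finset.mem_filter.mp hs).1
      have hγ := (key s hs1).2.2.2.2
      have hβ : s.2.1 = s'.2.1 := by
        rw [← b3, ← hss] at a3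
        exact mul_right_cancel₀ hγ a3
      exact Prod.ext (a1.trans b1.symm) (Prod.ext hβ (Prod.ext hss (a2.trans b2.symm)))
    have h1 : (T.image fun s => s.2.2.1).card ≤ 2 * N.divisors.card := by
      apply card_int_dvd hN0
      intro x hx
      obtain ⟨s, hs, rfl⟩ := Finset.mem_image.mp hx
      rw [hNz, ← (hprod s hs).2.2]
      exact (dvd_neg.mpr (Dvd.intro_left _ rfl))
    have h2 := hC N hN0
    have h3 : (N : ℝ) ^ (1 / 4 : ℝ) ≤ ((2 * p : ℕ) : ℝ) ^ (1 / 4 : ℝ) := by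
      gcongr
    rw [hinj]
    calc (((T.image fun s => s.2.2.1).card : ℕ) : ℝ) ≤ ((2 * N.divisors.card : ℕ) : ℝ) := by exact_mod_cast h1
      _ = 2 * (N.divisors.card : ℝ) := by push_cast; ring
      _ ≤ 2 * (C * (N : ℝ) ^ (1 / 4 : ℝ)) := by gcongr
      _ ≤ 2 * (C * ((2 * p : ℕ) : ℝ) ^ (1 / 4 : ℝ)) := by gcongr
  have hcard := Finset.card_le_mul_card_image S _ hfib
  set X : ℝ := ((2 * p : ℕ) : ℝ) with hX
  have hX1 : 1 ≤ X := by
    rw [hX]
    have := hp.pos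
    exact_mod_cast (by omega : 1 ≤ 2 * p)
  have hX0 : 0 < X := by linarith
  have hMX : (M : ℝ) ≤ X ^ (1 / 2 : ℝ) := by
    rw [← Real.sqrt_eq_rpow]
    apply Real.le_sqrt_of_sq_le
    rw [hX]
    exact_mod_cast Nat.sqrt_le' (2 * p)
  have hX2 : 1 ≤ X ^ (1 / 2 : ℝ) := Real.one_le_rpow hX1 (by norm_num)
  have hbig : 420 * C / ε ≤ X ^ (1 / 4 : ℝ) := by
    have h1 : (420 * C / ε) ^ 4 ≤ X := by
      have : (p₀ : ℝ) ≤ X := by
        rw [hX]
        exact_mod_cast (by omega : p₀ ≤ 2 * p)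
      linarith
    have h0 : 0 ≤ 420 * C / ε := by positivity
    calc 420 * C / ε = ((420 * C / ε) ^ 4) ^ (1 / 4 : ℝ) := by
          rw [← Real.rpow_natCast, ← Real.rpow_mul h0]; norm_num
      _ ≤ _ := by gcongr
  have hfloor : ((⌊2 * (C * X ^ (1 / 4 : ℝ))⌋₊ : ℕ) : ℝ) ≤ 2 * (C * X ^ (1 / 4 : ℝ)) :=
    Nat.floor_le (by positivity)
  calc (S.card : ℝ) ≤ ((⌊2 * (C * X ^ (1 / 4 : ℝ))⌋₊ * (S.image f).card : ℕ) : ℝ) := by exact_mod_cast hcard
    _ = ((⌊2 * (C * X ^ (1 / 4 : ℝ))⌋₊ : ℕ) : ℝ) * ((S.image f).card : ℝ) := by push_cast; ring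
    _ ≤ (2 * (C * X ^ (1 / 4 : ℝ))) * (35 * (3 * X ^ (1 / 2 : ℝ))) := by
      gcongr
      calc ((S.image f).card : ℝ) ≤ ((35 * (2 * M + 1) : ℕ) : ℝ) := by exact_mod_cast himgc
        _ = 35 * (2 * (M : ℝ) + 1) := by push_cast; ring
        _ ≤ _ := by linarith
    _ = 210 * C * (X ^ (1 / 4 : ℝ) * X ^ (1 / 2 : ℝ)) := by ring
    _ = 210 * C * X ^ (3 / 4 : ℝ) := by rw [← Real.rpow_add hX0]; norm_num
    _ ≤ ((ε / 2) * X ^ (1 / 4 : ℝ)) * X ^ (3 / 4 : ℝ) := by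
      apply mul_le_mul_of_nonneg_right _ (by positivity)
      rw [div_le_iff₀ hε] at hbig
      linarith
    _ = (ε / 2) * X := by
      rw [mul_assoc, ← Real.rpow_add hX0]; norm_num
    _ = ε * p := by rw [hX]; push_cast; ring

end Pool.Agent.ZPOrd
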