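import Mathlib
import Pool.Agent.ZPOrd.Base

/-!
Auxiliary facts on fixed points of integral matrices, factorisation through determinant `p`.
-/

open UpperHalfPlane hiding I
open MatrixGroups

namespace Pool.Agent.ZPOrd

open Pool.Agent.Lib.ModularZP

/-- the denominator does not vanish -/
lemma dz_den_ne {M : M2} (h : 0 < M.det) (τ : ℍ) : (M 1 0 : ℂ) * τ + (M 1 1 : ℂ) ≠ 0 := by
  intro h0
  have him : ((M 1 0 : ℂ) * τ + (M 1 1 : ℂ)).im = 0 := by rw [h0]; simp
  have hre : ((M 1 0 : ℂ) * τ + (M 1 1 : ℂ)).re = 0 := by rw [h0]; simp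
  simp at him hre
  rcases him with h1 | h1
  · rw [h1] at hre
    simp at hre
    rw [Matrix.det_fin_two, h1, hre] at h
    simp at h
  · exact absurd h1 τ.im_pos.ne'

lemma dz_fix_iff {M : M2} (h : 0 < M.det) (τ : ℍ) :
    gl M • τ = τ ↔ (M 0 0 : ℂ) * τ + (M 0 1 : ℂ) = τ * ((M 1 0 : ℂ) * τ + (M 1 1 : ℂ)) := by
  rw [← UpperHalfPlane.coe_inj, gl_smul_coe h, div_eq_iff (dz_den_ne h τ)]

lemma dz_scalar {n : ℤ} (hn : 0 < n) (τ : ℍ) : gl (n • (1 : M2)) • τ = τ := by
  have hdet : (n • (1 : M2)).det = n * n := by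
    rw [Matrix.det_fin_two]; simp
  rw [dz_fix_iff (by rw [hdet]; positivity)]
  simp [mul_comm]

/-- a power of a matrix with a fixed point fixes it -/
lemma dz_pow_fix {B : M2} (hB : 0 < B.det) {τ : ℍ} (hf : gl B • τ = τ) (m : ℕ) : gl (B ^ m) • τ = τ := by
  induction m with
  | zero =>
    have h1 := dz_scalar (n := 1) one_pos τ
    rwa [one_smul] at h1
  | succ m ih =>
    rw [pow_succ, gl_mul_smul (by rw [Matrix.det_pow]; positivity) hB, hf, ih]

/-- the discriminant of a matrix with a fixed point is negative -/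
lemma dz_disc_neg {M : M2} (h : 0 < M.det) {τ : ℍ} (hf : gl M • τ = τ) (hn : M 1 0 ≠ 0) :
    M.trace ^ 2 - 4 * M.det < 0 := by
  rw [dz_fix_iff h] at hf
  have hre := congrArg Complex.re hf
  have him := congrArg Complex.im hf
  have hy : 0 < (τ : ℂ).im := τ.im_pos
  set x := (τ : ℂ).re
  set y := (τ : ℂ).im
  simp only [Complex.add_re, Complex.mul_re, Complex.add_im, Complex.mul_im, Complex.intCast_re, Complex.intCast_im] at hre him
  have h1 : (M 0 0 : ℝ) - M 1 1 = 2 * M 1 0 * x := by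
    have h2 : ((M 0 0 : ℝ) - M 1 1 - 2 * M 1 0 * x) * y = 0 := by
      change (M 0 0 : ℝ) * y + 0 * x + 0 = x * ((M 1 0 : ℝ) * y + 0 * x + 0) + y * ((M 1 0 : ℝ) * x - 0 * y + M 1 1) at him
      linear_combination him
    rcases mul_eq_zero.mp h2 with h3 | h3
    · linarith
    · exact absurd h3 hy.ne'
  have h4 : (M 0 1 : ℝ) = - M 1 0 * (x ^ 2 + y ^ 2) := by
    change (M 0 0 : ℝ) * x - 0 * y + M 0 1 = x * ((M 1 0 : ℝ) * x - 0 * y + M 1 1) - y * ((M 1 0 : ℝ) * y + 0 * x + 0) at hre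
    linear_combination hre - x * h1
  have h5 : ((M.trace ^ 2 - 4 * M.det : ℤ) : ℝ) = - (2 * M 1 0 * y) ^ 2 := by
    rw [Matrix.det_fin_two, Matrix.trace_fin_two]
    push_cast
    have h6 : ((M 0 0 : ℝ) + M 1 1) ^ 2 - 4 * (M 0 0 * M 1 1 - M 0 1 * M 1 0) =
        ((M 0 0 : ℝ) - M 1 1) ^ 2 + 4 * M 0 1 * M 1 0 := by ring
    rw [h6, h1, h4]
    ring
  have h7 : (0 : ℝ) < (2 * M 1 0 * y) ^ 2 := by
    have : (M 1 0 : ℝ) ≠ 0 := by exact_mod_cast hn
    positivity
  have h8 : ((M.trace ^ 2 - 4 * M.det : ℤ) : ℝ) < 0 := by rw [h5]; linarith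
  exact_mod_cast h8

/-- a matrix of prime determinant with a fixed point is not upper triangular -/
lemma dz_lower_ne {p : ℕ} (hp : p.Prime) {B : M2} (hB : B.det = p) {τ : ℍ} (hf : gl B • τ = τ) : B 1 0 ≠ 0 := by
  intro h0
  have hpos : 0 < B.det := by rw [hB]; exact_mod_cast hp.pos
  rw [dz_fix_iff hpos, h0] at hf
  have hre := congrArg Complex.re hf
  have him := congrArg Complex.im hf
  simp at hre him
  have hy : 0 < (τ : ℂ).im := τ.im_pos
  have h1 : (B 0 0 : ℝ) = B 1 1 := by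
    have h2 : ((B 0 0 : ℝ) - B 1 1) * (τ : ℂ).im = 0 := by
      change (B 0 0 : ℝ) * (τ : ℂ).im = (τ : ℂ).im * B 1 1 at him
      linear_combination him
    rcases mul_eq_zero.mp h2 with h3 | h3
    · linarith
    · exact absurd h3 hy.ne'
  have h3 : B 0 0 = B 1 1 := by exact_mod_cast h1
  rw [Matrix.det_fin_two, h0, h3, mul_zero, sub_zero] at hB
  have h4 : (B 1 1).natAbs * (B 1 1).natAbs = p := by
    have := congrArg Int.natAbs hB
    rwa [Int.natAbs_mul, Int.natAbs_natCast] at this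
  rw [← h4] at hp
  have h5 : (B 1 1).natAbs ≠ 1 := by
    intro h6
    rw [h6] at hp
    exact Nat.not_prime_one (by simpa using hp)
  exact Nat.not_prime_mul h5 h5 hp

/-- factorisation through a matrix of determinant `p` on the right -/
lemma dz_factor {p : ℕ} (hp : p.Prime) (E : M2) (h : (p : ℤ) ∣ E.det) :
    ∃ E' F : M2, E = E' * F ∧ F.det = p ∧ E'.det * p = E.det := by
  have hpZ : Prime (p : ℤ) := Nat.prime_iff_prime_int.mp hp
  have hfin : ∀ t : ℤ, (p : ℤ) ∣ E 0 1 - t * E 0 0 → (p : ℤ) ∣ E 1 1 - t * E 1 0 →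
      ∃ E' F : M2, E = E' * F ∧ F.det = p ∧ E'.det * p = E.det := by
    rintro t ⟨u, hu⟩ ⟨v, hv⟩
    have hE : E = !![E 0 0, u; E 1 0, v] * !![1, t; 0, (p : ℤ)] := by
      ext i j
      fin_cases i <;> fin_cases j
      · simp [Matrix.mul_apply, Fin.sum_univ_two]
      · simp only [Matrix.mul_apply, Fin.sum_univ_two]
        simp
        linear_combination hu
      · simp [Matrix.mul_apply, Fin.sum_univ_two]
      · simp only [Matrix.mul_apply, Fin.sum_univ_two]
        simp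
        linear_combination hv
    refine ⟨!![E 0 0, u; E 1 0, v], !![1, t; 0, (p : ℤ)], hE, ?_, ?_⟩
    · rw [Matrix.det_fin_two_of]; ring
    · conv_rhs => rw [hE]
      rw [Matrix.det_mul, Matrix.det_fin_two_of, Matrix.det_fin_two_of]
      ring
  have hinv : ∀ a : ℤ, ¬ (p : ℤ) ∣ a → ∃ w : ℤ, (p : ℤ) ∣ w * a - 1 := by
    intro a ha
    have hco : IsCoprime (p : ℤ) a := (Prime.coprime_iff_not_dvd hpZ).mpr ha
    obtain ⟨u, w, huw⟩ := hco
    exact ⟨w, ⟨-u, by linear_combination huw⟩⟩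
  rw [Matrix.det_fin_two] at h
  by_cases ha : (p : ℤ) ∣ E 0 0
  · by_cases hc : (p : ℤ) ∣ E 1 0
    · obtain ⟨u, hu⟩ := ha
      obtain ⟨v, hv⟩ := hc
      have hE : E = !![u, E 0 1; v, E 1 1] * !![(p : ℤ), 0; 0, 1] := by
        ext i j
        fin_cases i <;> fin_cases j
        · simp only [Matrix.mul_apply, Fin.sum_univ_two]
          simp
          linear_combination hu
        · simp [Matrix.mul_apply, Fin.sum_univ_two]
        · simp only [Matrix.mul_apply, Fin.sum_univ_two]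
          simp
          linear_combination hv
        · simp [Matrix.mul_apply, Fin.sum_univ_two]
      refine ⟨!![u, E 0 1; v, E 1 1], !![(p : ℤ), 0; 0, 1], hE, ?_, ?_⟩
      · rw [Matrix.det_fin_two_of]; ring
      · conv_rhs => rw [hE]
        rw [Matrix.det_mul, Matrix.det_fin_two_of, Matrix.det_fin_two_of]
        ring
    · obtain ⟨w, hw⟩ := hinv _ hc
      refine hfin (E 1 1 * w) ?_ ?_
      · have h1 : (p : ℤ) ∣ (E 0 1 - E 1 1 * w * E 0 0) * E 1 0 := by
          have h2 : (E 0 1 - E 1 1 * w * E 0 0) * E 1 0 = -(E 0 0 * E 1 1 - E 0 1 * E 1 0) -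
              E 1 1 * E 0 0 * (w * E 1 0 - 1) := by ring
          rw [h2]
          exact dvd_sub (dvd_neg.mpr h) (Dvd.dvd.mul_left hw _)
        exact (hpZ.dvd_or_dvd h1).resolve_right hc
      · have h2 : E 1 1 - E 1 1 * w * E 1 0 = -(E 1 1) * (w * E 1 0 - 1) := by ring
        rw [h2]
        exact Dvd.dvd.mul_left hw _
  · obtain ⟨w, hw⟩ := hinv _ ha
    refine hfin (E 0 1 * w) ?_ ?_
    · have h2 : E 0 1 - E 0 1 * w * E 0 0 = -(E 0 1) * (w * E 0 0 - 1) := by ring
      rw [h2]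
      exact Dvd.dvd.mul_left hw _
    · have h1 : (p : ℤ) ∣ (E 1 1 - E 0 1 * w * E 1 0) * E 0 0 := by
        have h2 : (E 1 1 - E 0 1 * w * E 1 0) * E 0 0 = (E 0 0 * E 1 1 - E 0 1 * E 1 0) -
            E 0 1 * E 1 0 * (w * E 0 0 - 1) := by ring
        rw [h2]
        exact dvd_sub h (Dvd.dvd.mul_left hw _)
      exact (hpZ.dvd_or_dvd h1).resolve_right ha

/-- numbers congruent to a number with residue in `F_p` -/
lemma dz_congr {p : ℕ} {V : ValuationSubring ℂ} {x y : ℂ} (hy : y ∈ V) (hf : V.valuation (y ^ p - y) < 1)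
    (hc : V.valuation (x - y) < 1) : x ∈ V ∧ V.valuation (x ^ p - x) < 1 := by
  have hx : x ∈ V := by
    have h1 : x = (x - y) + y := by ring
    rw [h1]
    exact add_mem ((V.valuation_le_one_iff _).mp hc.le) hy
  refine ⟨hx, ?_⟩
  obtain ⟨z, hz⟩ := sub_dvd_pow_sub_pow (⟨x, hx⟩ : V) ⟨y, hy⟩ p
  have h2 : x ^ p - y ^ p = (x - y) * (z : ℂ) := by
    have := congrArg (Subtype.val) hz
    simpa using this
  have h3 : V.valuation (x ^ p - y ^ p) < 1 := by
    rw [h2, map_mul]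
    calc _ ≤ V.valuation (x - y) * 1 := mul_le_mul_right ((V.valuation_le_one_iff _).mpr z.2) _
      _ < 1 := by rw [mul_one]; exact hc
  have h4 : x ^ p - x = (x ^ p - y ^ p) + (y ^ p - y) - (x - y) := by ring
  rw [h4]
  exact V.valuation.map_sub_lt (V.valuation.map_add_lt h3 hf) hc

lemma dz_trans {V : ValuationSubring ℂ} {x y z : ℂ} (h1 : V.valuation (x - y) < 1)
    (h2 : V.valuation (y - z) < 1) : V.valuation (x - z) < 1 := by
  have h3 : x - z = (x - y) + (y - z) := by ring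
  rw [h3]
  exact V.valuation.map_add_lt h1 h2

end Pool.Agent.ZPOrd
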