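import Mathlib

/-!
Two lattices with the same invariants are equal.
-/

open Filter Topology

namespace Pool.Agent.ZPOrd

namespace LatEq

lemma P_eq (L : PeriodPair) (z : ℂ) : L.weierstrassP z = L.weierstrassPExcept 0 z + 1 / z ^ 2 := by
  have := L.weierstrassPExcept_add (0 : L.lattice) z
  simpa using this.symm

lemma P'_eq (L : PeriodPair) (z : ℂ) : L.derivWeierstrassP z = L.derivWeierstrassPExcept 0 z - 2 / z ^ 3 := by
  have := L.derivWeierstrassPExcept_sub (0 : L.lattice) z
  simpa using this.symm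

lemma near_zero (L : PeriodPair) : ∀ᶠ z in 𝓝[≠] (0 : ℂ), z ∉ L.lattice := by
  have := L.compl_lattice_sdiff_singleton_mem_nhds 0
  filter_upwards [nhdsWithin_le_nhds this, self_mem_nhdsWithin] with z h1 h2 h3
  exact h1 ⟨h3, h2⟩

/-- the two Weierstrass functions agree near `0` -/
theorem eventually_eq {L L' : PeriodPair} (h2 : L.g₂ = L'.g₂) (h3 : L.g₃ = L'.g₃) :
    ∀ᶠ z in 𝓝 (0 : ℂ), L.weierstrassPExcept 0 z = L'.weierstrassPExcept 0 z := by
  have a1 : AnalyticAt ℂ (L.weierstrassPExcept 0) 0 := L.analyticAt_weierstrassPExcept 0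
  have a2 : AnalyticAt ℂ (L'.weierstrassPExcept 0) 0 := L'.analyticAt_weierstrassPExcept 0
  have b1 : AnalyticAt ℂ (L.derivWeierstrassPExcept 0) 0 := L.analyticAt_derivWeierstrassPExcept 0
  have b2 : AnalyticAt ℂ (L'.derivWeierstrassPExcept 0) 0 := L'.analyticAt_derivWeierstrassPExcept 0
  set u : ℂ → ℂ := fun z => L.weierstrassPExcept 0 z - L'.weierstrassPExcept 0 z with hu
  have hua : AnalyticAt ℂ u 0 := a1.sub a2
  by_contra hne
  have hne' : ¬ ∀ᶠ z in 𝓝 (0 : ℂ), u z = 0 := by
    intro h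
    apply hne
    filter_upwards [h] with z hz
    exact sub_eq_zero.mp hz
  obtain ⟨m, g, hg, hg0, hug⟩ := hua.exists_eventuallyEq_pow_smul_nonzero_iff.mpr hne'
  simp only [sub_zero, smul_eq_mul] at hug
  -- derivative of u
  have hdu : ∀ᶠ z in 𝓝 (0 : ℂ), deriv u z = L.derivWeierstrassPExcept 0 z - L'.derivWeierstrassPExcept 0 z := by
    have e1 := L.eqOn_deriv_weierstrassPExcept_derivWeierstrassPExcept 0
    have e2 := L'.eqOn_deriv_weierstrassPExcept_derivWeierstrassPExcept 0
    have m1 := L.compl_lattice_sdiff_singleton_mem_nhds 0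
    have m2 := L'.compl_lattice_sdiff_singleton_mem_nhds 0
    filter_upwards [m1, m2, a1.eventually_analyticAt, a2.eventually_analyticAt] with z h1 h2 c1 c2
    rw [hu, deriv_fun_sub c1.differentiableAt c2.differentiableAt, e1 h1, e2 h2]
  have hdug : ∀ᶠ z in 𝓝 (0 : ℂ), z * deriv u z = z ^ m * (m * g z + z * deriv g z) := by
    filter_upwards [hug.eventually_nhds, hg.eventually_analyticAt] with z hz hgz
    have : deriv u z = deriv (fun z => z ^ m * g z) z := EventuallyEq.deriv_eq hz
    rw [this, deriv_fun_mul (by fun_prop) hgz.differentiableAt]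
    simp only [deriv_pow_field]
    rcases Nat.eq_zero_or_pos m with rfl | hm
    · simp; 
    · obtain ⟨k, rfl⟩ : ∃ k, m = k + 1 := ⟨m - 1, by omega⟩
      simp only [Nat.add_sub_cancel]
      ring
  -- the differential equation for the difference
  set A : ℂ → ℂ := fun z => z ^ 3 * (L.derivWeierstrassPExcept 0 z + L'.derivWeierstrassPExcept 0 z) - 4 with hA
  set B : ℂ → ℂ := fun z => 4 * ((z ^ 2 * L.weierstrassPExcept 0 z + 1) ^ 2 +
    (z ^ 2 * L.weierstrassPExcept 0 z + 1) * (z ^ 2 * L'.weierstrassPExcept 0 z + 1) +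
    (z ^ 2 * L'.weierstrassPExcept 0 z + 1) ^ 2) - L'.g₂ * z ^ 4 with hB
  have hode : ∀ᶠ z in 𝓝[≠] (0 : ℂ), (m * g z + z * deriv g z) * A z = g z * B z := by
    filter_upwards [nhdsWithin_le_nhds hdu, nhdsWithin_le_nhds hdug, nhdsWithin_le_nhds hug,
      near_zero L, near_zero L', self_mem_nhdsWithin] with z c1 c2 c3 d1 d2 hz
    have hz0 : z ≠ 0 := hz
    have e1 := L.derivWeierstrassP_sq z d1
    have e2 := L'.derivWeierstrassP_sq z d2
    rw [P_eq, P'_eq] at e1 e2
    rw [h2, h3] at e1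
    rw [c1] at c2
    have hzm : z ^ m ≠ 0 := pow_ne_zero _ hz0
    apply mul_left_cancel₀ hzm
    rw [← mul_assoc, ← c2, ← mul_assoc, ← c3]
    simp only [hA, hB, hu]
    have key : z ^ 6 * ((L.derivWeierstrassPExcept 0 z - 2 / z ^ 3) ^ 2 - (L'.derivWeierstrassPExcept 0 z - 2 / z ^ 3) ^ 2) =
      z ^ 6 * (4 * ((L.weierstrassPExcept 0 z + 1 / z ^ 2) ^ 3 - (L'.weierstrassPExcept 0 z + 1 / z ^ 2) ^ 3) -
        L'.g₂ * (L.weierstrassPExcept 0 z - L'.weierstrassPExcept 0 z)) := by
      rw [e1, e2]; ring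
    field_simp at key
    have hz2 : z ^ 2 ≠ 0 := pow_ne_zero _ hz0
    apply mul_left_cancel₀ hz2
    linear_combination key
  have hcA : ContinuousAt A 0 := by
    have := b1.continuousAt
    have := b2.continuousAt
    simp only [hA]
    fun_prop
  have hcB : ContinuousAt B 0 := by
    have := a1.continuousAt
    have := a2.continuousAt
    simp only [hB]
    fun_prop
  have hcg : ContinuousAt g 0 := hg.continuousAt
  have hcg' : ContinuousAt (deriv g) 0 := hg.deriv.continuousAt
  have hl : ContinuousAt (fun z => (m * g z + z * deriv g z) * A z) 0 := by fun_prop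
  have hr : ContinuousAt (fun z => g z * B z) 0 := by fun_prop
  have hlim := tendsto_nhds_unique_of_eventuallyEq (hl.tendsto.mono_left nhdsWithin_le_nhds)
    (hr.tendsto.mono_left nhdsWithin_le_nhds) hode
  simp [hA, hB] at hlim
  have h12 : g 0 * ((12 : ℂ) + 4 * m) = 0 := by linear_combination -hlim
  rcases mul_eq_zero.mp h12 with h | h
  · exact hg0 h
  · have : ((12 + 4 * m : ℕ) : ℂ) = 0 := by push_cast; exact h
    rw [Nat.cast_eq_zero] at this
    omega

theorem lattice_le {L L' : PeriodPair} (h2 : L.g₂ = L'.g₂) (h3 : L.g₃ = L'.g₃) : L.lattice ≤ L'.lattice := by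
  set S : Set ℂ := (L.lattice : Set ℂ) ∪ (L'.lattice : Set ℂ) with hS
  have hcount : S.Countable := by
    have e1 : (L.lattice : Set ℂ).Countable := Set.countable_coe_iff.mp (inferInstanceAs (Countable L.lattice))
    have e2 : (L'.lattice : Set ℂ).Countable := Set.countable_coe_iff.mp (inferInstanceAs (Countable L'.lattice))
    exact e1.union e2
  have hpre : IsPreconnected Sᶜ := (hcount.isConnected_compl_of_one_lt_rank (by simp)).2
  have f1 : AnalyticOnNhd ℂ L.weierstrassP Sᶜ :=
    L.analyticOnNhd_weierstrassP.mono (Set.compl_subset_compl.mpr Set.subset_union_left)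
  have f2 : AnalyticOnNhd ℂ L'.weierstrassP Sᶜ :=
    L'.analyticOnNhd_weierstrassP.mono (Set.compl_subset_compl.mpr Set.subset_union_right)
  obtain ⟨z₀, hz1, hz2, hz3⟩ : ∃ z₀ : ℂ, z₀ ∉ L.lattice ∧ z₀ ∉ L'.lattice ∧
      ∀ᶠ z in 𝓝 z₀, L.weierstrassPExcept 0 z = L'.weierstrassPExcept 0 z :=
    ((near_zero L).and ((near_zero L').and
      (nhdsWithin_le_nhds (eventually_eq h2 h3).eventually_nhds))).exists
  have hEq : Set.EqOn L.weierstrassP L'.weierstrassP Sᶜ := by
    apply f1.eqOn_of_preconnected_of_eventuallyEq f2 hpre (z₀ := z₀)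
    · rw [hS, Set.mem_compl_iff, Set.mem_union]
      exact fun h => h.elim hz1 hz2
    · filter_upwards [hz3] with z hz
      rw [P_eq, P_eq, hz]
  intro l hl
  by_contra hl'
  have hord := L.order_weierstrassP l hl
  have hcl : ∀ᶠ z in 𝓝 l, z ∉ L'.lattice := L'.isClosed_lattice.isOpen_compl.mem_nhds hl'
  have hev : L.weierstrassP =ᶠ[𝓝[≠] l] L'.weierstrassP := by
    filter_upwards [nhdsWithin_le_nhds (L.compl_lattice_sdiff_singleton_mem_nhds l),
      nhdsWithin_le_nhds hcl, self_mem_nhdsWithin] with z c1 c2 c3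
    apply hEq
    rw [hS, Set.mem_compl_iff, Set.mem_union]
    rintro (h | h)
    · exact c1 ⟨h, c3⟩
    · exact c2 h
  rw [meromorphicOrderAt_congr hev] at hord
  have := (L'.analyticOnNhd_weierstrassP l hl').meromorphicOrderAt_nonneg
  rw [hord] at this
  exact absurd this (by decide)

/-- a lattice is determined by its invariants -/
theorem lattice_eq {L L' : PeriodPair} (h2 : L.g₂ = L'.g₂) (h3 : L.g₃ = L'.g₃) : L.lattice = L'.lattice :=
  le_antisymm (lattice_le h2 h3) (lattice_le h2.symm h3.symm)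

end LatEq
end Pool.Agent.ZPOrd
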