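import Mathlib
import Pool.Agent.ZPOrd.Base
import Pool.Agent.ZPOrd.LatEq

/-!
Klein's `j` is a bijection from `SL₂(ℤ)\ℍ` onto `ℂ`.
-/

open UpperHalfPlane hiding I
open MatrixGroups ModularForm EisensteinSeries

namespace Pool.Agent.ZPOrd

open Pool.Agent.Lib.ModularZP

namespace JBij

/-- the period pair `(c τ, c)` -/
noncomputable def pp (c : ℂ) (hc : c ≠ 0) (τ : ℍ) : PeriodPair where
  ω₁ := c * τ
  ω₂ := c
  indep := by
    rw [LinearIndependent.pair_iff]
    intro s t h
    simp only [Complex.real_smul] at h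
    have h1 : c * ((s : ℂ) * τ + t) = 0 := by linear_combination h
    have h2 := (mul_eq_zero.mp h1).resolve_left hc
    have h3 : s * τ.im = 0 := by
      have := congrArg Complex.im h2
      simpa using this
    have h4 : s = 0 := (mul_eq_zero.mp h3).resolve_right τ.im_pos.ne'
    refine ⟨h4, ?_⟩
    rw [h4] at h2
    simpa using h2

lemma G_pp (c : ℂ) (hc : c ≠ 0) (τ : ℍ) {k : ℕ} (hk : 3 ≤ k) :
    (pp c hc τ).G k = (c ^ k)⁻¹ * (2 * riemannZeta k * E hk τ) := by
  have h1 := tsum_eisSummand_eq_riemannZeta_mul_eisensteinSeries hk τ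
  have h2 : E hk τ = (1 / 2 : ℂ) * eisensteinSeries (N := 1) 0 k τ := by
    rw [show E hk τ = (1 / 2 : ℂ) • eisensteinSeriesSIF (N := 1) 0 k τ from rfl,
      eisensteinSeriesSIF_apply 0 k τ, smul_eq_mul]
  have h3 : 2 * riemannZeta k * E hk τ = ∑' v : Fin 2 → ℤ, eisSummand k v τ := by
    rw [h1, h2]; ring
  rw [h3, PeriodPair.G, ← tsum_mul_left,
    ← ((pp c hc τ).latticeEquivProd.toEquiv.trans (finTwoArrowEquiv ℤ).symm).symm.tsum_eq]
  apply tsum_congr
  intro v
  have : (((((pp c hc τ).latticeEquivProd.toEquiv.trans (finTwoArrowEquiv ℤ).symm).symm v) :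
      (pp c hc τ).lattice) : ℂ) = c * ((v 0 : ℂ) * τ + v 1) := by
    have := (pp c hc τ).latticeEquiv_symm_apply (v 0, v 1)
    refine Eq.trans ?_ (this.trans ?_)
    · rfl
    · simp only [pp]; ring
  rw [this, mul_pow, mul_inv, eisSummand]
  simp [zpow_neg]

lemma algebra_scale {a b a' b' : ℂ} (h : a ^ 3 * b' ^ 2 = a' ^ 3 * b ^ 2) (h1 : a ^ 3 - b ^ 2 ≠ 0)
    (h2 : a' ^ 3 - b' ^ 2 ≠ 0) : ∃ c : ℂ, c ≠ 0 ∧ a' = c ^ 4 * a ∧ b' = c ^ 6 * b := by
  by_cases ha : a = 0
  · have hb : b ≠ 0 := by rintro rfl; simp [ha] at h1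
    have ha' : a' = 0 := by
      rw [ha] at h
      simp only [ne_eq, OfNat.ofNat_ne_zero, not_false_eq_true, zero_pow, zero_mul] at h
      rcases mul_eq_zero.mp h.symm with h | h
      · exact pow_eq_zero_iff (by norm_num) |>.mp h
      · exact absurd (pow_eq_zero_iff (by norm_num) |>.mp h) hb
    have hb' : b' ≠ 0 := by rintro rfl; simp [ha'] at h2
    obtain ⟨c, hc⟩ := IsAlgClosed.exists_pow_nat_eq (b' / b) (n := 6) (by norm_num)
    refine ⟨c, ?_, by rw [ha, ha', mul_zero], by rw [hc]; field_simp⟩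
    rintro rfl
    have := div_ne_zero hb' hb
    rw [← hc] at this
    simp at this
  by_cases hb : b = 0
  · have hb' : b' = 0 := by
      rw [hb] at h
      simp only [ne_eq, OfNat.ofNat_ne_zero, not_false_eq_true, zero_pow, mul_zero] at h
      rcases mul_eq_zero.mp h with h | h
      · exact absurd (pow_eq_zero_iff (by norm_num) |>.mp h) ha
      · exact pow_eq_zero_iff (by norm_num) |>.mp h
    have ha' : a' ≠ 0 := by rintro rfl; simp [hb'] at h2
    obtain ⟨c, hc⟩ := IsAlgClosed.exists_pow_nat_eq (a' / a) (n := 4) (by norm_num)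
    refine ⟨c, ?_, by rw [hc]; field_simp, by rw [hb, hb', mul_zero]⟩
    rintro rfl
    have := div_ne_zero ha' ha
    rw [← hc] at this
    simp at this
  have ha' : a' ≠ 0 := by
    rintro rfl
    simp only [ne_eq, OfNat.ofNat_ne_zero, not_false_eq_true, zero_pow, zero_mul] at h
    rcases mul_eq_zero.mp h with h | h
    · exact ha (pow_eq_zero_iff (by norm_num) |>.mp h)
    · have : b' = 0 := pow_eq_zero_iff (by norm_num) |>.mp h
      simp [this] at h2
  have hb' : b' ≠ 0 := by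
    rintro rfl
    simp only [ne_eq, OfNat.ofNat_ne_zero, not_false_eq_true, zero_pow, mul_zero] at h
    rcases mul_eq_zero.mp h.symm with h | h
    · exact ha' (pow_eq_zero_iff (by norm_num) |>.mp h)
    · exact hb (pow_eq_zero_iff (by norm_num) |>.mp h)
  obtain ⟨c, hc⟩ := IsAlgClosed.exists_pow_nat_eq (b' * a / (b * a')) (n := 2) (by norm_num)
  refine ⟨c, ?_, ?_, ?_⟩
  · rintro rfl
    have := div_ne_zero (mul_ne_zero hb' ha) (mul_ne_zero hb ha')
    rw [← hc] at this
    simp at this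
  · rw [show c ^ 4 = (c ^ 2) ^ 2 by ring, hc]
    field_simp
    linear_combination -h
  · rw [show c ^ 6 = (c ^ 2) ^ 3 by ring, hc]
    field_simp
    linear_combination -h

end JBij

open JBij

theorem jInv_surj (c : ℂ) : ∃ τ : ℍ, jInv τ = c := by
  by_contra hne
  push Not at hne
  let A : ModularForm 𝒮ℒ (12 : ℤ) := ModularForm.mcast (by norm_num) (E₄.pow 3)
  let B : ModularForm 𝒮ℒ (12 : ℤ) := ModularForm.mcast (by norm_num) (E₆.pow 2)
  have hA : ∀ τ, A τ = E₄ τ ^ 3 := by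
    intro τ
    have : A τ = (E₄.pow 3) τ := rfl
    rw [this, coe_pow, Pi.pow_apply]
  have hB : ∀ τ, B τ = E₆ τ ^ 2 := by
    intro τ
    have : B τ = (E₆.pow 2) τ := rfl
    rw [this, coe_pow, Pi.pow_apply]
  have hΔ : ∀ τ, A τ - B τ = 1728 * ModularForm.discriminant τ := by
    intro τ
    rw [hA, hB, discriminant_eq_E₄_cube_sub_E₆_sq τ]
    ring
  let F : ModularForm 𝒮ℒ (12 : ℤ) := A - (c / 1728) • (A - B)
  have hF : ∀ τ, F τ = E₄ τ ^ 3 - c * ModularForm.discriminant τ := by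
    intro τ
    have : F τ = A τ - (c / 1728) * (A τ - B τ) := rfl
    rw [this, hΔ, hA]
    ring
  obtain ⟨c', hc', h⟩ := nonvanishing 1 (12 : ℤ) (by norm_num) F (fun τ hτ => by
    rw [hF] at hτ
    apply hne τ
    unfold jInv
    rw [div_eq_iff (discriminant_ne_zero τ)]
    linear_combination hτ)
  -- compare constant coefficients
  have hfun : (A : ℍ → ℂ) = (((c + c') : ℂ) • (CuspForm.discriminant : ℍ → ℂ)) := by
    ext τ
    rw [Pi.smul_apply, smul_eq_mul, CuspForm.coe_discriminant]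
    have h1 := h τ
    rw [hF, pow_one] at h1
    rw [hA]
    linear_combination h1
  have hq : qExpansion 1 A = ((c + c') : ℂ) • qExpansion 1 CuspForm.discriminant := by
    rw [hfun]
    exact ModularForm.qExpansion_smul one_pos one_mem_strictPeriods_SL (c + c' : ℂ) CuspForm.discriminant
  have hqA : qExpansion 1 A = (qExpansion 1 E₄) ^ 3 := by
    simp only [A, ModularForm.qExpansion_mcast, ModularForm.qExpansion_pow one_pos one_mem_strictPeriods_SL]
  have h0 := congrArg (PowerSeries.coeff 0) hq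
  rw [hqA, PowerSeries.coeff_zero_eq_constantCoeff_apply, map_pow,
    ← PowerSeries.coeff_zero_eq_constantCoeff_apply, E4_coeff, PowerSeries.coeff_smul,
    CuspForm.coe_discriminant, leadAt_delta.1 0 one_pos] at h0
  simp at h0

theorem jInv_inj {τ τ' : ℍ} (h : jInv τ = jInv τ') : ∃ γ : SL(2, ℤ), γ • τ = τ' := by
  have hΔ : ModularForm.discriminant τ ≠ 0 := discriminant_ne_zero τ
  have hΔ' : ModularForm.discriminant τ' ≠ 0 := discriminant_ne_zero τ'
  have e1 := discriminant_eq_E₄_cube_sub_E₆_sq τ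
  have e2 := discriminant_eq_E₄_cube_sub_E₆_sq τ'
  have hm : E₄ τ ^ 3 * ModularForm.discriminant τ' = E₄ τ' ^ 3 * ModularForm.discriminant τ := by
    unfold jInv at h
    rw [div_eq_div_iff hΔ hΔ'] at h
    exact h
  have hd : E₄ τ ^ 3 - E₆ τ ^ 2 ≠ 0 := by
    intro h0
    rw [h0] at e1
    simp at e1
    exact hΔ e1
  have hd' : E₄ τ' ^ 3 - E₆ τ' ^ 2 ≠ 0 := by
    intro h0
    rw [h0] at e2
    simp at e2
    exact hΔ' e2
  have hmul : E₄ τ ^ 3 * E₆ τ' ^ 2 = E₄ τ' ^ 3 * E₆ τ ^ 2 := by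
    rw [e1, e2] at hm
    linear_combination (-1728 : ℂ) * hm
  obtain ⟨c, hc, h4, h6⟩ := algebra_scale hmul hd hd'
  have g4 : (pp 1 one_ne_zero τ).G 4 = (pp c hc τ').G 4 := by
    rw [G_pp _ _ _ (by norm_num : 3 ≤ 4), G_pp _ _ _ (by norm_num : 3 ≤ 4)]
    rw [h4]
    field_simp
  have g6 : (pp 1 one_ne_zero τ).G 6 = (pp c hc τ').G 6 := by
    rw [G_pp _ _ _ (by norm_num : 3 ≤ 6), G_pp _ _ _ (by norm_num : 3 ≤ 6)]
    rw [h6]
    field_simp
  have hlat : (pp 1 one_ne_zero τ).lattice = (pp c hc τ').lattice :=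
    LatEq.lattice_eq (by rw [PeriodPair.g₂, PeriodPair.g₂, g4]) (by rw [PeriodPair.g₃, PeriodPair.g₃, g6])
  have m1 : c * (τ' : ℂ) ∈ (pp 1 one_ne_zero τ).lattice := by
    rw [hlat]; exact (pp c hc τ').ω₁_mem_lattice
  have m2 : c ∈ (pp 1 one_ne_zero τ).lattice := by
    rw [hlat]; exact (pp c hc τ').ω₂_mem_lattice
  have m3 : (1 * (τ : ℂ)) ∈ (pp c hc τ').lattice := by
    rw [← hlat]; exact (pp 1 one_ne_zero τ).ω₁_mem_lattice
  have m4 : (1 : ℂ) ∈ (pp c hc τ').lattice := by
    rw [← hlat]; exact (pp 1 one_ne_zero τ).ω₂_mem_lattice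
  rw [PeriodPair.mem_lattice] at m1 m2 m3 m4
  obtain ⟨p, q, h1⟩ := m1
  obtain ⟨r, s, h2⟩ := m2
  obtain ⟨x, y, h3⟩ := m3
  obtain ⟨z, w, h5⟩ := m4
  simp only [pp] at h1 h2 h3 h5
  have hi : ∀ a b : ℤ, (a : ℂ) * τ + b = 0 → a = 0 ∧ b = 0 := by
    intro a b hab
    have h7 : (a : ℝ) * τ.im = 0 := by
      have := congrArg Complex.im hab
      simpa using this
    have h8 : a = 0 := by
      have := (mul_eq_zero.mp h7).resolve_right τ.im_pos.ne'
      exact_mod_cast this
    refine ⟨h8, ?_⟩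
    rw [h8] at hab
    simpa using hab
  obtain ⟨k1, k2⟩ := hi (x * p + y * r - 1) (x * q + y * s) (by
    push_cast
    linear_combination h3 + (x : ℂ) * h1 + (y : ℂ) * h2)
  obtain ⟨k3, k4⟩ := hi (z * p + w * r) (z * q + w * s - 1) (by
    push_cast
    linear_combination h5 + (z : ℂ) * h1 + (w : ℂ) * h2)
  have hdet : (x * w - y * z) * (p * s - q * r) = 1 := by
    have a1 : x * p + y * r = 1 := by linarith
    have a4 : z * q + w * s = 1 := by linarith
    calc (x * w - y * z) * (p * s - q * r) = (x * p + y * r) * (z * q + w * s) - (x * q + y * s) * (z * p + w * r) := by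
          ring
      _ = 1 := by rw [a1, a4, k2, k3]; ring
  have hpos : 0 < p * s - q * r := by
    have h7 : ((c * τ') * (starRingEnd ℂ) c).im = ((p * s - q * r : ℤ) : ℝ) * τ.im := by
      rw [← h1, ← h2]
      simp
      ring
    have h8 : ((c * τ') * (starRingEnd ℂ) c).im = Complex.normSq c * τ'.im := by
      rw [mul_comm c, mul_assoc, Complex.mul_conj, mul_comm, Complex.im_ofReal_mul]
      rfl
    have h9 : 0 < Complex.normSq c * τ'.im := mul_pos (Complex.normSq_pos.mpr hc) τ'.im_pos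
    rw [← h8, h7] at h9
    have h10 := (mul_pos_iff_of_pos_right τ.im_pos).mp h9
    exact_mod_cast h10
  have hone : p * s - q * r = 1 := by
    rcases Int.isUnit_iff.mp (IsUnit.of_mul_eq_one_right _ hdet) with h | h
    · exact h
    · omega
  refine ⟨⟨!![p, q; r, s], by rw [Matrix.det_fin_two_of]; exact hone⟩, ?_⟩
  apply UpperHalfPlane.ext
  rw [UpperHalfPlane.specialLinearGroup_apply]
  have h7 : (r : ℂ) * τ + s = c := by linear_combination h2
  have h8 : (p : ℂ) * τ + q = c * τ' := by linear_combination h1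
  simp
  rw [h7, h8]
  field_simp

end Pool.Agent.ZPOrd
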