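import Mathlib

/-!
# ZPOrd, module Quad

Values of a definite quadratic polynomial which are not norms from an imaginary quadratic field.
-/

namespace Pool.Agent.ZPOrd

open NumberTheorySymbols

theorem quad_exists_nonres {q : ℕ} (hq : q.Prime) (hq2 : q ≠ 2) :
    ∃ g : ℕ, g.Coprime q ∧ J((g : ℤ) | q) = -1 := by
  have : Fact q.Prime := ⟨hq⟩
  obtain ⟨x, hx⟩ := FiniteField.exists_nonsquare (F := ZMod q) (by
    rw [ZMod.ringChar_zmod_n]; exact hq2)
  have hval : ((x.val : ℕ) : ZMod q) = x := ZMod.natCast_zmod_val x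
  refine ⟨x.val, ?_, ?_⟩
  · rw [Nat.coprime_comm, hq.coprime_iff_not_dvd]
    intro h
    have h0 : ((x.val : ℕ) : ZMod q) = 0 := (ZMod.natCast_eq_zero_iff _ _).2 h
    rw [hval] at h0
    exact hx ⟨0, by rw [h0, mul_zero]⟩
  · rw [ZMod.nonsquare_iff_jacobiSym_eq_neg_one]
    rw [Int.cast_natCast, hval]
    exact hx

theorem quad_gcd_one {D : ℤ} {u : ℕ} (hD : D ≠ 0) (hu : u.Prime) (h : D.natAbs < u) :
    D.gcd (u : ℤ) = 1 := by
  rw [Int.gcd_def, Int.natAbs_natCast]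
  exact ((hu.coprime_iff_not_dvd.2 fun hd =>
    absurd (Nat.le_of_dvd (Int.natAbs_pos.2 hD) hd) (by omega)).symm)

theorem quad_exists_jac_neg (A : ℤ) (hns : ¬ IsSquare A) (B : ℕ) :
    ∃ u : ℕ, B < u ∧ u.Prime ∧ J(A | u) = -1 := by
  have hA : A ≠ 0 := by
    rintro rfl
    exact hns ⟨0, by simp⟩
  obtain ⟨m, s, hm, hs, hsm, hsq⟩ := Nat.sq_mul_squarefree_of_pos (Int.natAbs_pos.2 hA)
  obtain ⟨ε, hε, hAe⟩ : ∃ ε : ℤ, (ε = 1 ∨ ε = -1) ∧ A = ε * ((s : ℤ) ^ 2 * m) := by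
    rcases Int.natAbs_eq A with h | h
    · exact ⟨1, Or.inl rfl, by rw [h, ← hsm]; push_cast; ring⟩
    · exact ⟨-1, Or.inr rfl, by rw [h, ← hsm]; push_cast; ring⟩
  have hsA : s ≤ A.natAbs := by
    rw [← hsm]
    nlinarith [Nat.mul_le_mul (Nat.mul_le_mul hs (le_refl s)) hm]
  have hsgcd : ∀ u : ℕ, u.Prime → A.natAbs < u → J((s : ℤ) ^ 2 | u) = 1 := by
    intro u hu h
    apply jacobiSym.sq_one'
    apply quad_gcd_one (by exact_mod_cast hs.ne') hu
    rw [Int.natAbs_natCast]; omega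
  by_cases hq : ∃ q : ℕ, q.Prime ∧ q ≠ 2 ∧ q ∣ m
  · obtain ⟨q, hqp, hq2, m', rfl⟩ := hq
    obtain ⟨g, hgc, hgj⟩ := quad_exists_nonres hqp hq2
    have hm' : 0 < m' := Nat.pos_of_mul_pos_left hm |> fun h => by
      rcases Nat.eq_zero_or_pos m' with h0 | h0
      · rw [h0] at hm; simp at hm
      · exact h0
    have hcq : q.Coprime m' := Nat.coprime_of_squarefree_mul hsq
    have hc8 : q.Coprime 8 := by
      have : q.Coprime 2 := (Nat.coprime_primes hqp Nat.prime_two).2 hq2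
      have h3 : q.Coprime (2 ^ 3) := this.pow_right 3
      simpa using h3
    have hcK : q.Coprime (8 * m') := hc8.mul_right hcq
    obtain ⟨c, hc1, hc2⟩ := Nat.chineseRemainder hcK g 1
    have hcc : c.Coprime (q * (8 * m')) := by
      apply Nat.Coprime.mul_right
      · rw [Nat.Coprime, hc1.gcd_eq]; exact hgc
      · rw [Nat.Coprime, hc2.gcd_eq]; simp
    have hne : q * (8 * m') ≠ 0 := (Nat.mul_pos hqp.pos (Nat.mul_pos (by norm_num) hm')).ne'
    obtain ⟨u, hu, hup, hum⟩ := Nat.forall_exists_prime_gt_and_modEq (B + A.natAbs)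
      (q := q * (8 * m')) (a := c) hne hcc
    refine ⟨u, by omega, hup, ?_⟩
    have hu1 : u ≡ g [MOD q] := (hum.of_mul_right _).trans hc1
    have hu2 : u ≡ 1 [MOD 8 * m'] := (hum.of_mul_left _).trans hc2
    have hu4 : u ≡ 1 [MOD 4 * m'] := by
      have : 8 * m' = 2 * (4 * m') := by ring
      rw [this] at hu2
      exact hu2.of_mul_left _
    have hu44 : u % 4 = 1 := by
      have h := hu4.of_mul_right m'
      have h2 : u % 4 = 1 % 4 := h
      omega
    have hodd : Odd u := Nat.odd_iff.2 (by omega)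
    have h1 : J(ε * (m' : ℤ) | u) = 1 := by
      rw [jacobiSym.mod_right _ hodd]
      have hna : (ε * (m' : ℤ)).natAbs = m' := by
        rcases hε with h | h <;> rw [h] <;> simp
      rw [hna]
      have : u % (4 * m') = 1 := by
        have h : u % (4 * m') = 1 % (4 * m') := hu4
        rw [h]
        apply Nat.mod_eq_of_lt
        omega
      rw [this, jacobiSym.one_right]
    have h2 : J((q : ℤ) | u) = -1 := by
      rw [jacobiSym.quadratic_reciprocity_one_mod_four' (hqp.odd_of_ne_two hq2) hu44]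
      rw [jacobiSym.mod_left' (a₂ := (g : ℤ)) (by exact_mod_cast congrArg (Nat.cast : ℕ → ℤ) hu1)]
      exact hgj
    have h3 := hsgcd u hup (by omega)
    have hAA : A = ε * (m' : ℤ) * ((q : ℤ) * (s : ℤ) ^ 2) := by
      rw [hAe]; push_cast; ring
    rw [hAA, jacobiSym.mul_left (ε * (m' : ℤ)), h1, jacobiSym.mul_left (q : ℤ), h2, h3]
    norm_num
  · have hm12 : m = 1 ∨ m = 2 := by
      by_contra hcon
      push Not at hcon hq
      obtain ⟨q, hqp, hqm⟩ := Nat.exists_prime_and_dvd hcon.1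
      have hq2 : q = 2 := by
        by_contra h
        exact hq q hqp h hqm
      subst hq2
      obtain ⟨m', rfl⟩ := hqm
      obtain ⟨q', hqp', hqm'⟩ := Nat.exists_prime_and_dvd (n := m') (by
        intro h; exact hcon.2 (by rw [h]))
      have hq2' : q' = 2 := by
        by_contra h
        exact hq q' hqp' h (hqm'.mul_left 2)
      subst hq2'
      have := hsq 2 (Nat.mul_dvd_mul_left 2 hqm')
      simp at this
    have key : ∀ c : ℕ, c.Coprime 8 → c < 8 → J(ε * (m : ℤ) | c % (4 * (ε * (m : ℤ)).natAbs)) = -1 →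
        ∃ u : ℕ, B < u ∧ u.Prime ∧ J(A | u) = -1 := by
      intro c hc hc8 hJ
      obtain ⟨u, hu, hup, hum⟩ := Nat.forall_exists_prime_gt_and_modEq (B + A.natAbs)
        (q := 8) (a := c) (by norm_num) hc
      refine ⟨u, by omega, hup, ?_⟩
      have hcodd : c % 2 = 1 := by
        rw [Nat.Coprime] at hc
        interval_cases c <;> simp_all
      have hu8 : u % 8 = c % 8 := hum
      have hodd : Odd u := Nat.odd_iff.2 (by omega)
      have h3 := hsgcd u hup (by omega)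
      have hAA : A = ε * (m : ℤ) * (s : ℤ) ^ 2 := by rw [hAe]; ring
      rw [hAA, jacobiSym.mul_left (ε * (m : ℤ)), h3, mul_one, jacobiSym.mod_right _ hodd]
      have hna : (ε * (m : ℤ)).natAbs = m := by
        rcases hε with h | h <;> rw [h] <;> simp
      rw [hna] at hJ ⊢
      have : u % (4 * m) = c % (4 * m) := by
        rcases hm12 with h | h <;> subst h <;> omega
      rw [this]; exact hJ
    rcases hm12 with h1 | h2
    · subst h1
      rcases hε with h | h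
      · exfalso
        apply hns
        rw [hAe, h]
        exact ⟨(s : ℤ), by push_cast; ring⟩
      · apply key 3 (by norm_num) (by norm_num)
        rw [h]; norm_num
    · subst h2
      rcases hε with h | h
      · apply key 5 (by norm_num) (by norm_num)
        rw [h]; norm_num
      · apply key 5 (by norm_num) (by norm_num)
        rw [h]; norm_num

theorem quad_exists_ell (D D0 : ℤ) (hD : D ≠ 0) (hD0 : D0 ≠ 0) (h0 : ¬ IsSquare D0)
    (hns : ¬ IsSquare (D * D0)) (B : ℕ) :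
    ∃ l : ℕ, B < l ∧ l.Prime ∧ J(D | l) = 1 ∧ J(D0 | l) = -1 := by
  set B' := B + D.natAbs + D0.natAbs + 2 with hB'
  obtain ⟨u, hu, hup, huj⟩ := quad_exists_jac_neg D0 h0 B'
  have hDu := jacobiSym.eq_one_or_neg_one (quad_gcd_one hD hup (by omega))
  rcases hDu with h | h
  · exact ⟨u, by omega, hup, h, huj⟩
  obtain ⟨w, hw, hwp, hwj⟩ := quad_exists_jac_neg (D * D0) hns B'
  rw [jacobiSym.mul_left] at hwj
  have hDw := jacobiSym.eq_one_or_neg_one (quad_gcd_one hD hwp (by omega))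
  rcases hDw with h' | h'
  · rw [h', one_mul] at hwj
    exact ⟨w, by omega, hwp, h', hwj⟩
  have hD0w : J(D0 | w) = 1 := by
    rw [h'] at hwj; linarith
  have : NeZero u := ⟨hup.ne_zero⟩
  have : NeZero w := ⟨hwp.ne_zero⟩
  have hU1 : J(D | u * w) = 1 := by rw [jacobiSym.mul_right, h, h']; norm_num
  have hU2 : J(D0 | u * w) = -1 := by rw [jacobiSym.mul_right, huj, hD0w]; norm_num
  have huodd : Odd u := hup.odd_of_ne_two (by omega)
  have hwodd : Odd w := hwp.odd_of_ne_two (by omega)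
  have hodd : Odd (u * w) := huodd.mul hwodd
  have hcop : (u * w).Coprime (4 * D.natAbs * D0.natAbs) := by
    have aux : ∀ x : ℕ, x.Prime → B' < x → x.Coprime (4 * D.natAbs * D0.natAbs) := by
      intro x hx hxB
      have c1 : x.Coprime 4 := by
        have : x.Coprime 2 := (Nat.coprime_primes hx Nat.prime_two).2 (by omega)
        simpa using this.pow_right 2
      have c2 : x.Coprime D.natAbs := by
        rw [hx.coprime_iff_not_dvd]
        intro hd
        exact absurd (Nat.le_of_dvd (Int.natAbs_pos.2 hD) hd) (by omega)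
      have c3 : x.Coprime D0.natAbs := by
        rw [hx.coprime_iff_not_dvd]
        intro hd
        exact absurd (Nat.le_of_dvd (Int.natAbs_pos.2 hD0) hd) (by omega)
      exact (c1.mul_right c2).mul_right c3
    exact (aux u hup hu).mul_left (aux w hwp hw)
  have hD' := Int.natAbs_pos.2 hD
  have hD0' := Int.natAbs_pos.2 hD0
  obtain ⟨l, hl, hlp, hlm⟩ := Nat.forall_exists_prime_gt_and_modEq (B + 2) (q := 4 * D.natAbs * D0.natAbs)
    (a := u * w) (by positivity) hcop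
  have hlodd : Odd l := hlp.odd_of_ne_two (by omega)
  refine ⟨l, by omega, hlp, ?_, ?_⟩
  · rw [jacobiSym.mod_right _ hlodd, ← hU1, jacobiSym.mod_right _ hodd]
    have : l % (4 * D.natAbs) = (u * w) % (4 * D.natAbs) := hlm.of_mul_right _
    rw [this]
  · rw [jacobiSym.mod_right _ hlodd, ← hU2, jacobiSym.mod_right _ hodd]
    have h4 : 4 * D.natAbs * D0.natAbs = D.natAbs * (4 * D0.natAbs) := by ring
    rw [h4] at hlm
    have : l % (4 * D0.natAbs) = (u * w) % (4 * D0.natAbs) := hlm.of_mul_left _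
    rw [this]

theorem quad_descent {l : ℕ} (hl : l.Prime) {D0 m : ℤ} (hJ : J(D0 | l) = -1) (hl2 : l ≠ 2)
    (h1 : (l : ℤ) ∣ m) (h2 : ¬ (l : ℤ) ^ 2 ∣ m) :
    ∀ (N : ℕ) (X Y Z : ℤ), Z.natAbs ≤ N → 4 * m * Z ^ 2 = X ^ 2 - D0 * Y ^ 2 → Z = 0 := by
  have : Fact l.Prime := ⟨hl⟩
  obtain ⟨m', rfl⟩ := h1
  have hlp : Prime (l : ℤ) := Nat.prime_iff_prime_int.1 hl
  have hl0 : (l : ℤ) ≠ 0 := by exact_mod_cast hl.ne_zero
  have hm' : ¬ (l : ℤ) ∣ m' := by
    rintro ⟨t, rfl⟩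
    exact h2 ⟨t, by ring⟩
  have hl4 : ¬ (l : ℤ) ∣ 4 := by
    intro h
    have h' : l ∣ 4 := by exact_mod_cast h
    have h'' : l ∣ 2 ^ 2 := by simpa using h'
    have := (Nat.prime_dvd_prime_iff_eq hl Nat.prime_two).1 (hl.dvd_of_dvd_pow h'')
    exact hl2 this
  intro N
  induction N with
  | zero =>
    intro X Y Z hZ _
    exact Int.natAbs_eq_zero.1 (Nat.le_zero.1 hZ)
  | succ N ih =>
    intro X Y Z hZ hXY
    by_contra hZ0
    obtain ⟨⟨x, rfl⟩, ⟨y, rfl⟩⟩ := jacobiSym.prime_dvd_of_eq_neg_one hJ (x := X) (y := Y)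
      ⟨4 * m' * Z ^ 2, by rw [← hXY]; ring⟩
    have h3 : 4 * m' * Z ^ 2 = (l : ℤ) * (x ^ 2 - D0 * y ^ 2) := by
      have : (l : ℤ) * (4 * m' * Z ^ 2) = (l : ℤ) * ((l : ℤ) * (x ^ 2 - D0 * y ^ 2)) := by
        linear_combination hXY
      exact mul_left_cancel₀ hl0 this
    have h4 : (l : ℤ) ∣ Z := by
      have hd : (l : ℤ) ∣ 4 * m' * Z ^ 2 := ⟨_, h3⟩
      rcases hlp.dvd_or_dvd hd with h | h
      · rcases hlp.dvd_or_dvd h with h | h
        · exact absurd h hl4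
        · exact absurd h hm'
      · exact hlp.dvd_of_dvd_pow h
    obtain ⟨z, rfl⟩ := h4
    have hz0 : z ≠ 0 := by
      rintro rfl
      exact hZ0 (mul_zero _)
    have h5 : 4 * ((l : ℤ) * m') * z ^ 2 = x ^ 2 - D0 * y ^ 2 := by
      have : (l : ℤ) * (4 * ((l : ℤ) * m') * z ^ 2) = (l : ℤ) * (x ^ 2 - D0 * y ^ 2) := by
        linear_combination h3
      exact mul_left_cancel₀ hl0 this
    have hlt : z.natAbs ≤ N := by
      rw [Int.natAbs_mul, Int.natAbs_natCast] at hZ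
      have hzp := Int.natAbs_pos.2 hz0
      have hl2' := hl.two_le
      nlinarith
    exact hz0 (ih x y z hlt h5)

theorem exists_not_norm {t n a : ℤ} {p : ℕ} (hp : p.Prime) (hp2 : p ≠ 2) (hD : t ^ 2 - 4 * n < 0)
    (hD0 : a ^ 2 - 4 * (p : ℤ) < 0) (hns : ¬ IsSquare ((t ^ 2 - 4 * n) * (a ^ 2 - 4 * (p : ℤ)))) :
    ∃ k : ℤ, ¬ (p : ℤ) ∣ (k ^ 2 + t * k + n) ∧ 0 < k ^ 2 + t * k + n ∧
      ∀ x y : ℚ, ((k ^ 2 + t * k + n : ℤ) : ℚ) ≠ x ^ 2 + a * x * y + p * y ^ 2 := by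
  obtain ⟨l, hlB, hlp, hl1, hl2⟩ := quad_exists_ell (t ^ 2 - 4 * n) (a ^ 2 - 4 * (p : ℤ)) hD.ne hD0.ne
    (by
      rintro ⟨r, hr⟩
      nlinarith [mul_self_nonneg r]) hns (p + 2 + (t ^ 2 - 4 * n).natAbs)
  have : Fact l.Prime := ⟨hlp⟩
  have hlpr : Prime (l : ℤ) := Nat.prime_iff_prime_int.1 hlp
  have hl0 : (l : ℤ) ≠ 0 := by exact_mod_cast hlp.ne_zero
  have hlne2 : l ≠ 2 := by omega
  have hlD : ¬ (l : ℤ) ∣ (t ^ 2 - 4 * n) := by
    intro h
    have := Int.natAbs_dvd_natAbs.2 h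
    rw [Int.natAbs_natCast] at this
    exact absurd (Nat.le_of_dvd (Int.natAbs_pos.2 hD.ne) this) (by omega)
  have hlodd : ¬ (l : ℤ) ∣ 2 := by
    intro h
    have h' : l ∣ 2 := by exact_mod_cast h
    exact hlne2 ((Nat.prime_dvd_prime_iff_eq hlp Nat.prime_two).1 h')
  -- a root modulo l
  obtain ⟨k0, hk0⟩ : ∃ k0 : ℤ, (l : ℤ) ∣ k0 ^ 2 + t * k0 + n := by
    obtain ⟨r, hr⟩ := ZMod.isSquare_of_jacobiSym_eq_one hl1
    have h2 : (2 : ZMod l) ≠ 0 := by
      intro h
      apply hlodd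
      rw [← ZMod.intCast_zmod_eq_zero_iff_dvd]
      exact_mod_cast h
    set x : ZMod l := (r - t) / 2 with hx
    refine ⟨(x.val : ℤ), ?_⟩
    rw [← ZMod.intCast_zmod_eq_zero_iff_dvd]
    push_cast
    rw [ZMod.natCast_zmod_val]
    push_cast at hr
    have h2x : 2 * x = r - t := by rw [hx]; field_simp
    have h4 : (4 : ZMod l) * (x ^ 2 + t * x + n) = 0 := by
      linear_combination (2 * x + t + r) * h2x + (-1 : ZMod l) * hr
    have h4' : (4 : ZMod l) ≠ 0 := by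
      have : (4 : ZMod l) = 2 * 2 := by norm_num
      rw [this]; exact mul_ne_zero h2 h2
    exact (mul_eq_zero.1 h4).resolve_left h4'
  obtain ⟨k1, hk1, hk1'⟩ : ∃ k1 : ℤ, (l : ℤ) ∣ k1 ^ 2 + t * k1 + n ∧ ¬ (l : ℤ) ^ 2 ∣ k1 ^ 2 + t * k1 + n := by
    by_cases h : (l : ℤ) ^ 2 ∣ k0 ^ 2 + t * k0 + n
    · refine ⟨k0 + l, ?_, ?_⟩
      · have : (k0 + l) ^ 2 + t * (k0 + l) + n = (k0 ^ 2 + t * k0 + n) + l * (2 * k0 + t + l) := by ring
        rw [this]
        exact dvd_add hk0 ⟨_, rfl⟩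
      · intro h'
        have h3 : (l : ℤ) ^ 2 ∣ l * (2 * k0 + t) := by
          have : (l : ℤ) * (2 * k0 + t) = ((k0 + l) ^ 2 + t * (k0 + l) + n) - (k0 ^ 2 + t * k0 + n)
            - (l : ℤ) ^ 2 * 1 := by ring
          rw [this]
          exact dvd_sub (dvd_sub h' h) ⟨1, rfl⟩
        have h4 : (l : ℤ) ∣ 2 * k0 + t := by
          rw [pow_two] at h3
          exact (mul_dvd_mul_iff_left hl0).1 h3
        apply hlD
        have : t ^ 2 - 4 * n = (2 * k0 + t) * (2 * k0 + t) - 4 * (k0 ^ 2 + t * k0 + n) := by ring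
        rw [this]
        exact dvd_sub (h4.mul_left _) (hk0.mul_left _)
    · exact ⟨k0, hk0, h⟩
  obtain ⟨c, hc⟩ : ∃ c : ℤ, ¬ (p : ℤ) ∣ c ^ 2 + t * c + n := by
    by_contra hcon
    push Not at hcon
    have h0 := hcon 0
    have h1 := hcon 1
    have h2 := hcon 2
    have h3 : (p : ℤ) ∣ 2 := by
      have : (2 : ℤ) = (2 ^ 2 + t * 2 + n) - (1 ^ 2 + t * 1 + n) - (1 ^ 2 + t * 1 + n) + (0 ^ 2 + t * 0 + n) := by
        ring
      rw [this]
      exact dvd_add (dvd_sub (dvd_sub h2 h1) h1) h0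
    have h' : p ∣ 2 := by exact_mod_cast h3
    exact hp2 ((Nat.prime_dvd_prime_iff_eq hp Nat.prime_two).1 h')
  have hcop : IsCoprime ((l : ℤ) ^ 2) (p : ℤ) := by
    apply IsCoprime.pow_left
    rw [Nat.isCoprime_iff_coprime]
    exact (Nat.coprime_primes hlp hp).2 (by omega)
  obtain ⟨x, y, hxy⟩ := hcop
  set k := k1 * (y * p) + c * (x * (l : ℤ) ^ 2) with hk
  have hkl : (l : ℤ) ^ 2 ∣ (k ^ 2 + t * k + n) - (k1 ^ 2 + t * k1 + n) := by
    refine ⟨(c * x - k1 * x) * (k + k1 + t), ?_⟩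
    have h1 : k - k1 = (l : ℤ) ^ 2 * (c * x - k1 * x) := by
      rw [hk]; linear_combination k1 * hxy
    linear_combination (k + k1 + t) * h1
  have hkp : (p : ℤ) ∣ (k ^ 2 + t * k + n) - (c ^ 2 + t * c + n) := by
    refine ⟨(k1 * y - c * y) * (k + c + t), ?_⟩
    have h1 : k - c = (p : ℤ) * (k1 * y - c * y) := by
      rw [hk]; linear_combination c * hxy
    linear_combination (k + c + t) * h1
  have hm1 : (l : ℤ) ∣ k ^ 2 + t * k + n := by
    have h := dvd_trans (dvd_pow_self (l : ℤ) two_ne_zero) hkl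
    have := dvd_add h hk1
    rwa [sub_add_cancel] at this
  have hm2 : ¬ (l : ℤ) ^ 2 ∣ k ^ 2 + t * k + n := by
    intro h
    apply hk1'
    have := dvd_sub h hkl
    rwa [sub_sub_cancel] at this
  refine ⟨k, ?_, ?_, ?_⟩
  · intro h
    apply hc
    have := dvd_sub h hkp
    rwa [sub_sub_cancel] at this
  · nlinarith [sq_nonneg (2 * k + t)]
  · intro x' y' hxy'
    have hdx : (x'.den : ℚ) ≠ 0 := by exact_mod_cast x'.den_ne_zero
    have hdy : (y'.den : ℚ) ≠ 0 := by exact_mod_cast y'.den_ne_zero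
    have hX : x' * x'.den = x'.num := Rat.mul_den_eq_num x'
    have hY : y' * y'.den = y'.num := Rat.mul_den_eq_num y'
    have key := quad_descent hlp hl2 hlne2 hm1 hm2 _
      (2 * (x'.num * y'.den) + a * (y'.num * x'.den)) (y'.num * x'.den) ((x'.den : ℤ) * y'.den) le_rfl
      (by
        have : ((4 * (k ^ 2 + t * k + n) * ((x'.den : ℤ) * y'.den) ^ 2 : ℤ) : ℚ) =
          (((2 * (x'.num * y'.den) + a * (y'.num * x'.den)) ^ 2 -
            (a ^ 2 - 4 * (p : ℤ)) * (y'.num * x'.den) ^ 2 : ℤ) : ℚ) := by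
          push_cast
          push_cast at hxy'
          rw [hxy', ← hX, ← hY]
          ring
        exact_mod_cast this)
    rcases mul_eq_zero.1 key with h | h
    · exact x'.den_ne_zero (by exact_mod_cast h)
    · exact y'.den_ne_zero (by exact_mod_cast h)

end Pool.Agent.ZPOrd
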