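import Mathlib
import Pool.Agent.ZPOrd.Base

/-!
The modular polynomials with their product formula, and their relation to the coefficients of `HP`.
-/

open UpperHalfPlane hiding I
open ModularForm MatrixGroups

namespace Pool.Agent.ZPOrd

open Pool.Agent.Lib.ModularZP

/-- the modular polynomial together with the relation to the level one forms `HF` -/
theorem exists_modPoly_HF (N : ℕ) [NeZero N] : ∃ (c : ℂ) (Φ : Polynomial (Polynomial ℂ)), c ∈ AI ∧ c ≠ 0 ∧
    (∀ i k, (Φ.coeff i).coeff k ∈ AI) ∧ (∀ τ : ℍ, Φ.map (Polynomial.evalRingHom (jInv τ)) =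
      ∏ q : QN N, (Polynomial.X - Polynomial.C (jInv (toGL (rep q) • τ)))) ∧
    (∀ i, (Φ.coeff i).natDegree ≤ sg N) ∧ (Φ.coeff (sg N) = 1) ∧
    ∀ i τ, ((HP N).coeff i).1 τ = c * (ModularForm.discriminant τ ^ sg N * (Φ.coeff i).eval (jInv τ)) := by
  obtain ⟨c, v, hc, hv, hcv, hD⟩ := exists_unit N
  have hex : ∀ i : ℕ, ∃ p : Polynomial ℂ, (∀ k, p.coeff k ∈ AI) ∧ p.natDegree ≤ sg N ∧
      ∀ τ, HF (N := N) i τ = ModularForm.discriminant τ ^ (sg N) * p.eval (jInv τ) := by
    intro i
    obtain ⟨p, h1, h2, h3, _⟩ := struct AI (sg N) _ rfl (HF (N := N) i) (HF_coeffs i)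
    exact ⟨p, h1, h2, h3⟩
  choose p hp hpd hpe using hex
  have hprod : ∀ τ : ℍ, (HP N).map (ev N τ) = Polynomial.C ((DP N).1 τ) *
      ∏ q : QN N, (Polynomial.X - Polynomial.C (jInv (toGL (rep q) • τ))) := by
    intro τ
    rw [HP_map, DP_apply, map_prod, ← Finset.prod_mul_distrib]
    refine Finset.prod_congr rfl fun q _ => ?_
    rw [mul_sub, ← map_mul]
    congr 2
    unfold Lib.ModularZP.cmp E43
    exact (delta_pow_mul _).symm
  have hcoef : ∀ (τ : ℍ) (i : ℕ), (∏ q : QN N, (Polynomial.X - Polynomial.C (jInv (toGL (rep q) • τ)))).coeff i =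
      v * (p i).eval (jInv τ) := by
    intro τ i
    have h1 := hpe i τ
    rw [HF_apply, hprod, Polynomial.coeff_C_mul, hD] at h1
    have hΔ : ModularForm.discriminant τ ^ (sg N) ≠ 0 := pow_ne_zero _ (discriminant_ne_zero τ)
    have h2 : c * (∏ q : QN N, (Polynomial.X - Polynomial.C (jInv (toGL (rep q) • τ)))).coeff i = (p i).eval (jInv τ) := by
      apply mul_left_cancel₀ hΔ
      rw [← h1]; ring
    rw [← h2, ← mul_assoc, mul_comm v c, hcv, one_mul]
  have hc0 : c ≠ 0 := fun h => by rw [h, zero_mul] at hcv; exact zero_ne_one hcv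
  set T : Polynomial (Polynomial ℂ) := ∑ k ∈ Finset.range (sg N), Polynomial.C (Polynomial.C v * p k) * Polynomial.X ^ k with hT
  have hTcoef : ∀ i, T.coeff i = if i < sg N then Polynomial.C v * p i else 0 := by
    intro i
    rw [hT, Polynomial.finsetSum_coeff]
    simp only [Polynomial.coeff_C_mul, Polynomial.coeff_X_pow]
    simp only [mul_ite, mul_one, mul_zero]
    rw [Finset.sum_ite_eq (Finset.range (sg N)) i]
    simp only [Finset.mem_range]
  have hΦ : ∀ i, (Polynomial.X ^ sg N + T).coeff i = if i < sg N then Polynomial.C v * p i else if i = sg N then 1 else 0 := by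
    intro i
    rw [Polynomial.coeff_add, Polynomial.coeff_X_pow, hTcoef]
    rcases lt_trichotomy i (sg N) with h | h | h
    · simp only [h.ne, h, if_true, if_false, zero_add]
    · simp only [h, lt_irrefl, if_true, if_false, add_zero]
    · simp only [h.ne', not_lt.mpr h.le, if_false, add_zero]
  have hmap : ∀ τ : ℍ, (Polynomial.X ^ sg N + T).map (Polynomial.evalRingHom (jInv τ)) =
      ∏ q : QN N, (Polynomial.X - Polynomial.C (jInv (toGL (rep q) • τ))) := by
    intro τ
    have hmon : (∏ q : QN N, (Polynomial.X - Polynomial.C (jInv (toGL (rep q) • τ)))).Monic :=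
      Polynomial.monic_prod_of_monic _ _ fun q _ => Polynomial.monic_X_sub_C _
    have hdeg : (∏ q : QN N, (Polynomial.X - Polynomial.C (jInv (toGL (rep q) • τ)))).natDegree = sg N := by
      rw [Polynomial.natDegree_prod_of_monic _ _ fun q _ => Polynomial.monic_X_sub_C _]
      simp only [Polynomial.natDegree_X_sub_C]
      rw [Finset.sum_const, smul_eq_mul, mul_one, Finset.card_univ]
      rfl
    ext i
    rw [Polynomial.coeff_map, hΦ]
    rcases lt_trichotomy i (sg N) with h | h | h
    · rw [if_pos h, hcoef]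
      simp
    · rw [if_neg (by omega), if_pos h, map_one, h]
      have := hmon.coeff_natDegree
      rw [hdeg] at this
      exact this.symm
    · rw [if_neg (by omega), if_neg (by omega), map_zero]
      exact (Polynomial.coeff_eq_zero_of_natDegree_lt (by rw [hdeg]; exact h)).symm
  refine ⟨c, Polynomial.X ^ sg N + T, hc, hc0, ?_, hmap, ?_, ?_, ?_⟩
  · intro i k
    rw [hΦ]
    split_ifs
    · rw [Polynomial.coeff_C_mul]
      exact mul_mem hv (hp i k)
    · rw [Polynomial.coeff_one]
      split_ifs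
      · exact one_mem _
      · exact zero_mem _
    · rw [Polynomial.coeff_zero]
      exact zero_mem _
  · intro i
    rw [hΦ]
    split_ifs
    · exact (Polynomial.natDegree_C_mul_le _ _).trans (hpd i)
    · simp
    · simp
  · rw [hΦ, if_neg (lt_irrefl _), if_pos rfl]
  · intro i τ
    have h1 : ((HP N).coeff i).1 τ = ((HP N).map (ev N τ)).coeff i := by
      rw [Polynomial.coeff_map]; rfl
    rw [h1, hprod, Polynomial.coeff_C_mul, hD, ← hmap τ, Polynomial.coeff_map]
    simp only [Polynomial.coe_evalRingHom]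
    ring

theorem exists_modPoly_prod (N : ℕ) [NeZero N] : ∃ Φ : Polynomial (Polynomial ℂ),
    (∀ i k, (Φ.coeff i).coeff k ∈ AI) ∧ ∀ τ : ℍ, Φ.map (Polynomial.evalRingHom (jInv τ)) =
      ∏ q : QN N, (Polynomial.X - Polynomial.C (jInv (toGL (rep q) • τ))) := by
  obtain ⟨c, Φ, _, _, h1, h2, _⟩ := exists_modPoly_HF N
  exact ⟨Φ, h1, h2⟩

end Pool.Agent.ZPOrd
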