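import Mathlib
import Pool.Agent.ZPOrd.ModProd
import Pool.Agent.Lib.ModularZP.Close
import Pool.Agent.Lib.ModularZP.Pattern

/-!
Isogenies of congruent points.
-/

open UpperHalfPlane hiding I
open MatrixGroups

namespace Pool.Agent.ZPOrd

open Pool.Agent.Lib.ModularZP

/-- the value of the modular polynomial -/
lemma modPoly_eval {N : ℕ} [NeZero N] {Φ : Polynomial (Polynomial ℂ)}
    (hΦ : ∀ τ : ℍ, Φ.map (Polynomial.evalRingHom (jInv τ)) =
      ∏ q : QN N, (Polynomial.X - Polynomial.C (jInv (toGL (rep q) • τ)))) (x : ℂ) (τ : ℍ) :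
    (Φ.map (Polynomial.evalRingHom (jInv τ))).eval x = ∏ q : QN N, (x - jInv (toGL (rep q) • τ)) := by
  rw [hΦ, Polynomial.eval_prod]
  simp

lemma exists_rep_eq {N : ℕ} [NeZero N] (M : M2) (hM : M.det = N) : ∃ (γ : SL(2, ℤ)),
    M = γ.1 * (rep (Quotient.mk'' (toMN M hM) : QN N)).1 := by
  have h1 := rep_mk (Quotient.mk'' (toMN M hM) : QN N)
  have h2 := Quotient.exact h1.symm
  change toMN M hM ∈ MulAction.orbit _ (rep (Quotient.mk'' (toMN M hM) : QN N)) at h2
  obtain ⟨γ, hγ⟩ := h2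
  refine ⟨γ, ?_⟩
  have h3 := congrArg Subtype.val hγ
  exact h3.symm

lemma jInv_rep {N : ℕ} [NeZero N] (M : M2) (hM : M.det = N) (τ : ℍ) :
    jInv (toGL (rep (Quotient.mk'' (toMN M hM) : QN N)) • τ) = jInv (gl M • τ) := by
  obtain ⟨γ, hγ⟩ := exists_rep_eq M hM
  have hdet : (rep (Quotient.mk'' (toMN M hM) : QN N)).1.det ≠ 0 := by
    rw [(rep (Quotient.mk'' (toMN M hM) : QN N)).2]
    exact_mod_cast NeZero.ne N
  conv_rhs => rw [hγ]
  rw [jInv_gl_sl_mul γ hdet, gl_toGL]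

/-- images of integral points are integral -/
lemma jInv_mem {V : ValuationSubring ℂ} {M : M2} (hM : 0 < M.det) {τ : ℍ} (h : jInv τ ∈ V) :
    jInv (gl M • τ) ∈ V := by
  obtain ⟨N, hN⟩ := Int.eq_ofNat_of_zero_le hM.le
  have : NeZero N := ⟨by rintro rfl; rw [hN] at hM; simp at hM⟩
  have h1 := jInv_mem_toGL V (toMN M hN) τ h
  rwa [toGL_toMN] at h1

theorem transfer {V : ValuationSubring ℂ} {N : ℕ} (hN : 0 < N) {τ τ₀ : ℍ} (h : jInv τ ∈ V)
    (hc : V.valuation (jInv τ - jInv τ₀) < 1) {M : M2} (hM : M.det = N) :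
    ∃ C : M2, C.det = N ∧ V.valuation (jInv (gl C • τ₀) - jInv (gl M • τ)) < 1 := by
  have : NeZero N := ⟨hN.ne'⟩
  obtain ⟨Φ, hΦ, hprod⟩ := exists_modPoly_prod N
  set x := jInv (gl M • τ) with hx
  have hxV : x ∈ V := jInv_mem (by rw [hM]; exact_mod_cast hN) h
  have h0V : jInv τ₀ ∈ V := by
    have := sub_mem h ((V.valuation_le_one_iff _).mp hc.le)
    rwa [sub_sub_cancel] at this
  have h1 : (Φ.map (Polynomial.evalRingHom (jInv τ))).eval x = 0 := by
    rw [modPoly_eval hprod, Finset.prod_eq_zero (Finset.mem_univ (Quotient.mk'' (toMN M hM) : QN N))]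
    rw [jInv_rep M hM τ, hx, sub_self]
  have h2 : V.valuation ((Φ.map (Polynomial.evalRingHom (jInv τ₀))).eval x - (Φ.map (Polynomial.evalRingHom (jInv τ))).eval x) < 1 := by
    rw [Polynomial.eval_map, Polynomial.eval_map, Polynomial.eval₂_eq_sum_range, Polynomial.eval₂_eq_sum_range,
      ← Finset.sum_sub_distrib]
    refine V.valuation.map_sum_lt one_ne_zero fun i _ => ?_
    rw [← sub_mul, map_mul]
    refine mul_lt_one_of_lt_of_le ?_ ((V.valuation_le_one_iff _).mpr (pow_mem hxV _))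
    simp only [Polynomial.coe_evalRingHom]
    rw [Polynomial.eval_eq_sum_range, Polynomial.eval_eq_sum_range, ← Finset.sum_sub_distrib]
    refine V.valuation.map_sum_lt one_ne_zero fun k _ => ?_
    rw [← mul_sub, map_mul]
    have h3 : V.valuation (jInv τ₀ ^ k - jInv τ ^ k) < 1 := by
      obtain ⟨u, hu⟩ : ∃ u ∈ V, jInv τ₀ ^ k - jInv τ ^ k = (jInv τ - jInv τ₀) * u := by
        refine ⟨-∑ i ∈ Finset.range k, jInv τ₀ ^ i * jInv τ ^ (k - 1 - i), neg_mem (sum_mem fun i _ =>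
          mul_mem (pow_mem h0V _) (pow_mem h _)), ?_⟩
        rw [← Commute.geom_sum₂_mul (Commute.all _ _)]
        ring
      rw [hu.2, map_mul]
      exact mul_lt_one_of_lt_of_le hc ((V.valuation_le_one_iff _).mpr hu.1)
    exact mul_lt_one_of_nonneg_of_lt_one_right ((V.valuation_le_one_iff _).mpr (AI_le V (hΦ i k))) zero_le h3
  rw [h1, sub_zero, modPoly_eval hprod, map_prod] at h2
  obtain ⟨q, hq⟩ : ∃ q : QN N, V.valuation (x - jInv (toGL (rep q) • τ₀)) < 1 := by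
    by_contra hcon
    push Not at hcon
    exact absurd h2 (not_lt.mpr (Finset.one_le_prod' fun q _ => hcon q))
  refine ⟨(rep q).1, (rep q).2, ?_⟩
  rw [gl_toGL, Valuation.map_sub_swap]
  exact hq

end Pool.Agent.ZPOrd
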