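import Mathlib
import Pool.Agent.ZPOrd.ModProd
import Pool.Agent.Lib.ModularZP.Close
import Pool.Agent.ZP46.Resid

/-!
Kronecker's congruence for the modular polynomial of prime level.
-/

open UpperHalfPlane hiding I
open ModularForm MatrixGroups Function

namespace Pool.Agent.ZPOrd

open Pool.Agent.Lib.ModularZP

section frob

open PowerSeries

lemma zmod_pow_card {p : ℕ} [Fact p.Prime] (a : PowerSeries (ZMod p)) :
    a ^ p = PowerSeries.expand p (Fact.out : p.Prime).ne_zero a := by
  ext n
  rw [PowerSeries.coeff_expand]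
  have h1 : (a ^ p).coeff n = (PowerSeries.trunc (n + 1) (a ^ p)).coeff n := by
    rw [PowerSeries.coeff_trunc, if_pos (Nat.lt_succ_self n)]
  rw [h1, ← PowerSeries.trunc_trunc_pow, PowerSeries.coeff_trunc, if_pos (Nat.lt_succ_self n),
    ← Polynomial.coe_pow, Polynomial.coeff_coe, ← ZMod.expand_card, Polynomial.coeff_expand (Fact.out : p.Prime).pos]
  split_ifs with h
  · rw [PowerSeries.coeff_trunc, if_pos (Nat.lt_succ_of_le (Nat.div_le_self _ _))]
  · rfl

lemma pow_card_map {p : ℕ} [Fact p.Prime] {k : Type*} [Field k] [CharP k p] (s : PowerSeries ℤ) :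
    (PowerSeries.map (Int.castRingHom k) s) ^ p =
      PowerSeries.expand p (Fact.out : p.Prime).ne_zero (PowerSeries.map (Int.castRingHom k) s) := by
  have h : PowerSeries.map (Int.castRingHom k) s =
      PowerSeries.map (ZMod.castHom (dvd_refl p) k) (PowerSeries.map (Int.castRingHom (ZMod p)) s) := by
    ext n
    simp
  rw [h, ← map_pow, zmod_pow_card, PowerSeries.map_expand]

end frob

section rho

variable (N : ℕ) [NeZero N] (V : ValuationSubring ℂ)

/-- reduction of the expansion of width `N` -/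
noncomputable def rho : RN N →+* PowerSeries (IsLocalRing.ResidueField V) where
  toFun f := PowerSeries.mk fun n => IsLocalRing.residue V ⟨(qExpansion (N : ℝ) f.1).coeff n, AI_le V (f.2.coeffs n)⟩
  map_one' := by
    ext n
    rw [PowerSeries.coeff_mk, PowerSeries.coeff_one]
    have h : (qExpansion (N : ℝ) (1 : RN N).1).coeff n = if n = 0 then 1 else 0 := by
      show (qExpansion (N : ℝ) (1 : ℍ → ℂ)).coeff n = _
      rw [UpperHalfPlane.qExpansion_one, PowerSeries.coeff_one]
    split_ifs with h0
    · rw [← map_one (IsLocalRing.residue V)]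
      congr 1
      apply Subtype.ext
      exact h.trans (if_pos h0)
    · rw [← map_zero (IsLocalRing.residue V)]
      congr 1
      apply Subtype.ext
      exact h.trans (if_neg h0)
  map_zero' := by
    ext n
    rw [PowerSeries.coeff_mk, map_zero, ← map_zero (IsLocalRing.residue V)]
    congr 1
    apply Subtype.ext
    show (qExpansion (N : ℝ) (0 : ℍ → ℂ)).coeff n = _
    rw [UpperHalfPlane.qExpansion_zero, map_zero]
    rfl
  map_add' f g := by
    ext n
    rw [map_add, PowerSeries.coeff_mk, PowerSeries.coeff_mk, PowerSeries.coeff_mk, ← map_add]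
    congr 1
    apply Subtype.ext
    show (qExpansion (N : ℝ) (f.1 + g.1)).coeff n = _
    rw [UpperHalfPlane.qExpansion_add (f.2.analyticAt N_posR) (g.2.analyticAt N_posR), map_add]
    rfl
  map_mul' f g := by
    ext n
    rw [PowerSeries.coeff_mul]
    simp only [PowerSeries.coeff_mk]
    simp only [← map_mul]
    rw [← map_sum]
    congr 1
    apply Subtype.ext
    show (qExpansion (N : ℝ) (f.1 * g.1)).coeff n = _
    rw [UpperHalfPlane.qExpansion_mul (f.2.analyticAt N_posR) (g.2.analyticAt N_posR), PowerSeries.coeff_mul]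
    simp

lemma rho_coeff (f : RN N) (n : ℕ) : (rho N V f).coeff n =
    IsLocalRing.residue V ⟨(qExpansion (N : ℝ) f.1).coeff n, AI_le V (f.2.coeffs n)⟩ := by
  unfold rho
  simp only [RingHom.coe_mk, MonoidHom.coe_mk, OneHom.coe_mk, PowerSeries.coeff_mk]

/-- constants -/
lemma const_nice {c : ℂ} (hc : c ∈ AI) : IsNice (N : ℝ) AI (fun _ : ℍ => c) ∧
    ∀ n, (qExpansion (N : ℝ) (fun _ : ℍ => c)).coeff n = if n = 0 then c else 0 := by
  refine isNice_of_hasSum N_posR ?_ mdifferentiable_const ?_
  · intro n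
    split_ifs
    · exact hc
    · exact zero_mem _
  · intro τ
    have h := hasSum_single (f := fun m : ℕ => (if m = 0 then c else 0) • Periodic.qParam (N : ℝ) τ ^ m) 0 ?_
    · simpa using h
    · intro n hn
      simp [hn]

/-- a constant as an element of `RN N` -/
noncomputable def kc (c : ℂ) (hc : c ∈ AI) : RN N := ⟨fun _ => c, (const_nice N hc).1⟩

lemma rho_kc (c : ℂ) (hc : c ∈ AI) : rho N V (kc N c hc) = PowerSeries.C (IsLocalRing.residue V ⟨c, AI_le V hc⟩) := by
  ext n
  rw [rho_coeff, PowerSeries.coeff_C]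
  split_ifs with h
  · congr 1
    apply Subtype.ext
    exact ((const_nice N hc).2 n).trans (if_pos h)
  · rw [← map_zero (IsLocalRing.residue V)]
    congr 1
    apply Subtype.ext
    exact ((const_nice N hc).2 n).trans (if_neg h)

/-- reduction of an integral power series -/
noncomputable def bar (s : PowerSeries ℤ) : PowerSeries (IsLocalRing.ResidueField V) :=
  PowerSeries.map (Int.castRingHom _) s

lemma residue_int (m : ℤ) (h : (m : ℂ) ∈ V) : IsLocalRing.residue V ⟨(m : ℂ), h⟩ = (m : IsLocalRing.ResidueField V) := by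
  rw [← map_intCast (IsLocalRing.residue V) m]
  rfl

/-- the reduction of a form of width one with integral coefficients -/
lemma rho_width {f : ℍ → ℂ} (hf : IsNice 1 AI f) (hfN : IsNice (N : ℝ) AI f) {s : PowerSeries ℤ}
    (hs : qExpansion 1 f = PowerSeries.map (Int.castRingHom ℂ) s) :
    rho N V ⟨f, hfN⟩ = PowerSeries.expand N (NeZero.ne N) (bar V s) := by
  ext n
  rw [rho_coeff, PowerSeries.coeff_expand]
  have h1 := coeff_width hf N N_pos' n
  split_ifs at h1 ⊢ with h
  · unfold bar
    rw [PowerSeries.coeff_map, eq_intCast, ← residue_int V _ (intCast_mem V _)]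
    congr 1
    apply Subtype.ext
    refine h1.trans ?_
    rw [hs, PowerSeries.coeff_map]
    rfl
  · rw [← map_zero (IsLocalRing.residue V)]
    congr 1
    apply Subtype.ext
    exact h1

end rho

section prime

variable {p : ℕ} [Fact p.Prime] [NeZero p] {V : ValuationSubring ℂ}

lemma residue_root_of_unity (hV : V.valuation (p : ℂ) < 1) [CharP (IsLocalRing.ResidueField V) p] {z : ℂ} (hz : z ∈ V) (h : z ^ p = 1) :
    IsLocalRing.residue V ⟨z, hz⟩ = 1 := by
  have h1 : (IsLocalRing.residue V ⟨z, hz⟩) ^ p = 1 := by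
    rw [← map_pow, ← map_one (IsLocalRing.residue V)]
    congr 1
    apply Subtype.ext
    exact h
  have h2 : (IsLocalRing.residue V ⟨z, hz⟩ - 1) ^ p = 0 := by
    rw [sub_pow_char, h1, one_pow, sub_self]
  exact sub_eq_zero.mp (pow_eq_zero_iff (Fact.out : p.Prime).ne_zero |>.mp h2)

lemma ra_cases (q : QN p) : ra q = 1 ∨ ra q = p := (Nat.dvd_prime Fact.out).mp ⟨rd q, (ra_mul_rd q).symm⟩

/-- reduction of `f ∘ B_q` -/
lemma rho_cmp (hV : V.valuation (p : ℂ) < 1) [CharP (IsLocalRing.ResidueField V) p] {f : ℍ → ℂ} (hf : IsNice 1 AI f) {s : PowerSeries ℤ}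
    (hs : qExpansion 1 f = PowerSeries.map (Int.castRingHom ℂ) s) (q : QN p) :
    rho p V ⟨Lib.ModularZP.cmp f q, cmp_nice hf q⟩ = if ra q = 1 then bar V s else bar V s ^ (p ^ 2) := by
  have hp : p.Prime := Fact.out
  have hroot : (Complex.exp (2 * Real.pi * Complex.I * rb q / rd q)) ^ (rd q) = 1 := by
    rw [← Complex.exp_nat_mul, mul_div_cancel₀]
    · have := Complex.exp_int_mul_two_pi_mul_I (rb q)
      rw [← this]
      congr 1
      ring
    · exact_mod_cast (rd_pos q).ne'
  split_ifs with h
  · ext n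
    rw [rho_coeff]
    have h1 := cmp_coeff hf q n
    rw [h, one_pow, if_pos (one_dvd _), Nat.div_one] at h1
    have hrd : rd q = p := by
      have := ra_mul_rd q
      rw [h, one_mul] at this
      exact this
    rw [hrd] at hroot h1
    unfold bar
    rw [PowerSeries.coeff_map, eq_intCast, ← residue_int V _ (intCast_mem V _)]
    have h2 : IsLocalRing.residue V ⟨Complex.exp (2 * Real.pi * Complex.I * rb q / p) ^ n,
        pow_mem (AI_le V (exp_mem_AI (rb q) p hp.pos)) n⟩ = 1 := by
      refine residue_root_of_unity hV _ ?_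
      rw [← pow_mul, mul_comm n p, pow_mul, hroot, one_pow]
    rw [← mul_one (IsLocalRing.residue V ⟨(((s.coeff n : ℤ)) : ℂ), intCast_mem V _⟩), ← h2, ← map_mul]
    congr 1
    apply Subtype.ext
    refine h1.trans ?_
    rw [hs, PowerSeries.coeff_map]
    rfl
  · have hra : ra q = p := (ra_cases q).resolve_left h
    have hrd : rd q = 1 := by
      have := ra_mul_rd q
      rw [hra] at this
      exact Nat.eq_of_mul_eq_mul_left hp.pos (by rw [this, mul_one])
    have e1 : bar V s ^ (p ^ 2) = PowerSeries.expand (p * p) (mul_ne_zero hp.ne_zero hp.ne_zero) (bar V s) := by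
      rw [PowerSeries.expand_mul p hp.ne_zero p hp.ne_zero]
      unfold bar
      rw [← pow_card_map s, map_pow, ← pow_card_map s, ← pow_mul, pow_two]
    rw [e1]
    ext n
    rw [rho_coeff, PowerSeries.coeff_expand]
    have h1 := cmp_coeff hf q n
    rw [hrd, pow_one] at hroot
    rw [hrd, hroot, one_pow, mul_one, hra] at h1
    rw [pow_two] at h1
    split_ifs at h1 ⊢ with h2
    · unfold bar
      rw [PowerSeries.coeff_map, eq_intCast, ← residue_int V _ (intCast_mem V _)]
      congr 1
      apply Subtype.ext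
      refine h1.trans ?_
      rw [hs, PowerSeries.coeff_map]
      rfl
    · rw [← map_zero (IsLocalRing.residue V)]
      congr 1
      apply Subtype.ext
      exact h1

/-- only one class has `a = p` -/
lemma ra_p_unique {q q' : QN p} (h : ra q = p) (h' : ra q' = p) : q = q' := by
  have hp : p.Prime := Fact.out
  have key : ∀ q : QN p, ra q = p → (rep q).1 0 0 = p ∧ (rep q).1 1 1 = 1 ∧ (rep q).1 0 1 = 0 := by
    intro q h
    have h1 : (rep q).1 0 0 = p := by rw [← ra_cast, h]
    have h2 := rep_det q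
    rw [h1] at h2
    have h3 : (rep q).1 1 1 = 1 := by
      have hp0 : (p : ℤ) ≠ 0 := by exact_mod_cast hp.ne_zero
      exact mul_left_cancel₀ hp0 (by rw [h2, mul_one])
    have h4 := (rep_mem q).2.2
    rw [h3, abs_one] at h4
    refine ⟨h1, h3, ?_⟩
    have h5 := h4.2
    rw [Int.abs_lt_one_iff] at h5
    exact h5
  obtain ⟨a1, a2, a3⟩ := key q h
  obtain ⟨b1, b2, b3⟩ := key q' h'
  rw [← rep_mk q, ← rep_mk q']
  congr 1
  apply FixedDetMatrices.ext
  intro i j
  fin_cases i <;> fin_cases j
  · simp only [Fin.zero_eta, Fin.isValue]; rw [a1, b1]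
  · simp only [Fin.zero_eta, Fin.isValue, Fin.mk_one]; rw [a3, b3]
  · simp only [Fin.zero_eta, Fin.isValue, Fin.mk_one]; rw [rep_10, rep_10]
  · simp only [Fin.isValue, Fin.mk_one]; rw [a2, b2]

/-- transcendence of a quotient with a pole -/
lemma quot_transc {k F : Type*} [Field k] [Field F] [Algebra (PowerSeries k) F] [IsFractionRing (PowerSeries k) F]
    {E D : PowerSeries k} (hE : PowerSeries.constantCoeff E = 1) (hD : PowerSeries.constantCoeff D = 0) (hD0 : D ≠ 0)
    (r : Polynomial k)
    (hr : r.eval₂ ((algebraMap (PowerSeries k) F).comp PowerSeries.C) (algebraMap _ F E / algebraMap _ F D) = 0) :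
    r = 0 := by
  by_contra hr0
  set m := r.natDegree with hm
  have hDF : algebraMap (PowerSeries k) F D ≠ 0 := by
    intro h
    exact hD0 ((IsFractionRing.injective (PowerSeries k) F) (by rw [h, map_zero]))
  have h1 : algebraMap (PowerSeries k) F (∑ i ∈ Finset.range (m + 1), PowerSeries.C (r.coeff i) * E ^ i * D ^ (m - i)) = 0 := by
    rw [map_sum]
    have h2 : algebraMap (PowerSeries k) F D ^ m *
        r.eval₂ ((algebraMap (PowerSeries k) F).comp PowerSeries.C) (algebraMap _ F E / algebraMap _ F D) = 0 := by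
      rw [hr, mul_zero]
    rw [Polynomial.eval₂_eq_sum_range, Finset.mul_sum] at h2
    rw [← h2]
    refine Finset.sum_congr rfl fun i hi => ?_
    have hi' : i ≤ m := Nat.lt_succ_iff.mp (Finset.mem_range.mp hi)
    rw [map_mul, map_mul, map_pow, map_pow, div_pow, RingHom.comp_apply]
    have h3 : algebraMap (PowerSeries k) F D ^ m = algebraMap (PowerSeries k) F D ^ (m - i) * algebraMap (PowerSeries k) F D ^ i := by
      rw [← pow_add, Nat.sub_add_cancel hi']
    rw [h3]
    field_simp
  have h2 : (∑ i ∈ Finset.range (m + 1), PowerSeries.C (r.coeff i) * E ^ i * D ^ (m - i)) = 0 :=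
    (IsFractionRing.injective (PowerSeries k) F) (by rw [h1, map_zero])
  have h3 := congrArg (PowerSeries.constantCoeff (R := k)) h2
  rw [map_sum, map_zero, Finset.sum_eq_single_of_mem m (Finset.mem_range.mpr (Nat.lt_succ_self m))] at h3
  · rw [map_mul, map_mul, map_pow, map_pow, hE, Nat.sub_self, pow_zero, one_pow, mul_one, mul_one] at h3
    simp only [PowerSeries.constantCoeff_C] at h3
    exact hr0 (Polynomial.leadingCoeff_eq_zero.mp h3)
  · intro i hi hne
    have hi' : i < m := lt_of_le_of_ne (Nat.lt_succ_iff.mp (Finset.mem_range.mp hi)) hne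
    rw [map_mul, map_pow, hD, zero_pow (by omega), mul_zero]

lemma qE43 : qExpansion 1 E43 = PowerSeries.map (Int.castRingHom ℂ) ((1 + 240 * sA) ^ 3) := by
  have h1 := (isNice_E4 AI)
  have h2 : E43 = (E₄ : ℍ → ℂ) * E₄ * E₄ := by
    ext τ; simp only [E43, Pi.mul_apply]; ring
  rw [h2, UpperHalfPlane.qExpansion_mul ((h1.mul one_pos h1).analyticAt one_pos) (h1.analyticAt one_pos),
    UpperHalfPlane.qExpansion_mul (h1.analyticAt one_pos) (h1.analyticAt one_pos), qE4, ← map_mul, ← map_mul]
  congr 1
  ring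

lemma constantCoeff_bar_E : PowerSeries.constantCoeff (bar V ((1 + 240 * sA) ^ 3)) = 1 := by
  have h : PowerSeries.constantCoeff ((1 + 240 * sA) ^ 3 : PowerSeries ℤ) = 1 := by
    have h0 : PowerSeries.constantCoeff sA = 0 := by
      rw [← PowerSeries.coeff_zero_eq_constantCoeff_apply]
      simp [sA]
    rw [map_pow, map_add, map_mul, h0]
    simp
  unfold bar
  rw [← PowerSeries.coeff_zero_eq_constantCoeff_apply, PowerSeries.coeff_map,
    PowerSeries.coeff_zero_eq_constantCoeff_apply, h, map_one]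

lemma sD_coeff : PowerSeries.coeff 0 sD = 0 ∧ PowerSeries.coeff 1 sD = 1 := by
  have h0 := leadAt_delta.1 0 one_pos
  have h1 := leadAt_delta.2
  rw [qDelta, PowerSeries.coeff_map] at h0 h1
  constructor
  · have : ((PowerSeries.coeff 0 sD : ℤ) : ℂ) = 0 := h0
    exact_mod_cast this
  · have : ((PowerSeries.coeff 1 sD : ℤ) : ℂ) = 1 := h1
    exact_mod_cast this

lemma bar_D_coeff : PowerSeries.coeff 0 (bar V sD) = 0 ∧ PowerSeries.coeff 1 (bar V sD) = 1 := by
  unfold bar
  rw [PowerSeries.coeff_map, PowerSeries.coeff_map, sD_coeff.1, sD_coeff.2]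
  simp

lemma bar_D_eq : ∃ u : PowerSeries (IsLocalRing.ResidueField V), bar V sD = PowerSeries.X * u ∧
    PowerSeries.constantCoeff u = 1 := by
  obtain ⟨h0, h1⟩ := bar_D_coeff (V := V)
  have h2 : (PowerSeries.X : PowerSeries (IsLocalRing.ResidueField V)) ∣ bar V sD := by
    rw [PowerSeries.X_dvd_iff, ← PowerSeries.coeff_zero_eq_constantCoeff_apply]
    exact h0
  obtain ⟨u, hu⟩ := h2
  refine ⟨u, hu, ?_⟩
  rw [hu, PowerSeries.coeff_succ_X_mul, PowerSeries.coeff_zero_eq_constantCoeff_apply] at h1
  exact h1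

/-- powers of `Δ` with equal reductions up to a constant -/
lemma pow_bar_D {a b : ℕ} {c : IsLocalRing.ResidueField V} (h : bar V sD ^ a = PowerSeries.C c * bar V sD ^ b) (hc : c ≠ 0) :
    a = b ∧ c = 1 := by
  obtain ⟨u, hu, hu1⟩ := bar_D_eq (V := V)
  have hu0 : u ≠ 0 := fun h => by rw [h, map_zero] at hu1; exact zero_ne_one hu1
  have hC : (PowerSeries.C c : PowerSeries (IsLocalRing.ResidueField V)) ≠ 0 := by
    intro h
    apply hc
    have := congrArg (PowerSeries.constantCoeff (R := IsLocalRing.ResidueField V)) h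
    rwa [PowerSeries.constantCoeff_C, map_zero] at this
  rw [hu, mul_pow, mul_pow] at h
  have hX : (PowerSeries.X : PowerSeries (IsLocalRing.ResidueField V)) ≠ 0 := PowerSeries.X_ne_zero
  rcases lt_trichotomy a b with hab | hab | hab
  · exfalso
    obtain ⟨d, rfl⟩ := Nat.exists_eq_add_of_lt hab
    have h1 : u ^ a = PowerSeries.X * (PowerSeries.X ^ d * (PowerSeries.C c * u ^ (a + d + 1))) := by
      apply mul_left_cancel₀ (pow_ne_zero a hX)
      rw [h]
      ring
    have h2 := congrArg (PowerSeries.constantCoeff (R := IsLocalRing.ResidueField V)) h1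
    rw [map_pow, hu1, one_pow, map_mul, PowerSeries.constantCoeff_X, zero_mul] at h2
    exact one_ne_zero h2
  · refine ⟨hab, ?_⟩
    subst hab
    have h1 : u ^ a = PowerSeries.C c * u ^ a := by
      apply mul_left_cancel₀ (pow_ne_zero a hX)
      rw [h]
      ring
    have h2 := congrArg (PowerSeries.constantCoeff (R := IsLocalRing.ResidueField V)) h1
    rw [map_mul, map_pow, hu1, one_pow, mul_one, PowerSeries.constantCoeff_C] at h2
    exact h2.symm
  · exfalso
    obtain ⟨d, rfl⟩ := Nat.exists_eq_add_of_lt hab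
    have h1 : PowerSeries.C c * u ^ b = PowerSeries.X * (PowerSeries.X ^ d * u ^ (b + d + 1)) := by
      apply mul_left_cancel₀ (pow_ne_zero b hX)
      have h3 : PowerSeries.X ^ b * (PowerSeries.C c * u ^ b) = PowerSeries.C c * (PowerSeries.X ^ b * u ^ b) := by ring
      rw [h3, ← h]
      ring
    have h2 := congrArg (PowerSeries.constantCoeff (R := IsLocalRing.ResidueField V)) h1
    rw [map_mul, map_pow, hu1, one_pow, mul_one, PowerSeries.constantCoeff_C, map_mul, PowerSeries.constantCoeff_X, zero_mul] at h2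
    exact hc h2

open Polynomial in
/-- the Kronecker polynomial -/
noncomputable def Kr (R : Type*) [CommRing R] : Polynomial (Polynomial R) := (X - C (X ^ p)) * (X ^ p - C X)

open Polynomial in
lemma Kr_coeff (R : Type*) [CommRing R] (i k : ℕ) : ((Kr (p := p) R).coeff i).coeff k =
    ((((Kr (p := p) ℤ).coeff i).coeff k : ℤ) : R) := by
  have h : Kr (p := p) R = (Kr (p := p) ℤ).map (Polynomial.mapRingHom (Int.castRingHom R)) := by
    unfold Kr
    simp
  rw [h, Polynomial.coeff_map]
  simp

open Polynomial in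
lemma HP_map_rho (hV : V.valuation (p : ℂ) < 1) [CharP (IsLocalRing.ResidueField V) p] :
    (HP p).map (rho p V) = ∏ q : QN p, (C (if ra q = 1 then bar V sD else bar V sD ^ (p ^ 2)) * X -
      C (if ra q = 1 then bar V ((1 + 240 * sA) ^ 3) else bar V ((1 + 240 * sA) ^ 3) ^ (p ^ 2))) := by
  unfold HP
  rw [Polynomial.map_prod]
  refine Finset.prod_congr rfl fun q _ => ?_
  unfold facP
  rw [Polynomial.map_sub, Polynomial.map_mul, Polynomial.map_C, Polynomial.map_C, Polynomial.map_X,
    rho_cmp hV (isNice_delta AI) qDelta q, rho_cmp hV (E43_nice AI) qE43 q]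

end prime

open Polynomial in
theorem kronecker_card (p : ℕ) [Fact p.Prime] [NeZero p] (V : ValuationSubring ℂ) (hV : V.valuation (p : ℂ) < 1) :
    sg p = p + 1 ∧ ∃ Φ : Polynomial (Polynomial ℂ), (∀ i k, (Φ.coeff i).coeff k ∈ AI) ∧
      (∀ τ : ℍ, Φ.map (Polynomial.evalRingHom (jInv τ)) =
        ∏ q : QN p, (Polynomial.X - Polynomial.C (jInv (toGL (rep q) • τ)))) ∧
      ∀ i k, V.valuation (((Φ - (X - C (X ^ p)) * (X ^ p - C X)).coeff i).coeff k) < 1 := by
  classical
  have hp : p.Prime := Fact.out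
  obtain ⟨c, Φ, hc, hc0, hΦ, hprod, hdeg, htop, hHP⟩ := exists_modPoly_HF p
  have hchar : CharP (IsLocalRing.ResidueField V) p := Pool.Agent.ZP46.charP_residue hp hV
  have hchar2 : CharP (PowerSeries (IsLocalRing.ResidueField V)) p :=
    charP_of_injective_ringHom (f := PowerSeries.C) PowerSeries.C_injective p
  have hchar3 : CharP (Polynomial (PowerSeries (IsLocalRing.ResidueField V))) p :=
    charP_of_injective_ringHom (f := Polynomial.C) Polynomial.C_injective p
  set κ := IsLocalRing.ResidueField V with hκ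
  set d := bar V sD with hd
  set e := bar V ((1 + 240 * sA) ^ 3) with he
  obtain ⟨D, hD⟩ : ∃ D, D = d ^ p := ⟨_, rfl⟩
  obtain ⟨E, hE⟩ : ∃ E, E = e ^ p := ⟨_, rfl⟩
  set M := sg p with hM
  set cb : κ := IsLocalRing.residue V ⟨c, AI_le V hc⟩ with hcb
  let Φb : ℕ → Polynomial κ := fun i => ∑ k ∈ Finset.range (M + 1), C (IsLocalRing.residue V ⟨(Φ.coeff i).coeff k, AI_le V (hΦ i k)⟩) * X ^ k
  have hΦb : ∀ i k, (Φb i).coeff k = IsLocalRing.residue V ⟨(Φ.coeff i).coeff k, AI_le V (hΦ i k)⟩ := by
    intro i k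
    simp only [Φb]
    rw [Polynomial.finsetSum_coeff]
    simp only [Polynomial.coeff_C_mul, Polynomial.coeff_X_pow, mul_ite, mul_one, mul_zero]
    rw [Finset.sum_ite_eq (Finset.range (M + 1)) k]
    split_ifs with h
    · rfl
    · rw [← map_zero (IsLocalRing.residue V)]
      congr 1
      apply Subtype.ext
      symm
      refine Polynomial.coeff_eq_zero_of_natDegree_lt (lt_of_le_of_lt (hdeg i) ?_)
      rw [Finset.mem_range] at h
      omega
  have hwD : IsNice (p : ℝ) AI ModularForm.discriminant := (isNice_delta AI).width hp.pos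
  have hwE : IsNice (p : ℝ) AI E43 := (E43_nice AI).width hp.pos
  have hrD : rho p V ⟨ModularForm.discriminant, hwD⟩ = D := by
    rw [rho_width p V (isNice_delta AI) hwD qDelta, hD, hd]
    unfold bar
    rw [pow_card_map]
  have hrE : rho p V ⟨E43, hwE⟩ = E := by
    rw [rho_width p V (E43_nice AI) hwE qE43, hE, he]
    unfold bar
    rw [pow_card_map]
  -- the coefficients of `HP`
  have hcoef : ∀ i, (HP p).coeff i = kc p c hc * ∑ k ∈ Finset.range (M + 1), kc p ((Φ.coeff i).coeff k) (hΦ i k) *
      ⟨E43, hwE⟩ ^ k * ⟨ModularForm.discriminant, hwD⟩ ^ (M - k) := by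
    intro i
    apply Subtype.ext
    funext τ
    rw [hHP i τ]
    have h1 : ∀ f : RN p, f.1 τ = ev p τ f := fun f => rfl
    rw [h1, map_mul, map_sum]
    have h2 : ev p τ (kc p c hc) = c := rfl
    rw [h2]
    congr 1
    rw [Polynomial.eval_eq_sum_range' (Nat.lt_succ_of_le (hdeg i)), Finset.mul_sum]
    refine Finset.sum_congr rfl fun k hk => ?_
    have hk' : k ≤ M := Nat.lt_succ_iff.mp (Finset.mem_range.mp hk)
    rw [map_mul, map_mul, map_pow, map_pow]
    have h3 : ev p τ (kc p ((Φ.coeff i).coeff k) (hΦ i k)) = (Φ.coeff i).coeff k := rfl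
    have h4 : ev p τ ⟨E43, hwE⟩ = ModularForm.discriminant τ * jInv τ := by
      rw [delta_pow_mul]; rfl
    have h5 : ev p τ ⟨ModularForm.discriminant, hwD⟩ = ModularForm.discriminant τ := rfl
    rw [h3, h4, h5]
    have h6 : ModularForm.discriminant τ ^ M = ModularForm.discriminant τ ^ k * ModularForm.discriminant τ ^ (M - k) := by
      rw [← pow_add, Nat.add_sub_cancel' hk']
    rw [h6]
    ring
  have hrho : ∀ i, ((HP p).map (rho p V)).coeff i = PowerSeries.C cb * ∑ k ∈ Finset.range (M + 1),
      PowerSeries.C ((Φb i).coeff k) * E ^ k * D ^ (M - k) := by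
    intro i
    rw [Polynomial.coeff_map, hcoef, map_mul, map_sum, rho_kc]
    congr 1
    refine Finset.sum_congr rfl fun k _ => ?_
    rw [map_mul, map_mul, map_pow, map_pow, hrE, hrD, rho_kc, hΦb]
  -- the number of classes
  set A := Finset.univ.filter fun q : QN p => ra q = 1 with hA
  set B := Finset.univ.filter fun q : QN p => ¬ ra q = 1 with hB
  have hAB : A.card + B.card = M := by
    rw [hA, hB, Finset.card_filter_add_card_filter_not, Finset.card_univ]
    rfl
  have hB1 : B.card ≤ 1 := by
    rw [Finset.card_le_one]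
    intro q hq q' hq'
    rw [hB, Finset.mem_filter] at hq hq'
    exact ra_p_unique ((ra_cases q).resolve_left hq.2) ((ra_cases q').resolve_left hq'.2)
  have hMpos : 0 < M := by
    rw [hM]
    unfold sg
    exact Fintype.card_pos_iff.mpr ⟨Quotient.mk'' ⟨!![1, 0; 0, (p : ℤ)], by simp [Matrix.det_fin_two]⟩⟩
  have hsplit : ∀ (R : Type) [CommRing R] (x y : R), ∏ q : QN p, (if ra q = 1 then x else y) = x ^ A.card * y ^ B.card := by
    intro R _ x y
    rw [Finset.prod_ite, Finset.prod_const, Finset.prod_const]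
  have hmapsplit : (HP p).map (rho p V) = (C d * X - C e) ^ A.card * (C (d ^ (p ^ 2)) * X - C (e ^ (p ^ 2))) ^ B.card := by
    rw [HP_map_rho hV, ← hd, ← he]
    have : ∀ q : QN p, (C (if ra q = 1 then d else d ^ (p ^ 2)) * X - C (if ra q = 1 then e else e ^ (p ^ 2)) : Polynomial (PowerSeries κ)) =
        if ra q = 1 then (C d * X - C e) else (C (d ^ (p ^ 2)) * X - C (e ^ (p ^ 2))) := by
      intro q
      split_ifs <;> rfl
    rw [Finset.prod_congr rfl fun q _ => this q, Finset.prod_ite, Finset.prod_const, Finset.prod_const]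
  have htopc : ((HP p).map (rho p V)).coeff M = d ^ A.card * (d ^ (p ^ 2)) ^ B.card := by
    rw [HP_map_rho hV, ← hd, ← he]
    have h1 : ∀ q ∈ (Finset.univ : Finset (QN p)), (C (if ra q = 1 then d else d ^ (p ^ 2)) * X -
        C (if ra q = 1 then e else e ^ (p ^ 2)) : Polynomial (PowerSeries κ)).natDegree ≤ 1 := by
      intro q _
      refine (Polynomial.natDegree_sub_le _ _).trans (max_le ?_ (by simp))
      exact (Polynomial.natDegree_C_mul_le _ _).trans (by simp)
    have h2 := Polynomial.coeff_prod_of_natDegree_le (Finset.univ : Finset (QN p)) _ 1 h1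
    rw [Finset.card_univ, mul_one] at h2
    rw [hM]
    unfold sg
    rw [h2]
    have h3 : ∀ q : QN p, (C (if ra q = 1 then d else d ^ (p ^ 2)) * X -
        C (if ra q = 1 then e else e ^ (p ^ 2)) : Polynomial (PowerSeries κ)).coeff 1 = if ra q = 1 then d else d ^ (p ^ 2) := by
      intro q
      simp
    rw [Finset.prod_congr rfl fun q _ => h3 q, Finset.prod_ite, Finset.prod_const, Finset.prod_const]
  have hΦM : Φb M = 1 := by
    ext k
    rw [hΦb, Polynomial.coeff_one, ← map_zero (IsLocalRing.residue V), ← map_one (IsLocalRing.residue V), ← apply_ite]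
    congr 1
    apply Subtype.ext
    show (Φ.coeff M).coeff k = _
    rw [htop, Polynomial.coeff_one]
    split_ifs <;> rfl
  have hd0 : d ≠ 0 := by
    intro h
    have := (bar_D_coeff (V := V)).2
    rw [← hd, h, map_zero] at this
    exact zero_ne_one this
  have hpow : d ^ (A.card + p ^ 2 * B.card) = PowerSeries.C cb * d ^ (p * M) := by
    rw [pow_add, pow_mul, ← htopc, hrho, hΦM]
    congr 1
    rw [Finset.sum_eq_single_of_mem 0 (Finset.mem_range.mpr (Nat.succ_pos M))]
    · rw [Polynomial.coeff_one, if_pos rfl, map_one, pow_zero, one_mul, one_mul, Nat.sub_zero, hD, ← pow_mul]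
    · intro k _ hk
      rw [Polynomial.coeff_one, if_neg hk, map_zero, zero_mul, zero_mul]
  have hcb0 : cb ≠ 0 := by
    intro h
    rw [h, map_zero, zero_mul] at hpow
    exact pow_ne_zero _ hd0 hpow
  obtain ⟨hcount, hcb1⟩ := pow_bar_D hpow hcb0
  have hcards : A.card = p ∧ B.card = 1 := by
    have h1 : B.card = 0 ∨ B.card = 1 := by omega
    rcases h1 with h1 | h1
    · exfalso
      rw [h1, mul_zero, add_zero] at hcount
      rw [h1, add_zero] at hAB
      rw [← hAB] at hcount hMpos
      have := hp.two_le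
      nlinarith
    · refine ⟨?_, h1⟩
      rw [h1, mul_one, ← hAB, h1] at hcount
      have h2 := hp.two_le
      obtain ⟨r, hr⟩ := Nat.exists_eq_add_of_le h2
      have h3 : (A.card : ℤ) + (p : ℤ) ^ 2 = p * (A.card + 1) := by exact_mod_cast hcount
      have h4 : ((p : ℤ) - 1) * (A.card - p) = 0 := by linarith
      rcases mul_eq_zero.mp h4 with h5 | h5
      · have : (2 : ℤ) ≤ p := by exact_mod_cast h2
        linarith
      · have : (A.card : ℤ) = p := by linarith
        exact_mod_cast this
  have hMp : M = p + 1 := by rw [← hAB, hcards.1, hcards.2]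
  refine ⟨hMp, Φ, hΦ, hprod, ?_⟩
  -- comparison in the fraction field
  let F := FractionRing (PowerSeries κ)
  set ι : PowerSeries κ →+* F := algebraMap _ F with hι
  have hιinj : Function.Injective ι := IsFractionRing.injective _ _
  have hDF : ι D ≠ 0 := by
    intro h
    exact pow_ne_zero p hd0 (hιinj (by rw [map_zero, ← hD]; exact h))
  set J : F := ι E / ι D with hJ
  have key : ∀ i, Φb i = (Kr (p := p) κ).coeff i := by
    intro i
    rw [← sub_eq_zero]
    refine quot_transc (F := F) (E := E) (D := D) ?_ ?_ (by rw [hD]; exact pow_ne_zero p hd0) _ ?_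
    · rw [hE, map_pow, he, constantCoeff_bar_E, one_pow]
    · rw [hD, map_pow, ← PowerSeries.coeff_zero_eq_constantCoeff_apply, hd, bar_D_coeff.1, zero_pow hp.ne_zero]
    · rw [Polynomial.eval₂_sub, sub_eq_zero]
      apply mul_left_cancel₀ (pow_ne_zero M hDF)
      -- left
      have h1 : ι D ^ M * (Φb i).eval₂ (ι.comp PowerSeries.C) J = ι (((HP p).map (rho p V)).coeff i) := by
        rw [hrho, hcb1, map_one, one_mul, map_sum, Polynomial.eval₂_eq_sum_range' _ (n := M + 1), Finset.mul_sum]
        · refine Finset.sum_congr rfl fun k hk => ?_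
          have hk' : k ≤ M := Nat.lt_succ_iff.mp (Finset.mem_range.mp hk)
          rw [map_mul, map_mul, map_pow, map_pow, hJ, div_pow, RingHom.comp_apply]
          have h3 : ι D ^ M = ι D ^ (M - k) * ι D ^ k := by
            rw [← pow_add, Nat.sub_add_cancel hk']
          have h5 : ι D ^ k * (ι D ^ k)⁻¹ = 1 := mul_inv_cancel₀ (pow_ne_zero _ hDF)
          rw [h3, div_eq_mul_inv]
          linear_combination (ι (PowerSeries.C ((Φb i).coeff k)) * ι E ^ k * ι D ^ (M - k)) * h5
        · rw [Nat.lt_succ_iff, Polynomial.natDegree_le_iff_coeff_eq_zero]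
          intro k hk
          rw [hΦb, ← map_zero (IsLocalRing.residue V)]
          congr 1
          apply Subtype.ext
          exact Polynomial.coeff_eq_zero_of_natDegree_lt (lt_of_le_of_lt (hdeg i) hk)
      rw [h1]
      have h2 : ((HP p).map (rho p V)) = (C D * X ^ p - C E) * (C (D ^ p) * X - C (E ^ p)) := by
        rw [hmapsplit, hcards.1, hcards.2, pow_one, sub_pow_char, mul_pow, ← C_pow, ← C_pow, hD, hE, ← pow_mul, ← pow_mul, ← pow_two]
      have h3 : (((HP p).map (rho p V)).map ι) = C (ι D ^ M) * (Kr (p := p) κ).map (Polynomial.eval₂RingHom (ι.comp PowerSeries.C) J) := by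
        rw [h2, hMp]
        unfold Kr
        simp only [Polynomial.map_mul, Polynomial.map_sub, Polynomial.map_C, Polynomial.map_X, Polynomial.map_pow,
          Polynomial.coe_eval₂RingHom, Polynomial.eval₂_X_pow, Polynomial.eval₂_X, map_pow]
        have h4 : ι E = ι D * J := by
          rw [hJ, mul_comm, div_mul_cancel₀ _ hDF]
        rw [h4]
        simp only [map_mul, mul_pow, map_pow]
        ring
      rw [← Polynomial.coeff_map, h3, Polynomial.coeff_C_mul, Polynomial.coeff_map]
      rfl
  intro i k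
  have h1 : (Φb i).coeff k = ((Kr (p := p) κ).coeff i).coeff k := by rw [key i]
  rw [hΦb, Kr_coeff] at h1
  have hKr : ((X - C (X ^ p)) * (X ^ p - C X) : Polynomial (Polynomial ℂ)) = Kr (p := p) ℂ := rfl
  rw [hKr, Polynomial.coeff_sub, Polynomial.coeff_sub, Kr_coeff ℂ]
  set m := ((Kr (p := p) ℤ).coeff i).coeff k with hm
  rw [← residue_int V m (intCast_mem V _), ← sub_eq_zero, ← map_sub, IsLocalRing.residue_eq_zero_iff] at h1
  exact (V.valuation_lt_one_iff _).mp h1

open Polynomial in
theorem kronecker (p : ℕ) [Fact p.Prime] [NeZero p] (V : ValuationSubring ℂ) (hV : V.valuation (p : ℂ) < 1) :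
    ∃ Φ : Polynomial (Polynomial ℂ), (∀ i k, (Φ.coeff i).coeff k ∈ AI) ∧
      (∀ τ : ℍ, Φ.map (Polynomial.evalRingHom (jInv τ)) =
        ∏ q : QN p, (Polynomial.X - Polynomial.C (jInv (toGL (rep q) • τ)))) ∧
      ∀ i k, V.valuation (((Φ - (X - C (X ^ p)) * (X ^ p - C X)).coeff i).coeff k) < 1 :=
  (kronecker_card p V hV).2

end Pool.Agent.ZPOrd
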