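import Mathlib
import Pool.Agent.ZPOrd.Kron
import Pool.Agent.ZPOrd.Transfer

/-!
Neighbours of points with residue in the prime field.
-/

open UpperHalfPlane hiding I
open MatrixGroups

namespace Pool.Agent.ZPOrd

open Pool.Agent.Lib.ModularZP

/-- the data of an ordinary canonical lift -/
structure OrdLift (p : ℕ) (V : ValuationSubring ℂ) (τ : ℍ) (B : M2) : Prop where
  det : B.det = p
  tr : ¬ (p : ℤ) ∣ B.trace
  fix : gl B • τ = τ
  mem : jInv τ ∈ V
  frob : V.valuation (jInv τ ^ p - jInv τ) < 1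

open Polynomial in
/-- the value of a polynomial with coefficients in the maximal ideal -/
lemma val_eval_lt {V : ValuationSubring ℂ} {Ψ : Polynomial (Polynomial ℂ)}
    (h : ∀ i k, V.valuation ((Ψ.coeff i).coeff k) < 1) {x y : ℂ} (hx : x ∈ V) (hy : y ∈ V) :
    V.valuation ((Ψ.map (Polynomial.evalRingHom y)).eval x) < 1 := by
  rw [Polynomial.eval_map, Polynomial.eval₂_eq_sum_range]
  refine V.valuation.map_sum_lt one_ne_zero fun i _ => ?_
  rw [map_mul]
  refine mul_lt_one_of_lt_of_le ?_ ((V.valuation_le_one_iff _).mpr (pow_mem hx _))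
  simp only [Polynomial.coe_evalRingHom]
  rw [Polynomial.eval_eq_sum_range]
  refine V.valuation.map_sum_lt one_ne_zero fun k _ => ?_
  rw [map_mul]
  exact mul_lt_one_of_lt_of_le (h i k) ((V.valuation_le_one_iff _).mpr (pow_mem hy _))

/-- all `p`-neighbours of a point with residue in `F_p` are congruent to it -/
theorem nbr_congr {p : ℕ} [Fact p.Prime] {V : ValuationSubring ℂ} (hV : V.valuation (p : ℂ) < 1) {τ : ℍ}
    (hτ : jInv τ ∈ V) (hF : V.valuation (jInv τ ^ p - jInv τ) < 1) {M : M2} (hM : M.det = p) :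
    V.valuation (jInv (gl M • τ) - jInv τ) < 1 := by
  have hp : p.Prime := Fact.out
  have : NeZero p := ⟨hp.ne_zero⟩
  obtain ⟨Φ, hΦ, hprod, hK⟩ := kronecker p V hV
  set x := jInv (gl M • τ) with hx
  set y := jInv τ with hy
  have hxV : x ∈ V := jInv_mem (by rw [hM]; exact_mod_cast hp.pos) hτ
  have h1 : (Φ.map (Polynomial.evalRingHom y)).eval x = 0 := by
    rw [modPoly_eval hprod, Finset.prod_eq_zero (Finset.mem_univ (Quotient.mk'' (toMN M hM) : QN p))]
    rw [jInv_rep M hM τ, hx, sub_self]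
  have h2 := val_eval_lt hK hxV hτ
  rw [Polynomial.map_sub, Polynomial.eval_sub, h1, zero_sub, Valuation.map_neg] at h2
  simp only [Polynomial.map_mul, Polynomial.map_sub, Polynomial.map_X, Polynomial.map_C, Polynomial.map_pow,
    Polynomial.coe_evalRingHom, Polynomial.eval_mul, Polynomial.eval_sub, Polynomial.eval_X, Polynomial.eval_C,
    Polynomial.eval_pow] at h2
  have hchar : CharP (IsLocalRing.ResidueField V) p := Pool.Agent.ZP46.charP_residue hp hV
  -- pass to the residue field
  have hres : ∀ z : V, IsLocalRing.residue V z = 0 ↔ V.valuation (z : ℂ) < 1 := by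
    intro z
    rw [IsLocalRing.residue_eq_zero_iff]
    exact V.valuation_lt_one_iff z
  set X : V := ⟨x, hxV⟩ with hX
  set Y : V := ⟨y, hτ⟩ with hY
  have h3 : IsLocalRing.residue V ((X - Y ^ p) * (X ^ p - Y)) = 0 := by
    rw [hres]
    exact h2
  have h4 : IsLocalRing.residue V (Y ^ p - Y) = 0 := by
    rw [hres]
    exact hF
  rw [map_sub, map_pow, sub_eq_zero] at h4
  rw [map_mul, map_sub, map_sub, map_pow, map_pow, h4] at h3
  have h5 : IsLocalRing.residue V X ^ p - IsLocalRing.residue V Y = (IsLocalRing.residue V X - IsLocalRing.residue V Y) ^ p := by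
    rw [sub_pow_char, h4]
  rw [h5, ← pow_succ'] at h3
  have h6 : IsLocalRing.residue V (X - Y) = 0 := by
    rw [map_sub]
    exact pow_eq_zero_iff (Nat.succ_ne_zero p) |>.mp h3
  exact (hres _).mp h6

end Pool.Agent.ZPOrd
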