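import Mathlib
import Pool.Agent.ZPOrd.NbrCongr

/-!
A point close to an ordinary canonical lift has at most one close neighbour.
-/

open UpperHalfPlane hiding I
open MatrixGroups

namespace Pool.Agent.ZPOrd

open Pool.Agent.Lib.ModularZP

lemma nb_adj_fix {B : M2} (hB : 0 < B.det) {τ : ℍ} (h : gl B • τ = τ) : gl B.adjugate • τ = τ := by
  have hadj : 0 < B.adjugate.det := by rw [Matrix.det_adjugate]; simpa using hB
  have h1 : gl (B.adjugate * B) • τ = gl B.adjugate • τ := by
    rw [gl_mul_smul hadj hB, h]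
  rw [← h1]
  have h2 : 0 < (B.adjugate * B).det := by rw [Matrix.det_mul]; exact mul_pos hadj hB
  apply UpperHalfPlane.ext_iff.mpr
  rw [gl_smul_coe h2]
  have h3 : B.adjugate * B = B.det • (1 : M2) := Matrix.adjugate_mul B
  rw [h3]
  have hd : ((B.det : ℤ) : ℂ) ≠ 0 := by exact_mod_cast hB.ne'
  simp [hd]

/-- the classes of a matrix and its adjugate are different -/
lemma nb_adj_ne {p : ℕ} {B : M2} (hB : B.det = p) (htr : ¬ (p : ℤ) ∣ B.trace) (hp : p.Prime) (γ : SL(2, ℤ)) :
    B.adjugate ≠ γ.1 * B := by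
  intro h
  have h1 : B + B.adjugate = B.trace • (1 : M2) := by
    rw [Matrix.adjugate_fin_two, Matrix.trace_fin_two]
    ext i j
    fin_cases i <;> fin_cases j <;> simp
    ring
  rw [h] at h1
  have h2 : (1 + γ.1) * B = B.trace • (1 : M2) := by
    rw [add_mul, one_mul]; exact h1
  have h3 := congrArg Matrix.det h2
  rw [Matrix.det_mul, Matrix.det_smul, Matrix.det_one, hB, Fintype.card_fin, mul_one] at h3
  have h4 : (p : ℤ) ∣ B.trace ^ 2 := ⟨(1 + γ.1).det, by rw [← h3]; ring⟩
  exact htr ((Nat.prime_iff_prime_int.mp hp).dvd_of_dvd_pow h4)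

lemma nb_mem {V : ValuationSubring ℂ} {x y : ℂ} (hy : y ∈ V) (h : V.valuation (x - y) < 1) : x ∈ V := by
  have := add_mem ((V.valuation_le_one_iff _).mp h.le) hy
  rwa [sub_add_cancel] at this

lemma nb_pow_sub {V : ValuationSubring ℂ} {x y : ℂ} (hx : x ∈ V) (hy : y ∈ V) (k : ℕ) :
    V.valuation (x ^ k - y ^ k) ≤ V.valuation (x - y) := by
  have h1 : x ^ k - y ^ k = (x - y) * ∑ i ∈ Finset.range k, x ^ i * y ^ (k - 1 - i) := by
    rw [mul_comm, Commute.geom_sum₂_mul (Commute.all _ _)]
  rw [h1, map_mul]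
  have h2 : (∑ i ∈ Finset.range k, x ^ i * y ^ (k - 1 - i)) ∈ V :=
    sum_mem fun i _ => mul_mem (pow_mem hx _) (pow_mem hy _)
  exact mul_le_of_le_one_right' ((V.valuation_le_one_iff _).mpr h2)

/-- a polynomial with coefficients in the maximal ideal contracts -/
lemma nb_eval_sub {V : ValuationSubring ℂ} {r : Polynomial ℂ} (hr : ∀ k, V.valuation (r.coeff k) < 1) {x y : ℂ}
    (hx : x ∈ V) (hy : y ∈ V) (hxy : x ≠ y) : V.valuation (r.eval x - r.eval y) < V.valuation (x - y) := by
  have h0 : V.valuation (x - y) ≠ 0 := by rw [Ne, map_eq_zero]; exact sub_ne_zero.mpr hxy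
  rw [Polynomial.eval_eq_sum_range, Polynomial.eval_eq_sum_range, ← Finset.sum_sub_distrib]
  refine V.valuation.map_sum_lt h0 fun k _ => ?_
  rw [← mul_sub, map_mul]
  calc V.valuation (r.coeff k) * V.valuation (x ^ k - y ^ k) ≤ V.valuation (r.coeff k) * V.valuation (x - y) :=
        mul_le_mul_right (nb_pow_sub hx hy k) _
    _ < 1 * V.valuation (x - y) := mul_lt_mul_of_pos_right (hr k) (zero_lt_iff.mpr h0)
    _ = _ := one_mul _

lemma nb_close {V : ValuationSubring ℂ} {p : ℕ} {x y : ℂ} (hy : y ∈ V) (h : V.valuation (x - y) < 1)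
    (hF : V.valuation (y ^ p - y) < 1) : V.valuation (x ^ p - x) < 1 := by
  have hx := nb_mem hy h
  have h1 : x ^ p - x = (x ^ p - y ^ p) + ((y ^ p - y) - (x - y)) := by ring
  rw [h1]
  exact V.valuation.map_add_lt ((nb_pow_sub hx hy p).trans_lt h) (V.valuation.map_sub_lt hF h)

/-- the part of the derivative in the maximal ideal -/
lemma nb_coeff_eval {V : ValuationSubring ℂ} {Ψ : Polynomial (Polynomial ℂ)}
    (h : ∀ i k, V.valuation ((Ψ.coeff i).coeff k) < 1) {Y : ℂ} (hY : Y ∈ V) (k : ℕ) :
    V.valuation (((Polynomial.derivative Ψ).eval (Polynomial.C Y)).coeff k) < 1 := by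
  rw [Polynomial.eval_eq_sum_range, Polynomial.finsetSum_coeff]
  refine V.valuation.map_sum_lt one_ne_zero fun i _ => ?_
  rw [← Polynomial.C_pow, Polynomial.coeff_mul_C, Polynomial.coeff_derivative, map_mul]
  refine mul_lt_one_of_lt_of_le ?_ ((V.valuation_le_one_iff _).mpr (pow_mem hY _))
  have h1 : (Ψ.coeff (i + 1) * ((i : Polynomial ℂ) + 1)).coeff k = (Ψ.coeff (i + 1)).coeff k * ((i + 1 : ℕ) : ℂ) := by
    have h2 : ((i : Polynomial ℂ) + 1) = Polynomial.C ((i + 1 : ℕ) : ℂ) := by
      push_cast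
      simp
    rw [h2, Polynomial.coeff_mul_C]
  rw [h1, map_mul]
  exact mul_lt_one_of_lt_of_le (h _ _) ((V.valuation_le_one_iff _).mpr (natCast_mem V _))

open Polynomial in
theorem nbr_unique {p : ℕ} [Fact p.Prime] {V : ValuationSubring ℂ} (hV : V.valuation (p : ℂ) < 1) {τ₀ τ : ℍ}
    {B₀ : M2} (h0 : OrdLift p V τ₀ B₀) (hc : V.valuation (jInv τ - jInv τ₀) < 1) (hne : jInv τ ≠ jInv τ₀)
    {M M' : M2} (hM : M.det = p) (hM' : M'.det = p)
    (h1 : V.valuation (jInv (gl M • τ) - jInv τ₀) ≤ V.valuation (jInv τ - jInv τ₀))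
    (h2 : V.valuation (jInv (gl M' • τ) - jInv τ₀) ≤ V.valuation (jInv τ - jInv τ₀)) :
    ∃ γ : SL(2, ℤ), M' = γ.1 * M := by
  classical
  have hp : p.Prime := Fact.out
  have : NeZero p := ⟨hp.ne_zero⟩
  obtain ⟨hcard, Φ, hΦ, hprod, hK⟩ := kronecker_card p V hV
  set Y := jInv τ₀ with hY
  set y := jInv τ with hy
  have hYV : Y ∈ V := h0.mem
  have hyV : y ∈ V := nb_mem hYV hc
  have hyF : V.valuation (y ^ p - y) < 1 := nb_close hYV hc h0.frob
  set m : QN p := Quotient.mk'' (toMN M hM) with hm
  set m' : QN p := Quotient.mk'' (toMN M' hM') with hm'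
  have hδ0 : V.valuation (y - Y) ≠ 0 := by rw [Ne, map_eq_zero]; exact sub_ne_zero.mpr hne
  have key : m = m' := by
    by_contra hmm
    -- the derivative
    let ψ : Polynomial ℂ := (derivative Φ).eval (C Y)
    have hψeval : ∀ σ : ℍ, ψ.eval (jInv σ) = ∑ q : QN p, ∏ q' ∈ Finset.univ.erase q, (Y - jInv (toGL (rep q') • σ)) := by
      intro σ
      have e1 : ψ.eval (jInv σ) = (derivative (Φ.map (Polynomial.evalRingHom (jInv σ)))).eval Y := by
        have e2 := Polynomial.eval₂_at_apply (p := derivative Φ) (Polynomial.evalRingHom (jInv σ)) (C Y)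
        simp only [Polynomial.coe_evalRingHom, Polynomial.eval_C] at e2
        simp only [ψ]
        rw [← e2, Polynomial.derivative_map, Polynomial.eval_map]
      rw [e1, hprod, Polynomial.derivative_prod_finset, Polynomial.eval_finsetSum]
      refine Finset.sum_congr rfl fun q _ => ?_
      rw [Polynomial.eval_mul, Polynomial.eval_prod]
      simp
    let ε : Polynomial ℂ := C (Y ^ p - Y) + ((C Y - X ^ p) * C ((p : ℂ) * Y ^ (p - 1)) +
      (derivative (Φ - (X - C (X ^ p)) * (X ^ p - C X))).eval (C Y))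
    have hψε : ψ = (C Y - X) + ε := by
      have e1 : derivative Φ = derivative (Φ - (X - C (X ^ p)) * (X ^ p - C X)) +
          derivative ((X - C (X ^ p)) * (X ^ p - C X) : Polynomial (Polynomial ℂ)) := by
        rw [← derivative_add, sub_add_cancel]
      simp only [ψ, ε]
      rw [e1, Polynomial.eval_add]
      have e2 : (derivative ((X - C (X ^ p)) * (X ^ p - C X) : Polynomial (Polynomial ℂ))).eval (C Y) =
          (C Y ^ p - X) + (C Y - X ^ p) * ((p : Polynomial ℂ) * C Y ^ (p - 1)) := by
        rw [derivative_mul, derivative_sub, derivative_X, derivative_C, derivative_sub, derivative_X_pow, derivative_C]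
        simp
      rw [e2]
      simp only [map_sub, map_mul, map_pow, map_natCast]
      ring
    have hε : ∀ k, V.valuation (ε.coeff k) < 1 := by
      intro k
      simp only [ε]
      rw [Polynomial.coeff_add, Polynomial.coeff_add]
      refine V.valuation.map_add_lt ?_ (V.valuation.map_add_lt ?_ (nb_coeff_eval hK hYV k))
      · rw [Polynomial.coeff_C]
        split_ifs
        · exact h0.frob
        · rw [map_zero]; exact zero_lt_one
      · rw [Polynomial.coeff_mul_C, map_mul, map_mul, mul_comm]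
        refine mul_lt_one_of_lt_of_le (mul_lt_one_of_lt_of_le hV ((V.valuation_le_one_iff _).mpr (pow_mem hYV _))) ?_
        rw [V.valuation_le_one_iff, Polynomial.coeff_sub, Polynomial.coeff_C, Polynomial.coeff_X_pow]
        refine sub_mem ?_ ?_
        · split_ifs
          · exact hYV
          · exact zero_mem _
        · split_ifs
          · exact one_mem _
          · exact zero_mem _
    -- the double root
    have hψY : ψ.eval Y = 0 := by
      rw [hY, hψeval τ₀]
      have hB0 : (0 : ℤ) < B₀.det := by rw [h0.det]; exact_mod_cast hp.pos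
      have hadj : B₀.adjugate.det = p := by rw [Matrix.det_adjugate, h0.det]; simp
      set a : QN p := Quotient.mk'' (toMN B₀ h0.det) with ha
      set a' : QN p := Quotient.mk'' (toMN B₀.adjugate hadj) with ha'
      have haa : a ≠ a' := by
        intro h
        have h3 := Quotient.exact h.symm
        change toMN B₀.adjugate hadj ∈ MulAction.orbit _ (toMN B₀ h0.det) at h3
        obtain ⟨γ, hγ⟩ := h3
        exact nb_adj_ne h0.det h0.tr hp γ (congrArg Subtype.val hγ).symm
      have ea : jInv (toGL (rep a) • τ₀) = Y := by rw [ha, jInv_rep, h0.fix]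
      have ea' : jInv (toGL (rep a') • τ₀) = Y := by rw [ha', jInv_rep, nb_adj_fix hB0 h0.fix]
      refine Finset.sum_eq_zero fun q _ => ?_
      by_cases hq : a = q
      · refine Finset.prod_eq_zero (i := a') (Finset.mem_erase.mpr ⟨fun h => haa (hq.trans h.symm), Finset.mem_univ _⟩) ?_
        rw [ea', sub_self]
      · refine Finset.prod_eq_zero (i := a) (Finset.mem_erase.mpr ⟨hq, Finset.mem_univ _⟩) ?_
        rw [ea, sub_self]
    have hval : V.valuation (ψ.eval y) = V.valuation (y - Y) := by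
      have e1 : ψ.eval y = (Y - y) + (ε.eval y - ε.eval Y) := by
        have e2 : ε.eval Y = 0 := by
          rw [hψε] at hψY
          simpa using hψY
        rw [e2, hψε]
        simp
      rw [e1, V.valuation.map_add_eq_of_lt_left, Valuation.map_sub_swap]
      rw [Valuation.map_sub_swap V.valuation Y y]
      exact nb_eval_sub hε hyV hYV hne
    -- the product is too small
    have hX : ∀ q : QN p, V.valuation (Y - jInv (toGL (rep q) • τ)) < 1 := by
      intro q
      have e1 := nbr_congr hV hyV hyF (rep q).2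
      rw [gl_toGL] at e1
      have e2 : Y - jInv (toGL (rep q) • τ) = -((jInv (toGL (rep q) • τ) - y) + (y - Y)) := by ring
      rw [e2, Valuation.map_neg]
      exact V.valuation.map_add_lt e1 hc
    have hXm : V.valuation (Y - jInv (toGL (rep m) • τ)) ≤ V.valuation (y - Y) := by
      rw [hm, jInv_rep, Valuation.map_sub_swap]; exact h1
    have hXm' : V.valuation (Y - jInv (toGL (rep m') • τ)) ≤ V.valuation (y - Y) := by
      rw [hm', jInv_rep, Valuation.map_sub_swap]; exact h2
    have hlt : V.valuation (ψ.eval y) < V.valuation (y - Y) := by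
      rw [hy, hψeval τ]
      refine V.valuation.map_sum_lt hδ0 fun q _ => ?_
      obtain ⟨a, haq, ha⟩ : ∃ a, a ≠ q ∧ V.valuation (Y - jInv (toGL (rep a) • τ)) ≤ V.valuation (y - Y) := by
        by_cases hq : m = q
        · exact ⟨m', fun h => hmm (hq.trans h.symm), hXm'⟩
        · exact ⟨m, hq, hXm⟩
      obtain ⟨b, hb⟩ : ∃ b, b ∉ ({q, a} : Finset (QN p)) := by
        by_contra hcon
        push Not at hcon
        have e1 : (Finset.univ : Finset (QN p)) ⊆ {q, a} := fun b _ => hcon b
        have e2 := (Finset.card_le_card e1).trans Finset.card_le_two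
        rw [Finset.card_univ] at e2
        have e3 : Fintype.card (QN p) = p + 1 := hcard
        have := hp.two_le
        omega
      rw [Finset.mem_insert, Finset.mem_singleton, not_or] at hb
      rw [← Finset.mul_prod_erase _ _ (Finset.mem_erase.mpr ⟨haq, Finset.mem_univ a⟩),
        ← Finset.mul_prod_erase _ _ (Finset.mem_erase.mpr ⟨hb.2, Finset.mem_erase.mpr ⟨hb.1, Finset.mem_univ b⟩⟩),
        map_mul, map_mul, map_prod]
      have e4 : ∏ x ∈ ((Finset.univ.erase q).erase a).erase b, V.valuation (Y - jInv (toGL (rep x) • τ)) ≤ 1 :=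
        Finset.prod_le_one' fun x _ => (hX x).le
      have e5 : V.valuation (Y - jInv (toGL (rep b) • τ)) *
          ∏ x ∈ ((Finset.univ.erase q).erase a).erase b, V.valuation (Y - jInv (toGL (rep x) • τ)) < 1 :=
        mul_lt_one_of_lt_of_le (hX b) e4
      calc V.valuation (Y - jInv (toGL (rep a) • τ)) * (V.valuation (Y - jInv (toGL (rep b) • τ)) *
          ∏ x ∈ ((Finset.univ.erase q).erase a).erase b, V.valuation (Y - jInv (toGL (rep x) • τ)))
          ≤ V.valuation (y - Y) * (V.valuation (Y - jInv (toGL (rep b) • τ)) *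
          ∏ x ∈ ((Finset.univ.erase q).erase a).erase b, V.valuation (Y - jInv (toGL (rep x) • τ))) := mul_le_mul_left ha _
        _ < V.valuation (y - Y) * 1 := mul_lt_mul_of_pos_left e5 (zero_lt_iff.mpr hδ0)
        _ = _ := mul_one _
    rw [hval] at hlt
    exact lt_irrefl _ hlt
  obtain ⟨γ, hγ⟩ := exists_rep_eq M hM
  obtain ⟨γ', hγ'⟩ := exists_rep_eq M' hM'
  rw [← hm] at hγ
  rw [← hm', ← key] at hγ'
  refine ⟨γ' * γ⁻¹, ?_⟩
  rw [hγ', Matrix.SpecialLinearGroup.coe_mul, Matrix.mul_assoc]
  congr 1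
  conv_rhs => rw [hγ]
  rw [← Matrix.mul_assoc, ← Matrix.SpecialLinearGroup.coe_mul, inv_mul_cancel]
  simp

end Pool.Agent.ZPOrd
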