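import Mathlib
import Pool.Agent.ZPOrd.Base

/-!
Words in matrices of determinant `p` (for the theorem `walk`).
-/

open UpperHalfPlane hiding I
open MatrixGroups

namespace Pool.Agent.ZPOrd

open Pool.Agent.Lib.ModularZP

/-- one determinant `p` factor on the right -/
theorem exists_factor {p : ℕ} (hp : p.Prime) {E : M2} (h : (p : ℤ) ∣ E.det) :
    ∃ E' F : M2, F.det = p ∧ E = E' * F := by
  have hpi : Prime (p : ℤ) := Nat.prime_iff_prime_int.mp hp
  have inv : ∀ a : ℤ, ¬ (p : ℤ) ∣ a → ∃ u : ℤ, (p : ℤ) ∣ 1 - a * u := by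
    intro a ha
    obtain ⟨u, v, huv⟩ := (hpi.coprime_iff_not_dvd.mpr ha)
    refine ⟨v, u, ?_⟩
    linarith
  have key : ∀ c : ℤ, (p : ℤ) ∣ E 0 0 - c * E 0 1 → (p : ℤ) ∣ E 1 0 - c * E 1 1 →
      ∃ E' F : M2, F.det = p ∧ E = E' * F := by
    rintro c ⟨x, hx⟩ ⟨y, hy⟩
    refine ⟨!![x, E 0 1; y, E 1 1], !![(p : ℤ), 0; c, 1], ?_, ?_⟩
    · rw [Matrix.det_fin_two_of]; ring
    · ext i j
      fin_cases i <;> fin_cases j <;> simp [Matrix.mul_apply, Fin.sum_univ_two] <;> linarith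
  have hd : (p : ℤ) ∣ E 0 0 * E 1 1 - E 0 1 * E 1 0 := by
    rw [Matrix.det_fin_two] at h; exact h
  by_cases h1 : (p : ℤ) ∣ E 0 1
  · by_cases h2 : (p : ℤ) ∣ E 1 1
    · obtain ⟨x, hx⟩ := h1
      obtain ⟨y, hy⟩ := h2
      refine ⟨!![E 0 0, x; E 1 0, y], !![1, 0; 0, (p : ℤ)], ?_, ?_⟩
      · rw [Matrix.det_fin_two_of]; ring
      · ext i j
        fin_cases i <;> fin_cases j <;> simp [Matrix.mul_apply, Fin.sum_univ_two] <;> linarith
    · obtain ⟨u, hu⟩ := inv _ h2
      apply key (E 1 0 * u)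
      · have h3 : (p : ℤ) ∣ E 0 0 * E 1 1 := by
          have := dvd_add hd (h1.mul_right (E 1 0))
          simpa using this
        have h4 : (p : ℤ) ∣ E 0 0 := (hpi.dvd_or_dvd h3).resolve_right h2
        exact dvd_sub h4 (h1.mul_left _)
      · have : E 1 0 - E 1 0 * u * E 1 1 = E 1 0 * (1 - E 1 1 * u) := by ring
        rw [this]; exact hu.mul_left _
  · obtain ⟨u, hu⟩ := inv _ h1
    apply key (E 0 0 * u)
    · have : E 0 0 - E 0 0 * u * E 0 1 = E 0 0 * (1 - E 0 1 * u) := by ring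
      rw [this]; exact hu.mul_left _
    · have : E 1 0 - E 0 0 * u * E 1 1 = E 1 0 * (1 - E 0 1 * u) - u * (E 0 0 * E 1 1 - E 0 1 * E 1 0) := by ring
      rw [this]; exact dvd_sub (hu.mul_left _) (hd.mul_left _)

/-- the product of `n` consecutive letters starting from `a`, the first on the right -/
def wd (F : ℕ → M2) (a : ℕ) : ℕ → M2
  | 0 => 1
  | n + 1 => F (a + n) * wd F a n

lemma wd_succ (F : ℕ → M2) (a n : ℕ) : wd F a (n + 1) = F (a + n) * wd F a n := rfl

lemma wd_succ' (F : ℕ → M2) (a n : ℕ) : wd F a (n + 1) = wd F (a + 1) n * F a := by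
  induction n with
  | zero => simp [wd]
  | succ n ih =>
    rw [wd_succ, ih, wd_succ, ← mul_assoc]
    congr 2
    congr 1
    omega

lemma wd_shift (F : ℕ → M2) (a n : ℕ) : wd (fun k => F (k + 1)) a n = wd F (a + 1) n := by
  induction n with
  | zero => rfl
  | succ n ih =>
    rw [wd_succ, wd_succ, ih]
    congr 2
    omega

lemma wd_add (F : ℕ → M2) (a n m : ℕ) : wd F a (n + m) = wd F (a + n) m * wd F a n := by
  induction m with
  | zero => simp [wd]
  | succ m ih =>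
    rw [← add_assoc, wd_succ, ih, wd_succ, mul_assoc]
    congr 2
    omega

lemma wd_congr {F G : ℕ → M2} {a b n : ℕ} (h : ∀ k < n, F (a + k) = G (b + k)) : wd F a n = wd G b n := by
  induction n with
  | zero => rfl
  | succ n ih =>
    rw [wd_succ, wd_succ, h n (by omega), ih (fun k hk => h k (by omega))]

lemma det_wd {F : ℕ → M2} {d : ℤ} (h : ∀ k, (F k).det = d) (a n : ℕ) : (wd F a n).det = d ^ n := by
  induction n with
  | zero => simp [wd]
  | succ n ih => rw [wd_succ, Matrix.det_mul, ih, h, pow_succ, mul_comm]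

theorem exists_word {p : ℕ} (hp : p.Prime) {m : ℕ} (hm : 0 < m) : ∀ {E : M2}, E.det = (p : ℤ) ^ m →
    ∃ F : ℕ → M2, (∀ k < m, (F k).det = p) ∧ wd F 0 m = E := by
  have hp0 : (p : ℤ) ≠ 0 := by exact_mod_cast hp.ne_zero
  induction m, hm using Nat.le_induction with
  | base =>
    intro E hE
    exact ⟨fun _ => E, fun k _ => by simpa using hE, by simp [wd]⟩
  | succ m hm ih =>
    intro E hE
    obtain ⟨E', F₀, hF₀, rfl⟩ := exists_factor hp (E := E) (by rw [hE]; exact dvd_pow_self _ (by omega))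
    have hE' : E'.det = (p : ℤ) ^ m := by
      rw [Matrix.det_mul, hF₀, pow_succ] at hE
      exact mul_right_cancel₀ hp0 hE
    obtain ⟨F', h1, h2⟩ := ih hE'
    refine ⟨fun k => if k = 0 then F₀ else F' (k - 1), ?_, ?_⟩
    · intro k hk
      dsimp only
      split_ifs with h
      · exact hF₀
      · exact h1 _ (by omega)
    · rw [wd_succ', ← wd_shift, if_pos rfl, ← h2]
      congr 1

/-- the same word, extended periodically -/
theorem exists_periodic {p : ℕ} (hp : p.Prime) {m : ℕ} (hm : 0 < m) {E : M2} (hE : E.det = (p : ℤ) ^ m) :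
    ∃ F : ℕ → M2, (∀ k, (F k).det = p) ∧ (∀ k, F (k + m) = F k) ∧ wd F 0 m = E := by
  obtain ⟨F, h1, h2⟩ := exists_word hp hm hE
  refine ⟨fun k => F (k % m), fun k => h1 _ (Nat.mod_lt _ hm), fun k => by simp, ?_⟩
  rw [← h2]
  apply wd_congr
  intro k hk
  simp [Nat.mod_eq_of_lt hk]

lemma trace_rotate {p : ℕ} (hp : p.Prime) {F : ℕ → M2} {m : ℕ} (h1 : ∀ k, (F k).det = p)
    (h2 : ∀ k, F (k + m) = F k) (k : ℕ) : (wd F k m).trace = (wd F 0 m).trace := by
  have hp0 : (p : ℤ) ≠ 0 := by exact_mod_cast hp.ne_zero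
  induction k with
  | zero => rfl
  | succ k ih =>
    rw [← ih]
    have e : wd F (k + 1) m * F k = F k * wd F k m := by
      rw [← wd_succ', wd_succ, h2]
    have e2 : (p : ℤ) • wd F (k + 1) m = F k * wd F k m * (F k).adjugate := by
      rw [← e, mul_assoc, Matrix.mul_adjugate, h1, Matrix.mul_smul, mul_one]
    have e3 : (p : ℤ) * (wd F (k + 1) m).trace = (p : ℤ) * (wd F k m).trace := by
      have := congrArg Matrix.trace e2
      rw [Matrix.trace_smul, mul_assoc, Matrix.trace_mul_comm, mul_assoc, Matrix.adjugate_mul, h1,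
        Matrix.mul_smul, mul_one, Matrix.trace_smul] at this
      exact this
    exact mul_left_cancel₀ hp0 e3

lemma dvd_trace_of_sq {p : ℕ} (hp : p.Prime) {R X : M2} {m : ℕ} (hm : 0 < m) (hR : R.det = (p : ℤ) ^ m)
    (h : R * R = (p : ℤ) • X) : (p : ℤ) ∣ R.trace := by
  have hpi : Prime (p : ℤ) := Nat.prime_iff_prime_int.mp hp
  have e : R.trace ^ 2 = (R * R).trace + 2 * R.det := by
    rw [Matrix.det_fin_two, Matrix.trace_fin_two, Matrix.trace_fin_two]
    simp [Matrix.mul_apply, Fin.sum_univ_two]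
    ring
  apply hpi.dvd_of_dvd_pow (n := 2)
  rw [e, h, hR, Matrix.trace_smul]
  exact dvd_add ⟨_, rfl⟩ ((dvd_pow_self _ hm.ne').mul_left _)

lemma adj_smul {p : ℕ} (hp : p.Prime) {M : M2} (hM : M.det = p) (τ : ℍ) :
    gl M.adjugate • (gl M • τ) = τ := by
  have hp0 : (0 : ℤ) < p := by exact_mod_cast hp.pos
  have hd : 0 < M.det := by rw [hM]; exact hp0
  have hd' : M.adjugate.det = p := by
    rw [Matrix.det_adjugate, hM]; simp
  have hd'' : 0 < M.adjugate.det := by rw [hd']; exact hp0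
  rw [← gl_mul_smul hd'' hd, Matrix.adjugate_mul, hM]
  have hs : ((p : ℤ) • (1 : M2)).det = (p : ℤ) ^ 2 := by
    rw [Matrix.det_smul]; simp
  apply UpperHalfPlane.ext
  rw [gl_smul_coe (by rw [hs]; positivity)]
  have hpc : (p : ℂ) ≠ 0 := by exact_mod_cast hp.ne_zero
  simp [hpc]

lemma close_data {p : ℕ} {V : ValuationSubring ℂ} {x y : ℂ} (hy : y ∈ V)
    (hf : V.valuation (y ^ p - y) < 1) (h : V.valuation (x - y) < 1) :
    x ∈ V ∧ V.valuation (x ^ p - x) < 1 := by
  have hx : x ∈ V := by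
    have h1 : x - y ∈ V := (V.valuation_le_one_iff _).mp h.le
    have := V.add_mem _ _ h1 hy
    simpa using this
  refine ⟨hx, ?_⟩
  have e1 : V.valuation (x ^ p - y ^ p) < 1 := by
    obtain ⟨z, hz⟩ : ∃ z ∈ V, x ^ p - y ^ p = (x - y) * z := by
      refine ⟨∑ i ∈ Finset.range p, x ^ i * y ^ (p - 1 - i), ?_, ?_⟩
      · exact sum_mem fun i _ => mul_mem (pow_mem hx _) (pow_mem hy _)
      · exact (mul_comm _ _).trans (Commute.geom_sum₂_mul (Commute.all x y) p) |>.symm
    rw [hz.2, map_mul]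
    have hz1 : V.valuation z ≤ 1 := (V.valuation_le_one_iff _).mpr hz.1
    calc V.valuation (x - y) * V.valuation z ≤ V.valuation (x - y) * 1 := by gcongr
      _ < 1 := by simpa using h
  have e2 : V.valuation (y - x) < 1 := by rw [← V.valuation.map_neg, neg_sub]; exact h
  have e : x ^ p - x = (x ^ p - y ^ p) + (y ^ p - y) + (y - x) := by ring
  rw [e]
  exact V.valuation.map_add_lt (V.valuation.map_add_lt e1 hf) e2

end Pool.Agent.ZPOrd
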