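import Mathlib
import Pool.Agent.ZPOrd.Nbr
import Pool.Agent.ZPOrd.WalkWord

/-!
The walk lemma: a closed walk of `p`-isogenies of unit trace in the residue disc of an ordinary canonical lift
stays at the lift.
-/

open UpperHalfPlane hiding I
open MatrixGroups

namespace Pool.Agent.ZPOrd

open Pool.Agent.Lib.ModularZP

theorem walk {p : ℕ} [Fact p.Prime] {V : ValuationSubring ℂ} (hV : V.valuation (p : ℂ) < 1) {τ₀ τ : ℍ}
    {B₀ : M2} (h0 : OrdLift p V τ₀ B₀) (hc : V.valuation (jInv τ - jInv τ₀) < 1) {E : M2} {m : ℕ} (hm : 0 < m)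
    (hE : E.det = (p : ℤ) ^ m) (htE : ¬ (p : ℤ) ∣ E.trace) (hEf : gl E • τ = τ) : jInv τ = jInv τ₀ := by
  have hp : p.Prime := Fact.out
  have hp0 : (0 : ℤ) < p := by exact_mod_cast hp.pos
  obtain ⟨F, h1, h2, h3⟩ := exists_periodic hp hm hE
  have hdet : ∀ k, 0 < (F k).det := fun k => by rw [h1]; exact hp0
  have hdw : ∀ a n, 0 < (wd F a n).det := fun a n => by rw [det_wd h1]; positivity
  -- the walk
  set t : ℕ → ℍ := fun k => gl (wd F 0 k) • τ with ht
  have ht0 : t 0 = τ := by
    have : gl (1 : M2) = 1 := by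
      apply Units.ext
      rw [gl_val (by simp)]
      simp
    simp [ht, wd, this]
  have hts : ∀ k, gl (F k) • t k = t (k + 1) := by
    intro k
    simp only [ht]
    rw [← gl_mul_smul (hdet k) (hdw 0 k), wd_succ, zero_add]
  have htm : ∀ k, t (k + m) = t k := by
    intro k
    simp only [ht]
    rw [add_comm, wd_add, gl_mul_smul (hdw _ _) (hdw _ _), h3, hEf]
    congr 2
    apply wd_congr
    intro i _
    rw [show 0 + m + i = 0 + i + m by ring, h2]
  have hclose : ∀ k, V.valuation (jInv (t k) - jInv τ₀) < 1 := by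
    intro k
    induction k with
    | zero => rw [ht0]; exact hc
    | succ k ih =>
      obtain ⟨e1, e2⟩ := close_data h0.mem h0.frob ih
      have := nbr_congr hV e1 e2 (h1 k)
      rw [hts] at this
      have e : jInv (t (k + 1)) - jInv τ₀ = (jInv (t (k + 1)) - jInv (t k)) + (jInv (t k) - jInv τ₀) := by ring
      rw [e]
      exact V.valuation.map_add_lt this ih
  by_contra hne
  -- a farthest point
  obtain ⟨k, hk, hmax⟩ := Finset.exists_max_image (Finset.range m)
    (fun k => V.valuation (jInv (t k) - jInv τ₀)) ⟨0, Finset.mem_range.mpr hm⟩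
  have hmod : ∀ i, t i = t (i % m) := by
    intro i
    induction i using Nat.strong_induction_on with
    | _ i ih =>
      by_cases hi : i < m
      · rw [Nat.mod_eq_of_lt hi]
      · have e := htm (i - m)
        rw [Nat.sub_add_cancel (by omega)] at e
        rw [e, ih (i - m) (by omega)]
        congr 1
        rw [Nat.mod_eq_sub_mod (by omega : i ≥ m)]
  have hmax' : ∀ i, V.valuation (jInv (t i) - jInv τ₀) ≤ V.valuation (jInv (t (k + m)) - jInv τ₀) := by
    intro i
    rw [htm, hmod i]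
    exact hmax _ (Finset.mem_range.mpr (Nat.mod_lt _ hm))
  obtain ⟨l, hl⟩ : ∃ l, k + m = l + 1 := ⟨k + m - 1, by omega⟩
  rw [hl] at hmax'
  have hkne : jInv (t (l + 1)) ≠ jInv τ₀ := by
    intro h
    have := hmax' 0
    rw [h, sub_self, map_zero, le_zero_iff, map_eq_zero, sub_eq_zero, ht0] at this
    exact hne this
  have hadj : gl (F l).adjugate • t (l + 1) = t l := by
    rw [← hts l]
    exact adj_smul hp (h1 l) _
  obtain ⟨γ, hγ⟩ := nbr_unique hV h0 (hclose (l + 1)) hkne (M := F (l + 1)) (M' := (F l).adjugate) (h1 _)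
    (by rw [Matrix.det_adjugate, h1]; simp) (by rw [hts]; exact hmax' _) (by rw [hadj]; exact hmax' _)
  -- F (l+1) * F l = p γ⁻¹
  have hprod : F (l + 1) * F l = (p : ℤ) • (γ⁻¹ : SL(2, ℤ)).1 := by
    have e1 : F (l + 1) = (γ⁻¹ : SL(2, ℤ)).1 * (F l).adjugate := by
      rw [hγ, ← mul_assoc, ← Matrix.SpecialLinearGroup.coe_mul, inv_mul_cancel]
      simp
    rw [e1, mul_assoc, Matrix.adjugate_mul, h1, Matrix.mul_smul, mul_one]
  obtain ⟨n, rfl⟩ : ∃ n, m = n + 1 := ⟨m - 1, by omega⟩
  have hR1 : wd F (l + 1) (n + 1) = wd F (l + 2) n * F (l + 1) := wd_succ' _ _ _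
  have hR2 : wd F (l + 1) (n + 1) = F l * wd F (l + 1) n := by
    rw [wd_succ, show l + 1 + n = l + (n + 1) by ring, h2]
  have hRR : wd F (l + 1) (n + 1) * wd F (l + 1) (n + 1) =
      (p : ℤ) • (wd F (l + 2) n * (γ⁻¹ : SL(2, ℤ)).1 * wd F (l + 1) n) := by
    calc wd F (l + 1) (n + 1) * wd F (l + 1) (n + 1)
        = (wd F (l + 2) n * F (l + 1)) * (F l * wd F (l + 1) n) := by rw [← hR1, ← hR2]
      _ = wd F (l + 2) n * (F (l + 1) * F l) * wd F (l + 1) n := by simp only [mul_assoc]
      _ = _ := by rw [hprod, Matrix.mul_smul, Matrix.smul_mul]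
  have := dvd_trace_of_sq hp hm (det_wd h1 (l + 1) (n + 1)) hRR
  rw [trace_rotate hp h1 h2, h3] at this
  exact htE this

end Pool.Agent.ZPOrd
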