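import Mathlib
import Pool.Agent.ZPOrd.Base
import Pool.Agent.ZPOrd.DiscAux
import Pool.Agent.ZPOrd.JBij
import Pool.Agent.ZPOrd.Quad
import Pool.Agent.ZPOrd.Walk
import Pool.Agent.ZPOrd.Transfer
import Pool.Agent.ZPOrd.Conj

/-!
The discriminant of a CM point congruent to an ordinary canonical lift.
-/

open UpperHalfPlane hiding I
open MatrixGroups

namespace Pool.Agent.ZPOrd

open Pool.Agent.Lib.ModularZP

/-- the point `C τ₀` is fixed by a matrix of determinant `p ^ m` with trace prime to `p`, so it has the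
same `j`-invariant as an ordinary lift congruent to it -/
lemma dz_conj_walk {p : ℕ} [Fact p.Prime] {V : ValuationSubring ℂ} (hV : V.valuation (p : ℂ) < 1)
    {τ₀ τ₁ : ℍ} {B₀ B₁ : M2} (h0 : OrdLift p V τ₀ B₀) (h1 : OrdLift p V τ₁ B₁) {N : ℕ} (hN : 0 < N)
    (hpN : ¬ p ∣ N) {C : M2} (hC : C.det = N)
    (hc : V.valuation (jInv (gl C • τ₀) - jInv τ₁) < 1) :
    ∃ γ : SL(2, ℤ), gl (γ.1 * C) • τ₀ = τ₁ := by
  have hp : p.Prime := Fact.out
  have hp0 : (0 : ℤ) < p := by exact_mod_cast hp.pos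
  have hB0 : 0 < B₀.det := by rw [h0.det]; exact hp0
  have hCp : 0 < C.det := by rw [hC]; exact_mod_cast hN
  obtain ⟨E, m, hm, hEC, hE, htE⟩ := exists_conj hp hN hpN h0.det h0.tr hC
  have hEp : 0 < E.det := by rw [hE]; positivity
  have hEf : gl E • (gl C • τ₀) = gl C • τ₀ := by
    rw [← gl_mul_smul hEp hCp, hEC, gl_mul_smul hCp (by rw [Matrix.det_pow]; positivity),
      dz_pow_fix hB0 h0.fix]
  have hj := walk hV h1 hc hm hE htE hEf
  obtain ⟨γ, hγ⟩ := jInv_inj hj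
  refine ⟨γ, ?_⟩
  rw [gl_mul_smul (by rw [γ.2]; exact one_pos) hCp, gl_sl_smul]
  exact hγ

theorem cm_disc {p : ℕ} [Fact p.Prime] (hp2 : p ≠ 2) {V : ValuationSubring ℂ} (hV : V.valuation (p : ℂ) < 1)
    {τ₀ τ : ℍ} {B₀ : M2} (h0 : OrdLift p V τ₀ B₀) {G : M2} (hG : 0 < G.det) (hGf : gl G • τ = τ)
    (hGn : G 1 0 ≠ 0) (hc : V.valuation (jInv τ - jInv τ₀) < 1) :
    IsSquare ((G.trace ^ 2 - 4 * G.det) * (B₀.trace ^ 2 - 4 * (p : ℤ))) := by
  have hp : p.Prime := Fact.out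
  have hp0 : (0 : ℤ) < p := by exact_mod_cast hp.pos
  have hB0 : 0 < B₀.det := by rw [h0.det]; exact hp0
  by_contra hns
  have hD := dz_disc_neg hG hGf hGn
  have hD0 := dz_disc_neg hB0 h0.fix (dz_lower_ne hp h0.det h0.fix)
  rw [h0.det] at hD0
  obtain ⟨k, hk, hkpos, hkn⟩ := exists_not_norm hp hp2 hD hD0 hns
  set Nz : ℤ := k ^ 2 + G.trace * k + G.det with hNz
  obtain ⟨N, hN⟩ : ∃ N : ℕ, (N : ℤ) = Nz := ⟨Nz.toNat, Int.toNat_of_nonneg hkpos.le⟩
  have hNpos : 0 < N := by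
    have : (0 : ℤ) < N := by rw [hN]; exact hkpos
    exact_mod_cast this
  have hpN : ¬ p ∣ N := by
    intro h
    apply hk
    rw [← hN]
    exact_mod_cast h
  set M : M2 := !![G 0 0 + k, G 0 1; G 1 0, G 1 1 + k] with hM
  have hM00 : M 0 0 = G 0 0 + k := rfl
  have hM01 : M 0 1 = G 0 1 := rfl
  have hM10 : M 1 0 = G 1 0 := rfl
  have hM11 : M 1 1 = G 1 1 + k := rfl
  have hMdet : M.det = N := by
    rw [hN, hNz, Matrix.det_fin_two, hM00, hM01, hM10, hM11, Matrix.det_fin_two, Matrix.trace_fin_two]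
    ring
  have hMpos : 0 < M.det := by rw [hMdet]; exact_mod_cast hNpos
  have hMf : gl M • τ = τ := by
    rw [dz_fix_iff hMpos, hM00, hM01, hM10, hM11]
    rw [dz_fix_iff hG] at hGf
    push_cast
    linear_combination hGf
  obtain ⟨hjV, -⟩ := dz_congr h0.mem h0.frob hc
  obtain ⟨C, hC, hCc⟩ := transfer hNpos hjV hc hMdet
  rw [hMf] at hCc
  obtain ⟨γ, hγ⟩ := dz_conj_walk hV h0 h0 hNpos hpN hC (dz_trans hCc hc)
  have hdetγC : (γ.1 * C).det = N := by rw [Matrix.det_mul, γ.2, one_mul, hC]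
  obtain ⟨x, y, hxy⟩ := fix_comm (by rw [hdetγC]; exact_mod_cast hNpos) hB0 hγ h0.fix
    (dz_lower_ne hp h0.det h0.fix)
  apply hkn x y
  have h1 : (((γ.1 * C).map ((↑) : ℤ → ℚ)).det) = ((γ.1 * C).det : ℚ) := by
    rw [Matrix.det_fin_two, Matrix.det_fin_two]
    push_cast
    simp [Matrix.map_apply]
  rw [hdetγC] at h1
  have h2 : ((Nz : ℤ) : ℚ) = (x • (1 : Matrix (Fin 2) (Fin 2) ℚ) + y • B₀.map ((↑) : ℤ → ℚ)).det := by
    rw [← hxy, h1, ← hN]
  have h3 : ((B₀ 0 0 * B₀ 1 1 - B₀ 0 1 * B₀ 1 0 : ℤ) : ℚ) = (p : ℚ) := by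
    rw [← Matrix.det_fin_two, h0.det]
    simp
  push_cast at h3
  rw [h2, Matrix.det_fin_two, Matrix.trace_fin_two]
  simp only [Matrix.add_apply, Matrix.smul_apply, Matrix.map_apply, Matrix.one_apply_eq, smul_eq_mul, mul_one]
  rw [Matrix.one_apply_ne (by decide : (0 : Fin 2) ≠ 1), Matrix.one_apply_ne (by decide : (1 : Fin 2) ≠ 0)]
  push_cast
  rw [← h3]
  ring

end Pool.Agent.ZPOrd
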