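import Mathlib
import Pool.Agent.ZPOrd.Base
import Pool.Agent.ZPOrd.DiscAux
import Pool.Agent.ZPOrd.CMDisc
import Pool.Agent.ZPOrd.Nbr
import Pool.Agent.ZPOrd.Walk
import Pool.Agent.ZPOrd.Transfer
import Pool.Agent.ZPOrd.Conj

/-!
Isogenous points congruent to two ordinary canonical lifts: the discriminants agree up to squares.
-/

open UpperHalfPlane hiding I
open MatrixGroups

namespace Pool.Agent.ZPOrd

open Pool.Agent.Lib.ModularZP

/-- removal of the `p`-part of an isogeny -/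
lemma dz_prime_to {p : ℕ} [Fact p.Prime] {V : ValuationSubring ℂ} (hV : V.valuation (p : ℂ) < 1)
    {τ₀ : ℍ} (h0m : jInv τ₀ ∈ V) (h0f : V.valuation (jInv τ₀ ^ p - jInv τ₀) < 1) {N : ℕ} (hN : 0 < N) (r : ℕ) :
    ∀ (τ : ℍ) (M : M2), M.det = (N : ℤ) * p ^ r → V.valuation (jInv τ - jInv τ₀) < 1 →
      ∃ (τ' : ℍ) (M' : M2), M'.det = N ∧ V.valuation (jInv τ' - jInv τ₀) < 1 ∧ gl M' • τ' = gl M • τ := by
  have hp : p.Prime := Fact.out
  have hp0 : (0 : ℤ) < p := by exact_mod_cast hp.pos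
  have hN0 : (0 : ℤ) < N := by exact_mod_cast hN
  induction r with
  | zero =>
    intro τ M hM hc
    exact ⟨τ, M, by simpa using hM, hc, rfl⟩
  | succ r ih =>
    intro τ M hM hc
    obtain ⟨E, F, hEF, hF, hE⟩ := dz_factor hp M ⟨(N : ℤ) * p ^ r, by rw [hM]; ring⟩
    have hEdet : E.det = (N : ℤ) * p ^ r := by
      have h1 : E.det * p = ((N : ℤ) * p ^ r) * p := by rw [hE, hM]; ring
      exact mul_right_cancel₀ hp0.ne' h1
    obtain ⟨hjV, hjf⟩ := dz_congr h0m h0f hc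
    have h1 := nbr_congr hV hjV hjf hF
    obtain ⟨τ', M', h2, h3, h4⟩ := ih (gl F • τ) E hEdet (dz_trans h1 hc)
    refine ⟨τ', M', h2, h3, ?_⟩
    rw [h4, hEF, gl_mul_smul (by rw [hEdet]; positivity) (by rw [hF]; exact hp0)]

theorem iso_disc {p : ℕ} [Fact p.Prime] {V : ValuationSubring ℂ} (hV : V.valuation (p : ℂ) < 1)
    {τ₀ τ₁ τ : ℍ} {B₀ B₁ : M2} (h0 : OrdLift p V τ₀ B₀) (h1 : OrdLift p V τ₁ B₁) {M : M2} (hM : 0 < M.det)
    (hc0 : V.valuation (jInv τ - jInv τ₀) < 1) (hc1 : V.valuation (jInv (gl M • τ) - jInv τ₁) < 1) :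
    IsSquare ((B₀.trace ^ 2 - 4 * (p : ℤ)) * (B₁.trace ^ 2 - 4 * (p : ℤ))) := by
  have hp : p.Prime := Fact.out
  have hp0 : (0 : ℤ) < p := by exact_mod_cast hp.pos
  have hB0 : 0 < B₀.det := by rw [h0.det]; exact hp0
  have hB1 : 0 < B₁.det := by rw [h1.det]; exact hp0
  obtain ⟨r, N, hpN, hMN⟩ := Nat.exists_eq_pow_mul_and_not_dvd (n := M.det.toNat)
    (by have := Int.toNat_of_nonneg hM.le; omega) p hp.ne_one
  have hNpos : 0 < N := by
    rcases Nat.eq_zero_or_pos N with h | h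
    · rw [h] at hpN
      exact absurd (dvd_zero p) hpN
    · exact h
  have hMdet : M.det = (N : ℤ) * p ^ r := by
    rw [← Int.toNat_of_nonneg hM.le, hMN]
    push_cast
    ring
  obtain ⟨τ', M', hM', hc', hMM⟩ := dz_prime_to hV h0.mem h0.frob hNpos r τ M hMdet hc0
  rw [← hMM] at hc1
  obtain ⟨hjV, -⟩ := dz_congr h0.mem h0.frob hc'
  obtain ⟨C, hC, hCc⟩ := transfer hNpos hjV hc' hM'
  obtain ⟨γ, hγ⟩ := dz_conj_walk hV h0 h1 hNpos hpN hC (dz_trans hCc hc1)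
  set A : M2 := γ.1 * C with hA
  have hAdet : A.det = N := by rw [hA, Matrix.det_mul, γ.2, one_mul, hC]
  have hN0 : (0 : ℤ) < N := by exact_mod_cast hNpos
  have hadj : A.adjugate.det = N := by
    rw [Matrix.det_adjugate, hAdet]
    simp
  have hback : gl A.adjugate • τ₁ = τ₀ := by
    rw [← hγ, ← gl_mul_smul (by rw [hadj]; exact hN0) (by rw [hAdet]; exact hN0), Matrix.adjugate_mul, hAdet,
      dz_scalar hN0]
  set W : M2 := A.adjugate * (B₁ * A) with hW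
  have hWdet : W.det = N * (p * N) := by
    rw [hW, Matrix.det_mul, Matrix.det_mul, hadj, h1.det, hAdet]
  have hWf : gl W • τ₀ = τ₀ := by
    rw [hW, gl_mul_smul (by rw [hadj]; exact hN0) (by rw [Matrix.det_mul, h1.det, hAdet]; positivity),
      gl_mul_smul hB1 (by rw [hAdet]; exact hN0), hγ, h1.fix, hback]
  have hWtr : W.trace = N * B₁.trace := by
    rw [hW, Matrix.trace_mul_comm, Matrix.mul_assoc, Matrix.mul_adjugate, hAdet, Matrix.mul_smul, Matrix.mul_one,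
      Matrix.trace_smul, smul_eq_mul]
  obtain ⟨x, y, hxy⟩ := fix_comm (by rw [hWdet]; positivity) hB0 hWf h0.fix (dz_lower_ne hp h0.det h0.fix)
  have e00 := congrFun (congrFun hxy 0) 0
  have e01 := congrFun (congrFun hxy 0) 1
  have e10 := congrFun (congrFun hxy 1) 0
  have e11 := congrFun (congrFun hxy 1) 1
  simp only [Matrix.add_apply, Matrix.smul_apply, Matrix.map_apply, Matrix.one_apply_eq, smul_eq_mul, mul_one]
    at e00 e01 e10 e11
  rw [Matrix.one_apply_ne (by decide : (0 : Fin 2) ≠ 1), mul_zero, zero_add] at e01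
  rw [Matrix.one_apply_ne (by decide : (1 : Fin 2) ≠ 0), mul_zero, zero_add] at e10
  have hdisc : ∀ X : M2, ((X.trace ^ 2 - 4 * X.det : ℤ) : ℚ) =
      ((X 0 0 : ℚ) - X 1 1) ^ 2 + 4 * X 0 1 * X 1 0 := by
    intro X
    rw [Matrix.trace_fin_two, Matrix.det_fin_two]
    push_cast
    ring
  have hWd := hdisc W
  have hBd := hdisc B₀
  rw [h0.det] at hBd
  rw [e00, e01, e10, e11] at hWd
  have hWd2 : ((W.trace ^ 2 - 4 * W.det : ℤ) : ℚ) = (N : ℚ) ^ 2 * ((B₁.trace ^ 2 - 4 * (p : ℤ) : ℤ) : ℚ) := by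
    rw [hWtr, hWdet]
    push_cast
    ring
  have hkey : (N : ℚ) ^ 2 * ((B₁.trace ^ 2 - 4 * (p : ℤ) : ℤ) : ℚ) =
      y ^ 2 * ((B₀.trace ^ 2 - 4 * (p : ℤ) : ℤ) : ℚ) := by
    rw [← hWd2, hWd, hBd]
    ring
  have hNq : (N : ℚ) ≠ 0 := by exact_mod_cast hNpos.ne'
  rw [← Rat.isSquare_intCast_iff]
  refine ⟨y * ((B₀.trace ^ 2 - 4 * (p : ℤ) : ℤ) : ℚ) / N, ?_⟩
  rw [Int.cast_mul]
  field_simp
  linear_combination ((B₀.trace ^ 2 - 4 * (p : ℤ) : ℤ) : ℚ) * hkey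

end Pool.Agent.ZPOrd
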