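import Mathlib
import Pool.Agent.ZPOrd.Base
import Pool.Agent.ZPOrd.JBij
import Pool.Agent.ZPOrd.Kron

/-!
The reduction of the Kronecker congruence: a number with residue in `F_p` is congruent to the
`j`-invariant of a point fixed by an integral matrix of determinant `p`.
-/

open UpperHalfPlane hiding I
open MatrixGroups

namespace Pool.Agent.ZPOrd

open Pool.Agent.Lib.ModularZP

/-- the coefficients of a product of linear factors, bounded through the value at `z` -/
lemma lz_coeff_prod_le {V : ValuationSubring ℂ} {z : ℂ} (hz : z ∈ V) (s : Multiset ℂ)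
    (hs : ∀ ρ ∈ s, 1 ≤ V.valuation (z - ρ)) (i : ℕ) :
    V.valuation ((s.map fun ρ => Polynomial.X - Polynomial.C ρ).prod.coeff i) ≤
      V.valuation ((s.map fun ρ => z - ρ).prod) := by
  induction s using Multiset.induction_on generalizing i with
  | empty =>
    simp only [Multiset.map_zero, Multiset.prod_zero, map_one]
    rw [Polynomial.coeff_one]
    split_ifs
    · rw [map_one]
    · rw [map_zero]; exact zero_le
  | cons a s ih =>
    have hs' : ∀ ρ ∈ s, 1 ≤ V.valuation (z - ρ) := fun ρ hρ => hs ρ (Multiset.mem_cons_of_mem hρ)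
    have ha : 1 ≤ V.valuation (z - a) := hs a (Multiset.mem_cons_self a s)
    have hB := ih hs'
    set P := (s.map fun ρ => Polynomial.X - Polynomial.C ρ).prod with hP
    set B := V.valuation ((s.map fun ρ => z - ρ).prod) with hBd
    have hav : V.valuation a ≤ V.valuation (z - a) := by
      have h1 : a = z - (z - a) := by ring
      calc V.valuation a = V.valuation (z - (z - a)) := by rw [← h1]
        _ ≤ max (V.valuation z) (V.valuation (z - a)) := V.valuation.map_sub _ _
        _ ≤ V.valuation (z - a) := max_le (((V.valuation_le_one_iff _).mpr hz).trans ha) le_rfl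
    rw [Multiset.map_cons, Multiset.prod_cons, Multiset.map_cons, Multiset.prod_cons, map_mul, sub_mul,
      Polynomial.coeff_sub, Polynomial.coeff_C_mul]
    refine (V.valuation.map_sub _ _).trans (max_le ?_ ?_)
    · rcases Nat.eq_zero_or_pos i with h0 | h0
      · subst h0
        rw [Polynomial.mul_coeff_zero, Polynomial.coeff_X_zero, zero_mul, map_zero]
        exact zero_le
      · obtain ⟨k, rfl⟩ : ∃ k, i = k + 1 := ⟨i - 1, by omega⟩
        rw [Polynomial.coeff_X_mul]
        calc V.valuation (P.coeff k) ≤ 1 * B := by rw [one_mul]; exact hB k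
          _ ≤ _ := mul_le_mul_left ha _
    · rw [map_mul]
      exact mul_le_mul' hav (hB i)

/-- a polynomial with a unit coefficient which is small at `z` has a root near `z` -/
lemma lz_root_close {V : ValuationSubring ℂ} {z : ℂ} (hz : z ∈ V) (f : Polynomial ℂ) (i : ℕ)
    (hi : 1 ≤ V.valuation (f.coeff i)) (hf : V.valuation (f.eval z) < 1) :
    ∃ ρ : ℂ, f.eval ρ = 0 ∧ V.valuation (ρ - z) < 1 := by
  by_contra hno
  push Not at hno
  have hf0 : f ≠ 0 := by
    rintro rfl
    rw [Polynomial.coeff_zero, map_zero] at hi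
    exact absurd hi (not_le.mpr zero_lt_one)
  have hroots : f = Polynomial.C f.leadingCoeff * (f.roots.map fun a => Polynomial.X - Polynomial.C a).prod :=
    (IsAlgClosed.splits f).eq_prod_roots
  have hs : ∀ ρ ∈ f.roots, 1 ≤ V.valuation (z - ρ) := by
    intro ρ hρ
    have h1 := hno ρ ((Polynomial.mem_roots hf0).mp hρ)
    rwa [Valuation.map_sub_swap] at h1
  have h1 := lz_coeff_prod_le hz f.roots hs i
  have h2 : f.eval z = f.leadingCoeff * (f.roots.map fun ρ => z - ρ).prod := by
    conv_lhs => rw [hroots]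
    rw [Polynomial.eval_mul, Polynomial.eval_C, Polynomial.eval_multiset_prod, Multiset.map_map]
    congr 2
    refine Multiset.map_congr rfl fun a _ => ?_
    simp
  have h3 : f.coeff i = f.leadingCoeff * (f.roots.map fun a => Polynomial.X - Polynomial.C a).prod.coeff i := by
    conv_lhs => rw [hroots]
    rw [Polynomial.coeff_C_mul]
  have h4 : V.valuation (f.coeff i) ≤ V.valuation (f.eval z) := by
    rw [h2, h3, map_mul, map_mul]
    exact mul_le_mul_right h1 _
  exact absurd (hi.trans h4) (not_le.mpr hf)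

/-- evaluation of a polynomial in two variables on the diagonal -/
lemma lz_eval_eval_X (Φ : Polynomial (Polynomial ℂ)) (x : ℂ) :
    (Φ.eval Polynomial.X).eval x = (Φ.map (Polynomial.evalRingHom x)).eval x := by
  have h1 := Polynomial.eval₂_at_apply (p := Φ) (Polynomial.evalRingHom x) Polynomial.X
  rw [Polynomial.eval_map]
  simp only [Polynomial.coe_evalRingHom, Polynomial.eval_X] at h1
  exact h1.symm

/-- the coefficients on the diagonal -/
lemma lz_coeff_diag_lt {V : ValuationSubring ℂ} (E : Polynomial (Polynomial ℂ))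
    (hE : ∀ i k, V.valuation ((E.coeff i).coeff k) < 1) (k : ℕ) :
    V.valuation ((E.eval Polynomial.X).coeff k) < 1 := by
  rw [Polynomial.eval_eq_sum, Polynomial.sum_def, Polynomial.finsetSum_coeff]
  refine Valuation.map_sum_lt V.valuation one_ne_zero fun i _ => ?_
  rw [Polynomial.coeff_mul_X_pow']
  split_ifs
  · exact hE _ _
  · rw [map_zero]; exact zero_lt_one

theorem exists_lift {p : ℕ} [Fact p.Prime] {V : ValuationSubring ℂ} (hV : V.valuation (p : ℂ) < 1) {z : ℂ}
    (hz : z ∈ V) (hF : V.valuation (z ^ p - z) < 1) :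
    ∃ (τ : ℍ) (B : M2), B.det = p ∧ gl B • τ = τ ∧ V.valuation (jInv τ - z) < 1 := by
  have hp : p.Prime := Fact.out
  have : NeZero p := ⟨hp.ne_zero⟩
  obtain ⟨Φ, -, hΦ, hE⟩ := kronecker p V hV
  set E : Polynomial (Polynomial ℂ) := Φ - (Polynomial.X - Polynomial.C (Polynomial.X ^ p)) *
    (Polynomial.X ^ p - Polynomial.C Polynomial.X) with hEd
  set f : Polynomial ℂ := Φ.eval Polynomial.X with hfd
  set g : Polynomial ℂ := (Polynomial.X - Polynomial.X ^ p) * (Polynomial.X ^ p - Polynomial.X) with hgd
  have hfg : f = E.eval Polynomial.X + g := by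
    rw [hEd, hfd, hgd]
    simp
  have hgc : g.coeff (2 * p) = -1 := by
    have h1 : g = -(Polynomial.X ^ p - Polynomial.X) * (Polynomial.X ^ p - Polynomial.X) := by
      rw [hgd]; ring
    have h2 : (Polynomial.X ^ p - Polynomial.X : Polynomial ℂ).Monic := by
      refine Polynomial.monic_X_pow_sub ?_
      rw [Polynomial.degree_X]
      exact_mod_cast hp.one_lt
    have h3 : (Polynomial.X ^ p - Polynomial.X : Polynomial ℂ).natDegree = p := by
      exact FiniteField.X_pow_card_sub_X_natDegree_eq ℂ hp.one_lt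
    have h4 := (h2.mul h2).coeff_natDegree
    rw [h2.natDegree_mul h2, h3, ← two_mul] at h4
    rw [h1, neg_mul, Polynomial.coeff_neg, h4]
  have hfc : 1 ≤ V.valuation (f.coeff (2 * p)) := by
    have h1 : f.coeff (2 * p) = (E.eval Polynomial.X).coeff (2 * p) + (-1) := by
      rw [hfg, Polynomial.coeff_add, hgc]
    have h2 := lz_coeff_diag_lt E hE (2 * p)
    have h3 : V.valuation (-1 : ℂ) = 1 := by rw [Valuation.map_neg, map_one]
    have h4 : V.valuation ((E.eval Polynomial.X).coeff (2 * p) + (-1)) = V.valuation (-1 : ℂ) := by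
      refine V.valuation.map_add_eq_of_lt_right ?_
      rw [h3]; exact h2
    rw [h1, h4, h3]
  have hfz : V.valuation (f.eval z) < 1 := by
    rw [hfg, Polynomial.eval_add]
    refine V.valuation.map_add_lt ?_ ?_
    · rw [Polynomial.eval_eq_sum, Polynomial.sum_def]
      refine Valuation.map_sum_lt V.valuation one_ne_zero fun i _ => ?_
      rw [map_mul, map_pow]
      have h1 := lz_coeff_diag_lt E hE i
      have h2 : V.valuation z ^ i ≤ 1 := pow_le_one₀ zero_le ((V.valuation_le_one_iff _).mpr hz)
      calc _ ≤ V.valuation ((E.eval Polynomial.X).coeff i) * 1 := mul_le_mul_right h2 _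
        _ < 1 := by rw [mul_one]; exact h1
    · have h1 : g.eval z = -((z ^ p - z) * (z ^ p - z)) := by
        rw [hgd]
        simp only [Polynomial.eval_mul, Polynomial.eval_sub, Polynomial.eval_pow, Polynomial.eval_X]
        ring
      rw [h1, Valuation.map_neg, map_mul]
      calc _ ≤ V.valuation (z ^ p - z) * 1 := mul_le_mul_right hF.le _
        _ < 1 := by rw [mul_one]; exact hF
  obtain ⟨ρ, hρ0, hρ⟩ := lz_root_close hz f (2 * p) hfc hfz
  obtain ⟨τ, rfl⟩ := jInv_surj ρ
  rw [hfd, lz_eval_eval_X, hΦ, Polynomial.eval_prod, Finset.prod_eq_zero_iff] at hρ0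
  obtain ⟨q, -, hq⟩ := hρ0
  rw [Polynomial.eval_sub, Polynomial.eval_X, Polynomial.eval_C, sub_eq_zero] at hq
  obtain ⟨γ, hγ⟩ := jInv_inj hq.symm
  have hdr : (rep q).1.det = p := (rep q).2
  have hp0 : (0 : ℤ) < p := by exact_mod_cast hp.pos
  refine ⟨τ, γ.1 * (rep q).1, ?_, ?_, hρ⟩
  · rw [Matrix.det_mul, γ.2, one_mul, hdr]
  · rw [gl_mul_smul (by rw [γ.2]; exact one_pos) (by rw [hdr]; exact hp0), gl_sl_smul, gl_toGL (rep q)]
    exact hγ

end Pool.Agent.ZPOrd
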