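import Pool.Agent.ZPOrd.CMDisc
import Pool.Agent.ZPOrd.IsoDisc
import Pool.Agent.ZPOrd.Lift
import Pool.Agent.ZPOrd.Conj
import Pool.Agent.ZPOrd.CountRed
import Pool.Agent.ZPOrd.Nbr

/-!
The Frobenius discriminant of a residue class modulo a place over `p`.
-/

open UpperHalfPlane hiding I
open MatrixGroups

namespace Pool.Agent.ZPOrd

open Pool.Agent.Lib.ModularZP

open Classical in
/-- the Frobenius discriminant of the residue class of an ordinary lift, 0 if there is none -/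
noncomputable def dsc (p : ℕ) (V : ValuationSubring ℂ) (α : ZMod p) : ℤ :=
  if h : ∃ x : ℍ × M2, OrdLift p V x.1 x.2 ∧ V.valuation (jInv x.1 - (α.val : ℂ)) < 1 then h.choose.2.trace ^ 2 - 4 * (p : ℤ) else 0

namespace Dsc

lemma dsc_spec (p : ℕ) (V : ValuationSubring ℂ) (α : ZMod p) : dsc p V α = 0 ∨
    ∃ x : ℍ × M2, OrdLift p V x.1 x.2 ∧ V.valuation (jInv x.1 - (α.val : ℂ)) < 1 ∧
      dsc p V α = x.2.trace ^ 2 - 4 * (p : ℤ) := by
  by_cases h : ∃ x : ℍ × M2, OrdLift p V x.1 x.2 ∧ V.valuation (jInv x.1 - (α.val : ℂ)) < 1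
  · right
    refine ⟨h.choose, h.choose_spec.1, h.choose_spec.2, ?_⟩
    unfold dsc
    rw [dif_pos h]
  · left
    unfold dsc
    rw [dif_neg h]

lemma int_mem (V : ValuationSubring ℂ) (k : ℤ) : V.valuation (k : ℂ) ≤ 1 := by
  rw [V.valuation_le_one_iff]
  exact intCast_mem V k

lemma val_of_eq {p : ℕ} {V : ValuationSubring ℂ} (hV : V.valuation (p : ℂ) < 1) {a b : ℤ}
    (h : (a : ZMod p) = (b : ZMod p)) : V.valuation ((a : ℂ) - (b : ℂ)) < 1 := by
  have h1 : (p : ℤ) ∣ a - b := by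
    rw [← ZMod.intCast_zmod_eq_zero_iff_dvd]
    push_cast
    rw [h, sub_self]
  obtain ⟨k, hk⟩ := h1
  have h2 : (a : ℂ) - (b : ℂ) = (p : ℂ) * (k : ℂ) := by
    have := congrArg (fun z : ℤ => (z : ℂ)) hk
    push_cast at this
    exact this
  rw [h2, map_mul]
  exact mul_lt_one_of_lt_of_le hV (int_mem V k)

lemma eq_of_val {p : ℕ} (hp : p.Prime) {V : ValuationSubring ℂ} (hV : V.valuation (p : ℂ) < 1) {a b : ℤ}
    (h : V.valuation ((a : ℂ) - (b : ℂ)) < 1) : (a : ZMod p) = (b : ZMod p) := by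
  by_contra hne
  have h1 : ¬ (p : ℤ) ∣ a - b := by
    rw [← ZMod.intCast_zmod_eq_zero_iff_dvd]
    push_cast
    rwa [sub_eq_zero]
  have hc : IsCoprime (p : ℤ) (a - b) := (Prime.coprime_iff_not_dvd (Nat.prime_iff_prime_int.1 hp)).2 h1
  obtain ⟨u, w, huw⟩ := hc
  have h2 : (1 : ℂ) = (u : ℂ) * (p : ℂ) + (w : ℂ) * ((a : ℂ) - (b : ℂ)) := by
    have := congrArg (fun z : ℤ => (z : ℂ)) huw
    push_cast at this
    exact this.symm
  have h3 : V.valuation (1 : ℂ) < 1 := by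
    rw [h2]
    apply Valuation.map_add_lt
    · rw [map_mul, mul_comm]; exact mul_lt_one_of_lt_of_le hV (int_mem V u)
    · rw [map_mul, mul_comm]; exact mul_lt_one_of_lt_of_le h (int_mem V w)
  rw [map_one] at h3
  exact lt_irrefl _ h3

/-- the chosen class representative -/
lemma close {p : ℕ} {V : ValuationSubring ℂ} (hV : V.valuation (p : ℂ) < 1) [NeZero p] {m : ℤ} {z w : ℂ}
    (hm : V.valuation (z - (m : ℂ)) < 1) (hw : V.valuation (w - (((m : ZMod p)).val : ℂ)) < 1) :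
    V.valuation (z - w) < 1 := by
  have h1 : V.valuation ((m : ℂ) - ((((m : ZMod p)).val : ℤ) : ℂ)) < 1 := by
    apply val_of_eq hV
    push_cast
    rw [ZMod.natCast_zmod_val]
  have h2 : z - w = (z - (m : ℂ)) + (((m : ℂ) - ((((m : ZMod p)).val : ℤ) : ℂ)) - (w - (((m : ZMod p)).val : ℂ))) := by
    push_cast
    ring
  rw [h2]
  apply Valuation.map_add_lt _ hm
  exact (V.valuation.map_sub _ _).trans_lt (max_lt h1 hw)

/-- the quadratic equation of a fixed point -/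
lemma fix_coords {τ : ℍ} {B : M2} (hB : 0 < B.det) (hf : gl B • τ = τ) :
    2 * (B 1 0 : ℝ) * τ.re = (B 0 0 : ℝ) - (B 1 1 : ℝ) ∧
      (B 0 1 : ℝ) = -(B 1 0 : ℝ) * (τ.re ^ 2 + τ.im ^ 2) := by
  have h1 := gl_smul_coe hB τ
  rw [hf] at h1
  have hden : (B 1 0 : ℂ) * τ + (B 1 1 : ℂ) ≠ 0 := by
    intro h0
    have hre := congrArg Complex.re h0
    have him := congrArg Complex.im h0
    simp at hre him
    have hc : B 1 0 = 0 := by
      rcases him with h | h
      · exact h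
      · exact absurd h τ.im_pos.ne'
    rw [hc] at hre
    simp at hre
    rw [Matrix.det_fin_two, hc, hre] at hB
    simp at hB
  rw [eq_div_iff hden] at h1
  have hre := congrArg Complex.re h1
  have him := congrArg Complex.im h1
  simp at hre him
  have hy := τ.im_pos
  have hA : 2 * (B 1 0 : ℝ) * τ.re = (B 0 0 : ℝ) - (B 1 1 : ℝ) := by
    have : τ.im * (2 * (B 1 0 : ℝ) * τ.re - ((B 0 0 : ℝ) - (B 1 1 : ℝ))) = 0 := by
      linear_combination him
    have := (mul_eq_zero.1 this).resolve_left hy.ne'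
    linarith
  refine ⟨hA, ?_⟩
  linear_combination (-1 : ℝ) * hre + τ.re * hA

lemma disc_neg {τ : ℍ} {B : M2} (hB : 0 < B.det) (hf : gl B • τ = τ) (hc : B 1 0 ≠ 0) :
    B.trace ^ 2 < 4 * B.det := by
  obtain ⟨h1, h2⟩ := fix_coords hB hf
  have hc' : (B 1 0 : ℝ) ≠ 0 := by exact_mod_cast hc
  have hy := τ.im_pos
  have h3 : ((B.trace ^ 2 : ℤ) : ℝ) < ((4 * B.det : ℤ) : ℝ) := by
    rw [Matrix.trace_fin_two, Matrix.det_fin_two]
    push_cast
    have hpos : 0 < (B 1 0 : ℝ) ^ 2 * τ.im ^ 2 := by positivity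
    have : ((B 0 0 : ℝ) + (B 1 1 : ℝ)) ^ 2 - 4 * ((B 0 0 : ℝ) * (B 1 1 : ℝ) - (B 0 1 : ℝ) * (B 1 0 : ℝ)) =
        - (4 * ((B 1 0 : ℝ) ^ 2 * τ.im ^ 2)) := by
      rw [h2]
      linear_combination (-(2 * (B 1 0 : ℝ) * τ.re) - ((B 0 0 : ℝ) - (B 1 1 : ℝ))) * h1
    linarith
  exact_mod_cast h3

lemma ten_ne_zero {p : ℕ} (hp : p.Prime) {τ : ℍ} {B : M2} (hB : B.det = p) (hf : gl B • τ = τ) : B 1 0 ≠ 0 := by
  intro hc
  have hB0 : 0 < B.det := by rw [hB]; exact_mod_cast hp.pos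
  obtain ⟨h1, h2⟩ := fix_coords hB0 hf
  rw [hc] at h1 h2
  simp at h1 h2
  have h3 : B 0 0 = B 1 1 := by
    have : (B 0 0 : ℝ) = (B 1 1 : ℝ) := by linarith
    exact_mod_cast this
  rw [Matrix.det_fin_two, hc, h3] at hB
  have h4 : IsSquare (p : ℤ) := ⟨B 1 1, by linarith⟩
  exact (Nat.prime_iff_prime_int.1 hp).not_isSquare h4

lemma fix_unique {τ τ' : ℍ} {B : M2} (hB : 0 < B.det) (hf : gl B • τ = τ) (hf' : gl B • τ' = τ')
    (hc : B 1 0 ≠ 0) : τ = τ' := by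
  obtain ⟨h1, h2⟩ := fix_coords hB hf
  obtain ⟨h3, h4⟩ := fix_coords hB hf'
  have hc' : (B 1 0 : ℝ) ≠ 0 := by exact_mod_cast hc
  have hre : τ.re = τ'.re := by
    have : (2 * (B 1 0 : ℝ)) * (τ.re - τ'.re) = 0 := by linarith
    have := (mul_eq_zero.1 this).resolve_left (by positivity)
    linarith
  have him2 : τ.im ^ 2 = τ'.im ^ 2 := by
    have : (B 1 0 : ℝ) * (τ.im ^ 2 - τ'.im ^ 2) = 0 := by
      rw [hre] at h2
      linarith
    have := (mul_eq_zero.1 this).resolve_left hc'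
    linarith
  have him : τ.im = τ'.im := by
    have h5 := τ.im_pos
    have h6 := τ'.im_pos
    nlinarith
  exact UpperHalfPlane.ext (Complex.ext hre him)

lemma fix_conj {τ : ℍ} {B B' : M2} (hB : 0 < B.det) (hf : gl B • τ = τ) {γ : SL(2, ℤ)}
    (h : B' * γ.1 = γ.1 * B) (hB' : 0 < B'.det) : gl B' • (γ • τ) = γ • τ := by
  have hγ : 0 < (γ.1).det := by rw [γ.2]; exact one_pos
  rw [← gl_sl_smul, ← gl_mul_smul hB' hγ, h, gl_mul_smul hγ hB, hf]

lemma det_conj {B B' : M2} {γ : SL(2, ℤ)} (h : B' * γ.1 = γ.1 * B) : B'.det = B.det := by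
  have h1 := congrArg Matrix.det h
  rw [Matrix.det_mul, Matrix.det_mul, γ.2, mul_one, one_mul] at h1
  exact h1

lemma trace_conj {B B' : M2} {γ : SL(2, ℤ)} (h : B' * γ.1 = γ.1 * B) : B'.trace = B.trace := by
  have h1 : γ.1 * Matrix.adjugate γ.1 = 1 := by rw [Matrix.mul_adjugate, γ.2, one_smul]
  have h2 : Matrix.adjugate γ.1 * γ.1 = 1 := by rw [Matrix.adjugate_mul, γ.2, one_smul]
  have h3 : B' = γ.1 * B * Matrix.adjugate γ.1 := by
    rw [← h, mul_assoc, h1, mul_one]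
  rw [h3, mul_assoc, Matrix.trace_mul_comm, mul_assoc, h2, mul_one]

/-- every bad class has a lift with a reduced matrix -/
lemma exists_data {p : ℕ} [Fact p.Prime] (hp5 : 5 ≤ p) {V : ValuationSubring ℂ}
    (hV : V.valuation (p : ℂ) < 1) {D : ℤ} {α : ZMod p} (hα : dsc p V α = 0 ∨ IsSquare (D * dsc p V α)) :
    ∃ (τ : ℍ) (B : M2), B.det = p ∧ gl B • τ = τ ∧ V.valuation (jInv τ - (α.val : ℂ)) < 1 ∧
      (B.trace = 0 ∨ IsSquare (D * (B.trace ^ 2 - 4 * (p : ℤ)))) := by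
  have hp : p.Prime := Fact.out
  have hpi : Prime (p : ℤ) := Nat.prime_iff_prime_int.1 hp
  by_cases h0 : dsc p V α = 0
  · have hzV : ((α.val : ℕ) : ℂ) ∈ V := natCast_mem V _
    have hzF : V.valuation (((α.val : ℕ) : ℂ) ^ p - ((α.val : ℕ) : ℂ)) < 1 := by
      have : V.valuation ((((α.val : ℤ) ^ p : ℤ) : ℂ) - (((α.val : ℤ) : ℤ) : ℂ)) < 1 := by
        apply val_of_eq hV
        push_cast
        rw [ZMod.pow_card]
      simpa using this
    obtain ⟨τ, B, hdet, hfix, hval⟩ := exists_lift hV hzV hzF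
    refine ⟨τ, B, hdet, hfix, hval, Or.inl ?_⟩
    have hpt : (p : ℤ) ∣ B.trace := by
      by_contra hnt
      have hmem : jInv τ ∈ V := by
        have h1 : jInv τ - ((α.val : ℕ) : ℂ) ∈ V := (V.valuation_le_one_iff _).1 hval.le
        have := V.add_mem _ _ h1 hzV
        simpa using this
      have hord : OrdLift p V τ B := by
        refine ⟨hdet, hnt, hfix, hmem, ?_⟩
        obtain ⟨c, hc⟩ := sub_dvd_pow_sub_pow (⟨jInv τ, hmem⟩ : V) ⟨((α.val : ℕ) : ℂ), hzV⟩ p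
        have hc' : jInv τ ^ p - ((α.val : ℕ) : ℂ) ^ p = (jInv τ - ((α.val : ℕ) : ℂ)) * (c : ℂ) := by
          have := congrArg (fun z : V => (z : ℂ)) hc
          simpa using this
        have hcv : V.valuation (c : ℂ) ≤ 1 := V.valuation_le_one c
        have e : jInv τ ^ p - jInv τ = (jInv τ ^ p - ((α.val : ℕ) : ℂ) ^ p) +
            ((((α.val : ℕ) : ℂ) ^ p - ((α.val : ℕ) : ℂ)) - (jInv τ - ((α.val : ℕ) : ℂ))) := by ring
        rw [e]
        apply Valuation.map_add_lt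
        · rw [hc', map_mul]
          exact mul_lt_one_of_lt_of_le hval hcv
        · exact (V.valuation.map_sub _ _).trans_lt (max_lt hzF hval)
      have hex : ∃ x : ℍ × M2, OrdLift p V x.1 x.2 ∧ V.valuation (jInv x.1 - (α.val : ℂ)) < 1 :=
        ⟨(τ, B), hord, hval⟩
      have h1 : dsc p V α = hex.choose.2.trace ^ 2 - 4 * (p : ℤ) := by
        unfold dsc
        rw [dif_pos hex]
      rw [h0] at h1
      apply hex.choose_spec.1.tr
      apply hpi.dvd_of_dvd_pow (n := 2)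
      exact ⟨4, by linarith⟩
    have hlt := disc_neg (by rw [hdet]; exact_mod_cast hp.pos) hfix (ten_ne_zero hp hdet hfix)
    rw [hdet] at hlt
    obtain ⟨k, hk⟩ := hpt
    have hp5' : (5 : ℤ) ≤ (p : ℤ) := by exact_mod_cast hp5
    by_contra hne
    have hk0 : k ≠ 0 := by
      rintro rfl
      exact hne (by rw [hk, mul_zero])
    have hk1 : 1 ≤ k ^ 2 := by
      have := sq_nonneg k
      have h2 : k ^ 2 ≠ 0 := pow_ne_zero 2 hk0
      omega
    rw [hk] at hlt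
    nlinarith [mul_le_mul_of_nonneg_left hk1 (sq_nonneg (p : ℤ))]
  · rcases dsc_spec p V α with h | ⟨x, hx1, hx2, hx3⟩
    · exact absurd h h0
    · refine ⟨x.1, x.2, hx1.det, hx1.fix, hx2, Or.inr ?_⟩
      rw [← hx3]
      exact hα.resolve_left h0

end Dsc

open Dsc

theorem dsc_cm {p : ℕ} [Fact p.Prime] (hp2 : p ≠ 2) {V : ValuationSubring ℂ} (hV : V.valuation (p : ℂ) < 1) {m : ℤ} {τ : ℍ} {G : M2} (hG : 0 < G.det) (hGf : gl G • τ = τ) (hGn : G 1 0 ≠ 0) (hm : V.valuation (jInv τ - (m : ℂ)) < 1) : dsc p V (m : ZMod p) = 0 ∨ IsSquare ((G.trace ^ 2 - 4 * G.det) * dsc p V (m : ZMod p)) := by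
  rcases dsc_spec p V (m : ZMod p) with h | ⟨x, hx1, hx2, hx3⟩
  · exact Or.inl h
  · right
    rw [hx3]
    exact cm_disc hp2 hV hx1 hG hGf hGn (close hV hm hx2)

theorem dsc_iso {p : ℕ} [Fact p.Prime] {V : ValuationSubring ℂ} (hV : V.valuation (p : ℂ) < 1) {m m' : ℤ} {τ : ℍ} {M : M2} (hM : 0 < M.det) (hm : V.valuation (jInv τ - (m : ℂ)) < 1) (hm' : V.valuation (jInv (gl M • τ) - (m' : ℂ)) < 1) : dsc p V (m : ZMod p) = 0 ∨ dsc p V (m' : ZMod p) = 0 ∨ IsSquare (dsc p V (m : ZMod p) * dsc p V (m' : ZMod p)) := by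
  rcases dsc_spec p V (m : ZMod p) with h | ⟨x, hx1, hx2, hx3⟩
  · exact Or.inl h
  · rcases dsc_spec p V (m' : ZMod p) with h' | ⟨y, hy1, hy2, hy3⟩
    · exact Or.inr (Or.inl h')
    · right; right
      rw [hx3, hy3]
      exact iso_disc hV hx1 hy1 hM (close hV hm hx2) (close hV hm' hy2)

open Classical in
theorem dsc_count (ε : ℝ) (hε : 0 < ε) : ∃ p₀ : ℕ, ∀ p : ℕ, ∀ (hp : Fact p.Prime), p₀ ≤ p → ∀ V : ValuationSubring ℂ, V.valuation (p : ℂ) < 1 → ∀ D : ℤ, D ≠ 0 → (((Finset.univ : Finset (ZMod p)).filter fun α => dsc p V α = 0 ∨ IsSquare (D * dsc p V α)).card : ℝ) ≤ ε * p := by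
  obtain ⟨p₀, hp₀⟩ := count_reduced ε hε
  refine ⟨max p₀ 5, fun p hp hpp V hV D hD => ?_⟩
  have hp' : p.Prime := Fact.out
  have hdata : ∀ α : ZMod p, (dsc p V α = 0 ∨ IsSquare (D * dsc p V α)) →
      ∃ (τ : ℍ) (B' : M2), B'.det = p ∧ gl B' • τ = τ ∧ V.valuation (jInv τ - (α.val : ℂ)) < 1 ∧
        (B'.trace = 0 ∨ IsSquare (D * (B'.trace ^ 2 - 4 * (p : ℤ)))) ∧
        |B' 0 0 - B' 1 1| ≤ |B' 1 0| ∧ |B' 1 0| ≤ |B' 0 1| ∧ B' 0 1 * B' 1 0 < 0 := by
    intro α hα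
    obtain ⟨τ, B, hdet, hfix, hval, htr⟩ := exists_data (le_trans (le_max_right _ _) hpp) hV hα
    have hpos : 0 < B.det := by rw [hdet]; exact_mod_cast hp'.pos
    obtain ⟨γ, B', hc, h1, h2, h3⟩ := exists_reduced hpos hfix (ten_ne_zero hp' hdet hfix)
    have hd := det_conj hc
    refine ⟨γ • τ, B', hd.trans hdet, fix_conj hpos hfix hc (by rw [hd]; exact hpos), ?_, ?_, h1, h2, h3⟩
    · rw [jInv_smul]; exact hval
    · rw [trace_conj hc]; exact htr
  choose! T M hM1 hM2 hM3 hM4 hM5 hM6 hM7 using hdata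
  set F := (Finset.univ : Finset (ZMod p)).filter fun α => dsc p V α = 0 ∨ IsSquare (D * dsc p V α) with hF
  have hmem : ∀ α ∈ F, (dsc p V α = 0 ∨ IsSquare (D * dsc p V α)) := fun α hα => (Finset.mem_filter.1 hα).2
  set f : ZMod p → ℤ × ℤ × ℤ × ℤ := fun α => (M α 0 0, M α 0 1, M α 1 0, M α 1 1) with hf
  have hinj : Set.InjOn f F := by
    intro α hα β hβ hab
    have hα' := hmem α hα
    have hβ' := hmem β hβ
    simp only [hf, Prod.mk.injEq] at hab
    have hMM : M α = M β := by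
      ext i j
      fin_cases i <;> fin_cases j
      · exact hab.1
      · exact hab.2.1
      · exact hab.2.2.1
      · exact hab.2.2.2
    have hne : M α 1 0 ≠ 0 := by
      intro h
      have := hM7 α hα'
      rw [h] at this
      simp at this
    have hTT : T α = T β := by
      apply fix_unique (B := M α) (by rw [hM1 α hα']; exact_mod_cast hp'.pos) (hM2 α hα') _ hne
      rw [hMM]
      exact hM2 β hβ'
    have h1 := hM3 α hα'
    have h2 := hM3 β hβ'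
    rw [hTT] at h1
    have h3 : V.valuation ((((α.val : ℕ) : ℤ) : ℂ) - (((β.val : ℕ) : ℤ) : ℂ)) < 1 := by
      have e : ((((α.val : ℕ) : ℤ) : ℂ) - (((β.val : ℕ) : ℤ) : ℂ)) =
          (jInv (T β) - (β.val : ℂ)) - (jInv (T β) - (α.val : ℂ)) := by
        push_cast
        ring
      rw [e]
      exact (V.valuation.map_sub _ _).trans_lt (max_lt h2 h1)
    have h4 := eq_of_val hp' hV h3
    push_cast at h4
    rwa [ZMod.natCast_zmod_val, ZMod.natCast_zmod_val] at h4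
  have hcard : (F.image f).card = F.card := Finset.card_image_of_injOn hinj
  rw [← hcard]
  apply hp₀ p hp' (le_trans (le_max_left _ _) hpp) D hD
  intro s hs
  obtain ⟨α, hα, rfl⟩ := Finset.mem_image.1 hs
  have hα' := hmem α hα
  simp only [hf]
  refine ⟨?_, hM5 α hα', hM6 α hα', hM7 α hα', ?_⟩
  · have := hM1 α hα'
    rw [Matrix.det_fin_two] at this
    exact this
  · have := hM4 α hα'
    rw [Matrix.trace_fin_two] at this
    exact this

end Pool.Agent.ZPOrd
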