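import Mathlib
import Pool.Agent.ZPOrd.Crit
import Pool.Agent.ZPOrd.Dsc

/-!
The residual discriminants satisfy the axioms of `DiscFn`.
-/

open UpperHalfPlane hiding I
open MatrixGroups

namespace Pool.Agent.ZPOrd

open Pool.Agent.Lib.ModularZP

theorem discFn_dsc : DiscFn dsc where
  cm := by
    rintro τ ⟨a, b, c, ha, hq⟩
    have him : 0 < (τ : ℂ).im := τ.im_pos
    have haR : (a : ℝ) ≠ 0 := by exact_mod_cast ha
    have him2 : 2 * (a : ℝ) * (τ : ℂ).re + b = 0 := by
      have h2 := congrArg Complex.im hq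
      simp only [pow_two, Complex.add_im, Complex.mul_im, Complex.intCast_re, Complex.intCast_im, zero_mul, add_zero,
        Complex.zero_im] at h2
      have h3 : (2 * (a : ℝ) * (τ : ℂ).re + b) * (τ : ℂ).im = 0 := by linarith
      exact (mul_eq_zero.mp h3).resolve_right him.ne'
    have hre : (a : ℝ) * ((τ : ℂ).re ^ 2 - (τ : ℂ).im ^ 2) + b * (τ : ℂ).re + c = 0 := by
      have h2 := congrArg Complex.re hq
      simp only [pow_two, Complex.add_re, Complex.mul_re, Complex.intCast_re, Complex.intCast_im, zero_mul, sub_zero,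
        Complex.zero_re] at h2
      linarith
    have hD : ((b ^ 2 - 4 * a * c : ℤ) : ℝ) = -(4 * (a : ℝ) ^ 2 * (τ : ℂ).im ^ 2) := by
      push_cast
      have hb : (b : ℝ) = -(2 * (a : ℝ) * (τ : ℂ).re) := by linarith
      have hc : (c : ℝ) = -((a : ℝ) * ((τ : ℂ).re ^ 2 - (τ : ℂ).im ^ 2) + b * (τ : ℂ).re) := by linarith
      rw [hc, hb]
      ring
    have hDneg : b ^ 2 - 4 * a * c < 0 := by
      have h1 : ((b ^ 2 - 4 * a * c : ℤ) : ℝ) < 0 := by
        rw [hD]
        have : 0 < (a : ℝ) ^ 2 := by positivity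
        have : 0 < (τ : ℂ).im ^ 2 := by positivity
        have : 0 < (a : ℝ) ^ 2 * (τ : ℂ).im ^ 2 := by positivity
        linarith
      exact_mod_cast h1
    set G : M2 := !![0, -c; a, b] with hG
    have hdet : G.det = a * c := by rw [hG, Matrix.det_fin_two_of]; ring
    have htr : G.trace = b := by rw [hG, Matrix.trace_fin_two_of]; ring
    have hdetpos : 0 < G.det := by
      rw [hdet]
      nlinarith [sq_nonneg b]
    have hfix : gl G • τ = τ := by
      apply UpperHalfPlane.ext_iff.mpr
      rw [gl_smul_coe hdetpos]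
      have e1 : G 0 0 = 0 := rfl
      have e2 : G 0 1 = -c := rfl
      have e3 : G 1 0 = a := rfl
      have e4 : G 1 1 = b := rfl
      rw [e1, e2, e3, e4]
      have hden : (a : ℂ) * τ + b ≠ 0 := by
        intro h
        have h2 := congrArg Complex.im h
        simp only [Complex.add_im, Complex.mul_im, Complex.intCast_re, Complex.intCast_im, zero_mul, add_zero, Complex.zero_im] at h2
        rcases mul_eq_zero.mp h2 with h3 | h3
        · exact haR h3
        · exact him.ne' h3
      rw [div_eq_iff hden]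
      push_cast
      linear_combination -hq
    refine ⟨b ^ 2 - 4 * a * c, hDneg.ne, fun p V m hp hp2 hV hm => ?_⟩
    have : Fact p.Prime := ⟨hp⟩
    have h := dsc_cm hp2 hV hdetpos hfix (show G 1 0 ≠ 0 from ha) hm
    rw [htr, hdet, ← mul_assoc] at h
    exact h
  iso := by
    intro p V m m' τ h hp hV hdet hm hm'
    have : Fact p.Prime := ⟨hp⟩
    obtain ⟨N, hN, B, hB⟩ := exists_toGL h hdet
    rw [← hB τ, ← gl_toGL] at hm'
    refine dsc_iso hV ?_ hm hm'
    rw [B.2]
    exact_mod_cast Nat.pos_of_ne_zero hN.ne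

end Pool.Agent.ZPOrd
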