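import Mathlib
import Pool.Agent.ZPOrd.PairSieve
import Pool.Agent.Lib.ModularZP.AffDens

/-!
Almost all vectors of rational coefficients have two good private primes in every coefficient with
independent residual discriminants.
-/

open Filter Topology

namespace Pool.Agent.ZPOrd

open Pool.Agent.Lib.ModularZP Pool.Agent.ZP46 Finset

/-- good reduction data at `p`, with residual discriminants `d` -/
structure RedA {n N : ℕ} (d : ∀ p : ℕ, ValuationSubring ℂ → ZMod p → ℤ) (S : Finset ℂ)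
    (T E : Fin n → Finset (Fin (N + 1) → ℂ)) (c : Fin n → Fin N → ℂ) (i : Fin n) (l : Fin N) (p : ℕ)
    (V : ValuationSubring ℂ) (ρ : Fin n → (Fin (N + 1) → ℂ) → ℤ) : Prop where
  prime : p.Prime
  two : p ≠ 2
  val : V.valuation (p : ℂ) < 1
  good : GoodA S T c i l V
  res : ∀ j, j ≠ i → ∀ e ∈ E j, V.valuation (e 0 + ∑ k : Fin N, c j k * e k.succ - (ρ j e : ℂ)) < 1
  ord : ∀ j, j ≠ i → ∀ e ∈ E j, d p V (ρ j e : ZMod p) ≠ 0
  cross : ∀ j k, j ≠ i → k ≠ i → j ≠ k → ∀ e ∈ E j, ∀ e' ∈ E k,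
    ¬ IsSquare (d p V (ρ j e : ZMod p) * d p V (ρ k e' : ZMod p))

section events

variable {ι : Type*} [Fintype ι] [DecidableEq ι] (s₀ : ι) {p : ℕ} [Fact p.Prime]

/-- an event whose fibres along one numerator are small -/
lemma event_fiber (s : ι) (hs : s ≠ s₀) (B : ℕ) (Bad : (ι ⊕ ι → ZMod p) → Prop) [DecidablePred Bad]
    (h : ∀ x ∈ boxS s₀ p, ((univ : Finset (ZMod p)).filter fun v => Bad (Function.update x (Sum.inl s) v)).card ≤ B) :
    p * ((boxS s₀ p).filter Bad).card ≤ B * (boxS s₀ p).card := by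
  classical
  have hp : 1 < p := (Fact.out : p.Prime).one_lt
  have : NeZero p := ⟨by omega⟩
  refine fiber _ (Sum.inl s) ?_ Bad B ?_
  · intro x hx v
    rw [mem_boxS] at hx ⊢
    obtain ⟨h1, h2, h3⟩ := hx
    refine ⟨?_, ?_, fun s' hs' => ?_⟩
    · rwa [Function.update_of_ne (by simp)]
    · rwa [Function.update_of_ne (by simpa using hs.symm)]
    · rw [Function.update_of_ne (by simp)]
      exact h3 s' hs'
  · intro x hx
    refine le_trans (le_of_eq ?_) (h x hx)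
    congr

omit [DecidableEq ι] in
open Classical in
/-- most of the box avoids few small events -/
lemma card_events {β : Type*} (Ev : Finset β) (Bad : β → (ι ⊕ ι → ZMod p) → Prop) (B : ℕ) (hB : 0 < B)
    (P : (ι ⊕ ι → ZMod p) → Prop) (hP : ∀ x ∈ boxS s₀ p, ¬ P x → ∃ b ∈ Ev, Bad b x)
    (h : ∀ b ∈ Ev, p * ((boxS s₀ p).filter (Bad b)).card ≤ B * (boxS s₀ p).card)
    (hp1 : 2 * ((Ev.card + 1) * B) ≤ p) (hp2 : 4 * Fintype.card ι ≤ p) :
    p ^ (2 * Fintype.card ι) ≤ 4 * p * ((boxS s₀ p).filter P).card := by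
  refine card_of_compl s₀ (C := (Ev.card + 1) * B) (Nat.mul_pos (Nat.succ_pos _) hB) P ?_ hp1 hp2
  have hsub : ((boxS s₀ p).filter fun x => ¬ P x) ⊆ Ev.biUnion fun b => (boxS s₀ p).filter (Bad b) := by
    intro x hx
    rw [mem_filter] at hx
    obtain ⟨b, hb, hbx⟩ := hP x hx.1 hx.2
    rw [mem_biUnion]
    exact ⟨b, hb, mem_filter.mpr ⟨hx.1, hbx⟩⟩
  calc p * ((boxS s₀ p).filter fun x => ¬ P x).card
      ≤ p * ∑ b ∈ Ev, ((boxS s₀ p).filter (Bad b)).card :=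
        Nat.mul_le_mul_left _ ((card_le_card hsub).trans card_biUnion_le)
    _ = ∑ b ∈ Ev, p * ((boxS s₀ p).filter (Bad b)).card := mul_sum _ _ _
    _ ≤ ∑ _b ∈ Ev, B * (boxS s₀ p).card := sum_le_sum h
    _ = Ev.card * B * (boxS s₀ p).card := by rw [sum_const, smul_eq_mul, mul_assoc]
    _ ≤ (Ev.card + 1) * B * (boxS s₀ p).card :=
        Nat.mul_le_mul_right _ (Nat.mul_le_mul_right _ (Nat.le_succ _))

end events

section forms

variable {n N : ℕ} {p : ℕ} [Fact p.Prime]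

/-- the value of the affine form `e` at the `j`-th coefficient vector modulo `p` -/
def al (r : ℂ → ZMod p) (x : (Fin n × Fin N) ⊕ (Fin n × Fin N) → ZMod p) (j : Fin n)
    (e : Fin (N + 1) → ℂ) : ZMod p :=
  r (e 0) + ∑ k : Fin N, x (Sum.inl (j, k)) / x (Sum.inr (j, k)) * r (e k.succ)

lemma al_update_ne (r : ℂ → ZMod p) (x : (Fin n × Fin N) ⊕ (Fin n × Fin N) → ZMod p) {j k : Fin n} (h : k ≠ j)
    (m : Fin N) (v : ZMod p) (e : Fin (N + 1) → ℂ) :
    al r (Function.update x (Sum.inl (j, m)) v) k e = al r x k e := by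
  unfold al
  congr 1
  refine sum_congr rfl fun l _ => ?_
  rw [Function.update_of_ne (by
    intro h'
    exact h (Prod.ext_iff.mp (Sum.inl.inj h')).1), Function.update_of_ne (by simp)]

lemma al_update_inj (r : ℂ → ZMod p) (x : (Fin n × Fin N) ⊕ (Fin n × Fin N) → ZMod p) (j : Fin n)
    (m : Fin N) (e : Fin (N + 1) → ℂ) (hx : x (Sum.inr (j, m)) ≠ 0) (he : r (e m.succ) ≠ 0) :
    Function.Injective fun v => al r (Function.update x (Sum.inl (j, m)) v) j e := by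
  intro v v' h
  simp only [al] at h
  have h1 : ∀ v, r (e 0) + ∑ k : Fin N, Function.update x (Sum.inl (j, m)) v (Sum.inl (j, k)) /
      Function.update x (Sum.inl (j, m)) v (Sum.inr (j, k)) * r (e k.succ) =
      v / x (Sum.inr (j, m)) * r (e m.succ) + (r (e 0) +
        ∑ k ∈ univ.erase m, x (Sum.inl (j, k)) / x (Sum.inr (j, k)) * r (e k.succ)) := by
    intro v
    rw [← add_sum_erase _ _ (mem_univ m), Function.update_self, Function.update_of_ne (by simp)]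
    have h2 : ∑ k ∈ univ.erase m, Function.update x (Sum.inl (j, m)) v (Sum.inl (j, k)) /
        Function.update x (Sum.inl (j, m)) v (Sum.inr (j, k)) * r (e k.succ) =
        ∑ k ∈ univ.erase m, x (Sum.inl (j, k)) / x (Sum.inr (j, k)) * r (e k.succ) := by
      refine sum_congr rfl fun k hk => ?_
      have hk' : k ≠ m := ne_of_mem_erase hk
      rw [Function.update_of_ne (by simpa using hk'), Function.update_of_ne (by simp)]
    rw [h2]
    ring
  rw [h1, h1, add_left_inj, mul_left_inj' he, div_left_inj' hx] at h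
  exact h

/-- the conditions on the residues modulo `p` -/
def PO (dd : ZMod p → ℤ) (r : ℂ → ZMod p) (T E : Fin n → Finset (Fin (N + 1) → ℂ)) (Δ : Finset ℤ) (i : Fin n)
    (x : (Fin n × Fin N) ⊕ (Fin n × Fin N) → ZMod p) : Prop :=
  (∀ j, j ≠ i → ∀ ζ ∈ T j, al r x j ζ ≠ 0) ∧
  (∀ j, j ≠ i → ∀ e ∈ E j, ∀ D ∈ Δ, ¬ IsSquare (D * dd (al r x j e))) ∧
  ∀ j k, j ≠ i → k ≠ i → j ≠ k → ∀ e ∈ E j, ∀ e' ∈ E k, ¬ IsSquare (dd (al r x j e) * dd (al r x k e'))

open Classical in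
lemma card_PO (dd : ZMod p → ℤ) (r : ℂ → ZMod p) (T E : Fin n → Finset (Fin (N + 1) → ℂ)) (Δ : Finset ℤ)
    (s : Fin n × Fin N) (hrT : ∀ j, ∀ ζ ∈ T j, ∀ k, r (ζ k) = 0 ↔ ζ k = 0)
    (hrE : ∀ j, ∀ e ∈ E j, ∀ k, r (e k) = 0 ↔ e k = 0)
    (hT : ∀ j, ∀ ζ ∈ T j, ζ ≠ 0) (hE : ∀ j, ∀ e ∈ E j, ∃ k : Fin N, e k.succ ≠ 0) (hΔ : ∀ D ∈ Δ, D ≠ 0)
    (hΔ1 : (1 : ℤ) ∈ Δ) (B : ℕ) (hB : 0 < B)
    (hd : ∀ D : ℤ, D ≠ 0 → (((univ : Finset (ZMod p)).filter fun α => IsSquare (D * dd α)).card) ≤ B)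
    (K : ℕ) (hK : (univ.sigma T).card + (((univ.sigma E) ×ˢ Δ).card + ((univ.sigma E) ×ˢ (univ.sigma E)).card) ≤ K)
    (hp1 : 2 * ((K + 1) * B) ≤ p) (hp2 : 4 * Fintype.card (Fin n × Fin N) ≤ p) :
    p ^ (2 * Fintype.card (Fin n × Fin N)) ≤ 4 * p * ((boxS s p).filter (PO dd r T E Δ s.1)).card := by
  have hp : 1 < p := (Fact.out : p.Prime).one_lt
  have hcount : ∀ (j : Fin n) (m : Fin N) (e : Fin (N + 1) → ℂ) (x : (Fin n × Fin N) ⊕ (Fin n × Fin N) → ZMod p)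
      (D : ℤ), x ∈ boxS s p → j ≠ s.1 → r (e m.succ) ≠ 0 → D ≠ 0 →
      ((univ : Finset (ZMod p)).filter fun v => IsSquare (D * dd (al r (Function.update x (Sum.inl (j, m)) v) j e))).card ≤ B := by
    intro j m e x D hx hj he hD
    refine le_trans (card_le_card_of_injOn (fun v => al r (Function.update x (Sum.inl (j, m)) v) j e) ?_ ?_) (hd D hD)
    · intro v hv
      simp only [coe_filter, mem_univ, true_and, Set.mem_ofPred_eq] at hv ⊢
      exact hv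
    · refine Function.Injective.injOn (al_update_inj r x j m e ?_ he)
      exact ((mem_boxS s).mp hx).2.2 (j, m) (fun h => hj (by rw [← h]))
  let β := (Σ _ : Fin n, (Fin (N + 1) → ℂ)) ⊕ (((Σ _ : Fin n, (Fin (N + 1) → ℂ)) × ℤ) ⊕
    ((Σ _ : Fin n, (Fin (N + 1) → ℂ)) × (Σ _ : Fin n, (Fin (N + 1) → ℂ))))
  let Ev : Finset β := (univ.sigma T).disjSum (((univ.sigma E) ×ˢ Δ).disjSum ((univ.sigma E) ×ˢ (univ.sigma E)))
  let Bad : β → ((Fin n × Fin N) ⊕ (Fin n × Fin N) → ZMod p) → Prop := fun b x =>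
    Sum.elim (fun b => b.1 ≠ s.1 ∧ al r x b.1 b.2 = 0) (Sum.elim
      (fun b => b.1.1 ≠ s.1 ∧ IsSquare (b.2 * dd (al r x b.1.1 b.1.2)))
      (fun b => b.1.1 ≠ s.1 ∧ b.2.1 ≠ s.1 ∧ b.1.1 ≠ b.2.1 ∧ dd (al r x b.2.1 b.2.2) ≠ 0 ∧
        IsSquare (dd (al r x b.1.1 b.1.2) * dd (al r x b.2.1 b.2.2)))) b
  have hEv : Ev.card ≤ K := by
    have h1 : Ev.card = (univ.sigma T).card + (((univ.sigma E) ×ˢ Δ).card + ((univ.sigma E) ×ˢ (univ.sigma E)).card) := by
      rw [← Finset.card_disjSum, ← Finset.card_disjSum]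
    rw [h1]
    exact hK
  refine card_events s Ev Bad B hB (PO dd r T E Δ s.1) ?_ ?_ ?_ hp2
  · intro x hx hPx
    by_contra hcon
    push Not at hcon
    apply hPx
    have hc3 : ∀ j k, j ≠ s.1 → k ≠ s.1 → j ≠ k → ∀ e ∈ E j, ∀ e' ∈ E k, dd (al r x k e') ≠ 0 →
        ¬ IsSquare (dd (al r x j e) * dd (al r x k e')) := by
      intro j k hj hk hjk e he e' he' h0 h1
      refine hcon (Sum.inr (Sum.inr (⟨j, e⟩, ⟨k, e'⟩))) ?_ ⟨hj, hk, hjk, h0, h1⟩
      exact inr_mem_disjSum.mpr (inr_mem_disjSum.mpr (mem_product.mpr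
        ⟨mem_sigma.mpr ⟨mem_univ _, he⟩, mem_sigma.mpr ⟨mem_univ _, he'⟩⟩))
    have hc2 : ∀ j, j ≠ s.1 → ∀ e ∈ E j, ∀ D ∈ Δ, ¬ IsSquare (D * dd (al r x j e)) := by
      intro j hj e he D hD h0
      exact hcon (Sum.inr (Sum.inl (⟨j, e⟩, D))) (inr_mem_disjSum.mpr (inl_mem_disjSum.mpr (mem_product.mpr
        ⟨mem_sigma.mpr ⟨mem_univ _, he⟩, hD⟩))) ⟨hj, h0⟩
    refine ⟨fun j hj ζ hζ h0 => ?_, hc2, fun j k hj hk hjk e he e' he' h1 => ?_⟩
    · exact hcon (Sum.inl ⟨j, ζ⟩) (inl_mem_disjSum.mpr (mem_sigma.mpr ⟨mem_univ _, hζ⟩)) ⟨hj, h0⟩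
    · refine hc3 j k hj hk hjk e he e' he' (fun h0 => ?_) h1
      refine hc2 k hk e' he' 1 hΔ1 ?_
      rw [h0, mul_zero]
      exact IsSquare.zero
  · have hempty : ∀ Q : ((Fin n × Fin N) ⊕ (Fin n × Fin N) → ZMod p) → Prop, (∀ x ∈ boxS s p, ¬ Q x) →
        p * ((boxS s p).filter Q).card ≤ B * (boxS s p).card := by
      intro Q hQ
      rw [filter_eq_empty_iff.mpr fun x hx => hQ x hx]
      simp
    rintro (⟨j, ζ⟩ | (⟨⟨j, e⟩, D⟩ | ⟨⟨j, e⟩, ⟨k, e'⟩⟩)) hb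
    · have hζ : ζ ∈ T j := (mem_sigma.mp (inl_mem_disjSum.mp hb)).2
      by_cases hj : j = s.1
      · exact hempty _ fun x _ h => h.1 hj
      by_cases hm : ∃ m : Fin N, ζ m.succ ≠ 0
      · obtain ⟨m, hm⟩ := hm
        refine event_fiber s (j, m) (fun h => hj (by rw [← h])) B _ fun x hx => ?_
        refine le_trans (card_le_one.mpr ?_) (Nat.succ_le_of_lt hB)
        intro v hv v' hv'
        rw [mem_filter] at hv hv'
        refine al_update_inj r x j m ζ (((mem_boxS s).mp hx).2.2 (j, m) (fun h => hj (by rw [← h])))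
          (fun h => hm ((hrT j ζ hζ _).mp h)) ?_
        exact hv.2.2.trans hv'.2.2.symm
      · push Not at hm
        refine hempty _ fun x _ h => ?_
        have h0 : ζ 0 ≠ 0 := by
          intro h0
          refine hT j ζ hζ ?_
          funext k
          exact Fin.cases h0 (fun m => hm m) k
        have h1 : al r x j ζ = 0 := h.2
        unfold al at h1
        rw [sum_eq_zero (fun k _ => by rw [(hrT j ζ hζ _).mpr (hm k), mul_zero]), add_zero] at h1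
        exact h0 ((hrT j ζ hζ _).mp h1)
    · have h1 := mem_product.mp (inl_mem_disjSum.mp (inr_mem_disjSum.mp hb))
      have he : e ∈ E j := (mem_sigma.mp h1.1).2
      have hD : D ∈ Δ := h1.2
      by_cases hj : j = s.1
      · exact hempty _ fun x _ h => h.1 hj
      obtain ⟨m, hm⟩ := hE j e he
      refine event_fiber s (j, m) (fun h => hj (by rw [← h])) B _ fun x hx => ?_
      refine le_trans (card_le_card ?_) (hcount j m e x D hx hj (fun h => hm ((hrE j e he _).mp h)) (hΔ D hD))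
      intro v hv
      rw [mem_filter] at hv ⊢
      exact ⟨hv.1, hv.2.2⟩
    · have h1 := mem_product.mp (inr_mem_disjSum.mp (inr_mem_disjSum.mp hb))
      have he : e ∈ E j := (mem_sigma.mp h1.1).2
      by_cases hj : j = s.1
      · exact hempty _ fun x _ h => h.1 hj
      by_cases hjk : j = k
      · exact hempty _ fun x _ h => h.2.2.1 hjk
      obtain ⟨m, hm⟩ := hE j e he
      refine event_fiber s (j, m) (fun h => hj (by rw [← h])) B _ fun x hx => ?_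
      by_cases h0 : dd (al r x k e') = 0
      · rw [filter_eq_empty_iff.mpr]
        · simp
        · rintro v _ ⟨_, _, _, h, _⟩
          rw [al_update_ne r x (Ne.symm hjk)] at h
          exact h h0
      · refine le_trans (card_le_card ?_) (hcount j m e x _ hx hj (fun h => hm ((hrE j e he _).mp h)) h0)
        intro v hv
        rw [mem_filter] at hv ⊢
        obtain ⟨hv1, _, _, _, _, hv2⟩ := hv
        refine ⟨hv1, ?_⟩
        rw [al_update_ne r x (Ne.symm hjk), mul_comm] at hv2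
        exact hv2
  · refine le_trans ?_ hp1
    gcongr

end forms

section red

variable {n N : ℕ} {p : ℕ} [Fact p.Prime] {V : ValuationSubring ℂ} (ψ : ZMod p →+* IsLocalRing.ResidueField V)

include ψ in
lemma residue_al {r : ℂ → ZMod p} {c : Fin n × Fin N → ℚ} {j : Fin n} {e : Fin (N + 1) → ℂ}
    (hden : ∀ k, ((c (j, k)).den : ZMod p) ≠ 0)
    (he : ∀ k, ∃ h : e k ∈ V, IsLocalRing.residue V ⟨e k, h⟩ = ψ (r (e k))) :
    ∃ h : e 0 + ∑ k : Fin N, (c (j, k) : ℂ) * e k.succ ∈ V,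
      IsLocalRing.residue V ⟨e 0 + ∑ k : Fin N, (c (j, k) : ℂ) * e k.succ, h⟩ =
        ψ (al r (fun k => (toInt c k : ZMod p)) j e) := by
  choose hV hr using he
  have h6 : ψ (al r (fun k => (toInt c k : ZMod p)) j e) =
      IsLocalRing.residue V (⟨e 0, hV 0⟩ +
        ∑ k : Fin N, (⟨(c (j, k) : ℂ), rat_mem ψ (hden k)⟩ : V) * ⟨e k.succ, hV k.succ⟩) := by
    unfold al
    rw [map_add, map_sum, map_add, map_sum, hr 0]
    congr 1
    refine sum_congr rfl fun k _ => ?_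
    rw [map_mul, map_mul, residue_rat ψ (hden k), hr k.succ]
    simp [toInt]
  have h7 : (((⟨e 0, hV 0⟩ + ∑ k : Fin N, (⟨(c (j, k) : ℂ), rat_mem ψ (hden k)⟩ : V) * ⟨e k.succ, hV k.succ⟩ : V)) : ℂ) =
      e 0 + ∑ k : Fin N, (c (j, k) : ℂ) * e k.succ := by
    simp
  refine ⟨by rw [← h7]; exact Subtype.property _, ?_⟩
  rw [h6]
  congr 1
  exact Subtype.ext h7.symm

omit [Fact p.Prime] in
lemma val_sub_int {a : ℂ} (ha : a ∈ V) {m : ℤ} (h : IsLocalRing.residue V ⟨a, ha⟩ = (m : IsLocalRing.ResidueField V)) :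
    V.valuation (a - (m : ℂ)) < 1 := by
  have h7 : IsLocalRing.residue V (⟨a, ha⟩ - (m : V)) = 0 := by
    rw [map_sub, h, map_intCast, sub_self]
  rw [residue_eq_zero] at h7
  simpa using h7

open Classical in
lemma redA_of (d : ∀ p : ℕ, ValuationSubring ℂ → ZMod p → ℤ) (S : Finset ℂ)
    (T E : Fin n → Finset (Fin (N + 1) → ℂ)) (hp2 : p ≠ 2) (hpV : V.valuation (p : ℂ) < 1) (r : ℂ → ZMod p)
    (hS : ∀ s ∈ S, s ∈ V)
    (hT : ∀ j, ∀ ζ ∈ T j, ∀ k, ∃ h : ζ k ∈ V, IsLocalRing.residue V ⟨ζ k, h⟩ = ψ (r (ζ k)))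
    (hE : ∀ j, ∀ ζ ∈ E j, ∀ k, ∃ h : ζ k ∈ V, IsLocalRing.residue V ⟨ζ k, h⟩ = ψ (r (ζ k)))
    {Δ : Finset ℤ} (hΔ : (1 : ℤ) ∈ Δ) {c : Fin n × Fin N → ℚ} {s : Fin n × Fin N}
    (hc : (fun k => (toInt c k : ZMod p)) ∈ (boxS s p).filter (PO (d p V) r T E Δ s.1)) :
    RedA d S T E (fun i k => (c (i, k) : ℂ)) s.1 s.2 p V
      (fun j e => ((al r (fun k => (toInt c k : ZMod p)) j e).val : ℤ)) := by
  have hp : p.Prime := Fact.out
  have : NeZero p := ⟨hp.ne_zero⟩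
  rw [mem_filter, mem_boxS] at hc
  obtain ⟨⟨h1, h2, h3⟩, h4, h5, h6⟩ := hc
  simp only [toInt, Sum.elim_inl, Sum.elim_inr] at h1 h2 h3
  have h3' : ∀ t, t ≠ s → ((c t).den : ZMod p) ≠ 0 := by
    intro t ht
    have := h3 t ht
    simpa using this
  have hden : ∀ j, j ≠ s.1 → ∀ k, ((c (j, k)).den : ZMod p) ≠ 0 := fun j hj k =>
    h3' (j, k) fun h => hj (by rw [← h])
  have hcast : ∀ a : ZMod p, (((a.val : ℕ) : ℤ) : ZMod p) = a := by
    intro a
    rw [Int.cast_natCast, ZMod.natCast_zmod_val]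
  refine ⟨hp, hp2, hpV, ⟨hS, ?_, ?_, ?_⟩, ?_, ?_, ?_⟩
  · exact rat_notMem ψ (by simpa using h1) h2
  · intro j k hjk
    exact rat_mem ψ (h3' (j, k) hjk)
  · intro j hj ζ hζ
    obtain ⟨hm, hres⟩ := residue_al ψ (r := r) (hden j hj) (hT j ζ hζ)
    have h7 : IsLocalRing.residue V ⟨ζ 0 + ∑ k : Fin N, (c (j, k) : ℂ) * ζ k.succ, hm⟩ ≠ 0 := by
      rw [hres]
      exact (map_ne_zero ψ).mpr (h4 j hj ζ hζ)
    rw [residue_ne_zero] at h7
    exact h7
  · intro j hj e he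
    obtain ⟨hm, hres⟩ := residue_al ψ (r := r) (hden j hj) (hE j e he)
    refine val_sub_int hm ?_
    rw [hres, ← map_intCast ψ, hcast]
  · intro j hj e he h0
    rw [hcast] at h0
    refine h5 j hj e he 1 hΔ ?_
    rw [h0, mul_zero]
    exact IsSquare.zero
  · intro j k hj hk hjk e he e' he'
    rw [hcast, hcast]
    exact h6 j k hj hk hjk e he e' he'

end red

open Classical in
/-- almost all vectors of rational coefficients have two good private primes in every coefficient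
with independent residual discriminants -/
theorem density_ord_of {n N : ℕ} (d : ∀ p : ℕ, ValuationSubring ℂ → ZMod p → ℤ)
    (hd : ∀ ε : ℝ, 0 < ε → ∃ p₀ : ℕ, ∀ p : ℕ, ∀ (_ : Fact p.Prime), p₀ ≤ p → ∀ V : ValuationSubring ℂ,
      V.valuation (p : ℂ) < 1 → ∀ D : ℤ, D ≠ 0 →
      (((Finset.univ : Finset (ZMod p)).filter fun α => d p V α = 0 ∨ IsSquare (D * d p V α)).card : ℝ) ≤ ε * p)
    (S : Finset ℂ) (T E : Fin n → Finset (Fin (N + 1) → ℂ)) (hT : ∀ j, ∀ ζ ∈ T j, ζ ≠ 0)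
    (hE : ∀ j, ∀ e ∈ E j, ∃ k : Fin N, e k.succ ≠ 0)
    (hsplit : ∀ S : Finset ℂ, ∃ PP : Set Nat.Primes,
      (¬ Summable fun p : PP => (1 : ℝ) / (((p : Nat.Primes) : ℕ) : ℝ)) ∧
      ∀ p ∈ PP, ∃ V : ValuationSubring ℂ, V.valuation (((p : Nat.Primes) : ℕ) : ℂ) < 1 ∧
        ∀ s ∈ S, s ∈ V ∧ (s ≠ 0 → V.valuation s = 1) ∧ ∃ m : ℤ, V.valuation (s - m) < 1)
    (Good : (Fin n → Fin N → ℚ) → Prop)
    (hGood : ∀ c : Fin n → Fin N → ℚ,
      (∀ i l, ∃ (p q : ℕ) (V V' : ValuationSubring ℂ) (ρ ρ' : Fin n → (Fin (N + 1) → ℂ) → ℤ), p ≠ q ∧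
        RedA d S T E (fun i k => (c i k : ℂ)) i l p V ρ ∧ RedA d S T E (fun i k => (c i k : ℂ)) i l q V' ρ' ∧
        ∀ j, j ≠ i → ∀ e ∈ E j, ∀ e' ∈ E j,
          ¬ IsSquare (d p V (ρ j e : ZMod p) * d q V' (ρ' j e' : ZMod q))) → Good c) :
    Tendsto (fun H : ℕ => ((boxA n N H ∩ {c | ¬ Good c}).ncard : ℝ) / (boxA n N H).ncard) atTop (𝓝 0) := by
  set U : Finset ℂ := S ∪ ((univ.biUnion fun j => (T j).biUnion fun ζ => univ.image ζ) ∪
    univ.biUnion fun j => (E j).biUnion fun ζ => univ.image ζ) with hU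
  have hUS : ∀ s ∈ S, s ∈ U := fun s hs => mem_union_left _ hs
  have hUT : ∀ j, ∀ ζ ∈ T j, ∀ k, ζ k ∈ U := by
    intro j ζ hζ k
    refine mem_union_right _ (mem_union_left _ ?_)
    rw [mem_biUnion]
    refine ⟨j, mem_univ _, ?_⟩
    rw [mem_biUnion]
    exact ⟨ζ, hζ, mem_image_of_mem _ (mem_univ k)⟩
  have hUE : ∀ j, ∀ ζ ∈ E j, ∀ k, ζ k ∈ U := by
    intro j ζ hζ k
    refine mem_union_right _ (mem_union_right _ ?_)
    rw [mem_biUnion]
    refine ⟨j, mem_univ _, ?_⟩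
    rw [mem_biUnion]
    exact ⟨ζ, hζ, mem_image_of_mem _ (mem_univ k)⟩
  obtain ⟨PP, hPP, hV⟩ := hsplit U
  choose! V hpV hVU using hV
  -- residues
  let r : ∀ p : Nat.Primes, ℂ → ZMod (p : ℕ) := fun p s =>
    if h : ∃ m : ℤ, (V p).valuation (s - (m : ℂ)) < 1 then ((h.choose : ℤ) : ZMod (p : ℕ)) else 0
  let ψ : ∀ p : Nat.Primes, p ∈ PP → (ZMod (p : ℕ) →+* IsLocalRing.ResidueField (V p)) := fun p hp =>
    haveI := charP_residue (V := V p) p.2 (hpV p hp)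
    ZMod.castHom (dvd_refl (p : ℕ)) _
  have hr : ∀ p (hp : p ∈ PP), ∀ s ∈ U, ∃ h : s ∈ V p, IsLocalRing.residue (V p) ⟨s, h⟩ = ψ p hp (r p s) := by
    intro p hp s hs
    obtain ⟨h1, h2, h3⟩ := hVU p hp s hs
    refine ⟨h1, ?_⟩
    have h4 : (V p).valuation (s - (h3.choose : ℂ)) < 1 := h3.choose_spec
    have h5 : r p s = ((h3.choose : ℤ) : ZMod (p : ℕ)) := by
      simp only [r]
      rw [dif_pos h3]
    rw [h5, map_intCast, ← sub_eq_zero, ← map_intCast (IsLocalRing.residue (V p)), ← map_sub, residue_eq_zero]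
    simpa using h4
  have hr0 : ∀ p ∈ PP, ∀ s ∈ U, (r p s = 0 ↔ s = 0) := by
    intro p hp s hs
    obtain ⟨h1, h2⟩ := hr p hp s hs
    rw [← map_eq_zero (ψ p hp), ← h2, residue_eq_zero]
    constructor
    · intro h3
      by_contra h0
      rw [(hVU p hp s hs).2.1 h0] at h3
      exact lt_irrefl _ h3
    · rintro rfl
      simp
  -- the bounds
  set e := (univ.sigma E).card with he
  set K : ℕ := (univ.sigma T).card + (e * (e + 1) + e * e) with hK
  obtain ⟨p₀, hp₀⟩ := hd (1 / (4 * ((K : ℝ) + 1))) (by positivity)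
  set P₀ : ℕ := p₀ + 4 * (K + 1) + 4 * Fintype.card (Fin n × Fin N) + 2 with hP₀
  have hkey : ∀ p ∈ PP, P₀ < (p : ℕ) → ∀ Δ : Finset ℤ, (∀ D ∈ Δ, D ≠ 0) → (1 : ℤ) ∈ Δ → Δ.card ≤ e + 1 →
      ∀ s : Fin n × Fin N, (p : ℕ) ^ (2 * Fintype.card (Fin n × Fin N)) ≤
        4 * (p : ℕ) * ((boxS s (p : ℕ)).filter (PO (d p (V p)) (r p) T E Δ s.1)).card := by
    intro p hp hpP Δ hΔ hΔ1 hΔc s
    have hpR : ((4 * (K + 1) : ℕ) : ℝ) ≤ (p : ℝ) := by
      exact_mod_cast (by omega : 4 * (K + 1) ≤ (p : ℕ))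
    push_cast at hpR
    refine card_PO (d p (V p)) (r p) T E Δ s (fun j ζ hζ k => hr0 p hp _ (hUT j ζ hζ k))
      (fun j ζ hζ k => hr0 p hp _ (hUE j ζ hζ k)) hT hE hΔ hΔ1 ⌊1 / (4 * ((K : ℝ) + 1)) * (p : ℝ)⌋₊ ?_ ?_ K ?_ ?_ (by omega)
    · rw [Nat.floor_pos, one_div_mul_eq_div, le_div_iff₀ (by positivity)]
      linarith
    · intro D hD
      refine Nat.le_floor (le_trans ?_ (hp₀ p inferInstance (by omega) (V p) (hpV p hp) D hD))
      refine Nat.cast_le.mpr (card_le_card ?_)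
      intro α hα
      rw [mem_filter] at hα ⊢
      exact ⟨hα.1, Or.inr hα.2⟩
    · rw [card_product, card_product, ← he, hK]
      gcongr
    · have h1 : (⌊1 / (4 * ((K : ℝ) + 1)) * (p : ℝ)⌋₊ : ℝ) ≤ 1 / (4 * ((K : ℝ) + 1)) * (p : ℝ) :=
        Nat.floor_le (by positivity)
      have h2 : (2 * (((K : ℝ) + 1) * (⌊1 / (4 * ((K : ℝ) + 1)) * (p : ℝ)⌋₊ : ℝ))) ≤ (p : ℝ) := by
        have h3 : ((K : ℝ) + 1) * (1 / (4 * ((K : ℝ) + 1)) * (p : ℝ)) = (p : ℝ) / 4 := by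
          field_simp
        have h4 : ((K : ℝ) + 1) * (⌊1 / (4 * ((K : ℝ) + 1)) * (p : ℝ)⌋₊ : ℝ) ≤ (p : ℝ) / 4 := by
          rw [← h3]
          exact mul_le_mul_of_nonneg_left h1 (by positivity)
        have h5 : (0 : ℝ) ≤ (p : ℝ) := Nat.cast_nonneg _
        linarith
      exact_mod_cast h2
  let Δ₂ : ∀ p : Nat.Primes, ((Fin n × Fin N) ⊕ (Fin n × Fin N) → ZMod p) → Finset ℤ := fun p x =>
    insert 1 (((univ.sigma E).image fun b : (Σ _ : Fin n, (Fin (N + 1) → ℂ)) =>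
      d p (V p) (al (r p) x b.1 b.2)).filter fun D => D ≠ 0)
  have hden := density_pair (ι := Fin n × Fin N) (J := Fin n × Fin N) (fun c => Good fun i k => c (i, k)) PP hPP 4
    (by norm_num) (fun p s => (boxS s (p : ℕ)).filter (PO (d p (V p)) (r p) T E {1} s.1))
    (fun p x q s => (boxS s (q : ℕ)).filter (PO (d q (V q)) (r q) T E (Δ₂ p x) s.1)) (fun _ => P₀) P₀ (by
      intro p hp hpP s
      refine hkey p hp hpP {1} ?_ (mem_singleton_self _) ?_ s
      · intro D hD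
        rw [mem_singleton] at hD
        rw [hD]
        exact one_ne_zero
      · rw [card_singleton]
        omega) (by
      intro p _ _ j x _ q hq hqP
      refine hkey q hq hqP (Δ₂ p x) ?_ (mem_insert_self _ _) ?_ j
      · intro D hD
        simp only [Δ₂] at hD
        rw [mem_insert, mem_filter] at hD
        rcases hD with rfl | hD
        · exact one_ne_zero
        · exact hD.2
      · refine (card_insert_le _ _).trans (Nat.succ_le_succ ?_)
        exact (card_filter_le _ _).trans card_image_le) (by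
      intro c hc
      apply hGood
      intro i l
      obtain ⟨p, hp, q, hq, hpq, hpP, hqP, h1, h2⟩ := hc (i, l)
      have k1 := redA_of (ψ p hp) d S T E (by omega) (hpV p hp) (r p) (fun s hs => (hVU p hp s (hUS s hs)).1)
        (fun j ζ hζ k => hr p hp _ (hUT j ζ hζ k)) (fun j ζ hζ k => hr p hp _ (hUE j ζ hζ k)) (mem_singleton_self _) h1
      have k2 := redA_of (ψ q hq) d S T E (by omega) (hpV q hq) (r q) (fun s hs => (hVU q hq s (hUS s hs)).1)
        (fun j ζ hζ k => hr q hq _ (hUT j ζ hζ k)) (fun j ζ hζ k => hr q hq _ (hUE j ζ hζ k)) (mem_insert_self _ _) h2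
      refine ⟨p, q, V p, V q, _, _, fun h => hpq (Subtype.ext h), k1, k2, ?_⟩
      intro j hj e he e' he' hsq
      have hcast : ∀ (p : Nat.Primes) (a : ZMod (p : ℕ)), (((a.val : ℕ) : ℤ) : ZMod (p : ℕ)) = a := by
        intro p a
        rw [Int.cast_natCast, ZMod.natCast_zmod_val]
      have h0 := k1.ord j hj e he
      rw [hcast] at hsq h0
      rw [hcast] at hsq
      refine (mem_filter.mp h2).2.2.1 j hj e' he' _ ?_ hsq
      simp only [Δ₂]
      rw [mem_insert, mem_filter]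
      right
      refine ⟨mem_image.mpr ⟨⟨j, e⟩, mem_sigma.mpr ⟨mem_univ _, he⟩, rfl⟩, h0⟩)
  refine hden.congr fun H => ?_
  have hinj : Function.Injective (fun (c : Fin n × Fin N → ℚ) (i : Fin n) (k : Fin N) => c (i, k)) := by
    intro c c' h
    funext ⟨i, k⟩
    exact congrFun (congrFun h i) k
  have habs : ∀ (z : ℤ), z.natAbs ≤ H ↔ |z| ≤ (H : ℤ) := by
    intro z
    rw [Int.abs_eq_natAbs]
    exact_mod_cast Iff.rfl
  have e1 : boxA n N H = (fun (c : Fin n × Fin N → ℚ) (i : Fin n) (k : Fin N) => c (i, k)) ''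
      {c | ∀ s, (c s).num.natAbs ≤ H ∧ (c s).den ≤ H} := by
    ext c
    constructor
    · intro hc
      exact ⟨fun s => c s.1 s.2, fun s => ⟨(habs _).mpr (hc s.1 s.2).1, (hc s.1 s.2).2⟩, rfl⟩
    · rintro ⟨c, hc, rfl⟩ i k
      exact ⟨(habs _).mp (hc (i, k)).1, (hc (i, k)).2⟩
  have e2 : boxA n N H ∩ {c | ¬ Good c} = (fun (c : Fin n × Fin N → ℚ) (i : Fin n) (k : Fin N) => c (i, k)) ''
      {c | (∀ s, (c s).num.natAbs ≤ H ∧ (c s).den ≤ H) ∧ ¬ Good fun i k => c (i, k)} := by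
    ext c
    constructor
    · rintro ⟨hc, hc'⟩
      exact ⟨fun s => c s.1 s.2, ⟨fun s => ⟨(habs _).mpr (hc s.1 s.2).1, (hc s.1 s.2).2⟩, hc'⟩, rfl⟩
    · rintro ⟨c, ⟨hc, hc'⟩, rfl⟩
      exact ⟨fun i k => ⟨(habs _).mp (hc (i, k)).1, (hc (i, k)).2⟩, hc'⟩
  rw [e1, Set.ncard_image_of_injective _ hinj] at *
  rw [e2, Set.ncard_image_of_injective _ hinj]

end Pool.Agent.ZPOrd
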