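import Mathlib
import Pool.Agent.ZPOrd.Abs
import Pool.Agent.ZPOrd.DiscInst
import Pool.Agent.ZPOrd.OrdDens
import Pool.Agent.ZPOrd.RatDefs

/-!
Rational curves: from the conditions on the coefficients modulo `p` to the local conditions.
-/

open UpperHalfPlane hiding I

namespace Pool.Agent.ZPOrd

open Pool.Agent.Lib.ModularZP Pool.Agent.ZP46

/-- the value at `(t, u)` of the binary form of degree `m` with coefficients `a` -/
def bform {R : Type*} [CommRing R] {m : ℕ} (a : Fin (m + 1) → R) (t u : R) : R :=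
  ∑ k : Fin (m + 1), a k * t ^ (k : ℕ) * u ^ (m - (k : ℕ))

/-- the affine part of the image of the projective line under the functions `A i / B i` -/
def ratCurve {n : ℕ} {d : Fin n → ℕ} (c : (i : Fin n) → Fin (d i + 1) → ℚ × ℚ) : Set (Fin n → ℂ) :=
  {x | ∃ t u : ℂ, (t ≠ 0 ∨ u ≠ 0) ∧ ∀ i, bform (fun k => ((c i k).2 : ℂ)) t u ≠ 0 ∧
    x i = bform (fun k => ((c i k).1 : ℂ)) t u / bform (fun k => ((c i k).2 : ℂ)) t u}

lemma bform_smul {R : Type*} [CommRing R] {m : ℕ} (a : Fin (m + 1) → R) (s t u : R) :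
    bform a (s * t) (s * u) = s ^ m * bform a t u := by
  unfold bform
  rw [Finset.mul_sum]
  refine Finset.sum_congr rfl fun k _ => ?_
  have h1 : s ^ m = s ^ (k : ℕ) * s ^ (m - (k : ℕ)) := by
    rw [← pow_add]; congr 1; have := k.2; omega
  rw [mul_pow, mul_pow, h1]
  ring

lemma bform_one {R : Type*} [CommRing R] {m : ℕ} (a : Fin (m + 1) → R) (t : R) : bform a t 1 = fv a t := by
  unfold bform fv
  simp

section red

variable {V : ValuationSubring ℂ} {p : ℕ} [Fact p.Prime] (ψ : ZMod p →+* IsLocalRing.ResidueField V)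

lemma bform_map {R S : Type*} [CommRing R] [CommRing S] (φ : R →+* S) {m : ℕ} (a : Fin (m + 1) → R) (t u : R) :
    bform (fun k => φ (a k)) (φ t) (φ u) = φ (bform a t u) := by
  unfold bform
  simp [map_sum, map_mul, map_pow]

lemma fv_map {R S : Type*} [CommRing R] [CommRing S] (φ : R →+* S) {m : ℕ} (a : Fin (m + 1) → R) (t : R) :
    fv (fun k => φ (a k)) (φ t) = φ (fv a t) := by
  unfold fv
  simp [map_sum, map_mul, map_pow]

lemma bform_zero {R : Type*} [CommRing R] {m : ℕ} (a : Fin (m + 1) → R) : bform a 1 0 = a (Fin.last m) := by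
  unfold bform
  rw [Finset.sum_eq_single (Fin.last m)]
  · simp
  · intro k _ hk
    have h1 : m - (k : ℕ) ≠ 0 := by
      have := k.2
      have h2 : (k : ℕ) ≠ m := fun h => hk (Fin.ext h)
      omega
    rw [zero_pow h1, mul_zero]
  · intro h
    exact absurd (Finset.mem_univ _) h

/-- reduction of the values of a form with integral coefficients -/
lemma res_bform {m : ℕ} {a : Fin (m + 1) → ℚ} (h : ∀ k, ((a k).den : ZMod p) ≠ 0) (t u : V) :
    ∃ hm : bform (fun k => ((a k : ℚ) : ℂ)) (t : ℂ) (u : ℂ) ∈ V,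
      IsLocalRing.residue V ⟨bform (fun k => ((a k : ℚ) : ℂ)) (t : ℂ) (u : ℂ), hm⟩ =
        bform (fun k => ψ (redQ p (a k))) (IsLocalRing.residue V t) (IsLocalRing.residue V u) := by
  have h1 : (((bform (fun k => (⟨(a k : ℂ), rat_mem ψ (h k)⟩ : V)) t u : V)) : ℂ) =
      bform (fun k => ((a k : ℚ) : ℂ)) (t : ℂ) (u : ℂ) := by
    have := bform_map V.subtype (fun k => (⟨(a k : ℂ), rat_mem ψ (h k)⟩ : V)) t u
    exact this.symm
  refine ⟨by rw [← h1]; exact Subtype.property _, ?_⟩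
  have h2 : (⟨bform (fun k => ((a k : ℚ) : ℂ)) (t : ℂ) (u : ℂ), by rw [← h1]; exact Subtype.property _⟩ : V) =
      bform (fun k => (⟨(a k : ℂ), rat_mem ψ (h k)⟩ : V)) t u := Subtype.ext h1.symm
  rw [h2, ← bform_map (IsLocalRing.residue V)]
  congr 1
  funext k
  rw [residue_rat ψ (h k)]
  rfl

/-- a quotient of integral elements with unit denominator -/
lemma div_mem {a b : ℂ} (ha : a ∈ V) (hb : b ∈ V) (hb0 : IsLocalRing.residue V ⟨b, hb⟩ ≠ 0) :
    ∃ hm : a / b ∈ V, IsLocalRing.residue V ⟨a / b, hm⟩ = IsLocalRing.residue V ⟨a, ha⟩ / IsLocalRing.residue V ⟨b, hb⟩ := by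
  have h1 : V.valuation b = 1 := residue_ne_zero.mp hb0
  have hb1 : b ≠ 0 := by
    rintro rfl
    rw [map_zero] at h1
    exact zero_ne_one h1
  have h2 : a / b ∈ V := by
    rw [← V.valuation_le_one_iff, map_div₀, h1, div_one]
    exact (V.valuation_le_one_iff _).mpr ha
  refine ⟨h2, ?_⟩
  rw [eq_div_iff hb0, ← map_mul]
  congr 1
  apply Subtype.ext
  exact div_mul_cancel₀ a hb1

end red

section main

variable {n : ℕ} {d : Fin n → ℕ} {c : (i : Fin n) → Fin (d i + 1) → ℚ × ℚ} {i : Fin n}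
  {V : ValuationSubring ℂ} {p : ℕ} [Fact p.Prime]

/-- the two charts -/
lemma charts {t u : ℂ} (h : t ≠ 0 ∨ u ≠ 0) (V : ValuationSubring ℂ) :
    ∃ s : ℂ, s ≠ 0 ∧ ((s * u = 1 ∧ s * t ∈ V) ∨ (s * t = 1 ∧ V.valuation (s * u) < 1)) := by
  by_cases hle : V.valuation t ≤ V.valuation u
  · have hu : u ≠ 0 := by
      rintro rfl
      rw [map_zero, le_zero_iff, map_eq_zero] at hle
      rcases h with h | h
      · exact h hle
      · exact h rfl
    refine ⟨u⁻¹, inv_ne_zero hu, Or.inl ⟨inv_mul_cancel₀ hu, ?_⟩⟩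
    rw [← V.valuation_le_one_iff, map_mul, map_inv₀]
    have h0 : V.valuation u ≠ 0 := by rwa [Ne, map_eq_zero]
    calc (V.valuation u)⁻¹ * V.valuation t ≤ (V.valuation u)⁻¹ * V.valuation u := mul_le_mul_right hle _
      _ = 1 := inv_mul_cancel₀ h0
  · push Not at hle
    have ht : t ≠ 0 := by
      rintro rfl
      rw [map_zero] at hle
      exact absurd hle (not_lt.mpr zero_le)
    refine ⟨t⁻¹, inv_ne_zero ht, Or.inr ⟨inv_mul_cancel₀ ht, ?_⟩⟩
    rw [map_mul, map_inv₀]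
    have h0 : V.valuation t ≠ 0 := by rwa [Ne, map_eq_zero]
    calc (V.valuation t)⁻¹ * V.valuation u < (V.valuation t)⁻¹ * V.valuation t :=
          mul_lt_mul_of_pos_left hle (zero_lt_iff.mpr (inv_ne_zero h0))
      _ = 1 := inv_mul_cancel₀ h0

/-- every point of the curve comes from one of the two charts -/
lemma chart_point {x : Fin n → ℂ} (hx : x ∈ ratCurve c) (V : ValuationSubring ℂ) :
    (∃ t : V, ∀ i, bform (fun k => ((c i k).2 : ℂ)) (t : ℂ) 1 ≠ 0 ∧
      x i = bform (fun k => ((c i k).1 : ℂ)) (t : ℂ) 1 / bform (fun k => ((c i k).2 : ℂ)) (t : ℂ) 1) ∨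
    ∃ u : V, V.valuation (u : ℂ) < 1 ∧ ∀ i, bform (fun k => ((c i k).2 : ℂ)) 1 (u : ℂ) ≠ 0 ∧
      x i = bform (fun k => ((c i k).1 : ℂ)) 1 (u : ℂ) / bform (fun k => ((c i k).2 : ℂ)) 1 (u : ℂ) := by
  obtain ⟨t, u, h0, hx⟩ := hx
  obtain ⟨s, hs, ⟨h1, h2⟩ | ⟨h1, h2⟩⟩ := charts h0 V
  · left
    refine ⟨⟨s * t, h2⟩, fun i => ?_⟩
    obtain ⟨h3, h4⟩ := hx i
    have h5 : ∀ a : Fin (d i + 1) → ℂ, bform a (s * t) 1 = s ^ d i * bform a t u := fun a => by
      rw [← bform_smul, h1]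
    simp only [h5]
    refine ⟨mul_ne_zero (pow_ne_zero _ hs) h3, ?_⟩
    rw [h4, mul_div_mul_left _ _ (pow_ne_zero _ hs)]
  · right
    refine ⟨⟨s * u, (V.valuation_le_one_iff _).mp h2.le⟩, h2, fun i => ?_⟩
    obtain ⟨h3, h4⟩ := hx i
    have h5 : ∀ a : Fin (d i + 1) → ℂ, bform a 1 (s * u) = s ^ d i * bform a t u := fun a => by
      rw [← bform_smul, h1]
    simp only [h5]
    refine ⟨mul_ne_zero (pow_ne_zero _ hs) h3, ?_⟩
    rw [h4, mul_div_mul_left _ _ (pow_ne_zero _ hs)]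

variable {dd : ZMod p → ℤ} (h : LocR d p dd c i) (ψ : ZMod p →+* IsLocalRing.ResidueField V)

include h in
lemma denA_ne (j : Fin n) (hj : j ≠ i) (k) : ((c j k).1.den : ZMod p) ≠ 0 := by
  rw [Ne, ZMod.natCast_eq_zero_iff]
  refine h.denA j k fun h' => hj ?_
  exact congrArg Sigma.fst h'

include h in
lemma denB_ne (j : Fin n) (k) : ((c j k).2.den : ZMod p) ≠ 0 := by
  rw [Ne, ZMod.natCast_eq_zero_iff]
  exact h.denB j k

include h ψ in
/-- the numerator of the private coordinate is not integral away from infinity -/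
lemma numF_notMem (t : V) : bform (fun k => ((c i k).1 : ℂ)) (t : ℂ) 1 ∉ V := by
  have h1 : ((c i 0).1 : ℂ) ∉ V := by
    refine rat_notMem ψ ?_ ?_
    · rw [ZMod.natCast_eq_zero_iff]
      exact h.large
    · intro h2
      rw [ZMod.intCast_zmod_eq_zero_iff_dvd] at h2
      have h3 := (c i 0).1.reduced
      have h4 : p ∣ (c i 0).1.num.natAbs := Int.natCast_dvd.mp h2
      have h5 : p ∣ 1 := by
        rw [← Nat.Coprime.gcd_eq_one h3]
        exact Nat.dvd_gcd h4 h.large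
      exact (Fact.out : p.Prime).one_lt.ne' (Nat.dvd_one.mp h5)
  intro h2
  apply h1
  have h3 : bform (fun k => ((c i k).1 : ℂ)) (t : ℂ) 1 = ((c i 0).1 : ℂ) +
      ∑ k : Fin (d i), ((c i k.succ).1 : ℂ) * (t : ℂ) ^ ((k.succ : Fin (d i + 1)) : ℕ) := by
    rw [bform_one]
    unfold fv
    rw [Fin.sum_univ_succ]
    simp
  have h4 : ∑ k : Fin (d i), ((c i k.succ).1 : ℂ) * (t : ℂ) ^ ((k.succ : Fin (d i + 1)) : ℕ) ∈ V := by
    refine sum_mem fun k _ => V.mul_mem _ _ (rat_mem ψ ?_) (pow_mem t.2 _)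
    rw [Ne, ZMod.natCast_eq_zero_iff]
    refine h.denA i k.succ fun h' => ?_
    have h5 := eq_of_heq (Sigma.mk.inj h').2
    exact Fin.succ_ne_zero k h5
  have h5 : ((c i 0).1 : ℂ) = bform (fun k => ((c i k).1 : ℂ)) (t : ℂ) 1 -
      ∑ k : Fin (d i), ((c i k.succ).1 : ℂ) * (t : ℂ) ^ ((k.succ : Fin (d i + 1)) : ℕ) := by
    rw [h3]; ring
  rw [h5]
  exact sub_mem h2 h4

include h ψ in
/-- the private coordinate is not integral away from infinity -/
lemma priv_notMem (t : V) {x : ℂ} (hb : bform (fun k => ((c i k).2 : ℂ)) (t : ℂ) 1 ≠ 0)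
    (hx : x = bform (fun k => ((c i k).1 : ℂ)) (t : ℂ) 1 / bform (fun k => ((c i k).2 : ℂ)) (t : ℂ) 1) : x ∉ V := by
  intro hxV
  apply numF_notMem h ψ t
  obtain ⟨h1, -⟩ := res_bform ψ (a := fun k => (c i k).2) (denB_ne h i) t 1
  have h2 : bform (fun k => ((c i k).1 : ℂ)) (t : ℂ) 1 = x * bform (fun k => ((c i k).2 : ℂ)) (t : ℂ) 1 := by
    rw [hx, div_mul_cancel₀ _ hb]
  rw [h2]
  exact V.mul_mem _ _ hxV (by simpa using h1)

include h ψ in
/-- the denominators near infinity -/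
lemma den_inf (j : Fin n) (u : V) (hu : V.valuation (u : ℂ) < 1) :
    ∃ hm : bform (fun k => ((c j k).2 : ℂ)) 1 (u : ℂ) ∈ V,
      IsLocalRing.residue V ⟨bform (fun k => ((c j k).2 : ℂ)) 1 (u : ℂ), hm⟩ = ψ (redQ p (c j (Fin.last _)).2) := by
  obtain ⟨h1, h2⟩ := res_bform ψ (a := fun k => (c j k).2) (denB_ne h j) 1 u
  rw [residue_eq_zero.mpr hu, map_one, bform_zero] at h2
  exact ⟨h1, h2⟩

include h ψ in
/-- the values of the other coordinates near infinity -/
lemma val_inf (j : Fin n) (hj : j ≠ i) (u : V) (hu : V.valuation (u : ℂ) < 1) {x : ℂ}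
    (hx : x = bform (fun k => ((c j k).1 : ℂ)) 1 (u : ℂ) / bform (fun k => ((c j k).2 : ℂ)) 1 (u : ℂ)) :
    ∃ hm : x ∈ V, IsLocalRing.residue V ⟨x, hm⟩ =
      ψ (redQ p (c j (Fin.last _)).1 / redQ p (c j (Fin.last _)).2) := by
  obtain ⟨h1, h2⟩ := den_inf h ψ j u hu
  obtain ⟨h3, h4⟩ := res_bform ψ (a := fun k => (c j k).1) (denA_ne h j hj) 1 u
  rw [residue_eq_zero.mpr hu, map_one, bform_zero] at h4
  obtain ⟨h5, h6⟩ := div_mem (V := V) h3 h1 (by rw [h2]; exact (map_ne_zero ψ).mpr (h.lead j))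
  subst hx
  refine ⟨h5, ?_⟩
  rw [map_div₀, ← h2, ← h4]
  exact h6

include h ψ in
/-- the values of the coordinates near a rational point -/
lemma val_rat (k : Fin n) (hk : k ≠ i) (t : V) (z : ZMod p) (ht : IsLocalRing.residue V t = ψ z)
    (hz : fv (fun l => redQ p (c k l).2) z ≠ 0) {x : ℂ}
    (hx : x = bform (fun l => ((c k l).1 : ℂ)) (t : ℂ) 1 / bform (fun l => ((c k l).2 : ℂ)) (t : ℂ) 1) :
    ∃ hm : x ∈ V, IsLocalRing.residue V ⟨x, hm⟩ =
      ψ (fv (fun l => redQ p (c k l).1) z / fv (fun l => redQ p (c k l).2) z) := by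
  obtain ⟨h1, h2⟩ := res_bform ψ (a := fun l => (c k l).2) (denB_ne h k) t 1
  obtain ⟨h3, h4⟩ := res_bform ψ (a := fun l => (c k l).1) (denA_ne h k hk) t 1
  rw [map_one, bform_one, ht, fv_map] at h2 h4
  obtain ⟨h5, h6⟩ := div_mem (V := V) h3 h1 (by rw [h2]; exact (map_ne_zero ψ).mpr hz)
  subst hx
  refine ⟨h5, ?_⟩
  rw [map_div₀, ← h2, ← h4]
  exact h6

include h ψ in
/-- the poles of the other coordinates are near rational points -/
lemma far_aux {x : Fin n → ℂ} (hx : x ∈ ratCurve c) (j : Fin n) (hj : j ≠ i) (hxj : x j ∉ V) :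
    ∃ z : ZMod p, fv (fun l => redQ p (c j l).2) z = 0 ∧ ∀ k, k ≠ i → k ≠ j → ∃ hm : x k ∈ V,
      IsLocalRing.residue V ⟨x k, hm⟩ = ψ (fv (fun l => redQ p (c k l).1) z / fv (fun l => redQ p (c k l).2) z) := by
  rcases chart_point hx V with ⟨t, ht⟩ | ⟨u, hu, ht⟩
  · obtain ⟨h1, h2⟩ := res_bform ψ (a := fun l => (c j l).2) (denB_ne h j) t 1
    obtain ⟨h3, h4⟩ := res_bform ψ (a := fun l => (c j l).1) (denA_ne h j hj) t 1
    have h0 : IsLocalRing.residue V ⟨bform (fun l => (((c j l).2 : ℚ) : ℂ)) (t : ℂ) ((1 : V) : ℂ), h1⟩ = 0 := by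
      by_contra hne
      obtain ⟨h5, -⟩ := div_mem (V := V) h3 h1 hne
      apply hxj
      rw [(ht j).2]
      exact h5
    rw [h2, map_one, bform_one] at h0
    obtain ⟨s, hs⟩ := h.split j hj
    have h5 : (Polynomial.map ψ (∑ k : Fin (d j + 1), Polynomial.C (redQ p (c j k).2) * Polynomial.X ^ (k : ℕ))).eval
        (IsLocalRing.residue V t) = 0 := by
      rw [Polynomial.map_sum, Polynomial.eval_finsetSum]
      rw [← h0]
      unfold fv
      refine Finset.sum_congr rfl fun k _ => ?_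
      simp
    rw [hs, Polynomial.map_mul, Polynomial.eval_mul, Polynomial.map_C, Polynomial.eval_C, mul_eq_zero] at h5
    have h6 := h5.resolve_left ((map_ne_zero ψ).mpr (h.lead j))
    rw [Polynomial.map_multiset_prod, Multiset.map_map, Polynomial.eval_multiset_prod, Multiset.map_map,
      Multiset.prod_eq_zero_iff, Multiset.mem_map] at h6
    obtain ⟨z, hz, h7⟩ := h6
    simp only [Function.comp_apply, Polynomial.map_sub, Polynomial.map_X, Polynomial.map_C, Polynomial.eval_sub,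
      Polynomial.eval_X, Polynomial.eval_C, sub_eq_zero] at h7
    have hz0 : fv (fun l => redQ p (c j l).2) z = 0 := by
      have h8 := congrArg (Polynomial.eval z) hs
      rw [Polynomial.eval_finsetSum, Polynomial.eval_mul, Polynomial.eval_multiset_prod, Multiset.map_map,
        Multiset.prod_eq_zero (Multiset.mem_map.mpr ⟨z, hz, by simp⟩), mul_zero] at h8
      rw [← h8]
      unfold fv
      refine Finset.sum_congr rfl fun k _ => ?_
      simp
    exact ⟨z, hz0, fun k hk hkj => val_rat h ψ k hk t z h7 (h.nocommon j k hj hk hkj.symm z hz0) (ht k).2⟩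
  · exact absurd (val_inf h ψ j hj u hu (ht j).2).1 hxj

include ψ in
lemma val_sub_val {a : ℂ} (ha : a ∈ V) {α : ZMod p} (h : IsLocalRing.residue V ⟨a, ha⟩ = ψ α) :
    V.valuation (a - ((α.val : ℤ) : ℂ)) < 1 := by
  have : NeZero p := ⟨(Fact.out : p.Prime).ne_zero⟩
  refine val_sub_int ha ?_
  rw [h, ← map_intCast ψ, Int.cast_natCast, ZMod.natCast_zmod_val]

lemma val_cast (α : ZMod p) : (((α.val : ℕ) : ℤ) : ZMod p) = α := by
  have : NeZero p := ⟨(Fact.out : p.Prime).ne_zero⟩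
  rw [Int.cast_natCast, ZMod.natCast_zmod_val]

/-- from the coefficients to the local conditions -/
theorem locC_of_locR (hV : V.valuation (p : ℂ) < 1) (h : LocR d p (dsc p V) c i) :
    LocC dsc (ratCurve c) i p V {fun j => ((redQ p (c j (Fin.last _)).1 / redQ p (c j (Fin.last _)).2).val : ℤ)} := by
  have hp : p.Prime := Fact.out
  have := charP_residue (V := V) hp hV
  let ψ : ZMod p →+* IsLocalRing.ResidueField V := ZMod.castHom (dvd_refl p) _
  refine ⟨hp, h.two, hV, ?_, ?_, ?_, ?_, ?_⟩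
  · intro x hx hxi
    refine ⟨_, Finset.mem_singleton_self _, fun j hj => ?_⟩
    rcases chart_point hx V with ⟨t, ht⟩ | ⟨u, hu, ht⟩
    · exact absurd hxi (priv_notMem h ψ t (ht i).1 (ht i).2)
    · obtain ⟨h1, h2⟩ := val_inf h ψ j hj u hu (ht j).2
      exact val_sub_val ψ h1 h2
  · intro r hr j hj
    rw [Finset.mem_singleton.mp hr, val_cast]
    exact h.ordInf j hj
  · intro r hr j k hj hk hjk
    rw [Finset.mem_singleton.mp hr, val_cast, val_cast]
    exact h.crossInf j k hj hk hjk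
  · intro x hx j k hj hk hjk
    by_contra hcon
    push Not at hcon
    obtain ⟨z, -, hz⟩ := far_aux h ψ hx j hj hcon.1
    exact hcon.2 (hz k hk hjk.symm).1
  · intro x hx j k m hj hk hm hjk hjm hkm hxj
    obtain ⟨z, hz0, hz⟩ := far_aux h ψ hx j hj hxj
    obtain ⟨h1, h2⟩ := hz k hk hjk.symm
    obtain ⟨h3, h4⟩ := hz m hm hjm.symm
    refine ⟨_, _, val_sub_val ψ h1 h2, val_sub_val ψ h3 h4, ?_, ?_, ?_⟩
    · rw [val_cast]; exact h.ordZ j k hj hk hjk z hz0
    · rw [val_cast]; exact h.ordZ j m hj hm hjm z hz0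
    · rw [val_cast, val_cast]; exact h.crossZ j k m hj hk hm hjk hjm hkm z hz0

/-- the numerator and the denominator of the private coordinate have no common zero -/
theorem nobase_of_locR (hV : V.valuation (p : ℂ) < 1) (h : LocR d p dd c i) {t u : ℂ} (h0 : t ≠ 0 ∨ u ≠ 0) :
    ¬ (bform (fun k => ((c i k).1 : ℂ)) t u = 0 ∧ bform (fun k => ((c i k).2 : ℂ)) t u = 0) := by
  have hp : p.Prime := Fact.out
  have := charP_residue (V := V) hp hV
  let ψ : ZMod p →+* IsLocalRing.ResidueField V := ZMod.castHom (dvd_refl p) _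
  rintro ⟨h1, h2⟩
  obtain ⟨s, hs, ⟨h3, h4⟩ | ⟨h3, h4⟩⟩ := charts h0 V
  · apply numF_notMem h ψ ⟨s * t, h4⟩
    have h5 : bform (fun k => ((c i k).1 : ℂ)) (s * t) 1 = 0 := by
      rw [← h3, bform_smul, h1, mul_zero]
    rw [h5]
    exact V.zero_mem
  · obtain ⟨h5, h6⟩ := den_inf h ψ i ⟨s * u, (V.valuation_le_one_iff _).mp h4.le⟩ h4
    have h7 : bform (fun k => ((c i k).2 : ℂ)) 1 (s * u) = 0 := by
      rw [← h3, bform_smul, h2, mul_zero]
    have h8 : (⟨bform (fun k => ((c i k).2 : ℂ)) 1 (s * u), h5⟩ : V) = 0 := Subtype.ext h7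
    change IsLocalRing.residue V (⟨bform (fun k => ((c i k).2 : ℂ)) 1 (s * u), h5⟩ : V) = _ at h6
    rw [h8, map_zero] at h6
    exact (map_ne_zero ψ).mpr (h.lead i) h6.symm

/-- a point at which only the private coordinate is not integral -/
theorem point_of_locR (hV : V.valuation (p : ℂ) < 1) (h : LocR d p dd c i) :
    ∃ x ∈ ratCurve c, x i ∉ V ∧ ∀ j, j ≠ i → x j ∈ V := by
  classical
  have hp : p.Prime := Fact.out
  have := charP_residue (V := V) hp hV
  let ψ : ZMod p →+* IsLocalRing.ResidueField V := ZMod.castHom (dvd_refl p) _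
  have : Infinite (IsLocalRing.ResidueField V) := IsAlgClosed.instInfinite
  -- a residue which is not a zero of a denominator
  let Q : Fin n → Polynomial (IsLocalRing.ResidueField V) := fun j =>
    ∑ k : Fin (d j + 1), Polynomial.C (ψ (redQ p (c j k).2)) * Polynomial.X ^ (k : ℕ)
  have hQ : ∀ j, Q j ≠ 0 := by
    intro j h0
    have h1 : (Q j).coeff (d j) = ψ (redQ p (c j (Fin.last _)).2) := by
      simp only [Q]
      rw [Polynomial.finsetSum_coeff, Finset.sum_eq_single (Fin.last (d j))]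
      · simp
      · intro k _ hk
        have h2 : (k : ℕ) ≠ d j := fun h => hk (Fin.ext h)
        rw [Polynomial.coeff_C_mul, Polynomial.coeff_X_pow, if_neg (Ne.symm h2), mul_zero]
      · intro h
        exact absurd (Finset.mem_univ _) h
    rw [h0, Polynomial.coeff_zero] at h1
    exact (map_ne_zero ψ).mpr (h.lead j) h1.symm
  have hQe : ∀ j a, (Q j).eval a = fv (fun k => ψ (redQ p (c j k).2)) a := by
    intro j a
    simp only [Q]
    rw [Polynomial.eval_finsetSum]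
    unfold fv
    refine Finset.sum_congr rfl fun k _ => ?_
    simp
  have hprod : (∏ j, Q j) ≠ 0 := Finset.prod_ne_zero_iff.mpr fun j _ => hQ j
  obtain ⟨a, ha⟩ : ∃ a, (∏ j, Q j).eval a ≠ 0 := by
    by_contra hcon
    push Not at hcon
    exact hprod (Polynomial.funext fun a => by rw [hcon a, Polynomial.eval_zero])
  rw [Polynomial.eval_prod, Finset.prod_ne_zero_iff] at ha
  obtain ⟨t, rfl⟩ := IsLocalRing.residue_surjective a
  have hB : ∀ j, ∃ hm : bform (fun k => ((c j k).2 : ℂ)) (t : ℂ) 1 ∈ V,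
      IsLocalRing.residue V ⟨bform (fun k => ((c j k).2 : ℂ)) (t : ℂ) 1, hm⟩ ≠ 0 := by
    intro j
    obtain ⟨h1, h2⟩ := res_bform ψ (a := fun l => (c j l).2) (denB_ne h j) t 1
    rw [map_one, bform_one, ← hQe] at h2
    refine ⟨h1, ?_⟩
    change IsLocalRing.residue V ⟨bform (fun l => (((c j l).2 : ℚ) : ℂ)) (t : ℂ) ((1 : V) : ℂ), h1⟩ ≠ 0
    rw [h2]
    exact ha j (Finset.mem_univ j)
  have hB0 : ∀ j, bform (fun k => ((c j k).2 : ℂ)) (t : ℂ) 1 ≠ 0 := by
    intro j h0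
    obtain ⟨h1, h2⟩ := hB j
    apply h2
    have h3 : (⟨bform (fun k => ((c j k).2 : ℂ)) (t : ℂ) 1, h1⟩ : V) = 0 := Subtype.ext h0
    rw [h3, map_zero]
  refine ⟨fun j => bform (fun k => ((c j k).1 : ℂ)) (t : ℂ) 1 / bform (fun k => ((c j k).2 : ℂ)) (t : ℂ) 1,
    ⟨t, 1, Or.inr one_ne_zero, fun j => ⟨hB0 j, rfl⟩⟩, priv_notMem h ψ t (hB0 i) rfl, fun j hj => ?_⟩
  obtain ⟨h1, h2⟩ := hB j
  obtain ⟨h3, -⟩ := res_bform ψ (a := fun l => (c j l).1) (denA_ne h j hj) t 1
  exact (div_mem (V := V) (by simpa using h3) h1 h2).1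

end main

end Pool.Agent.ZPOrd
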