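import Mathlib
import Pool.Agent.ZPOrd.RatCrit
import Pool.Agent.ZPOrd.RatDens

open Filter Topology Pool.Agent.Lib.ModularZP Pool.Agent.ZPOrd

namespace Pool.Agent.ZPOrd.OldAllRational

variable {n : ℕ} {d : Fin n → ℕ}

/-- The value at `(t, u)` of the binary form `∑ₖ a k * t ^ k * u ^ (m - k)` of degree `m`. -/
def form {m : ℕ} (a : Fin (m + 1) → ℚ) (t u : ℂ) : ℂ :=
  ∑ k : Fin (m + 1), (a k : ℂ) * t ^ (k : ℕ) * u ^ (m - (k : ℕ))

/-- The form `A i` of degree `d i`. -/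
def formA (c : (i : Fin n) → Fin (d i + 1) → ℚ × ℚ) (i : Fin n) (t u : ℂ) : ℂ := form (fun k => (c i k).1) t u

/-- The form `B i` of degree `d i`. -/
def formB (c : (i : Fin n) → Fin (d i + 1) → ℚ × ℚ) (i : Fin n) (t u : ℂ) : ℂ := form (fun k => (c i k).2) t u

/-- `A i` and `B i` have no common zero on the projective line, for every `i`. -/
def NoBase (c : (i : Fin n) → Fin (d i + 1) → ℚ × ℚ) : Prop :=
  ∀ i, ∀ t u : ℂ, (t ≠ 0 ∨ u ≠ 0) → ¬ (formA c i t u = 0 ∧ formB c i t u = 0)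

/-- The affine part in `Y(1)ⁿ = ℂⁿ` of the image of the projective line under the rational functions
`A i / B i`. -/
def curve (c : (i : Fin n) → Fin (d i + 1) → ℚ × ℚ) : Set (Fin n → ℂ) :=
  {x | ∃ t u : ℂ, (t ≠ 0 ∨ u ≠ 0) ∧ ∀ i, formB c i t u ≠ 0 ∧ x i = formA c i t u / formB c i t u}

/-- The vectors of rational coefficients of height at most `H`. -/
def box (d : Fin n → ℕ) (H : ℕ) : Set ((i : Fin n) → Fin (d i + 1) → ℚ × ℚ) :=
  {c | ∀ i k, |(c i k).1.num| ≤ H ∧ (c i k).1.den ≤ H ∧ |(c i k).2.num| ≤ H ∧ (c i k).2.den ≤ H}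

lemma exists_place_over (p : ℕ) : ∃ V : ValuationSubring ℂ, p.Prime → V.valuation (p : ℂ) < 1 := by
  by_cases hp : p.Prime
  · obtain ⟨V, hV⟩ := exists_valuationSubring p hp
    exact ⟨V, fun _ => val_lt_one_iff.mpr (Or.inr hV)⟩
  · exact ⟨⊤, fun h => absurd h hp⟩

open Classical in
/-- **Zilber–Pink for almost all rational curves in `Y(1)ⁿ`**, with empty atypical set. -/
theorem result (d : Fin n → ℕ) (hd : ∀ i, 1 ≤ d i) :
    Tendsto (fun H : ℕ => ((box d H ∩
      {c | ¬ (NoBase c ∧ HodgeGeneric (curve c) ∧ atyp (curve c) = ∅)}).ncard : ℝ) / (box d H).ncard)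
      atTop (𝓝 0) := by
  choose V hV using exists_place_over
  refine density_ratR d hd (fun p => dsc p (V p)) ?_ _ ?_
  · intro ε hε
    obtain ⟨p₀, hp₀⟩ := dsc_count ε hε
    exact ⟨p₀, fun p hp hpp D hD => hp₀ p hp hpp (V p) (hV p hp.out) D hD⟩
  · intro c hc
    have hcurve : curve c = ratCurve c := rfl
    refine ⟨fun i t u h0 => ?_, ?_, ?_⟩
    · obtain ⟨p, q, hp, hq, _, h1, _, _⟩ := hc i
      exact nobase_of_locR (hV p hp.out) h1 h0
    · rw [hcurve]
      refine hodge_of_points fun i => ?_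
      obtain ⟨p, q, hp, hq, _, h1, _, _⟩ := hc i
      exact ⟨V p, point_of_locR (hV p hp.out) h1⟩
    · rw [hcurve]
      refine atyp_empty discFn_dsc fun i => ?_
      obtain ⟨p, q, hp, hq, _, h1, h2, h3⟩ := hc i
      refine ⟨p, q, V p, V q, _, _, locC_of_locR (hV p hp.out) h1, locC_of_locR (hV q hq.out) h2, ?_⟩
      intro r hr r' hr' j hj
      rw [Finset.mem_singleton.mp hr, Finset.mem_singleton.mp hr', val_cast, val_cast]
      exact h3 j hj

end Pool.Agent.ZPOrd.OldAllRational
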