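import Mathlib
import Pool.Agent.Lib.ModularZP.Defs
import Pool.Agent.Lib.ModularZP.NearCusp
import Pool.Agent.Lib.ModularZP.Krull
import Pool.Agent.ZP46.GoodPl

open Pool.Agent.Lib.ModularZP

namespace Pool.Agent.ZPOrd.OldCuspTranslates

section aux

variable {K : Type*} [Field K] [Algebra ℂ K]

/-- a Möbius transform has no pole where its denominator does not vanish -/
lemma moebius_mem {P : ValuationSubring K} (hP : ∀ c : ℂ, algebraMap ℂ K c ∈ P) {f : K}
    {γ : Matrix (Fin 2) (Fin 2) ℂ} {s t : ℂ}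
    (hst : s = 1 ∨ t = 1) (h1 : t ≠ 0 → P.valuation (f - algebraMap ℂ K (s / t)) < 1)
    (h2 : t = 0 → f ≠ 0 ∧ P.valuation f⁻¹ < 1) (hne : γ 1 0 * s + γ 1 1 * t ≠ 0) : moebius γ f ∈ P := by
  unfold moebius
  by_cases ht : t = 0
  · obtain ⟨hf0, hfi⟩ := h2 ht
    have hs : s = 1 := hst.resolve_right (by rw [ht]; exact zero_ne_one)
    have hc : γ 1 0 ≠ 0 := by
      rw [hs, ht, mul_one, mul_zero, add_zero] at hne
      exact hne
    have hfiP : f⁻¹ ∈ P := (P.valuation_le_one_iff _).mp hfi.le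
    have hden : P.valuation (algebraMap ℂ K (γ 1 0) + algebraMap ℂ K (γ 1 1) * f⁻¹) = 1 := by
      rw [P.valuation.map_add_eq_of_lt_left, const_val hP hc]
      rw [const_val hP hc]
      exact val_mul_lt (hP _) hfi
    have hden0 : algebraMap ℂ K (γ 1 0) + algebraMap ℂ K (γ 1 1) * f⁻¹ ≠ 0 := by
      intro h; rw [h, map_zero] at hden; exact zero_ne_one hden
    have h3 : (algebraMap ℂ K (γ 0 0) * f + algebraMap ℂ K (γ 0 1)) /
        (algebraMap ℂ K (γ 1 0) * f + algebraMap ℂ K (γ 1 1)) =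
        (algebraMap ℂ K (γ 0 0) + algebraMap ℂ K (γ 0 1) * f⁻¹) /
        (algebraMap ℂ K (γ 1 0) + algebraMap ℂ K (γ 1 1) * f⁻¹) := by
      have h4 : algebraMap ℂ K (γ 0 0) * f + algebraMap ℂ K (γ 0 1) = (algebraMap ℂ K (γ 0 0) + algebraMap ℂ K (γ 0 1) * f⁻¹) * f := by
        rw [add_mul, mul_assoc, inv_mul_cancel₀ hf0, mul_one]
      have h5 : algebraMap ℂ K (γ 1 0) * f + algebraMap ℂ K (γ 1 1) = (algebraMap ℂ K (γ 1 0) + algebraMap ℂ K (γ 1 1) * f⁻¹) * f := by
        rw [add_mul, mul_assoc, inv_mul_cancel₀ hf0, mul_one]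
      rw [h4, h5, mul_div_mul_right _ _ hf0]
    rw [h3, ← P.valuation_le_one_iff, map_div₀, hden, div_one]
    exact (P.valuation_le_one_iff _).mpr (add_mem (hP _) (mul_mem (hP _) hfiP))
  · have hv := h1 ht
    have hfP : f ∈ P := by
      have h3 : f - algebraMap ℂ K (s / t) ∈ P := (P.valuation_le_one_iff _).mp hv.le
      have := add_mem h3 (hP (s / t))
      rwa [sub_add_cancel] at this
    have hcne : γ 1 0 * (s / t) + γ 1 1 ≠ 0 := by
      intro h
      apply hne
      have : γ 1 0 * s + γ 1 1 * t = (γ 1 0 * (s / t) + γ 1 1) * t := by field_simp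
      rw [this, h, zero_mul]
    have hden : P.valuation (algebraMap ℂ K (γ 1 0) * f + algebraMap ℂ K (γ 1 1)) = 1 := by
      have h4 : algebraMap ℂ K (γ 1 0) * f + algebraMap ℂ K (γ 1 1) =
          algebraMap ℂ K (γ 1 0 * (s / t) + γ 1 1) + algebraMap ℂ K (γ 1 0) * (f - algebraMap ℂ K (s / t)) := by
        rw [map_add, map_mul]; ring
      rw [h4, P.valuation.map_add_eq_of_lt_left, const_val hP hcne]
      rw [const_val hP hcne]
      exact val_mul_lt (hP _) hv
    rw [← P.valuation_le_one_iff, map_div₀, hden, div_one]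
    exact (P.valuation_le_one_iff _).mpr (add_mem (mul_mem (hP _) hfP) (hP _))

end aux

/-- **Zilber–Pink for all translates near the cusp of a valuation ring**, for every curve whose
coordinate functions have pairwise disjoint poles. -/
theorem result (n : ℕ) {K : Type*} [Field K] [Algebra ℂ K] (hK : Algebra.trdeg ℂ K = 1)
    (f : Fin n → K) (hf : ∀ i, Transcendental ℂ (f i))
    (hpole : ∀ i j, i ≠ j → ∀ P : ValuationSubring K, (∀ c : ℂ, algebraMap ℂ K c ∈ P) → f i ∈ P ∨ f j ∈ P) :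
    ∃ (S : Finset ℂ) (P₀ : ℕ),
      (∀ p : ℕ, p.Prime → P₀ < p → ∃ V : ValuationSubring ℂ, V.valuation (p : ℂ) < 1 ∧ ∀ s ∈ S, s ∈ V) ∧
      ∀ V : ValuationSubring ℂ, (∀ s ∈ S, s ∈ V) →
      ∀ γ : Fin n → Matrix (Fin 2) (Fin 2) ℂ, (∀ i, (γ i).det ≠ 0 ∧
        V.valuation (γ i 0 0) < V.valuation (γ i 0 1) ∧ V.valuation (γ i 1 1) < V.valuation (γ i 0 1) ∧
        V.valuation (γ i 1 0) < V.valuation (γ i 1 1)) →
      HodgeGeneric (placeCurve fun i => moebius (γ i) (f i)) ∧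
      (atyp (placeCurve fun i => moebius (γ i) (f i))).Finite := by
  classical
  have hf0 : ∀ i, f i ≠ 0 := fun i h => hf i (by rw [h]; exact isAlgebraic_zero)
  have hcert : ∀ i j, ∃ pq : MvPolynomial (Fin 2) ℂ × MvPolynomial (Fin 2) ℂ, i ≠ j →
      MvPolynomial.aeval ![(f i)⁻¹, (f j)⁻¹] (MvPolynomial.X 0 * pq.1 + MvPolynomial.X 1 * pq.2 - 1) = 0 := by
    intro i j
    by_cases hij : i = j
    · exact ⟨(0, 0), fun h => absurd hij h⟩
    · obtain ⟨p, q, h⟩ := exists_cert (hf0 i) (hf0 j) (hpole i j hij)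
      exact ⟨(p, q), fun _ => h⟩
  choose pq hpq using hcert
  set S : Finset ℂ := Finset.univ.biUnion fun ij : Fin n × Fin n =>
    ((pq ij.1 ij.2).1.support.image fun m => (pq ij.1 ij.2).1.coeff m) ∪
    ((pq ij.1 ij.2).2.support.image fun m => (pq ij.1 ij.2).2.coeff m) with hS
  obtain ⟨P₀, hP₀⟩ := Pool.Agent.ZP46.exists_good S
  refine ⟨S, P₀, fun p hp hlt => ?_, ?_⟩
  · obtain ⟨V, hV, hVS⟩ := hP₀ p hp hlt
    exact ⟨V, hV, fun s hs => (hVS s hs).1⟩
  intro V₀ hSV₀ γ hγ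
  have hdet : ∀ i, (γ i).det ≠ 0 := fun i => (hγ i).1
  have hb0 : ∀ i, γ i 0 1 ≠ 0 := fun i h => by
    have h1 := (hγ i).2.1
    rw [h, map_zero] at h1
    exact not_lt_zero h1
  have hd0 : ∀ i, γ i 1 1 ≠ 0 := fun i h => by
    have h1 := (hγ i).2.2.2
    rw [h, map_zero] at h1
    exact not_lt_zero h1
  -- the small numbers
  set U : Finset ℂ := Finset.univ.biUnion fun i : Fin n =>
    {γ i 0 0 / γ i 0 1, γ i 1 1 / γ i 0 1, γ i 1 0 / γ i 1 1} with hU
  have hUmem : ∀ i, γ i 0 0 / γ i 0 1 ∈ U ∧ γ i 1 1 / γ i 0 1 ∈ U ∧ γ i 1 0 / γ i 1 1 ∈ U := by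
    intro i
    simp only [hU, Finset.mem_biUnion, Finset.mem_insert, Finset.mem_singleton]
    exact ⟨⟨i, Finset.mem_univ _, Or.inl rfl⟩, ⟨i, Finset.mem_univ _, Or.inr (Or.inl rfl)⟩,
      ⟨i, Finset.mem_univ _, Or.inr (Or.inr rfl)⟩⟩
  have hU0 : ∀ u ∈ U, V₀.valuation u < 1 := by
    intro u hu
    simp only [hU, Finset.mem_biUnion, Finset.mem_insert, Finset.mem_singleton] at hu
    obtain ⟨i, _, rfl | rfl | rfl⟩ := hu
    · rw [map_div₀]
      exact (div_lt_one₀ (zero_lt_iff.mpr (by rw [Ne, map_eq_zero]; exact hb0 i))).mpr (hγ i).2.1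
    · rw [map_div₀]
      exact (div_lt_one₀ (zero_lt_iff.mpr (by rw [Ne, map_eq_zero]; exact hb0 i))).mpr (hγ i).2.2.1
    · rw [map_div₀]
      exact (div_lt_one₀ (zero_lt_iff.mpr (by rw [Ne, map_eq_zero]; exact hd0 i))).mpr (hγ i).2.2.2
  have hprop : Ideal.span {z : Subring.closure ((S : Set ℂ) ∪ U) | (z : ℂ) ∈ U} ≠ ⊤ := by
    have hle : Subring.closure ((S : Set ℂ) ∪ U) ≤ V₀.toSubring := by
      rw [Subring.closure_le]
      rintro z (hz | hz)
      · exact hSV₀ z hz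
      · exact (V₀.valuation_le_one_iff _).mp (hU0 z hz).le
    have hsub : Ideal.span {z : Subring.closure ((S : Set ℂ) ∪ U) | (z : ℂ) ∈ U} ≤
        Ideal.comap (Subring.inclusion hle) (IsLocalRing.maximalIdeal V₀) := by
      rw [Ideal.span_le]
      intro z hz
      rw [SetLike.mem_coe, Ideal.mem_comap]
      rw [V₀.valuation_lt_one_iff]
      exact hU0 z.1 hz
    intro htop
    rw [htop, top_le_iff, Ideal.comap_eq_top_iff] at hsub
    exact (IsLocalRing.maximalIdeal.isMaximal V₀).ne_top hsub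
  obtain ⟨V, hSV, hUV, harch⟩ := exists_arch_valuation S U hprop
  have hcoef : ∀ i j m, (pq i j).1.coeff m ∈ V ∧ (pq i j).2.coeff m ∈ V := by
    intro i j m
    constructor
    · by_cases hm : m ∈ (pq i j).1.support
      · apply hSV
        rw [hS, Finset.mem_biUnion]
        exact ⟨(i, j), Finset.mem_univ _, Finset.mem_union_left _ (Finset.mem_image_of_mem _ hm)⟩
      · rw [MvPolynomial.notMem_support_iff.mp hm]; exact V.zero_mem
    · by_cases hm : m ∈ (pq i j).2.support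
      · apply hSV
        rw [hS, Finset.mem_biUnion]
        exact ⟨(i, j), Finset.mem_univ _, Finset.mem_union_right _ (Finset.mem_image_of_mem _ hm)⟩
      · rw [MvPolynomial.notMem_support_iff.mp hm]; exact V.zero_mem
  set g : Fin n → K := fun i => moebius (γ i) (f i) with hg
  have hgt : ∀ i, Transcendental ℂ (g i) := fun i => moebius_transcendental (hf i) (hdet i)
  -- at every place at most one function has a value outside `V`
  have hbad : ∀ {P : ValuationSubring K}, (∀ c : ℂ, algebraMap ℂ K c ∈ P) → ∀ {i j : Fin n}, i ≠ j →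
      ∀ {s t s' t' : ℂ}, (s = 1 ∨ t = 1) → (s' = 1 ∨ t' = 1) →
      (t ≠ 0 → P.valuation (f i - algebraMap ℂ K (s / t)) < 1) → (t = 0 → f i ≠ 0 ∧ P.valuation (f i)⁻¹ < 1) →
      (t' ≠ 0 → P.valuation (f j - algebraMap ℂ K (s' / t')) < 1) → (t' = 0 → f j ≠ 0 ∧ P.valuation (f j)⁻¹ < 1) →
      V.valuation t < 1 → V.valuation t' < 1 → False := by
    intro P hP i j hij s t s' t' hst hst' h1 h2 h1' h2' ht ht'
    have hs : s = 1 := hst.resolve_right (fun h => by rw [h, map_one] at ht; exact lt_irrefl _ ht)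
    have hs' : s' = 1 := hst'.resolve_right (fun h => by rw [h, map_one] at ht'; exact lt_irrefl _ ht')
    exact not_both hP (hpq i j hij) (fun m => (hcoef i j m).1) (fun m => (hcoef i j m).2)
      (inv_value hP hs h1 h2) (inv_value hP hs' h1' h2') ht ht'
  -- poles
  have hgpole : ∀ i j, i ≠ j → ∀ P : ValuationSubring K, (∀ c : ℂ, algebraMap ℂ K c ∈ P) → g i ∈ P ∨ g j ∈ P := by
    intro i j hij P hP
    by_contra hcon
    push Not at hcon
    have hPt : P ≠ ⊤ := by
      rintro rfl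
      exact hcon.1 (ValuationSubring.mem_top _)
    have hkey : ∀ k, g k ∉ P → ∃ s t : ℂ, (s = 1 ∨ t = 1) ∧
        (t ≠ 0 → P.valuation (f k - algebraMap ℂ K (s / t)) < 1) ∧ (t = 0 → f k ≠ 0 ∧ P.valuation (f k)⁻¹ < 1) ∧
        V.valuation t < 1 := by
      intro k hk
      obtain ⟨s, t, hs, ht, hst, h1, h2⟩ := exists_hvalue hK hP hPt (f k) V
      refine ⟨s, t, hst, h1, h2, ?_⟩
      have h3 : γ k 1 0 * s + γ k 1 1 * t = 0 := by
        by_contra hne
        exact hk (moebius_mem hP hst h1 h2 hne)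
      have h4 : t = -(γ k 1 0 / γ k 1 1 * s) := by
        field_simp [hd0 k]
        linear_combination h3
      rw [h4, Valuation.map_neg, mul_comm]
      exact val_mul_lt hs (hUV _ (hUmem k).2.2)
    obtain ⟨s, t, hst, h1, h2, ht⟩ := hkey i hcon.1
    obtain ⟨s', t', hst', h1', h2', ht'⟩ := hkey j hcon.2
    exact hbad hP hij hst hst' h1 h2 h1' h2' ht ht'
  refine ⟨hodgeGeneric_of_poles hK hgt hgpole, ?_⟩
  rcases Nat.lt_or_ge n 2 with hn | hn
  · refine Set.Finite.subset Set.finite_empty ?_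
    rintro x ⟨_, m, D, hm, _⟩
    omega
  -- the radius
  have hUne : U.Nonempty := ⟨_, (hUmem ⟨0, by omega⟩).1⟩
  obtain ⟨u₀, hu₀, hmax⟩ := Finset.exists_max_image U (fun u => V.valuation u) hUne
  set θ := V.valuation u₀ with hθdef
  have hθ : θ < 1 := hUV u₀ hu₀
  have harch' : ∀ p : ℕ, p.Prime → V.valuation (p : ℂ) < 1 → ∃ m : ℕ, θ ^ m ≤ V.valuation (p : ℂ) := by
    intro p hp hpV
    obtain ⟨m, hm⟩ := harch p hp hpV
    exact ⟨m, hm u₀ hu₀⟩
  set β : Fin n → ℂ := fun i => γ i 0 1 / γ i 1 1 with hβdef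
  have hβinv : ∀ i, (V.valuation (β i))⁻¹ = V.valuation (γ i 1 1 / γ i 0 1) := by
    intro i
    rw [hβdef, ← map_inv₀, inv_div]
  have hβ : ∀ i, 1 < V.valuation (β i) := by
    intro i
    have h1 := hUV _ (hUmem i).2.1
    rw [← hβinv] at h1
    have h2 : V.valuation (β i) ≠ 0 := by
      rw [Ne, map_eq_zero]
      exact div_ne_zero (hb0 i) (hd0 i)
    exact (inv_lt_one₀ (zero_lt_iff.mpr h2)).mp h1
  have hβθ : ∀ i, (V.valuation (β i))⁻¹ ≤ θ := by
    intro i
    rw [hβinv]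
    exact hmax _ (hUmem i).2.1
  -- closeness
  have hnear : ∀ x ∈ placeCurve g, ∀ i j : Fin n, i ≠ j →
      (∃ z, Near V θ z ∧ x i = β i * z) ∨ (∃ z, Near V θ z ∧ x j = β j * z) := by
    rintro x ⟨P, hP, hPt, hPx⟩ i j hij
    have hkey : ∀ k, (∃ z, Near V θ z ∧ x k = β k * z) ∨ ∃ s t : ℂ, (s = 1 ∨ t = 1) ∧
        (t ≠ 0 → P.valuation (f k - algebraMap ℂ K (s / t)) < 1) ∧ (t = 0 → f k ≠ 0 ∧ P.valuation (f k)⁻¹ < 1) ∧
        V.valuation t < 1 := by
      intro k
      obtain ⟨s, t, hs, ht, hst, h1, h2⟩ := exists_hvalue hK hP hPt (f k) V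
      by_cases htv : V.valuation t < 1
      · exact Or.inr ⟨s, t, hst, h1, h2, htv⟩
      · left
        have htv1 : V.valuation t = 1 :=
          le_antisymm ((V.valuation_le_one_iff _).mpr ht) (not_lt.mp htv)
        have ht0 : t ≠ 0 := ne_zero_of_val htv1
        obtain ⟨hne, hval⟩ := moebius_value hP (hf k) (hdet k) hst h1 h2 (hPx k)
        set a := s / t with ha
        have haV : a ∈ V := by
          rw [ha, div_eq_mul_inv]; exact mul_mem hs (inv_mem_of_val htv1)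
        have hn1 : Near V θ (1 + γ k 0 0 / γ k 0 1 * a) := by
          unfold Near
          rw [add_sub_cancel_left, map_mul]
          calc V.valuation (γ k 0 0 / γ k 0 1) * V.valuation a ≤ V.valuation (γ k 0 0 / γ k 0 1) * 1 :=
                mul_le_mul_right ((V.valuation_le_one_iff _).mpr haV) _
            _ ≤ θ := by rw [mul_one]; exact hmax _ (hUmem k).1
        have hn2 : Near V θ (1 + γ k 1 0 / γ k 1 1 * a) := by
          unfold Near
          rw [add_sub_cancel_left, map_mul]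
          calc V.valuation (γ k 1 0 / γ k 1 1) * V.valuation a ≤ V.valuation (γ k 1 0 / γ k 1 1) * 1 :=
                mul_le_mul_right ((V.valuation_le_one_iff _).mpr haV) _
            _ ≤ θ := by rw [mul_one]; exact hmax _ (hUmem k).2.2
        refine ⟨_, hn1.div hθ hn2, ?_⟩
        have hn20 := ne_zero_of_val (hn2.val hθ)
        have e1 : γ k 0 0 * s + γ k 0 1 * t = γ k 0 1 * t * (1 + γ k 0 0 / γ k 0 1 * a) := by
          rw [ha]
          field_simp [hb0 k]
          ring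
        have e2 : γ k 1 0 * s + γ k 1 1 * t = γ k 1 1 * t * (1 + γ k 1 0 / γ k 1 1 * a) := by
          rw [ha]
          field_simp [hd0 k]
          ring
        rw [e1, e2] at hval
        rw [hβdef]
        show x k = γ k 0 1 / γ k 1 1 * ((1 + γ k 0 0 / γ k 0 1 * a) / (1 + γ k 1 0 / γ k 1 1 * a))
        rw [div_mul_div_comm, eq_div_iff (mul_ne_zero (hd0 k) hn20)]
        apply mul_right_cancel₀ ht0
        linear_combination -hval
    rcases hkey i with h | ⟨s, t, hst, h1, h2, ht⟩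
    · exact Or.inl h
    · rcases hkey j with h | ⟨s', t', hst', h1', h2', ht'⟩
      · exact Or.inr h
      · exact (hbad hP hij hst hst' h1 h2 h1' h2' ht ht').elim
  -- conclusion
  refine Set.Finite.subset (Set.finite_iUnion fun ij : {ij : Fin n × Fin n // ij.1 ≠ ij.2} =>
    Set.Finite.biUnion (levels_finite (V := V) hθ harch' (hβ ij.1.1) (β' := β ij.1.2)) fun N _ =>
      finite_rel hK hgt (hgpole ij.1.1 ij.1.2 ij.2) N) ?_
  rintro x ⟨hx, m, D, hm, hxD⟩
  obtain ⟨i, j, hij, N, hN, hrel⟩ := near_special hθ hm D hxD β hβ hβθ (hnear x hx)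
  rw [Set.mem_iUnion]
  refine ⟨⟨(i, j), hij⟩, ?_⟩
  rw [Set.mem_iUnion₂]
  exact ⟨N, hN, hx, hrel⟩

end Pool.Agent.ZPOrd.OldCuspTranslates
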