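import Mathlib
import Pool.Agent.Lib.ModularZP.LinCrit
import Pool.Agent.Lib.ModularZP.AffDens

open Filter Topology Pool.Agent.Lib.ModularZP

namespace Pool.Agent.ZPOrd.OldLinearFamilies

variable {K : Type*} [Field K] [Algebra ℂ K] {n N : ℕ}

/-- `P` is a place of `K` over `ℂ` (possibly the trivial one). -/
def IsPlace (P : ValuationSubring K) : Prop := ∀ z : ℂ, algebraMap ℂ K z ∈ P

/-- `P` is a pole of the `i`-th system of functions `h i, b i k`: a point of the support of the
least divisor `D i` such that `h i` and all `b i k` are in `L(D i)`. -/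
def PoleAt (h : Fin n → K) (b : Fin n → Fin N → K) (i : Fin n) (P : ValuationSubring K) : Prop :=
  h i ∉ P ∨ ∃ k, b i k ∉ P

/-- `P` is a zero of `b i l` as a section of `O(D i)`: it is a zero of `b i l` outside the support of
`D i`, or a point of the support at which `b i l` does not have the full pole order. -/
def ZeroAt (h : Fin n → K) (b : Fin n → Fin N → K) (i : Fin n) (l : Fin N) (P : ValuationSubring K) : Prop :=
  P.valuation (b i l) < 1 ∨ P.valuation (b i l) < P.valuation (h i) ∨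
    ∃ k, P.valuation (b i l) < P.valuation (b i k)

/-- For some `l`, every zero of the section `b i l` is a pole of one of the systems `j ∈ J`. -/
def ZerosIn (h : Fin n → K) (b : Fin n → Fin N → K) (i : Fin n) (J : Finset (Fin n)) : Prop :=
  ∃ l, ∀ P : ValuationSubring K, IsPlace P → ZeroAt h b i l P → ∃ j ∈ J, PoleAt h b j P

/-- Every pole of the `i`-th system is a pole of one of the systems `j ∈ J`. -/
def PolesIn (h : Fin n → K) (b : Fin n → Fin N → K) (i : Fin n) (J : Finset (Fin n)) : Prop :=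
  ∀ P : ValuationSubring K, IsPlace P → PoleAt h b i P → ∃ j ∈ J, PoleAt h b j P

/-- The curve in `Y(1)ⁿ = ℂⁿ` with coordinate functions `h i + ∑ₖ c i k * b i k`. -/
def curve (h : Fin n → K) (b : Fin n → Fin N → K) (c : Fin n → Fin N → ℚ) : Set (Fin n → ℂ) :=
  placeCurve fun i => h i + ∑ k, algebraMap ℂ K (c i k : ℂ) * b i k

/-- **Zilber–Pink for almost all members of linear families of curves in `Y(1)ⁿ`.** -/
theorem result (htr : Algebra.trdeg ℂ K = 1) (hn : 2 ≤ n) (h : Fin n → K) (b : Fin n → Fin N → K)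
    (h0 : ∀ i, ∃ k, b i k ≠ 0) (h1 : ∀ i, Transcendental ℂ (h i) ∨ ∃ k, Transcendental ℂ (b i k))
    (hA : ∀ i j, i ≠ j → ZerosIn h b i {j} ∨ ZerosIn h b j {i})
    (hB : ∀ i j k, i ≠ j → i ≠ k → j ≠ k → ZerosIn h b i {j, k})
    (hC : ∀ i j k l, i ≠ j → i ≠ k → i ≠ l → j ≠ k → j ≠ l → k ≠ l →
      PolesIn h b i {k, l} ∨ PolesIn h b j {k, l} ∨ PolesIn h b k {i, j} ∨ PolesIn h b l {i, j}) :
    Tendsto (fun H : ℕ => ((boxA n N H ∩
      {c | ¬ (HodgeGeneric (curve h b c) ∧ (atyp (curve h b c)).Finite)}).ncard : ℝ) / (boxA n N H).ncard)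
      atTop (𝓝 0) := by
  classical
  set b' : Fin n → Fin (N + 1) → K := fun i => Fin.cons (h i) (b i) with hb'
  set U : Fin n → Fin (N + 1) → Prop := fun _ l => ∃ l' : Fin N, l = l'.succ with hU
  have hpole : ∀ (P : ValuationSubring K) i, AtPole P (b' i) ↔ PoleAt h b i P := by
    intro P i
    unfold AtPole PoleAt
    rw [Fin.exists_fin_succ]
    simp only [hb', Fin.cons_zero, Fin.cons_succ]
  have hzero : ∀ (P : ValuationSubring K) i (l : Fin N), AtZero P (b' i) l.succ ↔ ZeroAt h b i l P := by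
    intro P i l
    unfold AtZero ZeroAt
    rw [Fin.exists_fin_succ]
    simp only [hb', Fin.cons_zero, Fin.cons_succ]
  have hZ : ∀ i J, ZerosIn h b i J → ∃ l, U i l ∧ ∀ P : ValuationSubring K, (∀ c : ℂ, algebraMap ℂ K c ∈ P) →
      AtZero P (b' i) l → ∃ j ∈ J, AtPole P (b' j) := by
    rintro i J ⟨l, hl⟩
    refine ⟨l.succ, ⟨l, rfl⟩, fun P hP hz => ?_⟩
    obtain ⟨j, hj, hp⟩ := hl P hP ((hzero P i l).mp hz)
    exact ⟨j, hj, (hpole P j).mpr hp⟩
  have hP' : ∀ i J, PolesIn h b i J → ∀ P : ValuationSubring K, (∀ c : ℂ, algebraMap ℂ K c ∈ P) →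
      AtPole P (b' i) → ∃ j ∈ J, AtPole P (b' j) := by
    intro i J hl P hP hz
    obtain ⟨j, hj, hp⟩ := hl P hP ((hpole P i).mp hz)
    exact ⟨j, hj, (hpole P j).mpr hp⟩
  have hone : ∀ (P : ValuationSubring K) (j : Fin n), (∃ k ∈ ({j} : Finset (Fin n)), AtPole P (b' k)) → AtPole P (b' j) := by
    rintro P j ⟨k, hk, h⟩
    rw [Finset.mem_singleton] at hk
    rwa [hk] at h
  have htwo : ∀ (P : ValuationSubring K) (j k : Fin n), (∃ l ∈ ({j, k} : Finset (Fin n)), AtPole P (b' l)) →
      AtPole P (b' j) ∨ AtPole P (b' k) := by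
    rintro P j k ⟨l, hl, h⟩
    rw [Finset.mem_insert, Finset.mem_singleton] at hl
    rcases hl with rfl | rfl
    · exact Or.inl h
    · exact Or.inr h
  obtain ⟨S, T, hT, hcrit⟩ := linCrit htr hn b' U
    (fun i => by
      obtain ⟨k, hk⟩ := h0 i
      exact ⟨k.succ, ⟨k, rfl⟩, by simp only [hb', Fin.cons_succ]; exact hk⟩)
    (fun i => by
      rcases h1 i with h2 | ⟨k, hk⟩
      · exact ⟨0, by simp only [hb', Fin.cons_zero]; exact h2⟩
      · exact ⟨k.succ, by simp only [hb', Fin.cons_succ]; exact hk⟩)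
    (fun i j hij => by
      rcases hA i j hij with h2 | h2
      · obtain ⟨l, hUl, hl⟩ := hZ i _ h2
        exact Or.inl ⟨l, hUl, fun P hP hz => hone P j (hl P hP hz)⟩
      · obtain ⟨l, hUl, hl⟩ := hZ j _ h2
        exact Or.inr ⟨l, hUl, fun P hP hz => hone P i (hl P hP hz)⟩)
    (fun i j k hij hik hjk => by
      obtain ⟨l, hUl, hl⟩ := hZ i _ (hB i j k hij hik hjk)
      exact ⟨l, hUl, fun P hP hz => htwo P j k (hl P hP hz)⟩)
    (fun i j k l hij hik hil hjk hjl hkl => by
      rcases hC i j k l hij hik hil hjk hjl hkl with h2 | h2 | h2 | h2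
      · exact Or.inl fun P hP hz => htwo P k l (hP' i _ h2 P hP hz)
      · exact Or.inr (Or.inl fun P hP hz => htwo P k l (hP' j _ h2 P hP hz))
      · exact Or.inr (Or.inr (Or.inl fun P hP hz => htwo P i j (hP' k _ h2 P hP hz)))
      · exact Or.inr (Or.inr (Or.inr fun P hP hz => htwo P i j (hP' l _ h2 P hP hz))))
  refine density_affine S T ?_ _ fun c hc => ?_
  · intro j ζ hζ h2
    obtain ⟨m, hm⟩ := hT j ζ hζ
    rw [h2] at hm
    exact zero_ne_one hm
  · set c' : Fin n → Fin (N + 1) → ℂ := fun i => Fin.cons 1 (fun k => (c i k : ℂ)) with hc'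
    have hcurve : curve h b c = placeCurve fun i => lin (b' i) (c' i) := by
      unfold curve
      congr 1
      funext i
      rw [lin, Fin.sum_univ_succ]
      simp only [hb', hc', Fin.cons_zero, Fin.cons_succ, map_one, one_mul]
    rw [hcurve]
    have hgood : ∀ i l (V : ValuationSubring ℂ), GoodA S T (fun i k => (c i k : ℂ)) i l V → GoodL S T c' i l.succ V := by
      rintro i l V ⟨g1, g2, g3, g4⟩
      refine ⟨g1, by simp only [hc', Fin.cons_succ]; exact g2, ?_, ?_⟩
      · intro j k hjk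
        refine Fin.cases ?_ (fun k => ?_) k hjk
        · intro _
          simp only [hc', Fin.cons_zero]
          exact V.one_mem
        · intro hjk
          simp only [hc', Fin.cons_succ]
          refine g3 j k fun h2 => hjk ?_
          rw [Prod.mk.injEq] at h2
          rw [h2.1, h2.2]
      · intro j hj ζ hζ
        rw [Fin.sum_univ_succ]
        simp only [hc', Fin.cons_zero, Fin.cons_succ, one_mul]
        exact g4 j hj ζ hζ
    refine hcrit c' ?_
    rintro i _ ⟨l, rfl⟩
    obtain ⟨p, q, hpq, ⟨hp, V, hV, hGV⟩, ⟨hq, V', hV', hGV'⟩⟩ := hc i l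
    exact ⟨p, q, hpq, hp, hq, ⟨V, hV, hgood i l V hGV⟩, ⟨V', hV', hgood i l V' hGV'⟩⟩

end Pool.Agent.ZPOrd.OldLinearFamilies
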