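import Mathlib
import Pool.Agent.Lib.ModularZP.Defs
import Pool.Agent.ZP46.Logic
import Pool.Agent.ZP46.GoodPl
import Pool.Agent.ZP46.Count
import Pool.Agent.ZP46.Sieve

open Pool.Agent.Lib.ModularZP Pool.Agent.ZP46 MvPolynomial Filter Topology

namespace Pool.Agent.ZPOrd.OldPlaneFamilies

/-- the coefficients of three pairs of ternary forms `A_i` (of degree `e_i + 1`) and `B_i` (of degree
`e_i`) -/
abbrev Coeffs (e : Fin 3 → ℕ) (R : Type*) : Type _ := (Σ i : Fin 3, (Mon (e i + 1) ⊕ Mon (e i))) → R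

/-- the value of the form `A_i` at `u` -/
def formA {e : Fin 3 → ℕ} (c : Coeffs e ℚ) (i : Fin 3) (u : Fin 3 → ℂ) : ℂ :=
  form (fun m => ((c ⟨i, Sum.inl m⟩ : ℚ) : ℂ)) u

/-- the value of the form `B_i` at `u` -/
def formB {e : Fin 3 → ℕ} (c : Coeffs e ℚ) (i : Fin 3) (u : Fin 3 → ℂ) : ℂ :=
  form (fun m => ((c ⟨i, Sum.inr m⟩ : ℚ) : ℂ)) u

/-- no coordinate `A_i / (u_{i+1} B_i)` has a point of indeterminacy on the plane curve `F = 0` -/
def NoBase (F : MvPolynomial (Fin 3) ℂ) {e : Fin 3 → ℕ} (c : Coeffs e ℚ) : Prop :=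
  ∀ i, ∀ u : Fin 3 → ℂ, u ≠ 0 → eval u F = 0 → ¬ (formA c i u = 0 ∧ u (i + 1) * formB c i u = 0)

/-- the affine part in `Y(1)³ = ℂ³` of the image of the plane curve `F = 0` under the three functions
`x_i = A_i / (u_{i+1} B_i)` -/
def curve (F : MvPolynomial (Fin 3) ℂ) {e : Fin 3 → ℕ} (c : Coeffs e ℚ) : Set (Fin 3 → ℂ) :=
  {x | ∃ u : Fin 3 → ℂ, eval u F = 0 ∧ (∀ i, u (i + 1) * formB c i u ≠ 0) ∧
    ∀ i, x i = formA c i u / (u (i + 1) * formB c i u)}

/-- the vectors of rational coefficients of height at most `H` -/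
def box (e : Fin 3 → ℕ) (H : ℕ) : Set (Coeffs e ℚ) := {c | ∀ s, (c s).num.natAbs ≤ H ∧ (c s).den ≤ H}

/-- the property of the theorem -/
def Good (F : MvPolynomial (Fin 3) ℂ) {e : Fin 3 → ℕ} (c : Coeffs e ℚ) : Prop :=
  NoBase F c ∧ HodgeGeneric (curve F c) ∧ atyp (curve F c) = ∅

lemma curve_eq (F : MvPolynomial (Fin 3) ℂ) {e : Fin 3 → ℕ} (c : Coeffs e ℚ) :
    curve F c = curveG F e (numC fun s => (c s : ℂ)) (denC fun s => (c s : ℂ)) := by
  ext x
  constructor
  · rintro ⟨u, h0, h1, h2⟩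
    refine ⟨u, fun i => ?_, h0, fun i => (mul_ne_zero_iff.mp (h1 i)).2, h2⟩
    have := (mul_ne_zero_iff.mp (h1 (i + 2))).1
    rwa [fin_d] at this
  · rintro ⟨u, h0, h1, h2, h3⟩
    exact ⟨u, h1, fun i => mul_ne_zero (h0 _) (h2 i), h3⟩

lemma good_of_local {F : MvPolynomial (Fin 3) ℂ} {d : ℕ} (hd : d ≠ 0) (hF : F.IsHomogeneous d) {e : Fin 3 → ℕ}
    (c : Coeffs e ℚ) (V : Fin 3 → ValuationSubring ℂ) (p : Fin 3 → ℕ) (hp : ∀ j, (p j).Prime)
    (hpV : ∀ j, (V j).valuation ((p j : ℕ) : ℂ) < 1)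
    (h : ∀ j, LocalCond (V j) F d e (numC fun s => (c s : ℂ)) (denC fun s => (c s : ℂ)) j) : Good F c := by
  refine ⟨fun j u hu h0 => (h j).nobase hF hu h0, ?_⟩
  rw [curve_eq]
  refine conclusion (V := V) (fun x hx a => (h a).pattern hF hx) fun a => ?_
  exact (h a).point hF hd (hp a) (hpV a)

theorem exists_local {F : MvPolynomial (Fin 3) ℂ} {d : ℕ} (hd : d ≠ 0) (hF : F.IsHomogeneous d)
    (hv : ∀ i, F.coeff (Finsupp.single i d) ≠ 0) (e : Fin 3 → ℕ) :
    ∃ P₀ : ℕ, ∀ p : Nat.Primes, P₀ < (p : ℕ) → ∃ (V : ValuationSubring ℂ) (Ω : Fin 3 → Finset (Param e ⊕ Param e → ZMod p)),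
      V.valuation ((p : ℕ) : ℂ) < 1 ∧
      (∀ j, (p : ℕ) ^ (2 * Fintype.card (Param e)) ≤ 4 * (p : ℕ) * (Ω j).card) ∧
      ∀ (c : Coeffs e ℚ) (j : Fin 3), (fun k => (toInt c k : ZMod (p : ℕ))) ∈ Ω j →
        LocalCond V F d e (numC fun s => (c s : ℂ)) (denC fun s => (c s : ℂ)) j := by
  classical
  obtain ⟨P₁, hP₁⟩ := exists_good (F.support.image F.coeff)
  refine ⟨P₁ + (∑ j, 2 * cst e d j) + 4 * Fintype.card (Param e), fun p hp => ?_⟩
  obtain ⟨V, hpV, hV⟩ := hP₁ p p.2 (by omega)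
  have hgood : GoodAt V F d := by
    refine ⟨fun m => ?_, fun i => ?_⟩
    · by_cases h : m ∈ F.support
      · exact (hV _ (Finset.mem_image_of_mem _ h)).1
      · rw [notMem_support_iff.mp h]
        exact V.zero_mem
    · exact (hV _ (Finset.mem_image_of_mem _ (mem_support_iff.mpr (hv i)))).2 (hv i)
  obtain ⟨Fk, hFk1, hFk2, hFk3⟩ := exists_red hF hgood
  have := charP_residue (V := V) p.2 hpV
  let ψ : ZMod (p : ℕ) →+* IsLocalRing.ResidueField V := ZMod.castHom (dvd_refl (p : ℕ)) _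
  refine ⟨V, fun j => Finset.univ.filter (Omega ψ Fk e j), hpV, fun j => ?_, fun c j hc => ?_⟩
  · have h1 : 2 * cst e d j ≤ ∑ j, 2 * cst e d j :=
      Finset.single_le_sum (f := fun j => 2 * cst e d j) (fun _ _ => Nat.zero_le _) (Finset.mem_univ j)
    exact card_omega ψ hd hFk1 hFk2 j (by omega) (by omega)
  · rw [Finset.mem_filter] at hc
    refine localCond_of_omega hpV hgood hFk3 ψ ?_
    have h1 : (fun k => (toInt c k : ZMod (p : ℕ))) =
        Sum.elim (fun s => ((c s).num : ZMod (p : ℕ))) fun s => ((c s).den : ZMod (p : ℕ)) := by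
      funext k
      rcases k with k | k
      · simp [toInt]
      · simp [toInt]
    rw [← h1]
    exact hc.2

/-- For every plane curve `F = 0` which misses the vertices of the coordinate triangle and all
degrees `e`, the curves attached to 100 per cent of the rational coefficient vectors, ordered by
height, are Hodge generic with empty atypical set. -/
theorem result (F : MvPolynomial (Fin 3) ℂ) (d : ℕ) (hd : d ≠ 0) (hF : F.IsHomogeneous d)
    (hv : ∀ i, F.coeff (Finsupp.single i d) ≠ 0) (e : Fin 3 → ℕ) :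
    Tendsto (fun H : ℕ => ({c ∈ box e H | ¬ Good F c}.ncard : ℝ) / ((box e H).ncard : ℝ)) atTop (𝓝 0) := by
  classical
  obtain ⟨P₀, hP₀⟩ := exists_local hd hF hv e
  choose V Ω h1 h2 h3 using hP₀
  exact density_rat_ncard (ι := Param e) (J := Fin 3) (fun c => Good F c) P₀
    (fun p j => if h : P₀ < (p : ℕ) then Ω p h j else ∅) (by
      intro p hp j
      simp only [dif_pos hp]
      exact h2 p hp j) (by
      intro c hc
      choose p hp1 hp2 using hc
      refine good_of_local hd hF c (fun j => V (p j) (hp1 j)) (fun j => (p j : ℕ)) (fun j => (p j).2) (fun j => h1 _ _) ?_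
      intro j
      have := hp2 j
      simp only [dif_pos (hp1 j)] at this
      exact h3 _ _ c j this)

end Pool.Agent.ZPOrd.OldPlaneFamilies
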