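import Mathlib
import Pool.Agent.ZPOrd.ThreeCrit
import Pool.Agent.ZPOrd.ThreeDens
import Pool.Agent.ZPOrd.DiscInst

open Filter Topology Pool.Agent.Lib.ModularZP Pool.Agent.ZPOrd

namespace Pool.Agent.ZPOrd.OldThreeFactors

variable {K : Type*} [Field K] [Algebra ℂ K] {n N : ℕ}

/-- The function `A i = ∑ₖ (c i k).1 * b i k`. -/
def funA (b : Fin n → Fin N → K) (c : Fin n → Fin N → ℚ × ℚ) (i : Fin n) : K :=
  ∑ k, algebraMap ℂ K ((c i k).1 : ℂ) * b i k

/-- The function `B i = ∑ₖ (c i k).2 * b i k`. -/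
def funB (b : Fin n → Fin N → K) (c : Fin n → Fin N → ℚ × ℚ) (i : Fin n) : K :=
  ∑ k, algebraMap ℂ K ((c i k).2 : ℂ) * b i k

/-- The curve in `Y(1)ⁿ = ℂⁿ` with coordinate functions `A i / B i`. -/
def curve (b : Fin n → Fin N → K) (c : Fin n → Fin N → ℚ × ℚ) : Set (Fin n → ℂ) :=
  placeCurve fun i => funA b c i / funB b c i

/-- The vectors of rational coefficients of height at most `H`. -/
def box (n N H : ℕ) : Set (Fin n → Fin N → ℚ × ℚ) :=
  {c | ∀ i k, |(c i k).1.num| ≤ H ∧ (c i k).1.den ≤ H ∧ |(c i k).2.num| ≤ H ∧ (c i k).2.den ≤ H}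

/-- **Zilber–Pink in `Y(1)³` for almost all members of the families of curves defined by ratios of
members of linear systems on an arbitrary curve**, in particular for almost all `GL₂(ℚ)³`-translates of
every curve (`N = 2`, `b i = (f i, 1)`). -/
theorem result (htr : Algebra.trdeg ℂ K = 1) (hn : n ≤ 3) (b : Fin n → Fin N → K)
    (hb : ∀ i, ∃ k k', Transcendental ℂ (b i k / b i k')) :
    Tendsto (fun H : ℕ => ((box n N H ∩
      {c | ¬ (HodgeGeneric (curve b c) ∧ atyp (curve b c) = ∅)}).ncard : ℝ) / (box n N H).ncard)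
      atTop (𝓝 0) := by
  classical
  choose k l hkl using hb
  have hl0 : ∀ i, b i (l i) ≠ 0 := by
    intro i h0
    apply hkl i
    rw [h0, div_zero]
    exact isAlgebraic_zero
  obtain ⟨S, E, HH, hE, hHH, hcrit⟩ := threeCrit htr hn (fun i k => b i k / b i (l i)) l
    (fun i => div_self (hl0 i)) (fun i => ⟨k i, hkl i⟩) discFn_dsc
  refine density_three dsc dsc_count S E hE HH hHH l _ fun c hc => ?_
  have hcurve : curve b c = placeCurve fun i => ratio (fun k => b i k / b i (l i))
      (fun k => (((c i k).1 : ℂ), ((c i k).2 : ℂ))) := by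
    unfold curve
    congr 1
    funext i
    have h1 : ∀ a : Fin N → ℂ, lin (fun k => b i k / b i (l i)) a = (∑ k, algebraMap ℂ K (a k) * b i k) / b i (l i) := by
      intro a
      rw [lin, Finset.sum_div]
      refine Finset.sum_congr rfl fun k _ => ?_
      rw [mul_div_assoc]
    unfold ratio funA funB
    rw [h1, h1, div_div_div_cancel_right₀ (hl0 i)]
  rw [hcurve]
  exact hcrit _ hc

end Pool.Agent.ZPOrd.OldThreeFactors
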